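import Pool.Agent.MP_9ab903_nt.CF.Defs

set_option autoImplicit false

open NumberField IsDedekindDomain
open CM27 CMT
open scoped ComplexConjugate Classical

namespace CF

/-! ## [CF-A1] the functions `Xt S X` (file A1.lean) -/

theorem a1_isUnit (b a : Eis) :
    IsUnit (Ideal.Quotient.mk (Ideal.span {b}) a) ↔ IsCoprime a b := by
  constructor
  · rintro ⟨u, hu⟩
    obtain ⟨c, hc⟩ := Ideal.Quotient.mk_surjective ((u⁻¹ : (Eis ⧸ Ideal.span {b})ˣ) :
      Eis ⧸ Ideal.span {b})
    have h1 : Ideal.Quotient.mk (Ideal.span {b}) (a * c) = Ideal.Quotient.mk (Ideal.span {b}) 1 := by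
      rw [map_mul, hc, ← hu, map_one, ← Units.val_mul, mul_inv_cancel, Units.val_one]
    rw [Ideal.Quotient.eq, Ideal.mem_span_singleton'] at h1
    obtain ⟨d, hd⟩ := h1
    exact ⟨c, -d, by linear_combination -hd⟩
  · rintro ⟨c, d, h⟩
    refine IsUnit.of_mul_eq_one (Ideal.Quotient.mk (Ideal.span {b}) c) ?_
    rw [← map_mul, ← map_one (Ideal.Quotient.mk (Ideal.span {b})), Ideal.Quotient.eq,
      Ideal.mem_span_singleton']
    exact ⟨-d, by linear_combination -h⟩

/-- `Xt S X` is a primitive character modulo `gX S X`. (`b ∈ S` is an odd prime, `Eis / b` a field.) -/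
theorem isP_Xt (S : Finset Eis) (hS : ∀ b ∈ S, GoodEis b) (X : XX S) (n : ℕ)
    (hX : ∀ b, X b ^ 2 ^ n = 1) : IsP n (gX S X) (Xt S X) where
  mul a c := by
    unfold Xt
    rw [← Finset.prod_mul_distrib]
    refine Finset.prod_congr rfl fun b _ => ?_
    split_ifs with h
    · rw [one_mul]
    · rw [map_mul, map_mul]
  one := by
    unfold Xt
    refine Finset.prod_eq_one fun b _ => ?_
    split_ifs with h
    · rfl
    · rw [map_one, map_one]
  per a c := by
    unfold Xt
    refine Finset.prod_congr rfl fun b _ => ?_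
    split_ifs with h
    · rfl
    · have hb : (b : Eis) ∣ gX S X := by
        have h2 := Finset.dvd_prod_of_mem
          (fun b : {x // x ∈ S} => if X b = 1 then (1 : Eis) else (b : Eis)) (Finset.mem_univ b)
        simp only [if_neg h] at h2
        exact h2
      have h3 : Ideal.Quotient.mk (Ideal.span {(b : Eis)}) (a + gX S X * c) =
          Ideal.Quotient.mk (Ideal.span {(b : Eis)}) a := by
        rw [Ideal.Quotient.eq, Ideal.mem_span_singleton]
        have : a + gX S X * c - a = gX S X * c := by ring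
        rw [this]
        exact hb.mul_right c
      rw [h3]
  val a := by
    by_cases h0 : Xt S X a = 0
    · exact Or.inl h0
    · right
      unfold Xt at h0 ⊢
      rw [← Finset.prod_pow]
      refine Finset.prod_eq_one fun b hb => ?_
      have h1 := (Finset.prod_ne_zero_iff.1 h0) b hb
      split_ifs with h
      · rw [one_pow]
      · rw [if_neg h] at h1
        have h2 : IsUnit (Ideal.Quotient.mk (Ideal.span {(b : Eis)}) a) := by
          by_contra h3
          exact h1 ((X b).map_nonunit h3)
        obtain ⟨u, hu⟩ := h2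
        rw [← hu, ← MulChar.pow_apply_coe, hX b, MulChar.one_apply_coe]
  zero a := by
    unfold Xt gX
    rw [Finset.prod_eq_zero_iff, IsCoprime.prod_right_iff]
    push Not
    refine exists_congr fun b => and_congr_right fun _ => ?_
    split_ifs with h
    · simp [isCoprime_one_right]
    · rw [← a1_isUnit]
      constructor
      · intro h1 h2
        exact (h2.map (X b)).ne_zero h1
      · intro h1
        exact (X b).map_nonunit h1

/-- `gX S X` is the product of distinct good primes -/
theorem gX_eq (S : Finset Eis) (hS : ∀ b ∈ S, GoodEis b) (X : XX S) :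
    ∃ T ⊆ S, gX S X = gS T ∧ ∀ b : {x // x ∈ S}, (b : Eis) ∈ T ↔ X b ≠ 1 := by
  refine ⟨(Finset.univ.filter fun b : {x // x ∈ S} => X b ≠ 1).map
    (Function.Embedding.subtype _), ?_, ?_, ?_⟩
  · intro x hx
    rw [Finset.mem_map] at hx
    obtain ⟨b, _, rfl⟩ := hx
    exact b.2
  · unfold gX gS
    rw [Finset.prod_map, Finset.prod_filter]
    refine Finset.prod_congr rfl fun b _ => ?_
    by_cases h : X b = 1
    · simp [h]
    · simp [h]
  · intro b
    rw [Finset.mem_map]
    constructor
    · rintro ⟨c, hc, hcb⟩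
      have : c = b := Subtype.ext hcb
      subst this
      exact (Finset.mem_filter.1 hc).2
    · intro h
      exact ⟨b, Finset.mem_filter.2 ⟨Finset.mem_univ _, h⟩, rfl⟩

theorem a1_comp {R : Type*} [CommRing R] (χ : MulChar R ℂ) (σ : ℂ ≃+* ℂ) :
    χ.ringHomComp (σ : ℂ →+* ℂ) = 1 ↔ χ = 1 :=
  MulChar.ringHomComp_eq_one_iff σ.injective

/-- the character `σ ∘ X` for a ring automorphism `σ` of `ℂ` -/
theorem Xt_map (S : Finset Eis) (X : XX S) (σ : ℂ ≃+* ℂ) (a : Eis) :
    Xt S (fun b => (X b).ringHomComp (σ : ℂ →+* ℂ)) a = σ (Xt S X a) ∧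
      gX S (fun b => (X b).ringHomComp (σ : ℂ →+* ℂ)) = gX S X := by
  constructor
  · unfold Xt
    rw [map_prod]
    refine Finset.prod_congr rfl fun b _ => ?_
    simp only [a1_comp]
    split_ifs with h
    · rw [map_one]
    · rfl
  · unfold gX
    refine Finset.prod_congr rfl fun b _ => ?_
    simp only [a1_comp]

/-- `ev` and `Xt` -/
theorem Xt_eq_ev (S : Finset Eis) (hS : ∀ b ∈ S, GoodEis b) (X : XX S) (a : AS S) (u : Eis)
    (h : ∀ b : {x // x ∈ S}, (a b : Eis ⧸ Ideal.span {(b : Eis)}) = Ideal.Quotient.mk _ u) :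
    Xt S X u = ev S X a := by
  unfold Xt ev
  refine Finset.prod_congr rfl fun b _ => ?_
  split_ifs with hb
  · rw [hb, MulChar.one_apply_coe]
  · rw [h b]

end CF
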