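import Pool.Agent.MP_9ab903_nt.CF.D2
import Pool.Agent.MP_ae0bd0_nt.CM.C3

set_option autoImplicit false

open NumberField IsDedekindDomain
open CM27 CMT
open scoped ComplexConjugate Classical

namespace CF

/-! ## [CF-L0] ramification at `3` (file L0.lean; uses D2) -/

theorem l0_irred (K : Type) [Field K] [NumberField K] (v : HeightOneSpectrum (𝓞 K)) (r : 𝓞 K)
    (hr : v.intValuation r = WithZero.exp (-1 : ℤ)) :
    Irreducible (algebraMap (𝓞 K) (v.adicCompletionIntegers K) r) := by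
  have hv := c3_val K v r
  have hlt : ∀ x : WithZero (Multiplicative ℤ), x < 1 → x ≤ WithZero.exp (-1 : ℤ) := by
    intro x hx
    rcases eq_or_ne x 0 with h0 | h0
    · rw [h0]; exact zero_le
    · rw [← WithZero.exp_zero] at hx
      rw [← WithZero.log_le_iff_le_exp h0]
      have h1 := (WithZero.log_lt_iff_lt_exp h0).2 hx
      omega
  refine ⟨?_, ?_⟩
  · rw [HeightOneSpectrum.adicCompletionIntegers.isUnit_iff_valued_eq_one, hv, hr,
      ← WithZero.exp_zero, WithZero.exp_inj]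
    norm_num
  · intro a b hab
    by_contra hcon
    push Not at hcon
    obtain ⟨ha, hb⟩ := hcon
    rw [← mem_nonunits_iff, ← IsLocalRing.mem_maximalIdeal, c3_mem_max] at ha hb
    have h4 : Valued.v ((a * b : v.adicCompletionIntegers K) : v.adicCompletion K) =
        Valued.v (a : v.adicCompletion K) * Valued.v (b : v.adicCompletion K) := by
      rw [← map_mul]; rfl
    have h5 : Valued.v ((a * b : v.adicCompletionIntegers K) : v.adicCompletion K) ≤
        WithZero.exp (-1 : ℤ) * WithZero.exp (-1 : ℤ) := by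
      rw [h4]
      exact mul_le_mul' (hlt _ ha) (hlt _ hb)
    rw [← hab, hv, hr, ← WithZero.exp_add, WithZero.exp_le_exp] at h5
    norm_num at h5

theorem l0_comp (K : Type) [Field K] [NumberField K] (v : HeightOneSpectrum (𝓞 K)) (k : ℕ)
    (h : v.intValuation (3 : 𝓞 K) = WithZero.exp (-(k : ℤ))) :
    ∃ (ϖ u : v.adicCompletionIntegers K), Irreducible ϖ ∧ IsUnit u ∧
      (3 : v.adicCompletionIntegers K) = u * ϖ ^ k := by
  obtain ⟨π, hπ⟩ := v.intValuation_exists_uniformizer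
  set ϖ : v.adicCompletionIntegers K := algebraMap (𝓞 K) (v.adicCompletionIntegers K) π with hϖ
  have h3 : (3 : v.adicCompletionIntegers K) =
      algebraMap (𝓞 K) (v.adicCompletionIntegers K) (3 : 𝓞 K) := by
    rw [map_ofNat]
  have hϖv : Valued.v (ϖ : v.adicCompletion K) = WithZero.exp (-1 : ℤ) := by
    rw [hϖ, c3_val, hπ]
  have h3v : Valued.v ((3 : v.adicCompletionIntegers K) : v.adicCompletion K) =
      WithZero.exp (-(k : ℤ)) := by
    rw [h3, c3_val, h]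
  have hϖ0 : (ϖ : v.adicCompletion K) ≠ 0 := by
    intro h0
    rw [h0, map_zero] at hϖv
    exact WithZero.exp_ne_zero hϖv.symm
  have hkv : Valued.v ((ϖ : v.adicCompletion K) ^ k) = WithZero.exp (-(k : ℤ)) := by
    rw [map_pow, hϖv, ← WithZero.exp_nsmul]
    congr 1
    simp
  have huv : Valued.v (((3 : v.adicCompletionIntegers K) : v.adicCompletion K) *
      ((ϖ : v.adicCompletion K) ^ k)⁻¹) = 1 := by
    rw [map_mul, map_inv₀, h3v, hkv]
    exact mul_inv_cancel₀ WithZero.exp_ne_zero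
  let u : v.adicCompletionIntegers K := ⟨((3 : v.adicCompletionIntegers K) : v.adicCompletion K) *
      ((ϖ : v.adicCompletion K) ^ k)⁻¹, huv.le⟩
  refine ⟨ϖ, u, l0_irred K v π hπ, ?_, ?_⟩
  · rw [HeightOneSpectrum.adicCompletionIntegers.isUnit_iff_valued_eq_one]
    exact huv
  · apply Subtype.ext
    change ((3 : v.adicCompletionIntegers K) : v.adicCompletion K) =
      ((3 : v.adicCompletionIntegers K) : v.adicCompletion K) *
        ((ϖ : v.adicCompletion K) ^ k)⁻¹ * (ϖ : v.adicCompletion K) ^ k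
    rw [mul_assoc, inv_mul_cancel₀ (pow_ne_zero k hϖ0), mul_one]

theorem l0_core (A L : Type) [Field A] [NumberField A] [Field L] [NumberField L] [Algebra A L]
    [IsGalois A L] [hA : IsCyclotomicExtension {3} ℚ A] (n : ℕ) (h : Module.finrank A L = 2 ^ n)
    (v : HeightOneSpectrum (𝓞 L)) (hv : (3 : 𝓞 L) ∈ v.asIdeal) :
    ∃ k : ℕ, ¬ 3 ∣ k ∧ v.intValuation (3 : 𝓞 L) = WithZero.exp (-(k : ℤ)) := by
  have h3p : Fact (Nat.Prime 3) := ⟨Nat.prime_three⟩
  have hP0 : v.asIdeal.comap (algebraMap (𝓞 A) (𝓞 L)) ≠ ⊥ := by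
    intro h
    have h1 : (3 : 𝓞 A) ∈ v.asIdeal.comap (algebraMap (𝓞 A) (𝓞 L)) := by
      rw [Ideal.mem_comap, map_ofNat]
      exact hv
    rw [h, Ideal.mem_bot] at h1
    norm_num at h1
  let w : HeightOneSpectrum (𝓞 A) := ⟨v.asIdeal.comap (algebraMap (𝓞 A) (𝓞 L)),
    v.isPrime.comap _, hP0⟩
  have hwv : v.asIdeal.LiesOver w.asIdeal := ⟨rfl⟩
  have hw3 : (3 : 𝓞 A) ∈ w.asIdeal := by
    change (3 : 𝓞 A) ∈ v.asIdeal.comap (algebraMap (𝓞 A) (𝓞 L))
    rw [Ideal.mem_comap, map_ofNat]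
    exact hv
  -- the ramification index over `A`
  have hG : IsGaloisGroup Gal(L/A) (𝓞 A) (𝓞 L) :=
    IsGaloisGroup.of_isFractionRing Gal(L/A) (𝓞 A) (𝓞 L) A L
  have hid := Ideal.ncard_primesOver_mul_ramificationIdxIn_mul_inertiaDegIn
    w.asIdeal (𝓞 L) Gal(L/A)
  rw [Ideal.ramificationIdxIn_eq_ramificationIdx w.asIdeal v.asIdeal Gal(L/A),
    IsGalois.card_aut_eq_finrank, h] at hid
  have he1 : v.asIdeal.ramificationIdx (𝓞 A) ∣ 2 ^ n := by
    rw [← hid]
    exact (dvd_mul_right _ _).mul_left _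
  have he1' : w.asIdeal.ramificationIdx' v.asIdeal = v.asIdeal.ramificationIdx (𝓞 A) :=
    Ideal.ramificationIdx'_eq_ramificationIdx _ _ w.ne_bot
  -- over `ℤ`
  have h30 : (3 : ℤ) ≠ 0 := by norm_num
  have hprime : (Ideal.span {(3 : ℤ)}).IsPrime := by
    rw [Ideal.span_singleton_prime h30]
    exact Int.prime_three
  have hne : (Ideal.span {(3 : ℤ)}) ≠ ⊥ := by
    simp
  have hmax : (Ideal.span {(3 : ℤ)}).IsMaximal := hprime.isMaximal hne
  have hw3' : w.asIdeal.LiesOver (Ideal.span {(3 : ℤ)}) := by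
    refine ⟨?_⟩
    have h2 : (w.asIdeal.under ℤ).IsPrime := Ideal.IsPrime.under ℤ w.asIdeal
    refine hmax.eq_of_le h2.ne_top ?_
    rw [Ideal.span_singleton_le_iff_mem, Ideal.under_def, Ideal.mem_comap]
    simpa using hw3
  let v0 : HeightOneSpectrum ℤ := ⟨Ideal.span {(3 : ℤ)}, hprime, hne⟩
  haveI : w.asIdeal.LiesOver v0.asIdeal := hw3'
  have hr0 := IsCyclotomicExtension.Rat.ramificationIdx_eq_of_prime 3 A w.asIdeal
  have hr0' : v0.asIdeal.ramificationIdx' w.asIdeal = 2 := by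
    rw [Ideal.ramificationIdx'_eq_ramificationIdx _ _ v0.ne_bot]
    exact hr0
  have hv0 : v0.intValuation (3 : ℤ) = WithZero.exp (-1 : ℤ) := v0.intValuation_singleton h30 rfl
  have hval1 := HeightOneSpectrum.intValuation_liesOver v0 w (3 : ℤ)
  rw [hr0', hv0] at hval1
  have hval2 := HeightOneSpectrum.intValuation_liesOver w v (3 : 𝓞 A)
  have e3 : algebraMap ℤ (𝓞 A) 3 = (3 : 𝓞 A) := by simp
  have e3' : algebraMap (𝓞 A) (𝓞 L) 3 = (3 : 𝓞 L) := by rw [map_ofNat]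
  rw [e3] at hval1
  rw [e3', ← hval1, he1'] at hval2
  refine ⟨2 * v.asIdeal.ramificationIdx (𝓞 A), ?_, ?_⟩
  · intro hd
    have h5 : 2 * v.asIdeal.ramificationIdx (𝓞 A) ∣ 2 ^ (n + 1) := by
      rw [pow_succ']
      exact Nat.mul_dvd_mul_left 2 he1
    have h6 : 3 ∣ 2 ^ (n + 1) := hd.trans h5
    have h7 : 3 ∣ 2 := Nat.Prime.dvd_of_dvd_pow Nat.prime_three h6
    norm_num at h7
  · rw [← hval2, ← pow_mul, ← WithZero.exp_nsmul]
    congr 1
    simp

/-- `F / ℚ(ω)` is Galois of degree `2 ^ n`, so the ramification indices of the places above `3` are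
powers of `2` (times `2` for `ℚ(ω)/ℚ`). -/
theorem three_ram (S : Finset Eis) (hS : ∀ b ∈ S, GoodEis b) (F : IntermediateField ℚ ℂ)
    [NumberField F] (hw : w ∈ F) (hF : F ≤ LS S) (n : ℕ) (h : Module.finrank ℚ F = 2 ^ (n + 1))
    (v : HeightOneSpectrum (𝓞 F)) (hv : (3 : 𝓞 F) ∈ v.asIdeal) :
    ∃ (k : ℕ) (ϖ u : v.adicCompletionIntegers F), ¬ 3 ∣ k ∧ Irreducible ϖ ∧ IsUnit u ∧
      (3 : v.adicCompletionIntegers F) = u * ϖ ^ k := by
  letI := algK F hw
  obtain ⟨hgal, hdeg⟩ := galois_F S hS F hw hF n h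
  obtain ⟨k, hk, hkv⟩ := l0_core KK F n hdeg v hv
  obtain ⟨ϖ, u, h1, h2, h3⟩ := l0_comp F v k hkv
  exact ⟨k, ϖ, u, hk, h1, h2, h3⟩

end CF
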