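import Pool.Agent.MP_9ab903_nt.CF.G5
import Pool.Agent.MP_9ab903_nt.CF.L1
import Pool.Agent.MP_9ab903_nt.CF.L0
import Pool.Agent.MP_9ab903_nt.CF.A1
import Pool.Agent.MP_dfae13_nt.T.TE4
import Pool.Agent.MP_ae0bd0_nt.CM.F4

set_option autoImplicit false

open NumberField IsDedekindDomain ArithmeticFunction
open CM27 CMT
open scoped ComplexConjugate Classical

namespace CF

/-! ## [CF-L2] the `L`-series of `E` over `F` (file L2.lean) -/

section eF
variable (F : IntermediateField ℚ ℂ) (hw : w ∈ F)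
include hw

theorem emb_mem (a : Eis) : emb a ∈ F := by
  rw [emb_apply]
  exact F.add_mem (intCast_mem F _) (F.mul_mem (intCast_mem F _) hw)

theorem w_integral : IsIntegral ℤ w := by
  refine ⟨Polynomial.X ^ 2 + Polynomial.X + 1, by monicity!, ?_⟩
  have h := w_sq
  simp only [Polynomial.eval₂_add, Polynomial.eval₂_pow, Polynomial.eval₂_X, Polynomial.eval₂_one]
  linear_combination h

theorem emb_integral (a : Eis) : IsIntegral ℤ (⟨emb a, emb_mem F hw a⟩ : F) := by
  have h1 : IsIntegral ℤ (emb a) := by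
    rw [emb_apply]
    exact (isIntegral_algebraMap (x := a.re)).add
      ((isIntegral_algebraMap (x := a.im)).mul (w_integral F hw))
  have h2 : Function.Injective (algebraMap F ℂ) := (algebraMap F ℂ).injective
  exact (isIntegral_algebraMap_iff h2).1 h1

/-- The embedding of `ℤ[ω]` into the ring of integers of `F`. -/
noncomputable def eF : Eis →+* 𝓞 F where
  toFun a := ⟨⟨emb a, emb_mem F hw a⟩, emb_integral F hw a⟩
  map_one' := by
    ext
    exact map_one emb
  map_mul' a b := by
    ext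
    exact map_mul emb a b
  map_zero' := by
    ext
    exact map_zero emb
  map_add' a b := by
    ext
    exact map_add emb a b

theorem eF_apply (a : Eis) : (((eF F hw a : 𝓞 F) : F) : ℂ) = emb a := rfl

theorem mem_above (v : HeightOneSpectrum (𝓞 F)) (b : Eis) :
    v ∈ above F b ↔ eF F hw b ∈ v.asIdeal := by
  constructor
  · rintro ⟨x, hx, hxb⟩
    have : x = eF F hw b := by
      ext
      rw [eF_apply, hxb]
    rwa [← this]
  · intro h
    exact ⟨eF F hw b, h, eF_apply F hw b⟩

theorem mem_above_neg (p : ℕ) (v : HeightOneSpectrum (𝓞 F)) :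
    v ∈ above F (-(p : Eis)) ↔ (p : 𝓞 F) ∈ v.asIdeal := by
  rw [mem_above F hw, map_neg, neg_mem_iff, map_natCast]

theorem mem_above_split (p : ℕ) (a : Eis) (hn : a.norm = p) (v : HeightOneSpectrum (𝓞 F)) :
    (p : 𝓞 F) ∈ v.asIdeal ↔ v ∈ above F a ∨ v ∈ above F (star a) := by
  have h1 : (p : 𝓞 F) = eF F hw a * eF F hw (star a) := by
    rw [← map_mul, a3_mul_star, hn]
    simp
  rw [mem_above F hw, mem_above F hw, h1]
  exact ⟨fun h => v.isPrime.mem_or_mem h, fun h => h.elim (fun h => Ideal.mul_mem_right _ _ h)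
    fun h => Ideal.mul_mem_left _ _ h⟩

theorem above_disjoint (p : ℕ) (hp : p.Prime) (h3 : p % 3 = 1) (a : Eis) (ha : Primary a)
    (hn : a.norm = p) : Disjoint (above F a) (above F (star a)) := by
  haveI := eis_isDomain
  haveI := eis_pid
  rw [Set.disjoint_left]
  intro v h1 h2
  rw [mem_above F hw] at h1 h2
  have hns : (star a).norm = p := by rw [QuadraticAlgebra.norm_star]; exact hn
  have hpa := a3_prime_of_norm p hp a hn
  have hps := a3_prime_of_norm p hp _ hns
  have hcop : IsCoprime a (star a) := by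
    rw [hpa.irreducible.coprime_iff_not_dvd]
    intro h
    have h4 := primary_eq_of_dvd ha hpa ha.star hps h
    have h5 := congrArg QuadraticAlgebra.im h4
    rw [QuadraticAlgebra.im_star] at h5
    have h6 : a.im = 0 := by omega
    have h7 : a.re * a.re = p := by
      have := hn
      rw [norm_eq, h6] at this
      linarith
    have h8 : IsSquare (p : ℤ) := ⟨a.re, h7.symm⟩
    exact (Nat.prime_iff_prime_int.1 hp).not_isSquare h8
  obtain ⟨x, y, hxy⟩ := hcop
  have h5 : (1 : 𝓞 F) ∈ v.asIdeal := by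
    rw [← map_one (eF F hw), ← hxy, map_add, map_mul, map_mul]
    exact Ideal.add_mem _ (Ideal.mul_mem_left _ _ h1) (Ideal.mul_mem_left _ _ h2)
  exact v.isPrime.ne_top ((Ideal.eq_top_iff_one _).2 h5)

end eF

theorem baseChange_E' (K : Type) [Field K] [NumberField K] (v : HeightOneSpectrum (𝓞 K)) :
    (E K).baseChange (v.adicCompletion K) = E (v.adicCompletion K) := by
  unfold WeierstrassCurve.baseChange WeierstrassCurve.map E
  simp

/-- the factor above `3` -/
theorem fv_three' (S : Finset Eis) (hS : ∀ b ∈ S, GoodEis b) (F : IntermediateField ℚ ℂ)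
    [NumberField F] (hw : w ∈ F) (hF : F ≤ LS S) (n : ℕ) (h : Module.finrank ℚ F = 2 ^ (n + 1))
    (v : HeightOneSpectrum (𝓞 F)) (hv : (3 : 𝓞 F) ∈ v.asIdeal) : fv F v = 1 := by
  obtain ⟨k, ϖ, u, hk, hϖ, hu, h3⟩ := three_ram S hS F hw hF n h v hv
  have : CharZero (v.adicCompletion F) :=
    charZero_of_injective_algebraMap (algebraMap F (v.adicCompletion F)).injective
  apply fW_one F (E F) v
  rw [baseChange_E']
  exact localPoly_three' _ _ k hk ϖ u hϖ hu h3

/-- the coefficients `X(a) a` -/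
noncomputable def gx (S : Finset Eis) (X : XX S) (a : Eis) : ℂ := Xt S X a * emb a

/-- the coefficients `X(a) ā` -/
noncomputable def gy (S : Finset Eis) (X : XX S) (a : Eis) : ℂ := Xt S X a * conj (emb a)

section
variable (S : Finset Eis) (hS : ∀ b ∈ S, GoodEis b)
include hS

theorem Xt_mul (X : XX S) (a b : Eis) : Xt S X (a * b) = Xt S X a * Xt S X b := by
  unfold Xt
  rw [← Finset.prod_mul_distrib]
  refine Finset.prod_congr rfl fun c _ => ?_
  split_ifs
  · rw [mul_one]
  · rw [map_mul, map_mul]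

theorem Xt_one (X : XX S) : Xt S X 1 = 1 := by
  unfold Xt
  refine Finset.prod_eq_one fun c _ => ?_
  split_ifs
  · rfl
  · rw [map_one, map_one]

theorem gx_one (X : XX S) : gx S X 1 = 1 := by rw [gx, Xt_one S hS, map_one, mul_one]

theorem gy_one (X : XX S) : gy S X 1 = 1 := by rw [gy, Xt_one S hS, map_one, map_one, mul_one]

theorem gx_mul (X : XX S) (a b : Eis) : gx S X (a * b) = gx S X a * gx S X b := by
  rw [gx, gx, gx, Xt_mul S hS, map_mul]; ring

theorem gy_mul (X : XX S) (a b : Eis) : gy S X (a * b) = gy S X a * gy S X b := by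
  rw [gy, gy, gy, Xt_mul S hS, map_mul, map_mul]; ring

omit hS in
/-- the number of points over the finite fields of characteristic `p = 1 mod 3` -/
theorem pts_split (p : ℕ) (hp : p.Prime) (h1 : p % 3 = 1) (a : Eis) (ha : Primary a)
    (hn : a.norm = p) (f : ℕ) (hf : 0 < f) (k : Type) [Field k] [Finite k]
    (hk : Nat.card k = p ^ f) :
    (Nat.card (E k).toAffine.Point : ℂ) = p ^ f + 1 - (emb a ^ f + conj (emb a) ^ f) := by
  have h3 : p ≠ 3 := by rintro rfl; norm_num at h1
  obtain ⟨α, β, hαβ, hpsi, hpts⟩ := local_data p hp h3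
  rw [hpts f k hf hk]
  have h2 := hpsi 1
  rw [Finset.sum_range_succ, Finset.sum_range_succ, Finset.sum_range_zero] at h2
  simp only [pow_zero, pow_one, zero_add, one_mul, mul_one, Nat.sub_self, Nat.sub_zero] at h2
  have h4 := psi_split p hp h1 a ha hn 1
  rw [pow_one] at h4
  rw [Finset.sum_range_succ, Finset.sum_range_succ, Finset.sum_range_zero] at h4
  simp only [pow_zero, pow_one, zero_add, one_mul, mul_one, Nat.sub_self, Nat.sub_zero] at h4
  have h5 : α + β = emb a + conj (emb a) := by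
    linear_combination h4 - h2
  have h6 : emb a * conj (emb a) = p := by
    rw [Complex.mul_conj, normSq_emb, hn]
    push_cast
    rfl
  have h7 : (α - emb a) * (α - conj (emb a)) = 0 := by
    linear_combination α * h5 - hαβ + h6
  rcases mul_eq_zero.1 h7 with h8 | h8
  · have h9 : α = emb a := sub_eq_zero.1 h8
    have h10 : β = conj (emb a) := by linear_combination h5 - h9
    rw [h9, h10]
  · have h9 : α = conj (emb a) := sub_eq_zero.1 h8
    have h10 : β = emb a := by linear_combination h5 - h9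
    rw [h9, h10, add_comm (conj (emb a) ^ f)]

/-- the local factors of the places above a prime `b` -/
theorem above_factor (F : IntermediateField ℚ ℂ) [NumberField F] (p : ℕ) (hp : p.Prime)
    (f g : ℕ) (hf : 0 < f) (B : Set (HeightOneSpectrum (𝓞 F))) (hfin : B.Finite)
    (hcard : B.ncard = g) (hB : ∀ v ∈ B, (p : 𝓞 F) ∈ v.asIdeal) (h3 : p ≠ 3)
    (hres : ∀ v ∈ B, Nat.card (𝓞 F ⧸ v.asIdeal) = p ^ f) (α β : ℂ) (hαβ : α * β = p)
    (hpts : ∀ (k : Type) [Field k] [Finite k], Nat.card k = p ^ f →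
      (Nat.card (E k).toAffine.Point : ℂ) = p ^ f + 1 - (α ^ f + β ^ f)) :
    (∏ v ∈ hfin.toFinset, PowerSeries.map (Int.castRingHom ℂ) (loc p (fv F v))) *
      ((1 - (PowerSeries.C α * PowerSeries.X) ^ f) *
        (1 - (PowerSeries.C β * PowerSeries.X) ^ f)) ^ g = 1 := by
  have hc : hfin.toFinset.card = g := by
    rw [← hcard, Set.ncard_eq_toFinset_card _ hfin]
  rw [← hc, ← Finset.prod_const, ← Finset.prod_mul_distrib]
  apply Finset.prod_eq_one
  intro v hv
  have hv0 : v ∈ B := by simpa using hv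
  exact loc_fv F v hp hf (not_mem_of_prime v hp h3 (hB v hv0)) (hres v hv0) α β hαβ
    (fun k _ _ hk => hpts k hk)

variable (F : IntermediateField ℚ ℂ) [NumberField F] (hw : w ∈ F) (hF : F ≤ LS S) (n : ℕ)
  (h : Module.finrank ℚ F = 2 ^ (n + 1))
include hw hF h

/-- the Dirichlet series of the characters of `F` -/
noncomputable def DF (S : Finset Eis) (F : IntermediateField ℚ ℂ) : ArithmeticFunction ℂ :=
  ∏ X ∈ chF S F, (Dg (gx S X) * Dg (gy S X))

theorem loc_LF {p : ℕ} (hp : p.Prime) : loc p (LC F) = loc p (DF S F) := by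
  unfold DF
  rw [loc_LC, loc_prod hp]
  simp only [loc_mul hp]
  have h3 : p % 3 = 0 ∨ p % 3 = 1 ∨ p % 3 = 2 := by omega
  rcases h3 with h3 | h3 | h3
  · -- `p = 3`
    have hp3 : p = 3 := ((Nat.prime_dvd_prime_iff_eq Nat.prime_three hp).1
      (Nat.dvd_of_mod_eq_zero h3)).symm
    subst hp3
    have hfin : {v : HeightOneSpectrum (𝓞 F) | (3 : 𝓞 F) ∈ v.asIdeal}.Finite := by
      have h30 : Ideal.span {(3 : 𝓞 F)} ≠ 0 := by
        rw [Ne, Ideal.zero_eq_bot, Ideal.span_singleton_eq_bot]
        norm_num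
      refine (Ideal.finite_factors h30).subset ?_
      intro v hv
      exact Ideal.dvd_span_singleton.2 hv
    rw [loc_LFunction F hp hfin.toFinset (fun v hv => by
      rw [Set.Finite.mem_toFinset]; exact_mod_cast hv), map_prod, Finset.prod_eq_one,
      Finset.prod_eq_one]
    · intro X _
      rw [loc_Dg_three _ (gx_one S hS X), loc_Dg_three _ (gy_one S hS X), mul_one]
    · intro v hv
      have hv3 : (3 : 𝓞 F) ∈ v.asIdeal := by simpa using hv
      rw [fv_three' S hS F hw hF n h v hv3, loc_one hp, map_one]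
  · -- split
    obtain ⟨a, ha, hn⟩ := exists_primary_prime p hp h3
    have hns : (star a).norm = p := by rw [QuadraticAlgebra.norm_star]; exact hn
    have hpa := a3_prime_of_norm p hp a hn
    have hps := a3_prime_of_norm p hp _ hns
    have hp3 : p ≠ 3 := by rintro rfl; norm_num at h3
    obtain ⟨f₁, g₁, hf₁, hfin₁, hc₁, hr₁, hX₁⟩ := split_LS S hS a ha hpa F hw hF
    obtain ⟨f₂, g₂, hf₂, hfin₂, hc₂, hr₂, hX₂⟩ := split_LS S hS (star a) ha.star hps F hw hF
    have hdis := above_disjoint F hw p hp h3 a ha hn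
    have hαβ : emb a * conj (emb a) = p := by
      rw [Complex.mul_conj, normSq_emb, hn]
      push_cast
      rfl
    have hpts := pts_split p hp h3 a ha hn
    have e1 := above_factor S hS F p hp f₁ g₁ hf₁ (above F a) hfin₁ hc₁
      (fun v hv => (mem_above_split F hw p a hn v).2 (Or.inl hv)) hp3
      (fun v hv => by rw [hr₁ v hv, hn]; rfl) (emb a) (conj (emb a)) hαβ (hpts f₁ hf₁)
    have e2 := above_factor S hS F p hp f₂ g₂ hf₂ (above F (star a)) hfin₂ hc₂
      (fun v hv => (mem_above_split F hw p a hn v).2 (Or.inr hv)) hp3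
      (fun v hv => by rw [hr₂ v hv, hns]; rfl) (emb a) (conj (emb a)) hαβ (hpts f₂ hf₂)
    have hdf : Disjoint hfin₁.toFinset hfin₂.toFinset := by
      rw [Finset.disjoint_left]
      intro v h1 h2
      rw [Set.Finite.mem_toFinset] at h1 h2
      exact Set.disjoint_left.1 hdis h1 h2
    rw [loc_LFunction F hp (hfin₁.toFinset ∪ hfin₂.toFinset) (fun v hv => by
      rw [Finset.mem_union, Set.Finite.mem_toFinset, Set.Finite.mem_toFinset]
      exact (mem_above_split F hw p a hn v).1 hv), map_prod, Finset.prod_union hdf]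
    have e3 : (∏ X ∈ chF S F, (loc p (Dg (gx S X)) * loc p (Dg (gy S X)))) *
        ((((1 - (PowerSeries.C (emb a) * PowerSeries.X) ^ f₁) *
          (1 - (PowerSeries.C (conj (emb a)) * PowerSeries.X) ^ f₁)) ^ g₁) *
        ((1 - (PowerSeries.C (emb a) * PowerSeries.X) ^ f₂) *
          (1 - (PowerSeries.C (conj (emb a)) * PowerSeries.X) ^ f₂)) ^ g₂) = 1 := by
      rw [mul_pow (1 - (PowerSeries.C (emb a) * PowerSeries.X) ^ f₁),
        mul_pow (1 - (PowerSeries.C (emb a) * PowerSeries.X) ^ f₂), ← prod_subst (chF S F) (fun X => Xt S X a) f₁ g₁ hX₁,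
        ← prod_subst (chF S F) (fun X => Xt S X a) f₁ g₁ hX₁,
        ← prod_subst (chF S F) (fun X => Xt S X (star a)) f₂ g₂ hX₂,
        ← prod_subst (chF S F) (fun X => Xt S X (star a)) f₂ g₂ hX₂, ← Finset.prod_mul_distrib,
        ← Finset.prod_mul_distrib, ← Finset.prod_mul_distrib, ← Finset.prod_mul_distrib]
      apply Finset.prod_eq_one
      intro X _
      have t1 := loc_Dg_split (gx S X) (gx_one S hS X) (gx_mul S hS X) p hp h3 a ha hn
      have t2 := loc_Dg_split (gy S X) (gy_one S hS X) (gy_mul S hS X) p hp h3 a ha hn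
      rw [gx, gx, CM27.emb_star] at t1
      rw [gy, gy, CM27.emb_star, Complex.conj_conj] at t2
      simp only [map_mul] at t1 t2
      calc _ = (loc p (Dg (gx S X)) * ((1 - PowerSeries.C (Xt S X a) * PowerSeries.C (emb a) *
            PowerSeries.X) * (1 - PowerSeries.C (Xt S X (star a)) * PowerSeries.C (conj (emb a)) *
            PowerSeries.X))) * (loc p (Dg (gy S X)) * ((1 - PowerSeries.C (Xt S X a) *
            PowerSeries.C (conj (emb a)) * PowerSeries.X) * (1 - PowerSeries.C (Xt S X (star a)) *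
            PowerSeries.C (emb a) * PowerSeries.X))) := by ring
        _ = 1 := by rw [t1, t2, one_mul]
    set A₁ := ∏ v ∈ hfin₁.toFinset, PowerSeries.map (Int.castRingHom ℂ) (loc p (fv F v))
    set A₂ := ∏ v ∈ hfin₂.toFinset, PowerSeries.map (Int.castRingHom ℂ) (loc p (fv F v))
    set D₁ := ((1 - (PowerSeries.C (emb a) * PowerSeries.X) ^ f₁) *
          (1 - (PowerSeries.C (conj (emb a)) * PowerSeries.X) ^ f₁)) ^ g₁
    set D₂ := ((1 - (PowerSeries.C (emb a) * PowerSeries.X) ^ f₂) *
          (1 - (PowerSeries.C (conj (emb a)) * PowerSeries.X) ^ f₂)) ^ g₂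
    calc A₁ * A₂ = A₁ * A₂ * ((∏ X ∈ chF S F, (loc p (Dg (gx S X)) * loc p (Dg (gy S X)))) *
          (D₁ * D₂)) := by rw [e3, mul_one]
      _ = (A₁ * D₁) * (A₂ * D₂) *
          (∏ X ∈ chF S F, (loc p (Dg (gx S X)) * loc p (Dg (gy S X)))) := by ring
      _ = _ := by rw [e1, e2, one_mul, one_mul]
  · -- inert
    have hprim := primary_neg_cast h3
    have hprime := (a3_prime_inert p hp h3).neg
    have hp3 : p ≠ 3 := by rintro rfl; norm_num at h3
    obtain ⟨f, g, hf, hfin, hc, hr, hX⟩ := split_LS S hS (-(p : Eis)) hprim hprime F hw hF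
    have hnorm : (-(p : Eis)).norm.natAbs = p ^ 2 := by
      have h1 : (-(p : Eis)).norm = (p : ℤ) ^ 2 := by
        rw [norm_eq]
        simp
      rw [h1, Int.natAbs_pow, Int.natAbs_natCast]
    obtain ⟨α, β, hαβ, hpsi, hpts⟩ := local_data p hp hp3
    have h2 := hpsi 1
    rw [Finset.sum_range_succ, Finset.sum_range_succ, Finset.sum_range_zero] at h2
    simp only [pow_zero, pow_one, zero_add, one_mul, mul_one, Nat.sub_self, Nat.sub_zero] at h2
    have h4 := psi_inert p hp h3 1
    rw [pow_one] at h4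
    norm_num at h4
    have h5 : β = -α := by linear_combination h4 - h2
    have h6 : α ^ 2 = -(p : ℂ) := by
      rw [h5] at hαβ
      linear_combination -hαβ
    have h7 : β ^ 2 = -(p : ℂ) := by rw [h5, neg_sq, h6]
    have e1 := above_factor S hS F p hp (2 * f) g (by omega) (above F (-(p : Eis))) hfin hc
      (fun v hv => (mem_above_neg F hw p v).1 hv) hp3
      (fun v hv => by rw [hr v hv, hnorm, pow_mul]) α β hαβ
      (fun k _ _ hk => hpts (2 * f) k (by omega) hk)
    rw [pow_mul, pow_mul, mul_pow (PowerSeries.C α), mul_pow (PowerSeries.C β), ← map_pow,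
      ← map_pow, h6, h7] at e1
    rw [loc_LFunction F hp hfin.toFinset (fun v hv => by
      rw [Set.Finite.mem_toFinset]
      exact (mem_above_neg F hw p v).2 hv), map_prod]
    have e3 : (∏ X ∈ chF S F, (loc p (Dg (gx S X)) * loc p (Dg (gy S X)))) *
        ((1 - (PowerSeries.C (-(p : ℂ)) * PowerSeries.X ^ 2) ^ f) *
          (1 - (PowerSeries.C (-(p : ℂ)) * PowerSeries.X ^ 2) ^ f)) ^ g = 1 := by
      rw [mul_pow (1 - (PowerSeries.C (-(p : ℂ)) * PowerSeries.X ^ 2) ^ f),
        ← prod_subst (chF S F) (fun X => Xt S X (-(p : Eis))) f g hX, ← Finset.prod_mul_distrib,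
        ← Finset.prod_mul_distrib]
      apply Finset.prod_eq_one
      intro X _
      have t1 := loc_Dg_inert (gx S X) (gx_one S hS X) (gx_mul S hS X) p hp h3
      have t2 := loc_Dg_inert (gy S X) (gy_one S hS X) (gy_mul S hS X) p hp h3
      have e4 : emb (-(p : Eis)) = -(p : ℂ) := by rw [map_neg, map_natCast]
      have e5 : conj (emb (-(p : Eis))) = -(p : ℂ) := by
        rw [e4, map_neg, Complex.conj_natCast]
      rw [gx, e4, map_mul] at t1
      rw [gy, e5, map_mul] at t2
      calc _ = (loc p (Dg (gx S X)) * (1 - PowerSeries.C (Xt S X (-(p : Eis))) *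
            PowerSeries.C (-(p : ℂ)) * PowerSeries.X ^ 2)) * (loc p (Dg (gy S X)) *
            (1 - PowerSeries.C (Xt S X (-(p : Eis))) *
            PowerSeries.C (-(p : ℂ)) * PowerSeries.X ^ 2)) := by ring
        _ = 1 := by rw [t1, t2, one_mul]
    set A₁ := ∏ v ∈ hfin.toFinset, PowerSeries.map (Int.castRingHom ℂ) (loc p (fv F v))
    set D₁ := ((1 - (PowerSeries.C (-(p : ℂ)) * PowerSeries.X ^ 2) ^ f) *
          (1 - (PowerSeries.C (-(p : ℂ)) * PowerSeries.X ^ 2) ^ f)) ^ g
    calc A₁ = A₁ * ((∏ X ∈ chF S F, (loc p (Dg (gx S X)) * loc p (Dg (gy S X)))) * D₁) := by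
          rw [e3, mul_one]
      _ = (A₁ * D₁) * (∏ X ∈ chF S F, (loc p (Dg (gx S X)) * loc p (Dg (gy S X)))) := by ring
      _ = _ := by rw [e1, one_mul]

theorem LF_eq : LC F = DF S F := by
  rw [ArithmeticFunction.IsMultiplicative.eq_iff_eq_on_prime_powers _ (isMultiplicative_LC F) _
    (by
      unfold DF
      exact isMultiplicative_finsetProd _ _ fun X _ => (isMultiplicative_Dg _ (gx_one S hS X)
        (gx_mul S hS X)).mul (isMultiplicative_Dg _ (gy_one S hS X) (gy_mul S hS X)))]
  intro p i hp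
  rw [← coeff_loc, ← coeff_loc, loc_LF S hS F hw hF n h hp]

end

end CF
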