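import Pool.Agent.MP_9ab903_nt.CF.Defs

set_option autoImplicit false

open NumberField IsDedekindDomain
open CM27 CMT
open scoped ComplexConjugate Classical

namespace CF

/-! ## [CF-P2] the product of the values of `y` over the points of order `b` (file P2.lean) -/

open Filter Topology

theorem p2_mem_add (z : ℂ) (a : Eis) : z + emb a ∈ Set.range emb ↔ z ∈ Set.range emb :=
  a4_mem_add z a

theorem p2_yy_add (z : ℂ) (a : Eis) : yy (z + emb a) = yy z := by
  unfold yy
  rw [yw_add]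

theorem p2_punct (t : ℂ) : ∀ᶠ z in 𝓝[≠] t, z ∉ Set.range emb := by
  have h := L0.compl_lattice_sdiff_singleton_mem_nhds t
  rw [eventually_nhdsWithin_iff]
  filter_upwards [h] with z hz hz0 hmem
  exact hz ⟨(mem_L0 z).2 hmem, hz0⟩

theorem p2_tendsto_shift (v t : ℂ) :
    Tendsto (fun z : ℂ => z + v) (𝓝[≠] t) (𝓝[≠] (t + v)) := by
  apply tendsto_nhdsWithin_of_tendsto_nhds_of_eventually_within
  · exact (Continuous.tendsto (by fun_prop) t).mono_left nhdsWithin_le_nhds
  · filter_upwards [self_mem_nhdsWithin] with z hz h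
    exact hz (add_right_cancel h)

theorem p2_tendsto_mul (c t : ℂ) (hc : c ≠ 0) :
    Tendsto (fun z : ℂ => c * z) (𝓝[≠] t) (𝓝[≠] (c * t)) := by
  apply tendsto_nhdsWithin_of_tendsto_nhds_of_eventually_within
  · exact (Continuous.tendsto (by fun_prop) t).mono_left nhdsWithin_le_nhds
  · filter_upwards [self_mem_nhdsWithin] with z hz h
    exact hz (mul_left_cancel₀ hc h)

/-- Liouville's theorem for functions with removable singularities. -/
theorem p2_liou (Q : ℂ → ℂ) (S : Set ℂ) (hS : ∀ t, ∀ᶠ z in 𝓝[≠] t, z ∉ S)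
    (hQ : ∀ t, t ∉ S → DifferentiableAt ℂ Q t)
    (hper : ∀ z (a : Eis), z ∉ S → Q (z + emb a) = Q z)
    (hlim : ∀ t, t ∈ S → ∃ L, Tendsto Q (𝓝[≠] t) (𝓝 L)) :
    ∃ C, ∀ z, z ∉ S → Q z = C := by
  have hlim' : ∀ t, ∃ L, Tendsto Q (𝓝[≠] t) (𝓝 L) := by
    intro t
    by_cases ht : t ∈ S
    · exact hlim t ht
    · exact ⟨Q t, (hQ t ht).continuousAt.tendsto.mono_left nhdsWithin_le_nhds⟩
  choose R hR using hlim'
  have hRQ : ∀ t, t ∉ S → R t = Q t := fun t ht =>
    tendsto_nhds_unique (hR t) ((hQ t ht).continuousAt.tendsto.mono_left nhdsWithin_le_nhds)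
  have hev : ∀ t, R =ᶠ[𝓝[≠] t] Q := by
    intro t
    filter_upwards [hS t] with z hz
    exact hRQ z hz
  have hcont : ∀ t, ContinuousAt R t := by
    intro t
    rw [continuousAt_iff_punctured_nhds]
    exact (hR t).congr' (hev t).symm
  have hdoff : ∀ t, t ∉ S → DifferentiableAt ℂ R t := by
    intro t ht
    refine (hQ t ht).congr_of_eventuallyEq ?_
    have h1 := hev t
    rw [EventuallyEq, eventually_nhdsWithin_iff] at h1
    filter_upwards [h1] with z hz
    by_cases hzt : z = t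
    · rw [hzt]
      exact hRQ t ht
    · exact hz hzt
  have hdiff : Differentiable ℂ R := by
    intro t
    refine (Complex.analyticAt_of_differentiable_on_punctured_nhds_of_continuousAt ?_
      (hcont t)).differentiableAt
    filter_upwards [hS t] with z hz
    exact hdoff z hz
  have hperR : ∀ z (a : Eis), R (z + emb a) = R z := by
    intro z a
    have h1 : Tendsto (fun y => Q (y + emb a)) (𝓝[≠] z) (𝓝 (R (z + emb a))) :=
      (hR (z + emb a)).comp (p2_tendsto_shift (emb a) z)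
    refine tendsto_nhds_unique h1 ((hR z).congr' ?_)
    filter_upwards [hS z] with y hy
    exact (hper y a hy).symm
  refine ⟨R 0, fun z hz => ?_⟩
  rw [← hRQ z hz]
  exact liouville R hdiff hperR z 0

/-- the point `(0, 0)` -/
theorem p2_theta : ∃ θ : ℂ, θ ∉ Set.range emb ∧ xw θ = 0 ∧ yw θ = 1 := by
  obtain ⟨z, hz, hx⟩ := xw_surj 0
  have h1 := weq z hz
  rw [hx] at h1
  have h2 : (yw z - 1) * (yw z + 1) = 0 := by linear_combination h1
  rcases mul_eq_zero.1 h2 with h | h
  · exact ⟨z, hz, hx, by linear_combination h⟩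
  · refine ⟨-z, ?_, ?_, ?_⟩
    · rw [a4_mem_neg]
      exact hz
    · rw [xw_neg, hx]
    · rw [yw_neg]
      linear_combination -h

theorem p2_yy_zero {θ z : ℂ} (hθ : θ ∉ Set.range emb) (hx : xw θ = 0) (hy : yw θ = 1)
    (hz : z ∉ Set.range emb) (h : yy z = 0) : z - θ ∈ Set.range emb := by
  have h1 := weq z hz
  have h2 : yw z = 1 := by
    unfold yy at h
    linear_combination 2 * h
  have h3 : xw z ^ 3 = 0 := by
    rw [h2] at h1
    linear_combination -h1 / 4
  have h4 : xw z = 0 := by simpa using h3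
  rw [← pt_eq_iff]
  obtain ⟨h5, h6⟩ := pt_of_not_mem z hz
  obtain ⟨h7, h8⟩ := pt_of_not_mem θ hθ
  rw [h6, h8]
  exact a4_some_congr _ _ (by rw [h4, hx]) (by rw [h2, hy])

theorem p2_theta_w {θ : ℂ} (hθ : θ ∉ Set.range emb) (hx : xw θ = 0) (hy : yw θ = 1) :
    w * θ - θ ∈ Set.range emb := by
  have hw : w * θ ∉ Set.range emb := by
    rw [a6_mem_w]
    exact hθ
  refine p2_yy_zero hθ hx hy hw ?_
  unfold yy
  rw [yw_w, hy]
  norm_num

theorem p2_theta_b {θ : ℂ} (hθ : θ ∉ Set.range emb) (hx : xw θ = 0) (hy : yw θ = 1) (b : Eis)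
    (hb : Primary b) : ∃ c : Eis, emb b * θ - θ = emb c := by
  obtain ⟨a, ha⟩ := p2_theta_w hθ hx hy
  obtain ⟨d, hd⟩ := hb
  -- `3 = (w - 1) * (w ^ 2 - 1)`
  have h3 : (w - 1) * (w ^ 2 - 1) = 3 := by
    have h := a6_w3
    have h' : w ^ 2 + w + 1 = 0 := by
      have hw := w_sq
      linear_combination hw
    linear_combination h - h'
  refine ⟨d * (⟨0, 1⟩ ^ 2 - 1) * a, ?_⟩
  rw [map_mul, map_mul, map_sub, map_pow, map_one, a6_emb_om, ha]
  have h4 : emb b = 1 + 3 * emb d := by
    have h5 := congrArg emb hd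
    rw [map_sub, map_one, map_mul, map_ofNat] at h5
    linear_combination h5
  rw [h4]
  linear_combination -(emb d * θ) * h3

/-- behaviour of `y` at the lattice points -/
theorem p2_pole : Tendsto (fun s => s ^ 3 * yy s) (𝓝[≠] 0) (𝓝 (-1 / OmC ^ 3)) := by
  have h1 : Tendsto (fun z => z ^ 3 * yw z) (𝓝[≠] 0) (𝓝 (-2 / OmC ^ 3)) := by
    have h := a2_cube_P'.div_const (OmC ^ 3)
    refine h.congr (fun z => ?_)
    unfold yw
    ring
  have h2 : Tendsto (fun z : ℂ => z ^ 3) (𝓝[≠] 0) (𝓝 0) := by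
    have h3 : Tendsto (fun z : ℂ => z ^ 3) (𝓝 0) (𝓝 ((0 : ℂ) ^ 3)) :=
      Continuous.tendsto (by fun_prop) _
    rw [zero_pow (by norm_num)] at h3
    exact h3.mono_left nhdsWithin_le_nhds
  have h4 := (h1.sub h2).div_const 2
  have e1 : (-2 / OmC ^ 3 - 0) / 2 = -1 / OmC ^ 3 := by ring
  rw [e1] at h4
  refine h4.congr (fun z => ?_)
  unfold yy
  ring

/-- behaviour of `y` at its zeros -/
theorem p2_zero {θ : ℂ} (hθ : θ ∉ Set.range emb) (hx : xw θ = 0) (hy : yw θ = 1) :
    Tendsto (fun s => yy (θ + s) / s ^ 3) (𝓝[≠] 0) (𝓝 (OmC ^ 3)) := by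
  have h1 : Tendsto (fun s => s⁻¹ * xw (θ + s)) (𝓝[≠] 0) (𝓝 OmC) := by
    have h2 := hasDerivAt_iff_tendsto_slope_zero.1 (xw_deriv θ hθ)
    rw [hy, mul_one] at h2
    refine h2.congr (fun s => ?_)
    rw [hx, sub_zero, smul_eq_mul]
  have hc : Tendsto (fun s : ℂ => θ + s) (𝓝[≠] 0) (𝓝 θ) := by
    have h3 : Tendsto (fun s : ℂ => θ + s) (𝓝 0) (𝓝 (θ + 0)) := Continuous.tendsto (by fun_prop) _
    rw [add_zero] at h3
    exact h3.mono_left nhdsWithin_le_nhds
  have h4 : Tendsto (fun s => (yw (θ + s) + 1) / 2) (𝓝[≠] 0) (𝓝 1) := by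
    have h5 := ((yw_deriv θ hθ).continuousAt.tendsto.comp hc)
    have h6 := (h5.add_const 1).div_const 2
    rw [hy] at h6
    norm_num at h6
    exact h6
  have h7 := (h1.pow 3).div h4 one_ne_zero
  rw [div_one] at h7
  have hev : ∀ᶠ s in 𝓝[≠] (0 : ℂ), θ + s ∉ Set.range emb :=
    hc.eventually (a5_closed.isOpen_compl.mem_nhds hθ)
  have hev2 : ∀ᶠ s in 𝓝[≠] (0 : ℂ), (yw (θ + s) + 1) / 2 ≠ 0 :=
    h4.eventually (isOpen_ne.mem_nhds one_ne_zero)
  refine h7.congr' ?_
  filter_upwards [hev, hev2, self_mem_nhdsWithin] with s hs hs2 hs3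
  have hs0 : s ≠ 0 := hs3
  have h8 := weq _ hs
  have h9 : yw (θ + s) + 1 ≠ 0 := by
    intro h
    apply hs2
    rw [h, zero_div]
  unfold yy
  simp only [Pi.div_apply]
  field_simp
  linear_combination -h8

theorem p2_ratio_pole (c : ℂ) (hc : c ≠ 0) :
    Tendsto (fun s => yy s / yy (c * s)) (𝓝[≠] 0) (𝓝 (c ^ 3)) := by
  have h1 := p2_pole
  have h2 : Tendsto (fun s => (c * s) ^ 3 * yy (c * s)) (𝓝[≠] 0) (𝓝 (-1 / OmC ^ 3)) := by
    have h3 := p2_tendsto_mul c 0 hc
    rw [mul_zero] at h3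
    exact p2_pole.comp h3
  have hne : (-1 / OmC ^ 3) ≠ 0 := by
    have := OmC_ne
    rw [div_ne_zero_iff]
    exact ⟨by norm_num, pow_ne_zero _ this⟩
  have h4 := (h1.div h2 hne).const_mul (c ^ 3)
  rw [div_self hne, mul_one] at h4
  refine h4.congr' ?_
  filter_upwards [self_mem_nhdsWithin] with s hs
  have hs0 : s ≠ 0 := hs
  simp only [Pi.div_apply]
  by_cases h5 : yy (c * s) = 0
  · rw [h5]
    simp
  · field_simp

theorem p2_ratio_zero {θ : ℂ} (hθ : θ ∉ Set.range emb) (hx : xw θ = 0) (hy : yw θ = 1)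
    (c : ℂ) (hc : c ≠ 0) :
    Tendsto (fun s => yy (θ + s) / yy (θ + c * s)) (𝓝[≠] 0) (𝓝 ((c ^ 3)⁻¹)) := by
  have h1 := p2_zero hθ hx hy
  have h2 : Tendsto (fun s => yy (θ + c * s) / (c * s) ^ 3) (𝓝[≠] 0) (𝓝 (OmC ^ 3)) := by
    have h3 := p2_tendsto_mul c 0 hc
    rw [mul_zero] at h3
    exact h1.comp h3
  have hne : OmC ^ 3 ≠ 0 := pow_ne_zero _ OmC_ne
  have h4 := (h1.div h2 hne).const_mul ((c ^ 3)⁻¹)
  rw [div_self hne, mul_one] at h4
  refine h4.congr' ?_
  filter_upwards [self_mem_nhdsWithin] with s hs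
  have hs0 : s ≠ 0 := hs
  simp only [Pi.div_apply]
  by_cases h5 : yy (θ + c * s) = 0
  · rw [h5]
    simp
  · field_simp

theorem p2_emb_ne {b : Eis} (hb : b ≠ 0) : emb b ≠ 0 := by
  intro h
  apply hb
  apply emb_injective
  rw [h, map_zero]

theorem p2_primary_ne {b : Eis} (hb : Primary b) : b ≠ 0 := by
  rintro rfl
  have h := (primary_iff 0).1 hb
  simp at h

/-- `z + δ/b` for two representatives of the same class -/
theorem p2_out (b : Eis) (hb : b ≠ 0) (d : Eis) :
    ∃ a : Eis, emb (Ideal.Quotient.mk (Ideal.span {b}) d).out / emb b = emb d / emb b + emb a := by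
  have h1 : Ideal.Quotient.mk (Ideal.span {b}) (Ideal.Quotient.mk (Ideal.span {b}) d).out =
      Ideal.Quotient.mk (Ideal.span {b}) d := Quotient.out_eq' _
  rw [Ideal.Quotient.eq, Ideal.mem_span_singleton] at h1
  obtain ⟨a, ha⟩ := h1
  refine ⟨a, ?_⟩
  have h2 := congrArg emb ha
  rw [map_sub, map_mul] at h2
  have hb0 := p2_emb_ne hb
  field_simp
  linear_combination h2

/-- `∏_{δ mod b} y(z + δ/b) = C y(b z)` for `b ≡ 1 mod 3`. Here `y = (yw - 1)/2` has a triple zero at
`θ`, `pt θ = (0, 0)`, `(1 - ω) θ ∈ ℤ[ω]`, and triple poles at the lattice points. Same proof as P1. -/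
theorem prod_y (b : Eis) (hb : Primary b) : ∃ C : ℂ,
    ∀ z : ℂ, emb b * z ∉ Set.range emb →
      ∏ᶠ δ : Eis ⧸ Ideal.span {b}, yy (z + emb δ.out / emb b) = C * yy (emb b * z) := by
  have hb0 : b ≠ 0 := p2_primary_ne hb
  have hB : emb b ≠ 0 := p2_emb_ne hb0
  have hfin : Finite (Eis ⧸ Ideal.span {b}) := I3.quot_finite b hb0
  let _ : Fintype (Eis ⧸ Ideal.span {b}) := Fintype.ofFinite _
  obtain ⟨θ, hθ, hx, hy⟩ := p2_theta
  obtain ⟨c0, hc0⟩ := p2_theta_b hθ hx hy b hb
  have hyθ : yy θ = 0 := by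
    unfold yy
    rw [hy]
    norm_num
  simp only [finprod_eq_prod_of_fintype]
  set F : ℂ → ℂ := fun z => ∏ δ : Eis ⧸ Ideal.span {b}, yy (z + emb δ.out / emb b) with hF
  have hyd : ∀ t, t ∉ Set.range emb → DifferentiableAt ℂ yy t := by
    intro t ht
    unfold yy
    exact ((yw_deriv t ht).differentiableAt.sub_const 1).div_const 2
  -- the translates are not in the lattice
  have hoff : ∀ (z : ℂ) (d : Eis), emb b * z ∉ Set.range emb → z + emb d / emb b ∉ Set.range emb := by
    rintro z d hz ⟨a, ha⟩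
    apply hz
    refine ⟨b * a - d, ?_⟩
    rw [map_sub, map_mul, ha]
    field_simp
    ring
  have hFd : ∀ z, emb b * z ∉ Set.range emb → DifferentiableAt ℂ F z := by
    intro z hz
    have h1 : ∀ δ : Eis ⧸ Ideal.span {b},
        DifferentiableAt ℂ (fun z => yy (z + emb δ.out / emb b)) z := fun δ =>
      DifferentiableAt.comp (f := fun z => z + emb δ.out / emb b) z (hyd _ (hoff z _ hz))
        (by fun_prop)
    exact DifferentiableAt.fun_finsetProd fun δ _ => h1 δ
  set G : ℂ → ℂ := fun z => yy (emb b * z) with hG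
  have hGd : ∀ z, emb b * z ∉ Set.range emb → DifferentiableAt ℂ G z := by
    intro z hz
    exact DifferentiableAt.comp (f := fun z => emb b * z) z (hyd _ hz) (by fun_prop)
  have hFa : ∀ z (a : Eis), F (z + emb a) = F z := by
    intro z a
    simp only [hF]
    refine Finset.prod_congr rfl fun δ _ => ?_
    rw [add_right_comm, p2_yy_add]
  have hGa : ∀ z (a : Eis), G (z + emb a) = G z := by
    intro z a
    simp only [hG]
    rw [mul_add, ← map_mul, p2_yy_add]
  set S : Set ℂ := {z | emb b * z ∈ Set.range emb ∨ yy (emb b * z) = 0} with hSdef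
  have hnS : ∀ z, z ∉ S ↔ emb b * z ∉ Set.range emb ∧ G z ≠ 0 := by
    intro z
    exact not_or
  have hSd : ∀ t, ∀ᶠ z in 𝓝[≠] t, z ∉ S := by
    intro t
    have h1 := (p2_tendsto_mul (emb b) t hB).eventually (p2_punct (emb b * t))
    have h2 : ∀ᶠ z in 𝓝[≠] t, emb b * z - θ ∉ Set.range emb := by
      have h3 := (p2_tendsto_shift (-θ) (emb b * t)).eventually (p2_punct (emb b * t + -θ))
      have h4 := (p2_tendsto_mul (emb b) t hB).eventually h3
      simpa only [← sub_eq_add_neg] using h4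
    filter_upwards [h1, h2] with z hz1 hz2
    rintro (h | h)
    · exact hz1 h
    · exact hz2 (p2_yy_zero hθ hx hy hz1 h)
  -- splitting off one factor
  have hsplit : ∀ (t : ℂ) (d : Eis) (L : ℂ),
      (∀ δ : Eis ⧸ Ideal.span {b}, δ ≠ Ideal.Quotient.mk _ d →
        t + emb δ.out / emb b ∉ Set.range emb) →
      Tendsto (fun z => yy (z + emb d / emb b) / G z) (𝓝[≠] t) (𝓝 L) →
      ∃ L', Tendsto (fun z => F z / G z) (𝓝[≠] t) (𝓝 L') := by
    intro t d L h1 h2
    have h3 : Tendsto (fun z => ∏ δ ∈ Finset.univ.erase (Ideal.Quotient.mk (Ideal.span {b}) d),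
        yy (z + emb δ.out / emb b)) (𝓝[≠] t)
        (𝓝 (∏ δ ∈ Finset.univ.erase (Ideal.Quotient.mk (Ideal.span {b}) d),
          yy (t + emb δ.out / emb b))) := by
      apply tendsto_finsetProd
      intro δ hδ
      have h4 : ContinuousAt (fun z => yy (z + emb δ.out / emb b)) t :=
        (DifferentiableAt.comp (f := fun z => z + emb δ.out / emb b) t
          (hyd _ (h1 δ (Finset.ne_of_mem_erase hδ))) (by fun_prop)).continuousAt
      exact h4.tendsto.mono_left nhdsWithin_le_nhds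
    refine ⟨_, (h2.mul h3).congr fun z => ?_⟩
    obtain ⟨a, ha⟩ := p2_out b hb0 d
    have h5 : F z = yy (z + emb d / emb b) *
        ∏ δ ∈ Finset.univ.erase (Ideal.Quotient.mk (Ideal.span {b}) d),
          yy (z + emb δ.out / emb b) := by
      simp only [hF]
      rw [← Finset.mul_prod_erase Finset.univ _
        (Finset.mem_univ (Ideal.Quotient.mk (Ideal.span {b}) d)), ha, ← add_assoc, p2_yy_add]
    rw [h5]
    ring
  have hlim : ∀ t, t ∈ S → ∃ L, Tendsto (fun z => F z / G z) (𝓝[≠] t) (𝓝 L) := by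
    intro t ht
    by_cases hbt : emb b * t ∈ Set.range emb
    · obtain ⟨c, hc⟩ := hbt
      refine hsplit t (-c) (emb b ^ 3) ?_ ?_
      · rintro δ hδ ⟨a, ha⟩
        apply hδ
        have h1 : δ.out - -c = b * a := by
          apply emb_injective
          rw [map_sub, map_mul, map_neg, ha, hc]
          field_simp
          ring
        have h2 : Ideal.Quotient.mk (Ideal.span {b}) δ.out = δ := Quotient.out_eq' _
        rw [← h2, Ideal.Quotient.eq, Ideal.mem_span_singleton, h1]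
        exact Dvd.intro _ rfl
      · have h3 := (p2_ratio_pole (emb b) hB).comp (by
          have h4 := p2_tendsto_shift (-t) t
          rw [add_neg_cancel] at h4
          exact h4)
        refine h3.congr fun z => ?_
        simp only [Function.comp_apply, hG]
        have e1 : z + emb (-c) / emb b = z + -t := by
          rw [map_neg, hc]
          field_simp
        have e2 : emb b * z = emb b * (z + -t) + emb c := by
          rw [hc]
          ring
        rw [e1, e2, p2_yy_add]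
    · have hy0 : yy (emb b * t) = 0 := by
        rcases ht with h | h
        · exact absurd h hbt
        · exact h
      obtain ⟨c, hc⟩ := p2_yy_zero hθ hx hy hbt hy0
      refine hsplit t (c0 - c) ((emb b ^ 3)⁻¹) (fun δ _ => hoff t _ hbt) ?_
      have h3 := (p2_ratio_zero hθ hx hy (emb b) hB).comp (by
        have h4 := p2_tendsto_shift (-t) t
        rw [add_neg_cancel] at h4
        exact h4)
      refine h3.congr fun z => ?_
      simp only [Function.comp_apply, hG]
      have e1 : z + emb (c0 - c) / emb b = θ + (z + -t) := by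
        rw [map_sub, hc, ← hc0]
        field_simp
        ring
      have e2 : emb b * z = θ + emb b * (z + -t) + emb c := by
        rw [hc]
        ring
      rw [e1, e2, p2_yy_add]
  obtain ⟨C, hC⟩ := p2_liou (fun z => F z / G z) S hSd (by
      intro t ht
      rw [hnS] at ht
      exact (hFd t ht.1).fun_div (hGd t ht.1) ht.2) (by
      intro z a _
      simp only [hFa, hGa]) hlim
  refine ⟨C, fun z hz => ?_⟩
  have h1 : Tendsto F (𝓝[≠] z) (𝓝 (F z)) :=
    (hFd z hz).continuousAt.tendsto.mono_left nhdsWithin_le_nhds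
  have h2 : Tendsto (fun v => C * G v) (𝓝[≠] z) (𝓝 (C * G z)) :=
    ((hGd z hz).continuousAt.tendsto.mono_left nhdsWithin_le_nhds).const_mul C
  refine tendsto_nhds_unique h1 (h2.congr' ?_)
  filter_upwards [hSd z] with v hv
  have h3 : F v / G v = C := hC v hv
  rw [hnS] at hv
  rw [← h3, div_mul_cancel₀ _ hv.2]

end CF
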