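import Pool.Agent.MP_9ab903_nt.CF.Defs

set_option autoImplicit false

open NumberField IsDedekindDomain
open CM27 CMT
open scoped ComplexConjugate Classical
open Filter Topology

namespace CF

/-! ## [CF-P1] the product of the values of `x` over the points of order `b` (file P1.lean) -/

/-- A function with `z² f(z) → 0`, differentiable near `0` and even, has a limit at `0`. -/
theorem p1_removable (g : ℂ → ℂ) (hd : ∀ᶠ z in 𝓝[≠] (0 : ℂ), DifferentiableAt ℂ g z)
    (h2 : Tendsto (fun z => z ^ 2 * g z) (𝓝[≠] 0) (𝓝 0)) (he : ∀ z, g (-z) = g z) :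
    ∃ l : ℂ, Tendsto g (𝓝[≠] 0) (𝓝 l) := by
  have hne : ∀ᶠ z : ℂ in 𝓝[≠] 0, z ≠ 0 := eventually_mem_nhdsWithin
  have key : ∀ G : ℂ → ℂ, (∀ᶠ z in 𝓝[≠] (0 : ℂ), DifferentiableAt ℂ G z) →
      Tendsto (fun z => z * G z) (𝓝[≠] 0) (𝓝 0) → ∃ l : ℂ, Tendsto G (𝓝[≠] 0) (𝓝 l) := by
    intro G hG1 hG2
    refine ⟨_, Complex.tendsto_limUnder_of_differentiable_on_punctured_nhds_of_isLittleO hG1 ?_⟩
    rw [Asymptotics.isLittleO_iff_tendsto']
    · have h3 : Tendsto (fun z : ℂ => z * G 0) (𝓝[≠] 0) (𝓝 0) := by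
        have h4 : ContinuousAt (fun z : ℂ => z * G 0) 0 := by fun_prop
        have h5 := h4.tendsto.mono_left (nhdsWithin_le_nhds (s := {0}ᶜ))
        simpa using h5
      have h6 := hG2.sub h3
      rw [sub_zero] at h6
      refine h6.congr (fun z => ?_)
      rw [sub_zero, div_inv_eq_mul]
      ring
    · filter_upwards [hne] with z hz h0
      rw [sub_zero, inv_eq_zero] at h0
      exact absurd h0 hz
  have hG1 : ∀ᶠ z in 𝓝[≠] (0 : ℂ), DifferentiableAt ℂ (fun z => z * g z) z := by
    filter_upwards [hd] with z hz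
    exact differentiableAt_fun_id.mul hz
  obtain ⟨L, hL⟩ := key (fun z => z * g z) hG1 (by
    refine h2.congr (fun z => ?_)
    ring)
  have hneg : Tendsto (fun z : ℂ => -z) (𝓝[≠] 0) (𝓝[≠] 0) := by
    rw [tendsto_nhdsWithin_iff]
    constructor
    · have h4 : ContinuousAt (fun z : ℂ => -z) 0 := by fun_prop
      have h5 := h4.tendsto.mono_left (nhdsWithin_le_nhds (s := {0}ᶜ))
      simpa using h5
    · filter_upwards [hne] with z hz
      exact neg_ne_zero.2 hz
  have hL2 := hL.comp hneg
  have hL3 : Tendsto (fun z => z * g z) (𝓝[≠] 0) (𝓝 (-L)) := by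
    refine hL2.neg.congr (fun z => ?_)
    simp only [Function.comp_apply]
    rw [he]
    ring
  have hL0 : L = 0 := by
    have := tendsto_nhds_unique hL hL3
    exact self_eq_neg.1 this
  rw [hL0] at hL
  exact key g hd hL

/-- `(b - 1) v` is a period if `x(v) = 0` and `b ≡ 1 mod 3`. -/
theorem p1_zero (v : ℂ) (hv : v ∉ Set.range emb) (h : xw v = 0) (b : Eis) (hb : Primary b) :
    ∃ a : Eis, emb a = (emb b - 1) * v := by
  have hwv : w * v ∉ Set.range emb := by
    rw [a6_mem_w]
    exact hv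
  have h1 : pt (w * v) = pt v := by
    obtain ⟨k1, h2⟩ := pt_of_not_mem (w * v) hwv
    obtain ⟨k2, h3⟩ := pt_of_not_mem v hv
    rw [h2, h3]
    refine a6_some _ _ ?_ ?_
    · rw [xw_w, h, mul_zero]
    · rw [yw_w]
  rw [pt_eq_iff] at h1
  obtain ⟨c, hc⟩ := h1
  obtain ⟨d, hd⟩ := hb
  have hd' : emb b - 1 = 3 * emb d := by
    have h2 := congrArg emb hd
    rw [map_sub, map_one, map_mul, map_ofNat] at h2
    exact h2
  refine ⟨d * ((⟨0, 1⟩ : Eis) * ⟨0, 1⟩ - 1) * c, ?_⟩
  rw [map_mul, map_mul, map_sub, map_mul, map_one, a6_emb_om, hc, hd', w_sq]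
  linear_combination (-(emb d * v)) * w_sq

/-- the values only depend on the class -/
theorem p1_rep (b : Eis) (hB : emb b ≠ 0) (f : ℂ → ℂ) (hf : ∀ z (a : Eis), f (z + emb a) = f z)
    (c : Eis) (z : ℂ) :
    f (z + emb (Ideal.Quotient.mk (Ideal.span {b}) c).out / emb b) = f (z + emb c / emb b) := by
  have h1 : Ideal.Quotient.mk (Ideal.span {b}) (Ideal.Quotient.mk (Ideal.span {b}) c).out =
      Ideal.Quotient.mk (Ideal.span {b}) c := Ideal.Quotient.mk_out _
  rw [Ideal.Quotient.mk_eq_mk_iff_sub_mem, Ideal.mem_span_singleton] at h1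
  obtain ⟨a, ha⟩ := h1
  have h2 : emb (Ideal.Quotient.mk (Ideal.span {b}) c).out = emb c + emb b * emb a := by
    rw [← map_mul, ← ha, map_sub]
    ring
  rw [h2, add_div, mul_div_cancel_left₀ _ hB, ← add_assoc, hf]

/-- shift of the product -/
theorem p1_shift (b : Eis) (hB : emb b ≠ 0) [Fintype (Eis ⧸ Ideal.span {b})] (f : ℂ → ℂ)
    (hf : ∀ z (a : Eis), f (z + emb a) = f z) (a : Eis) (z : ℂ) :
    ∏ δ : Eis ⧸ Ideal.span {b}, f (z + emb a / emb b + emb δ.out / emb b) =
      ∏ δ : Eis ⧸ Ideal.span {b}, f (z + emb δ.out / emb b) := by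
  refine Fintype.prod_equiv (Equiv.addLeft (Ideal.Quotient.mk (Ideal.span {b}) a)) _ _ ?_
  intro δ
  have h1 : Ideal.Quotient.mk (Ideal.span {b}) a + δ =
      Ideal.Quotient.mk (Ideal.span {b}) (a + δ.out) := by
    rw [map_add, Ideal.Quotient.mk_out]
  rw [Equiv.coe_addLeft]
  beta_reduce
  rw [h1, p1_rep b hB f hf, map_add]
  congr 1
  ring

/-- the product is even -/
theorem p1_neg (b : Eis) (hB : emb b ≠ 0) [Fintype (Eis ⧸ Ideal.span {b})] (f : ℂ → ℂ)
    (hf : ∀ z (a : Eis), f (z + emb a) = f z) (he : ∀ z, f (-z) = f z) (z : ℂ) :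
    ∏ δ : Eis ⧸ Ideal.span {b}, f (-z + emb δ.out / emb b) =
      ∏ δ : Eis ⧸ Ideal.span {b}, f (z + emb δ.out / emb b) := by
  refine Fintype.prod_equiv (Equiv.neg _) _ _ ?_
  intro δ
  have h1 : - δ = Ideal.Quotient.mk (Ideal.span {b}) (- δ.out) := by
    rw [map_neg, Ideal.Quotient.mk_out]
  rw [Equiv.neg_apply, h1, p1_rep b hB f hf, map_neg, ← he]
  congr 1
  ring

theorem p1_off (b : Eis) (hB : emb b ≠ 0) (z : ℂ) (hz : emb b * z ∉ Set.range emb) (c : Eis) :
    z + emb c / emb b ∉ Set.range emb := by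
  rintro ⟨a, ha⟩
  refine hz ⟨b * a - c, ?_⟩
  rw [map_sub, map_mul, ha, mul_add, mul_div_cancel₀ _ hB]
  ring

/-- `∏_{δ mod b} x(z + δ/b) = C x(b z)`, `C = b² ∏_{δ ≠ 0} x(δ/b)`, for `b ≡ 1 mod 3`.
Sketch: both sides have (as functions of `z`) double poles at the points of `(1/b) ℤ[ω]` and simple
zeros at the points congruent to `± θ` modulo `(1/b) ℤ[ω]`, where `x(± θ) = 0`, `(1 - ω) θ ∈ ℤ[ω]`
(here `b ≡ 1 mod 3` is used: `b θ ≡ θ`). The quotient is elliptic without poles: constant (Liouville,
AN/A5; see also CM/H4, CM/G6 for this kind of argument); the value of `C` from `z → 0`. -/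
theorem prod_x (b : Eis) (hb : Primary b) :
    ∀ z : ℂ, emb b * z ∉ Set.range emb →
      ∏ᶠ δ : Eis ⧸ Ideal.span {b}, xw (z + emb δ.out / emb b) =
        (emb b ^ 2 * ∏ᶠ δ : {δ : Eis ⧸ Ideal.span {b} // δ ≠ 0}, xw (emb δ.1.out / emb b)) *
          xw (emb b * z) := by
  have hb0 : b ≠ 0 := by
    rintro rfl
    have h1 := (primary_iff 0).1 hb
    simp at h1
  have hB : emb b ≠ 0 := by
    intro h
    exact hb0 (emb_injective (by rw [h, map_zero]))
  have : Finite (Eis ⧸ Ideal.span {b}) := I3.quot_finite b hb0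
  have : Fintype (Eis ⧸ Ideal.span {b}) := Fintype.ofFinite _
  rw [finprod_eq_prod_of_fintype]
  simp only [finprod_eq_prod_of_fintype]
  set C : ℂ := ∏ δ : {δ : Eis ⧸ Ideal.span {b} // δ ≠ 0}, xw (emb δ.1.out / emb b) with hC
  set P : ℂ → ℂ := fun z => ∏ δ : Eis ⧸ Ideal.span {b}, xw (z + emb δ.out / emb b) with hP
  set g : ℂ → ℂ := fun z => P z - (emb b ^ 2 * C) * xw (emb b * z) with hg
  suffices hmain : ∀ z : ℂ, emb b * z ∉ Set.range emb → g z = 0 by
    intro z hz
    have h1 := hmain z hz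
    exact sub_eq_zero.1 h1
  have hne : ∀ᶠ z : ℂ in 𝓝[≠] 0, z ≠ 0 := eventually_mem_nhdsWithin
  have hmul : Tendsto (fun z : ℂ => emb b * z) (𝓝[≠] 0) (𝓝[≠] 0) := by
    rw [tendsto_nhdsWithin_iff]
    constructor
    · have h4 : ContinuousAt (fun z : ℂ => emb b * z) 0 := by fun_prop
      have h5 := h4.tendsto.mono_left (nhdsWithin_le_nhds (s := {0}ᶜ))
      simpa using h5
    · filter_upwards [hne] with z hz
      exact mul_ne_zero hB hz
  have hpunct : ∀ᶠ z : ℂ in 𝓝[≠] 0, emb b * z ∉ Set.range emb := hmul.eventually a5_punct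
  have hopen : IsOpen {z : ℂ | emb b * z ∉ Set.range emb} := by
    have h1 : Continuous (fun z : ℂ => emb b * z) := by fun_prop
    exact (a5_closed.isOpen_compl).preimage h1
  -- differentiability
  have hdiff : ∀ z : ℂ, emb b * z ∉ Set.range emb → DifferentiableAt ℂ g z := by
    intro z hz
    have h1 : ∀ δ : Eis ⧸ Ideal.span {b},
        DifferentiableAt ℂ (fun z => xw (z + emb δ.out / emb b)) z := by
      intro δ
      have h2 := (xw_deriv _ (p1_off b hB z hz δ.out)).differentiableAt
      exact DifferentiableAt.comp (f := fun z => z + emb δ.out / emb b) z h2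
        (differentiableAt_fun_id.add_const _)
    have h2 : DifferentiableAt ℂ P z := by
      rw [hP]
      exact DifferentiableAt.fun_finsetProd fun δ _ => h1 δ
    have h3 : DifferentiableAt ℂ (fun z => xw (emb b * z)) z := by
      have h4 := (xw_deriv _ hz).differentiableAt
      exact DifferentiableAt.comp (f := fun z => emb b * z) z h4
        (differentiableAt_fun_id.const_mul _)
    exact h2.sub (h3.const_mul _)
  -- periodicity
  have hper : ∀ (z : ℂ) (a : Eis), g (z + emb a / emb b) = g z := by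
    intro z a
    have h1 : P (z + emb a / emb b) = P z := p1_shift b hB xw xw_add a z
    have h2 : xw (emb b * (z + emb a / emb b)) = xw (emb b * z) := by
      rw [mul_add, mul_div_cancel₀ _ hB, xw_add]
    simp only [hg]
    rw [h1, h2]
  have hoffper : ∀ (z : ℂ) (a : Eis),
      emb b * (z + emb a / emb b) ∈ Set.range emb ↔ emb b * z ∈ Set.range emb := by
    intro z a
    rw [mul_add, mul_div_cancel₀ _ hB, a5_mem_add]
  -- evenness
  have heven : ∀ z : ℂ, g (-z) = g z := by
    intro z
    have h1 : P (-z) = P z := p1_neg b hB xw xw_add xw_neg z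
    simp only [hg]
    rw [h1, mul_neg, xw_neg]
  -- behaviour at `0`
  have h0 : Tendsto (fun z => z ^ 2 * g z) (𝓝[≠] 0) (𝓝 0) := by
    have h1 : ∀ z, P z = xw z * ∏ δ : {δ : Eis ⧸ Ideal.span {b} // δ ≠ 0},
        xw (z + emb δ.1.out / emb b) := by
      intro z
      simp only [hP]
      rw [Fintype.prod_eq_mul_prod_subtype_ne _ (0 : Eis ⧸ Ideal.span {b})]
      congr 1
      have h2 := p1_rep b hB xw xw_add 0 z
      rw [map_zero, map_zero, zero_div, add_zero] at h2
      exact h2
    have h2 : Tendsto (fun z : ℂ => ∏ δ : {δ : Eis ⧸ Ideal.span {b} // δ ≠ 0},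
        xw (z + emb δ.1.out / emb b)) (𝓝[≠] 0) (𝓝 C) := by
      rw [hC]
      refine tendsto_finsetProd _ fun δ _ => ?_
      have h3 : emb δ.1.out / emb b ∉ Set.range emb := by
        rintro ⟨a, ha⟩
        apply δ.2
        have h4 : δ.1.out = b * a := by
          apply emb_injective
          rw [map_mul, ha, mul_div_cancel₀ _ hB]
        have h5 := Ideal.Quotient.mk_out δ.1
        rw [← h5, h4, Ideal.Quotient.eq_zero_iff_mem, Ideal.mem_span_singleton]
        exact Dvd.intro _ rfl
      have h4 : ContinuousAt xw (0 + emb δ.1.out / emb b) := by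
        rw [zero_add]
        exact (xw_deriv _ h3).continuousAt
      have h5 : ContinuousAt (fun z : ℂ => xw (z + emb δ.1.out / emb b)) 0 :=
        ContinuousAt.comp (f := fun z : ℂ => z + emb δ.1.out / emb b) h4
          (continuousAt_id.add continuousAt_const)
      have h6 := h5.tendsto.mono_left (nhdsWithin_le_nhds (s := {0}ᶜ))
      simpa using h6
    have h3 := xw_sq_tendsto.mul h2
    have h4 := (xw_sq_tendsto.comp hmul).mul_const C
    have h5 := h3.sub h4
    rw [sub_self] at h5
    refine h5.congr (fun z => ?_)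
    simp only [hg, h1, Function.comp_apply]
    ring
  obtain ⟨l, hl⟩ := p1_removable g (by
    filter_upwards [hpunct] with z hz
    exact hdiff z hz) h0 heven
  -- the entire function
  let F : ℂ → ℂ := fun z => if emb b * z ∈ Set.range emb then l else g z
  have hFoff : ∀ z, emb b * z ∉ Set.range emb → F z = g z := by
    intro z hz
    simp only [F]
    rw [if_neg hz]
  have hF0 : F 0 = l := by
    simp only [F]
    rw [if_pos ⟨0, by rw [map_zero, mul_zero]⟩]
  have hFper : ∀ (z : ℂ) (a : Eis), F (z + emb a / emb b) = F z := by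
    intro z a
    simp only [F, hoffper, hper]
  have hFd : ∀ z, emb b * z ∉ Set.range emb → DifferentiableAt ℂ F z := by
    intro z hz
    refine (hdiff z hz).congr_of_eventuallyEq ?_
    filter_upwards [hopen.mem_nhds hz] with v hv
    exact hFoff v hv
  have hFd0 : DifferentiableAt ℂ F 0 := by
    refine (Complex.analyticAt_of_differentiable_on_punctured_nhds_of_continuousAt
      ?_ ?_).differentiableAt
    · filter_upwards [hpunct] with z hz
      exact hFd z hz
    · rw [continuousAt_iff_punctured_nhds, hF0]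
      refine hl.congr' ?_
      filter_upwards [hpunct] with z hz
      exact (hFoff z hz).symm
  have hFdiff : Differentiable ℂ F := by
    intro z
    by_cases hz : emb b * z ∈ Set.range emb
    · obtain ⟨a, ha⟩ := hz
      have hz' : z = emb a / emb b := by
        rw [ha, mul_div_cancel_left₀ _ hB]
      have h1 : F = fun v => F (v - emb a / emb b) := by
        funext v
        have := hFper (v - emb a / emb b) a
        rw [sub_add_cancel] at this
        exact this
      rw [h1, hz']
      have h2 : DifferentiableAt ℂ F (emb a / emb b - emb a / emb b) := by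
        rw [sub_self]
        exact hFd0
      exact DifferentiableAt.comp (f := fun v => v - emb a / emb b) (emb a / emb b) h2
        (differentiableAt_fun_id.sub_const (emb a / emb b))
    · exact hFd z hz
  have hFlat : ∀ z (a : Eis), F (z + emb a) = F z := by
    intro z a
    have h1 := hFper z (b * a)
    rw [map_mul, mul_div_cancel_left₀ _ hB] at h1
    exact h1
  -- the value at a zero of `x(b z)`
  obtain ⟨v, hv, hv0⟩ := xw_surj 0
  obtain ⟨a, ha⟩ := p1_zero v hv hv0 b hb
  have hbv : emb b * (v / emb b) = v := mul_div_cancel₀ _ hB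
  have hzero : g (v / emb b) = 0 := by
    have h1 : P (v / emb b) = 0 := by
      simp only [hP]
      refine Finset.prod_eq_zero (Finset.mem_univ (Ideal.Quotient.mk (Ideal.span {b}) a)) ?_
      rw [p1_rep b hB xw xw_add, ha]
      have h2 : v / emb b + (emb b - 1) * v / emb b = v := by
        field_simp
        ring
      rw [h2, hv0]
    simp only [hg]
    rw [h1, hbv, hv0, mul_zero, sub_zero]
  intro z hz
  rw [← hFoff z hz, liouville F hFdiff hFlat z (v / emb b), hFoff _ (by rw [hbv]; exact hv), hzero]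

end CF
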