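import Pool.Agent.MP_9ab903_nt.CF.Defs

set_option autoImplicit false

open NumberField IsDedekindDomain
open CM27 CMT
open scoped ComplexConjugate Classical

namespace CF

/-! ## [CF-R1] collinear points on `y² + y = x³` (file R1.lean) -/

theorem r1_negY (k : Type) [Field k] (x y : k) : (E k).toAffine.negY x y = -y - 1 := by
  change -y - (0 : k) * x - 1 = -y - 1
  ring

theorem r1_eq (k : Type) [Field k] (x y : k) :
    (E k).toAffine.Equation x y ↔ y ^ 2 + y = x ^ 3 := by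
  rw [WeierstrassCurve.Affine.equation_iff]
  change y ^ 2 + (0 : k) * x * y + 1 * y = x ^ 3 + 0 * x ^ 2 + 0 * x + 0 ↔ _
  constructor
  · intro h; linear_combination h
  · intro h; linear_combination h

theorem r1_ns (k : Type) [Field k] (h3 : (3 : k) ≠ 0) (x y : k) (h : y ^ 2 + y = x ^ 3) :
    (E k).toAffine.Nonsingular x y := by
  rw [WeierstrassCurve.Affine.nonsingular_iff]
  refine ⟨(r1_eq k x y).2 h, ?_⟩
  change (0 : k) * y ≠ 3 * x ^ 2 + 2 * 0 * x + 0 ∨ y ≠ -y - 0 * x - 1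
  by_contra hcon
  push Not at hcon
  obtain ⟨g1, g2⟩ := hcon
  have hx : 3 * x ^ 2 = 0 := by linear_combination -g1
  have hx0 : x = 0 := by
    rcases mul_eq_zero.1 hx with h | h
    · exact absurd h h3
    · exact pow_eq_zero_iff two_ne_zero |>.1 h
  have hy : 2 * y + 1 = 0 := by linear_combination g2
  have : (1 : k) = 0 := by
    rw [hx0] at h
    linear_combination (2 * y + 1) * hy - 4 * h
  exact one_ne_zero this

/-- Three points on a line `y = l x + m` have sum zero (with multiplicities: the coefficients of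
`x³ - (l x + m)² - (l x + m) = (x - x₁)(x - x₂)(x - x₃)`). -/
theorem col (k : Type) [Field k] (h3 : (3 : k) ≠ 0) (l m x₁ x₂ x₃ : k)
    (e1 : x₁ + x₂ + x₃ = l ^ 2) (e2 : x₁ * x₂ + x₁ * x₃ + x₂ * x₃ = -(2 * l * m + l))
    (e3 : x₁ * x₂ * x₃ = m ^ 2 + m) :
    ∃ (n₁ : (E k).toAffine.Nonsingular x₁ (l * x₁ + m))
      (n₂ : (E k).toAffine.Nonsingular x₂ (l * x₂ + m))
      (n₃ : (E k).toAffine.Nonsingular x₃ (l * x₃ + m)),
      (WeierstrassCurve.Affine.Point.some x₁ _ n₁ : (E k).toAffine.Point) + .some x₂ _ n₂ +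
        .some x₃ _ n₃ = 0 := by
  have c1 : (l * x₁ + m) ^ 2 + (l * x₁ + m) = x₁ ^ 3 := by
    linear_combination -(x₁ ^ 2) * e1 + x₁ * e2 - e3
  have c2 : (l * x₂ + m) ^ 2 + (l * x₂ + m) = x₂ ^ 3 := by
    linear_combination -(x₂ ^ 2) * e1 + x₂ * e2 - e3
  have c3 : (l * x₃ + m) ^ 2 + (l * x₃ + m) = x₃ ^ 3 := by
    linear_combination -(x₃ ^ 2) * e1 + x₃ * e2 - e3
  refine ⟨r1_ns k h3 _ _ c1, r1_ns k h3 _ _ c2, r1_ns k h3 _ _ c3, ?_⟩
  rw [add_eq_zero_iff_eq_neg]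
  -- `P₁ ≠ - P₂`
  have key : (x₁ = x₂ → 3 * x₁ ^ 2 = l * (2 * (l * x₁ + m) + 1)) := by
    intro h
    subst h
    linear_combination (2 * x₁) * e1 - e2
  have hxy : ¬(x₁ = x₂ ∧ l * x₁ + m = (E k).toAffine.negY x₂ (l * x₂ + m)) := by
    rintro ⟨hx, hy⟩
    have hk := key hx
    rw [r1_negY, ← hx] at hy
    have hy1 : 2 * (l * x₁ + m) + 1 = 0 := by linear_combination hy
    rw [hy1, mul_zero] at hk
    have hx0 : x₁ = 0 := by
      rcases mul_eq_zero.1 hk with h | h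
      · exact absurd h h3
      · exact pow_eq_zero_iff two_ne_zero |>.1 h
    have : (1 : k) = 0 := by
      rw [hx0] at c1 hy1
      linear_combination (2 * (l * 0 + m) + 1) * hy1 - 4 * c1
    exact one_ne_zero this
  have hslope : (E k).toAffine.slope x₁ x₂ (l * x₁ + m) (l * x₂ + m) = l := by
    by_cases hx : x₁ = x₂
    · have hy : l * x₁ + m ≠ (E k).toAffine.negY x₂ (l * x₂ + m) := fun h => hxy ⟨hx, h⟩
      rw [WeierstrassCurve.Affine.slope_of_Y_ne hx hy]
      rw [r1_negY, ← hx] at hy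
      rw [r1_negY]
      change (3 * x₁ ^ 2 + 2 * (0 : k) * x₁ + 0 - 0 * (l * x₁ + m)) / _ = l
      have hne : l * x₁ + m - (-(l * x₁ + m) - 1) ≠ 0 := by
        intro h
        exact hy (by linear_combination h)
      rw [div_eq_iff hne]
      linear_combination key hx
    · rw [WeierstrassCurve.Affine.slope_of_X_ne hx]
      rw [div_eq_iff (sub_ne_zero.2 hx)]
      ring
  rw [WeierstrassCurve.Affine.Point.add_some hxy, WeierstrassCurve.Affine.Point.neg_some]
  simp only [WeierstrassCurve.Affine.Point.some.injEq]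
  rw [hslope]
  have hX : (E k).toAffine.addX x₁ x₂ l = x₃ := by
    change l ^ 2 + 0 * l - 0 - x₁ - x₂ = x₃
    linear_combination -e1
  refine ⟨hX, ?_⟩
  rw [r1_negY]
  unfold WeierstrassCurve.Affine.addY WeierstrassCurve.Affine.negAddY
  rw [r1_negY, hX]
  ring

/-- Conversely, three affine points with sum zero are on a line `y = l x + m`. -/
theorem exists_line (k : Type) [Field k] (h3 : (3 : k) ≠ 0) (x₁ x₂ x₃ y₁ y₂ y₃ : k)
    (n₁ : (E k).toAffine.Nonsingular x₁ y₁) (n₂ : (E k).toAffine.Nonsingular x₂ y₂)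
    (n₃ : (E k).toAffine.Nonsingular x₃ y₃)
    (h : (WeierstrassCurve.Affine.Point.some x₁ _ n₁ : (E k).toAffine.Point) + .some x₂ _ n₂ +
        .some x₃ _ n₃ = 0) :
    ∃ l m : k, y₁ = l * x₁ + m ∧ y₂ = l * x₂ + m ∧ y₃ = l * x₃ + m ∧
      x₁ + x₂ + x₃ = l ^ 2 ∧ x₁ * x₂ + x₁ * x₃ + x₂ * x₃ = -(2 * l * m + l) ∧
      x₁ * x₂ * x₃ = m ^ 2 + m := by
  rw [add_eq_zero_iff_eq_neg] at h
  have hxy : ¬(x₁ = x₂ ∧ y₁ = (E k).toAffine.negY x₂ y₂) := by
    rintro ⟨hx, hy⟩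
    rw [WeierstrassCurve.Affine.Point.add_of_Y_eq hx hy,
      WeierstrassCurve.Affine.Point.neg_some] at h
    exact WeierstrassCurve.Affine.Point.some_ne_zero _ h.symm
  have H := WeierstrassCurve.Affine.addPolynomial_slope n₁.1 n₂.1 hxy
  rw [WeierstrassCurve.Affine.addPolynomial_eq, neg_inj, Cubic.prod_X_sub_C_eq,
    Cubic.toPoly_injective, Cubic.ext_iff] at H
  have hy2 : y₂ = (E k).toAffine.slope x₁ x₂ y₁ y₂ * x₂ +
      (y₁ - (E k).toAffine.slope x₁ x₂ y₁ y₂ * x₁) := by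
    by_cases hx : x₁ = x₂
    · have hy : y₁ = y₂ :=
        WeierstrassCurve.Affine.Y_eq_of_Y_ne n₁.1 n₂.1 hx (fun h => hxy ⟨hx, h⟩)
      rw [hx, hy]; ring
    · rw [WeierstrassCurve.Affine.slope_of_X_ne hx]
      have := sub_ne_zero.2 hx
      field_simp
      ring
  rw [WeierstrassCurve.Affine.Point.add_some hxy, WeierstrassCurve.Affine.Point.neg_some] at h
  simp only [WeierstrassCurve.Affine.Point.some.injEq] at h
  generalize (E k).toAffine.slope x₁ x₂ y₁ y₂ = l at H hy2 h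
  obtain ⟨hX, hY⟩ := h
  unfold WeierstrassCurve.Affine.addY WeierstrassCurve.Affine.negAddY at hY
  rw [r1_negY, r1_negY] at hY
  rw [hX] at hY H
  obtain ⟨-, hb, hc, hd⟩ := H
  have a1 : (E k).toAffine.a₁ = 0 := rfl
  have a2 : (E k).toAffine.a₂ = 0 := rfl
  have a3 : (E k).toAffine.a₃ = 1 := rfl
  have a4 : (E k).toAffine.a₄ = 0 := rfl
  have a6 : (E k).toAffine.a₆ = 0 := rfl
  simp only [a1, a2, a3, a4, a6] at hb hc hd
  refine ⟨l, y₁ - l * x₁, by ring, hy2, ?_, ?_, ?_, ?_⟩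
  · linear_combination hY
  · linear_combination hb
  · linear_combination -hc
  · linear_combination hd

end CF
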