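import Pool.Agent.MP_9ab903_nt.CF.Defs
import Pool.Agent.MP_9ab903_nt.CF.R1

set_option autoImplicit false

open NumberField IsDedekindDomain
open CM27 CMT
open scoped ComplexConjugate Classical

namespace CF

/-! ## [CF-R2] the reduction map is a homomorphism (file R2.lean; uses R1) -/

lemma r2_eqn_iff (k : Type) [Field k] (x y : k) :
    (E k).toAffine.Equation x y ↔ y ^ 2 + y = x ^ 3 := by
  rw [WeierstrassCurve.Affine.equation_iff]
  simp [E]

lemma r2_ns (k : Type) [Field k] (h3 : (3 : k) ≠ 0) (x y : k) (h : y ^ 2 + y = x ^ 3) :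
    (E k).toAffine.Nonsingular x y := by
  have hΔ : (E k).Δ ≠ 0 := by
    have h1 : (E k).Δ = -(3 ^ 3) := by
      simp [WeierstrassCurve.Δ, WeierstrassCurve.b₂, WeierstrassCurve.b₄, WeierstrassCurve.b₆,
        WeierstrassCurve.b₈, E]
      norm_num
    rw [h1]
    exact neg_ne_zero.2 (pow_ne_zero _ h3)
  exact (WeierstrassCurve.Affine.equation_iff_nonsingular_of_Δ_ne_zero (W := (E k).toAffine)
    hΔ).1 ((r2_eqn_iff k x y).2 h)

lemma r2_eqn {k : Type} [Field k] {x y : k} (h : (E k).toAffine.Nonsingular x y) :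
    y ^ 2 + y = x ^ 3 :=
  (r2_eqn_iff k x y).1 h.1

variable {M : Type} [Field M] (A : ValuationSubring M)

lemma r2_three (h3 : A.valuation 3 = 1) : (3 : IsLocalRing.ResidueField A) ≠ 0 := by
  intro h
  have h1 : IsLocalRing.residue A (3 : A) = 0 := by
    rw [map_ofNat]; exact h
  rw [IsLocalRing.residue_eq_zero_iff, ValuationSubring.valuation_lt_one_iff] at h1
  have h2 : ((3 : A) : M) = 3 := rfl
  rw [h2, h3] at h1
  exact lt_irrefl _ h1

/-- an integral `x` forces an integral `y`. -/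
lemma r2_y_le (x y : M) (h : y ^ 2 + y = x ^ 3) (hx : A.valuation x ≤ 1) :
    A.valuation y ≤ 1 := by
  by_contra hy
  rw [not_le] at hy
  have h1 : A.valuation y < A.valuation (y ^ 2) := by
    rw [map_pow, pow_two]
    have hy0 : 0 < A.valuation y := lt_trans zero_lt_one hy
    calc A.valuation y = 1 * A.valuation y := (one_mul _).symm
      _ < A.valuation y * A.valuation y := mul_lt_mul_of_pos_right hy hy0
  have h2 : A.valuation (y ^ 2 + y) = A.valuation (y ^ 2) :=
    Valuation.map_add_eq_of_lt_left _ h1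
  have h3 : A.valuation (x ^ 3) ≤ 1 := by
    rw [map_pow]; exact pow_le_one' hx 3
  rw [← h, h2] at h3
  exact absurd (lt_of_lt_of_le (lt_trans hy h1) h3) (lt_irrefl _)

/-- a large `x`: `v(y)² = v(x)³`. -/
lemma r2_y_sq (x y : M) (h : y ^ 2 + y = x ^ 3) (hx : 1 < A.valuation x) :
    A.valuation y ^ 2 = A.valuation x ^ 3 := by
  have hx3 : 1 < A.valuation x ^ 3 := one_lt_pow₀ hx (by norm_num)
  have hy : 1 < A.valuation y := by
    by_contra hy
    rw [not_lt] at hy
    have h1 : A.valuation (y ^ 2 + y) ≤ 1 := by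
      refine le_trans (Valuation.map_add _ _ _) (max_le ?_ hy)
      rw [map_pow]; exact pow_le_one' hy 2
    rw [h, map_pow] at h1
    exact absurd (lt_of_lt_of_le hx3 h1) (lt_irrefl _)
  have h1 : A.valuation y < A.valuation (y ^ 2) := by
    rw [map_pow, pow_two]
    have hy0 : 0 < A.valuation y := lt_trans zero_lt_one hy
    calc A.valuation y = 1 * A.valuation y := (one_mul _).symm
      _ < A.valuation y * A.valuation y := mul_lt_mul_of_pos_right hy hy0
  have h2 : A.valuation (y ^ 2 + y) = A.valuation (y ^ 2) :=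
    Valuation.map_add_eq_of_lt_left _ h1
  rw [h, map_pow, map_pow] at h2
  exact h2.symm

lemma r2_some_congr {k : Type} [Field k] {x x' y y' : k} (hx : x = x') (hy : y = y')
    (n : (E k).toAffine.Nonsingular x y) (n' : (E k).toAffine.Nonsingular x' y') :
    (WeierstrassCurve.Affine.Point.some x y n : (E k).toAffine.Point) = .some x' y' n' := by
  subst hx; subst hy; rfl

theorem red_zero : red A 0 = 0 := rfl

theorem red_some (h3 : A.valuation 3 = 1) (x y : M) (n : (E M).toAffine.Nonsingular x y)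
    (hx : A.valuation x ≤ 1) :
    ∃ (hx' : x ∈ A) (hy' : y ∈ A) (n' : (E (IsLocalRing.ResidueField A)).toAffine.Nonsingular
      (IsLocalRing.residue A ⟨x, hx'⟩) (IsLocalRing.residue A ⟨y, hy'⟩)),
      red A (.some x y n) = .some _ _ n' := by
  have hx' : x ∈ A := (A.valuation_le_one_iff x).1 hx
  have hy' : y ∈ A := (A.valuation_le_one_iff y).1 (r2_y_le A x y (r2_eqn n) hx)
  have n' : (E (IsLocalRing.ResidueField A)).toAffine.Nonsingular
      (IsLocalRing.residue A ⟨x, hx'⟩) (IsLocalRing.residue A ⟨y, hy'⟩) := by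
    refine r2_ns _ (r2_three A h3) _ _ ?_
    rw [← map_pow, ← map_pow, ← map_add]
    congr 1
    exact Subtype.ext (r2_eqn n)
  refine ⟨hx', hy', n', ?_⟩
  have h : ∃ (hx : x ∈ A) (hy : y ∈ A), (E (IsLocalRing.ResidueField A)).toAffine.Nonsingular
        (IsLocalRing.residue A ⟨x, hx⟩) (IsLocalRing.residue A ⟨y, hy⟩) := ⟨hx', hy', n'⟩
  simp only [red]
  rw [dif_pos h]

theorem red_some_big (x y : M) (n : (E M).toAffine.Nonsingular x y) (hx : 1 < A.valuation x) :
    red A (.some x y n) = 0 := by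
  simp only [red]
  rw [dif_neg]
  · rfl
  · rintro ⟨h1, -, -⟩
    exact absurd ((A.valuation_le_one_iff x).2 h1) (not_le.2 hx)

lemma r2_negY {k : Type} [Field k] (x y : k) : (E k).toAffine.negY x y = -y - 1 := by
  simp [WeierstrassCurve.Affine.negY, E]

theorem red_neg (h3 : A.valuation 3 = 1) (P : (E M).toAffine.Point) :
    red A (-P) = - red A P := by
  cases P with
  | zero => rfl
  | some x y n =>
    rw [WeierstrassCurve.Affine.Point.neg_some]
    rcases le_or_gt (A.valuation x) 1 with hx | hx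
    · obtain ⟨a1, b1, c1, d1⟩ := red_some A h3 x y n hx
      obtain ⟨a2, b2, c2, d2⟩ := red_some A h3 x _
        ((WeierstrassCurve.Affine.nonsingular_neg x y).2 n) hx
      rw [d1, d2, WeierstrassCurve.Affine.Point.neg_some]
      refine r2_some_congr rfl ?_ _ _
      refine Eq.trans ?_ (r2_negY _ _).symm
      rw [← map_neg, ← map_one (IsLocalRing.residue A), ← map_sub]
      congr 1
      exact Subtype.ext (r2_negY x y)
    · rw [red_some_big A _ _ _ hx, red_some_big A _ _ _ hx]
      rfl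

/-- case (a): an integral line. -/
lemma r2_small_of_line (l m x y : M) (hy : y = l * x + m) (h : y ^ 2 + y = x ^ 3)
    (hl : A.valuation l ≤ 1) (hm : A.valuation m ≤ 1) : A.valuation x ≤ 1 := by
  by_contra hx
  rw [not_le] at hx
  have h1 := r2_y_sq A x y h hx
  have h2 : A.valuation y ≤ A.valuation x := by
    rw [hy]
    refine le_trans (Valuation.map_add _ _ _) (max_le ?_ (hm.trans hx.le))
    rw [map_mul]
    exact mul_le_of_le_one_left' hl
  have h3 : A.valuation y ^ 2 ≤ A.valuation x ^ 2 := pow_le_pow_left' h2 2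
  have h4 : A.valuation x ^ 2 < A.valuation x ^ 3 := pow_lt_pow_right₀ hx (by norm_num)
  rw [h1] at h3
  exact absurd (lt_of_lt_of_le h4 h3) (lt_irrefl _)

/-- case (b): a large `x` has `v(x) = v(l)²`. -/
lemma r2_large (l m x y : M) (hy : y = l * x + m) (h : y ^ 2 + y = x ^ 3)
    (hl : 1 < A.valuation l) (hm : A.valuation m ≤ A.valuation l) (hx : 1 < A.valuation x) :
    A.valuation x = A.valuation l ^ 2 := by
  have h1 := r2_y_sq A x y h hx
  have hl0 : 0 < A.valuation l := lt_trans zero_lt_one hl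
  have h2 : A.valuation m < A.valuation (l * x) := by
    rw [map_mul]
    refine lt_of_le_of_lt hm ?_
    calc A.valuation l = A.valuation l * 1 := (mul_one _).symm
      _ < A.valuation l * A.valuation x := mul_lt_mul_of_pos_left hx hl0
  have h3 : A.valuation y = A.valuation l * A.valuation x := by
    rw [hy, Valuation.map_add_eq_of_lt_left _ h2, map_mul]
  rw [h3, mul_pow, pow_succ (A.valuation x) 2, mul_comm] at h1
  have hx0 : A.valuation x ^ 2 ≠ 0 := pow_ne_zero _ (lt_trans zero_lt_one hx).ne'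
  exact (mul_left_cancel₀ hx0 h1).symm

lemma r2_not_two_large (l m x₁ x₂ x₃ : M)
    (e2 : x₁ * x₂ + x₁ * x₃ + x₂ * x₃ = -(2 * l * m + l)) (e3 : x₁ * x₂ * x₃ = m ^ 2 + m)
    (hl : 1 < A.valuation l) (hm : A.valuation m ≤ A.valuation l)
    (h1 : A.valuation x₁ = A.valuation l ^ 2) (h2 : A.valuation x₂ = A.valuation l ^ 2)
    (h3 : A.valuation x₃ ≤ 1 ∨ A.valuation x₃ = A.valuation l ^ 2) : False := by
  have hL : A.valuation l ≤ A.valuation l ^ 2 := by
    calc A.valuation l = A.valuation l ^ 1 := (pow_one _).symm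
      _ ≤ A.valuation l ^ 2 := pow_le_pow_right₀ hl.le (by norm_num)
  have h24 : A.valuation l ^ 2 < A.valuation l ^ 4 := pow_lt_pow_right₀ hl (by norm_num)
  have h26 : A.valuation l ^ 2 < A.valuation l ^ 6 := pow_lt_pow_right₀ hl (by norm_num)
  have h2i : A.valuation (2 : M) ≤ 1 := by
    rw [A.valuation_le_one_iff]
    exact (2 : A).2
  rcases h3 with h3 | h3
  · have ha : A.valuation (x₁ * x₂) = A.valuation l ^ 4 := by
      rw [map_mul, h1, h2, ← pow_add]
    have hb : A.valuation (x₁ * x₃ + x₂ * x₃) ≤ A.valuation l ^ 2 := by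
      refine le_trans (Valuation.map_add _ _ _) (max_le ?_ ?_)
      · rw [map_mul, h1]; exact mul_le_of_le_one_right' h3
      · rw [map_mul, h2]; exact mul_le_of_le_one_right' h3
    have hc : A.valuation (x₁ * x₂ + (x₁ * x₃ + x₂ * x₃)) = A.valuation l ^ 4 := by
      rw [Valuation.map_add_eq_of_lt_left _ (by rw [ha]; exact lt_of_le_of_lt hb h24), ha]
    rw [← add_assoc, e2, Valuation.map_neg] at hc
    have hd : A.valuation (2 * l * m + l) ≤ A.valuation l ^ 2 := by
      refine le_trans (Valuation.map_add _ _ _) (max_le ?_ hL)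
      rw [map_mul, map_mul, pow_two]
      exact mul_le_mul' (mul_le_of_le_one_left' h2i) hm
    rw [hc] at hd
    exact absurd (lt_of_lt_of_le h24 hd) (lt_irrefl _)
  · have ha : A.valuation (x₁ * x₂ * x₃) = A.valuation l ^ 6 := by
      rw [map_mul, map_mul, h1, h2, h3, ← pow_add, ← pow_add]
    rw [e3] at ha
    have hd : A.valuation (m ^ 2 + m) ≤ A.valuation l ^ 2 := by
      refine le_trans (Valuation.map_add _ _ _) (max_le ?_ (hm.trans hL))
      rw [map_pow]
      exact pow_le_pow_left' hm 2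
    rw [ha] at hd
    exact absurd (lt_of_lt_of_le h26 hd) (lt_irrefl _)

lemma r2_two (h3 : A.valuation 3 = 1) (P Q : (E M).toAffine.Point) (h : P + Q = 0) :
    red A P + red A Q = 0 := by
  have h1 : Q = -P := eq_neg_of_add_eq_zero_right h
  rw [h1, red_neg A h3, add_neg_cancel]

lemma r2_case_b (h3 : A.valuation 3 = 1) (l m x₁ x₂ x₃ y₁ y₂ y₃ : M)
    (n₁ : (E M).toAffine.Nonsingular x₁ y₁) (n₂ : (E M).toAffine.Nonsingular x₂ y₂)
    (n₃ : (E M).toAffine.Nonsingular x₃ y₃)
    (f1 : y₁ = l * x₁ + m) (f2 : y₂ = l * x₂ + m)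
    (e1 : x₁ + x₂ + x₃ = l ^ 2) (e2 : x₁ * x₂ + x₁ * x₃ + x₂ * x₃ = -(2 * l * m + l))
    (hl : 1 < A.valuation l)
    (h1 : A.valuation x₁ ≤ 1) (h2 : A.valuation x₂ ≤ 1) (hx3 : 1 < A.valuation x₃) :
    red A (.some x₁ y₁ n₁) + red A (.some x₂ y₂ n₂) + red A (.some x₃ y₃ n₃) = 0 := by
  rw [red_some_big A x₃ y₃ n₃ hx3, add_zero]
  obtain ⟨a1, b1, c1, d1⟩ := red_some A h3 x₁ y₁ n₁ h1
  obtain ⟨a2, b2, c2, d2⟩ := red_some A h3 x₂ y₂ n₂ h2
  have hl0 : l ≠ 0 := by
    rintro rfl
    rw [map_zero] at hl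
    exact absurd hl (not_lt.2 zero_le_one)
  have key : ∀ z : M, A.valuation (l * z) ≤ 1 → A.valuation z < 1 := by
    intro z hz
    by_contra hc
    rw [not_lt] at hc
    rw [map_mul] at hz
    have : A.valuation l ≤ A.valuation l * A.valuation z := le_mul_of_one_le_right' hc
    exact absurd (lt_of_lt_of_le hl (this.trans hz)) (lt_irrefl _)
  have k1 : A.valuation (x₁ - x₂) < 1 := by
    apply key
    have : l * (x₁ - x₂) = y₁ - y₂ := by rw [f1, f2]; ring
    rw [this, A.valuation_le_one_iff]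
    exact A.sub_mem b1 b2
  have k2 : A.valuation (y₁ + y₂ + 1) < 1 := by
    apply key
    have : l * (y₁ + y₂ + 1) = (x₁ + x₂) ^ 2 - x₁ * x₂ := by
      have e1' : x₃ = l ^ 2 - x₁ - x₂ := by linear_combination e1
      rw [e1'] at e2
      rw [f1, f2]
      linear_combination e2
    rw [this, A.valuation_le_one_iff]
    exact A.sub_mem (pow_mem (A.add_mem _ _ a1 a2) 2) (A.mul_mem _ _ a1 a2)
  have j1 : IsLocalRing.residue A ⟨x₂, a2⟩ = IsLocalRing.residue A ⟨x₁, a1⟩ := by
    rw [← sub_eq_zero, ← map_sub, IsLocalRing.residue_eq_zero_iff,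
      ValuationSubring.valuation_lt_one_iff]
    have : ((⟨x₂, a2⟩ - ⟨x₁, a1⟩ : A) : M) = -(x₁ - x₂) := by
      push_cast; ring
    rw [this, Valuation.map_neg]
    exact k1
  have j2 : IsLocalRing.residue A ⟨y₂, b2⟩ = - IsLocalRing.residue A ⟨y₁, b1⟩ - 1 := by
    rw [← sub_eq_zero, ← map_neg, ← map_one (IsLocalRing.residue A), ← map_sub, ← map_sub,
      IsLocalRing.residue_eq_zero_iff, ValuationSubring.valuation_lt_one_iff]
    have : ((⟨y₂, b2⟩ - (-⟨y₁, b1⟩ - 1) : A) : M) = y₁ + y₂ + 1 := by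
      push_cast; ring
    rw [this]
    exact k2
  have j3 : red A (.some x₂ y₂ n₂) = - red A (.some x₁ y₁ n₁) := by
    rw [d1, d2, WeierstrassCurve.Affine.Point.neg_some]
    exact r2_some_congr j1 (j2.trans (r2_negY _ _).symm) _ _
  rw [j3, add_neg_cancel]

lemma r2_three_pts (h3 : A.valuation 3 = 1) (P₁ P₂ P₃ : (E M).toAffine.Point)
    (h : P₁ + P₂ + P₃ = 0) : red A P₁ + red A P₂ + red A P₃ = 0 := by
  have h3' : (3 : M) ≠ 0 := by
    intro h0
    rw [h0, map_zero] at h3
    exact zero_ne_one h3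
  rcases P₁ with _ | ⟨x₁, y₁, n₁⟩
  · change 0 + P₂ + P₃ = 0 at h
    rw [zero_add] at h
    change red A 0 + red A P₂ + red A P₃ = 0
    rw [red_zero, zero_add]
    exact r2_two A h3 _ _ h
  rcases P₂ with _ | ⟨x₂, y₂, n₂⟩
  · change _ + 0 + P₃ = 0 at h
    rw [add_zero] at h
    change _ + red A 0 + red A P₃ = 0
    rw [red_zero, add_zero]
    exact r2_two A h3 _ _ h
  rcases P₃ with _ | ⟨x₃, y₃, n₃⟩
  · change _ + _ + 0 = (0 : (E M).toAffine.Point) at h
    rw [add_zero] at h
    change _ + _ + red A 0 = 0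
    rw [red_zero, add_zero]
    exact r2_two A h3 _ _ h
  obtain ⟨l, m, f1, f2, f3, e1, e2, e3⟩ := exists_line M h3' x₁ x₂ x₃ y₁ y₂ y₃ n₁ n₂ n₃ h
  have q1 := r2_eqn n₁
  have q2 := r2_eqn n₂
  have q3 := r2_eqn n₃
  by_cases hab : A.valuation l ≤ 1 ∧ A.valuation m ≤ 1
  · -- case (a)
    obtain ⟨hl, hm⟩ := hab
    have s1 := r2_small_of_line A l m x₁ y₁ f1 q1 hl hm
    have s2 := r2_small_of_line A l m x₂ y₂ f2 q2 hl hm
    have s3 := r2_small_of_line A l m x₃ y₃ f3 q3 hl hm
    obtain ⟨a1, b1, c1, d1⟩ := red_some A h3 x₁ y₁ n₁ s1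
    obtain ⟨a2, b2, c2, d2⟩ := red_some A h3 x₂ y₂ n₂ s2
    obtain ⟨a3, b3, c3, d3⟩ := red_some A h3 x₃ y₃ n₃ s3
    have hlA : l ∈ A := (A.valuation_le_one_iff l).1 hl
    have hmA : m ∈ A := (A.valuation_le_one_iff m).1 hm
    obtain ⟨t1, t2, t3, ht⟩ := col (IsLocalRing.ResidueField A) (r2_three A h3)
      (IsLocalRing.residue A ⟨l, hlA⟩) (IsLocalRing.residue A ⟨m, hmA⟩)
      (IsLocalRing.residue A ⟨x₁, a1⟩) (IsLocalRing.residue A ⟨x₂, a2⟩)
      (IsLocalRing.residue A ⟨x₃, a3⟩)
      (by rw [← map_add, ← map_add, ← map_pow]; congr 1; exact Subtype.ext e1)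
      (by
        rw [← map_mul, ← map_mul, ← map_mul, ← map_add, ← map_add,
          ← map_ofNat (IsLocalRing.residue A) 2, ← map_mul, ← map_mul, ← map_add, ← map_neg]
        congr 1; exact Subtype.ext e2)
      (by rw [← map_mul, ← map_mul, ← map_pow, ← map_add]; congr 1; exact Subtype.ext e3)
    rw [d1, d2, d3]
    have g1 : IsLocalRing.residue A ⟨y₁, b1⟩ = IsLocalRing.residue A ⟨l, hlA⟩ *
        IsLocalRing.residue A ⟨x₁, a1⟩ + IsLocalRing.residue A ⟨m, hmA⟩ := by
      rw [← map_mul, ← map_add]; congr 1; exact Subtype.ext f1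
    have g2 : IsLocalRing.residue A ⟨y₂, b2⟩ = IsLocalRing.residue A ⟨l, hlA⟩ *
        IsLocalRing.residue A ⟨x₂, a2⟩ + IsLocalRing.residue A ⟨m, hmA⟩ := by
      rw [← map_mul, ← map_add]; congr 1; exact Subtype.ext f2
    have g3 : IsLocalRing.residue A ⟨y₃, b3⟩ = IsLocalRing.residue A ⟨l, hlA⟩ *
        IsLocalRing.residue A ⟨x₃, a3⟩ + IsLocalRing.residue A ⟨m, hmA⟩ := by
      rw [← map_mul, ← map_add]; congr 1; exact Subtype.ext f3
    rw [r2_some_congr rfl g1 c1 t1, r2_some_congr rfl g2 c2 t2, r2_some_congr rfl g3 c3 t3]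
    exact ht
  · by_cases hlm : A.valuation m ≤ A.valuation l
    · -- case (b)
      have hl : 1 < A.valuation l := by
        by_contra hc
        rw [not_lt] at hc
        exact hab ⟨hc, hlm.trans hc⟩
      have big : ∀ x y : M, y = l * x + m → y ^ 2 + y = x ^ 3 → 1 < A.valuation x →
          A.valuation x = A.valuation l ^ 2 := fun x y h1 h2 h3 =>
        r2_large A l m x y h1 h2 hl hlm h3
      have sm : ∀ x y : M, y = l * x + m → y ^ 2 + y = x ^ 3 →
          A.valuation x ≤ 1 ∨ A.valuation x = A.valuation l ^ 2 := by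
        intro x y h1 h2
        rcases le_or_gt (A.valuation x) 1 with h | h
        · exact Or.inl h
        · exact Or.inr (big x y h1 h2 h)
      rcases le_or_gt (A.valuation x₁) 1 with s1 | s1
      · rcases le_or_gt (A.valuation x₂) 1 with s2 | s2
        · rcases le_or_gt (A.valuation x₃) 1 with s3 | s3
          · exfalso
            have h1 : A.valuation (x₁ + x₂ + x₃) ≤ 1 :=
              le_trans (Valuation.map_add _ _ _)
                (max_le (le_trans (Valuation.map_add _ _ _) (max_le s1 s2)) s3)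
            rw [e1, map_pow] at h1
            exact absurd (lt_of_lt_of_le (one_lt_pow₀ hl (by norm_num)) h1) (lt_irrefl _)
          · exact r2_case_b A h3 l m x₁ x₂ x₃ y₁ y₂ y₃ n₁ n₂ n₃ f1 f2 e1 e2 hl s1 s2 s3
        · rcases le_or_gt (A.valuation x₃) 1 with s3 | s3
          · have := r2_case_b A h3 l m x₁ x₃ x₂ y₁ y₃ y₂ n₁ n₃ n₂ f1 f3
              (by linear_combination e1) (by linear_combination e2) hl s1 s3 s2
            rw [add_right_comm]
            exact this
          · exact (r2_not_two_large A l m x₂ x₃ x₁ (by linear_combination e2)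
              (by linear_combination e3) hl hlm (big _ _ f2 q2 s2) (big _ _ f3 q3 s3)
              (Or.inl s1)).elim
      · rcases le_or_gt (A.valuation x₂) 1 with s2 | s2
        · rcases le_or_gt (A.valuation x₃) 1 with s3 | s3
          · have := r2_case_b A h3 l m x₂ x₃ x₁ y₂ y₃ y₁ n₂ n₃ n₁ f2 f3
              (by linear_combination e1) (by linear_combination e2) hl s2 s3 s1
            rw [← this]
            abel
          · exact (r2_not_two_large A l m x₁ x₃ x₂ (by linear_combination e2)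
              (by linear_combination e3) hl hlm (big _ _ f1 q1 s1) (big _ _ f3 q3 s3)
              (Or.inl s2)).elim
        · exact (r2_not_two_large A l m x₁ x₂ x₃ e2 e3 hl hlm (big _ _ f1 q1 s1)
            (big _ _ f2 q2 s2) (sm _ _ f3 q3)).elim
    · -- case (c)
      rw [not_le] at hlm
      have hm : 1 < A.valuation m := by
        by_contra hc
        rw [not_lt] at hc
        exact hab ⟨hlm.le.trans hc, hc⟩
      have big : ∀ x y : M, y = l * x + m → y ^ 2 + y = x ^ 3 → 1 < A.valuation x := by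
        intro x y h1 h2
        by_contra hc
        rw [not_lt] at hc
        have hy := r2_y_le A x y h2 hc
        have h4 : A.valuation (l * x) < A.valuation m := by
          rw [map_mul]
          exact lt_of_le_of_lt (mul_le_of_le_one_right' hc) hlm
        rw [h1, Valuation.map_add_eq_of_lt_right _ h4] at hy
        exact absurd hy (not_le.2 hm)
      rw [red_some_big A _ _ _ (big _ _ f1 q1), red_some_big A _ _ _ (big _ _ f2 q2),
        red_some_big A _ _ _ (big _ _ f3 q3), add_zero, add_zero]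

/-- Sketch. It suffices: `P₁ + P₂ + P₃ = 0` implies that the sum of the reductions is `0`. If one of
the points is `0` this is `red_neg`. Otherwise `exists_line`: `y_i = l x_i + m`. (a) `l, m ∈ A`: the
`x_i` are integral (roots of a monic polynomial), apply `col` over the residue field.
(b) `|l| > 1`, `|m| ≤ |l|`: put `x₀ = - m / l ∈ A`; `|x_i| > 1` implies `|x_i| = |l|²`; exactly one
`x_i` is large, say `x₃`, and `x₁ + x₂ = s` satisfies `l (s - 2 x₀) = (s² - x₁ x₂) / l - 1`, so
`x₁ ≡ x₂ ≡ x₀` and `y₁ + y₂ ≡ - 1` (`y_i = l (x_i - x₀)`).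
(c) `|m| > 1`, `|m| > |l|`: no `x_i` is in `A`, all points reduce to `0`. -/
theorem red_add (h3 : A.valuation 3 = 1) (P Q : (E M).toAffine.Point) :
    red A (P + Q) = red A P + red A Q := by
  have h := r2_three_pts A h3 P Q (-(P + Q)) (by rw [add_neg_cancel])
  rw [red_neg A h3] at h
  rw [add_neg_eq_zero] at h
  exact h.symm

end CF
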