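import Pool.Agent.MP_9ab903_nt.CF.Defs
import Pool.Agent.MP_9ab903_nt.CF.R2

set_option autoImplicit false

open NumberField IsDedekindDomain
open CM27 CMT
open scoped ComplexConjugate Classical

namespace CF

/-! ## [CF-R3] the kernel of reduction (file R3.lean; uses R1, R2) -/

variable {M : Type} [Field M] (A : ValuationSubring M)

theorem r3_eq (x y : M) (n : (E M).toAffine.Nonsingular x y) : y * (y + 1) = x ^ 3 := by
  have h1 := (WeierstrassCurve.Affine.equation_iff _ _).1 n.1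
  simp only [E, WeierstrassCurve.toAffine] at h1
  linear_combination h1

/-- `|y| > 1`, `|y + 1| = |y|` and `|y|² = |x|³`. -/
theorem r3_val_y (x y : M) (n : (E M).toAffine.Nonsingular x y) (hx : 1 < A.valuation x) :
    1 < A.valuation y ∧ A.valuation (y + 1) = A.valuation y ∧
      A.valuation y ^ 2 = A.valuation x ^ 3 := by
  have e := r3_eq x y n
  have hx3 : 1 < A.valuation x ^ 3 := one_lt_pow₀ hx (by norm_num)
  have e' : A.valuation y * A.valuation (y + 1) = A.valuation x ^ 3 := by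
    rw [← map_mul, e, map_pow]
  have hy : 1 < A.valuation y := by
    by_contra hy
    push Not at hy
    have h1 : A.valuation (y + 1) ≤ 1 :=
      (Valuation.map_add _ _ _).trans (max_le hy (by rw [map_one]))
    have h2 : A.valuation y * A.valuation (y + 1) ≤ 1 := mul_le_one' hy h1
    rw [e'] at h2
    exact absurd hx3 (not_lt.2 h2)
  have hy1 : A.valuation (y + 1) = A.valuation y := by
    apply Valuation.map_add_eq_of_lt_left
    rw [map_one]
    exact hy
  refine ⟨hy, hy1, ?_⟩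
  rw [← e', hy1, sq]

theorem zz_val (x y : M) (n : (E M).toAffine.Nonsingular x y) (hx : 1 < A.valuation x) :
    A.valuation (x / y) < 1 ∧ A.valuation (x / y) ^ 2 * A.valuation x = 1 := by
  obtain ⟨hy, -, h2⟩ := r3_val_y A x y n hx
  have hx0 : A.valuation x ≠ 0 := (zero_lt_one.trans hx).ne'
  have hy0 : A.valuation y ≠ 0 := (zero_lt_one.trans hy).ne'
  have h3 : A.valuation (x / y) ^ 2 * A.valuation x = 1 := by
    rw [map_div₀, div_pow, h2, div_mul_eq_mul_div, ← pow_succ, div_self (pow_ne_zero _ hx0)]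
  refine ⟨?_, h3⟩
  by_contra h
  push Not at h
  have h4 : 1 ≤ A.valuation (x / y) ^ 2 := one_le_pow₀ h
  have h5 : 1 < A.valuation (x / y) ^ 2 * A.valuation x :=
    lt_of_lt_of_le hx (le_mul_of_one_le_left' h4)
  exact absurd h3 h5.ne'

/-- a finite point in the kernel of reduction has a large `x`-coordinate -/
theorem r3_big (h3 : A.valuation 3 = 1) (x y : M)
    (n : (E M).toAffine.Nonsingular x y) (h : red A (.some x y n) = 0) : 1 < A.valuation x := by
  by_contra hx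
  obtain ⟨_, _, n', e⟩ := red_some A h3 x y n (not_lt.1 hx)
  rw [h] at e
  exact WeierstrassCurve.Affine.Point.some_ne_zero n' e.symm

theorem zz_eq_zero (h3 : A.valuation 3 = 1) (P : (E M).toAffine.Point) (hP : red A P = 0)
    (h : zz P = 0) : P = 0 := by
  cases P with
  | zero => rfl
  | some x y n =>
    exfalso
    have hx := r3_big A h3 x y n hP
    have h1 := (zz_val A x y n hx).2
    change x / y = 0 at h
    rw [h, map_zero] at h1
    simp at h1

theorem r3_zz_pos (h3 : A.valuation 3 = 1) (P : (E M).toAffine.Point) (hP : red A P = 0)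
    (h : P ≠ 0) : 0 < A.valuation (zz P) := by
  rw [zero_lt_iff]
  exact (Valuation.ne_zero_iff _).2 (fun h0 => h (zz_eq_zero A h3 P hP h0))

theorem r3_zz_zero : zz (0 : (E M).toAffine.Point) = 0 := rfl

theorem r3_zz_neg (x y : M) (n : (E M).toAffine.Nonsingular x y) :
    zz (-(.some x y n : (E M).toAffine.Point)) = - (x / (y + 1)) := by
  rw [WeierstrassCurve.Affine.Point.neg_some]
  change x / (E M).toAffine.negY x y = _
  have e : (E M).toAffine.negY x y = -(y + 1) := by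
    simp only [WeierstrassCurve.Affine.negY, E, WeierstrassCurve.toAffine]
    ring
  rw [e, div_neg]

/-- Sketch: with `z = x / y`, `u = 1 / y` the curve is `u + u² = z³`; on the line `u = a z + c` one has
`z₁ + z₂ + z₃ = a²`, `a = (z₁² + z₁ z₂ + z₂²) / (1 + u₁ + u₂)` (tangent case: `a = 3 z² / (1 + 2 u)`),
`|a| ≤ max |z_i|²`, and `z(-P) = - z / (1 + u)`. -/
theorem zz_add (h3 : A.valuation 3 = 1) (P Q : (E M).toAffine.Point) (hP : red A P = 0)
    (hQ : red A Q = 0) (hne : P ≠ 0 ∨ Q ≠ 0) :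
    A.valuation (zz (P + Q) - zz P - zz Q) < max (A.valuation (zz P)) (A.valuation (zz Q)) := by
  have h30 : (3 : M) ≠ 0 := by
    intro h
    rw [h, map_zero] at h3
    exact zero_ne_one h3
  by_cases hP0 : P = 0
  · rw [hP0, zero_add, r3_zz_zero, sub_zero, sub_self, map_zero]
    exact lt_max_of_lt_right (r3_zz_pos A h3 Q hQ (hne.resolve_left (fun h => h hP0)))
  by_cases hQ0 : Q = 0
  · rw [hQ0, add_zero, r3_zz_zero, sub_zero, sub_self, map_zero]
    exact lt_max_of_lt_left (r3_zz_pos A h3 P hP hP0)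
  have hR : red A (-(P + Q)) = 0 := by
    rw [red_neg A h3, red_add A h3, hP, hQ, add_zero, neg_zero]
  have hzP := r3_zz_pos A h3 P hP hP0
  obtain ⟨R, hRe⟩ : ∃ R, R = -(P + Q) := ⟨_, rfl⟩
  rw [← hRe] at hR
  have hsum : P + Q + R = 0 := by rw [hRe]; exact add_neg_cancel _
  have hPQ : P + Q = -R := by rw [hRe, neg_neg]
  rw [hPQ]
  cases P with
  | zero => exact absurd rfl hP0
  | some x₁ y₁ n₁ =>
  cases Q with
  | zero => exact absurd rfl hQ0
  | some x₂ y₂ n₂ =>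
  have hx₁ := r3_big A h3 x₁ y₁ n₁ hP
  have hx₂ := r3_big A h3 x₂ y₂ n₂ hQ
  obtain ⟨hy₁, hy₁', -⟩ := r3_val_y A x₁ y₁ n₁ hx₁
  obtain ⟨hy₂, hy₂', -⟩ := r3_val_y A x₂ y₂ n₂ hx₂
  have hy₁0 : y₁ ≠ 0 := (Valuation.ne_zero_iff A.valuation).1 (zero_lt_one.trans hy₁).ne'
  have hy₂0 : y₂ ≠ 0 := (Valuation.ne_zero_iff A.valuation).1 (zero_lt_one.trans hy₂).ne'
  have hy₁1 : y₁ + 1 ≠ 0 := (Valuation.ne_zero_iff A.valuation).1
    (by rw [hy₁']; exact (zero_lt_one.trans hy₁).ne')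
  have hz₁ := (zz_val A x₁ y₁ n₁ hx₁).1
  have hz₂ := (zz_val A x₂ y₂ n₂ hx₂).1
  change 0 < A.valuation (x₁ / y₁) at hzP
  cases R with
  | zero =>
    -- `Q = - P`
    change A.valuation (zz (-(0 : (E M).toAffine.Point)) - _ - _) < _
    rw [neg_zero, r3_zz_zero]
    have hQe : (.some x₂ y₂ n₂ : (E M).toAffine.Point) = -(.some x₁ y₁ n₁) := by
      change (.some x₁ y₁ n₁ : (E M).toAffine.Point) + .some x₂ y₂ n₂ + 0 = 0 at hsum
      rw [add_zero] at hsum
      exact eq_neg_of_add_eq_zero_right hsum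
    rw [hQe]
    refine lt_max_of_lt_left ?_
    rw [r3_zz_neg]
    change A.valuation (0 - x₁ / y₁ - -(x₁ / (y₁ + 1))) < A.valuation (x₁ / y₁)
    have e : 0 - x₁ / y₁ - -(x₁ / (y₁ + 1)) = -(x₁ / y₁ / (y₁ + 1)) := by
      field_simp
      ring
    rw [e, Valuation.map_neg, map_div₀ _ (x₁ / y₁), hy₁', div_lt_iff₀ (zero_lt_one.trans hy₁)]
    exact lt_mul_of_one_lt_right hzP hy₁
  | some x₃ y₃ n₃ =>
    have hx₃ := r3_big A h3 x₃ y₃ n₃ hR
    obtain ⟨hy₃, hy₃', -⟩ := r3_val_y A x₃ y₃ n₃ hx₃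
    have hy₃0 : y₃ ≠ 0 := (Valuation.ne_zero_iff A.valuation).1 (zero_lt_one.trans hy₃).ne'
    have hy₃1 : y₃ + 1 ≠ 0 := (Valuation.ne_zero_iff A.valuation).1
      (by rw [hy₃']; exact (zero_lt_one.trans hy₃).ne')
    obtain ⟨l, m, d₁, d₂, d₃, e1, e2, e3⟩ := exists_line M h30 x₁ x₂ x₃ y₁ y₂ y₃ n₁ n₂ n₃ hsum
    have hm : m ≠ 0 := by
      intro hm
      rw [hm] at e3
      have hx₁0 : x₁ ≠ 0 := (Valuation.ne_zero_iff A.valuation).1 (zero_lt_one.trans hx₁).ne'
      have hx₂0 : x₂ ≠ 0 := (Valuation.ne_zero_iff A.valuation).1 (zero_lt_one.trans hx₂).ne'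
      have hx₃0 : x₃ ≠ 0 := (Valuation.ne_zero_iff A.valuation).1 (zero_lt_one.trans hx₃).ne'
      exact mul_ne_zero (mul_ne_zero hx₁0 hx₂0) hx₃0 (by rw [e3]; ring)
    have hprod : y₁ * y₂ * y₃ = m ^ 3 := by
      rw [d₁, d₂, d₃]
      linear_combination l ^ 3 * e3 + l ^ 2 * m * e2 + l * m ^ 2 * e1
    have hs1 : x₁ * y₂ * y₃ + x₂ * y₁ * y₃ + x₃ * y₁ * y₂ = l ^ 2 * m := by
      rw [d₁, d₂, d₃]
      linear_combination 3 * l ^ 2 * e3 + 2 * l * m * e2 + m ^ 2 * e1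
    have hs2 : x₁ * x₂ * y₃ + x₁ * x₃ * y₂ + x₂ * x₃ * y₁ = l * m ^ 2 + 2 * l * m := by
      rw [d₁, d₂, d₃]
      linear_combination 3 * l * e3 + m * e2
    obtain ⟨a, ha⟩ : ∃ a, a = -(l / m) := ⟨_, rfl⟩
    have hS1 : x₁ / y₁ + x₂ / y₂ + x₃ / y₃ = a ^ 2 := by
      have : x₁ / y₁ + x₂ / y₂ + x₃ / y₃ =
          (x₁ * y₂ * y₃ + x₂ * y₁ * y₃ + x₃ * y₁ * y₂) / (y₁ * y₂ * y₃) := by
        field_simp
      rw [this, hs1, hprod, ha]
      field_simp
    have hS2 : x₁ / y₁ * (x₂ / y₂) + x₁ / y₁ * (x₃ / y₃) + x₂ / y₂ * (x₃ / y₃) =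
        l / m + 2 * l / m ^ 2 := by
      have : x₁ / y₁ * (x₂ / y₂) + x₁ / y₁ * (x₃ / y₃) + x₂ / y₂ * (x₃ / y₃) =
          (x₁ * x₂ * y₃ + x₁ * x₃ * y₂ + x₂ * x₃ * y₁) / (y₁ * y₂ * y₃) := by
        field_simp
      rw [this, hs2, hprod]
      field_simp
    have hu₁ : 1 / y₁ = a * (x₁ / y₁) + 1 / m := by
      rw [ha]
      field_simp
      linear_combination -d₁
    have hu₂ : 1 / y₂ = a * (x₂ / y₂) + 1 / m := by
      rw [ha]
      field_simp
      linear_combination -d₂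
    have hA : a * (1 + 1 / y₁ + 1 / y₂) =
        (x₁ / y₁) ^ 2 + x₁ / y₁ * (x₂ / y₂) + (x₂ / y₂) ^ 2 := by
      have hl : l / m + 2 * l / m ^ 2 = -(a + 2 * a * (1 / m)) := by
        rw [ha]; field_simp; ring
      rw [hl] at hS2
      rw [hu₁, hu₂]
      linear_combination -(x₁ / y₁ + x₂ / y₂) * hS1 + hS2
    -- notation
    set z₁ := x₁ / y₁ with hz₁d
    set z₂ := x₂ / y₂ with hz₂d
    set z₃ := x₃ / y₃ with hz₃d
    set μ := max (A.valuation z₁) (A.valuation z₂) with hμ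
    have hμ1 : μ < 1 := max_lt hz₁ hz₂
    have hμ0 : 0 < μ := lt_max_of_lt_left hzP
    have hb₁ : A.valuation z₁ ≤ μ := le_max_left _ _
    have hb₂ : A.valuation z₂ ≤ μ := le_max_right _ _
    have hw₁ : A.valuation (1 / y₁) < 1 := by
      rw [map_div₀, map_one, div_lt_one₀ (zero_lt_one.trans hy₁)]
      exact hy₁
    have hw₂ : A.valuation (1 / y₂) < 1 := by
      rw [map_div₀, map_one, div_lt_one₀ (zero_lt_one.trans hy₂)]
      exact hy₂
    have hden : A.valuation (1 + 1 / y₁ + 1 / y₂) = 1 := by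
      have h1 : A.valuation (1 / y₁ + 1 / y₂) < 1 := Valuation.map_add_lt _ hw₁ hw₂
      rw [add_assoc, Valuation.map_add_eq_of_lt_left _ (by rw [map_one]; exact h1), map_one]
    have hva : A.valuation a ≤ μ ^ 2 := by
      have h1 : A.valuation a = A.valuation (z₁ ^ 2 + z₁ * z₂ + z₂ ^ 2) := by
        rw [← hA, map_mul, hden, mul_one]
      rw [h1]
      refine (Valuation.map_add _ _ _).trans (max_le ((Valuation.map_add _ _ _).trans
        (max_le ?_ ?_)) ?_)
      · rw [map_pow]; exact pow_le_pow_left₀ zero_le hb₁ 2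
      · rw [map_mul, sq]; exact mul_le_mul' hb₁ hb₂
      · rw [map_pow]; exact pow_le_pow_left₀ zero_le hb₂ 2
    have hμ2 : μ ^ 2 < 1 := pow_lt_one₀ zero_le hμ1 (by norm_num)
    have hva2 : A.valuation (a ^ 2) < μ := by
      rw [map_pow]
      calc A.valuation a ^ 2 ≤ (μ ^ 2) ^ 2 := pow_le_pow_left₀ zero_le hva 2
        _ = μ * μ ^ 3 := by rw [← pow_mul, ← pow_succ']
        _ < μ * 1 := by
          apply mul_lt_mul_of_pos_left _ hμ0
          exact pow_lt_one₀ zero_le hμ1 (by norm_num)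
        _ = μ := mul_one _
    have hvz₃ : A.valuation z₃ ≤ μ := by
      have e : z₃ = a ^ 2 - z₁ - z₂ := by rw [← hS1]; ring
      rw [e]
      exact (Valuation.map_sub _ _ _).trans (max_le ((Valuation.map_sub _ _ _).trans
        (max_le hva2.le hb₁)) hb₂)
    rw [r3_zz_neg]
    change A.valuation (-(x₃ / (y₃ + 1)) - z₁ - z₂) < μ
    have e : -(x₃ / (y₃ + 1)) - z₁ - z₂ = z₃ / (y₃ + 1) - a ^ 2 := by
      rw [← hS1, hz₃d]
      field_simp
      ring
    rw [e]
    refine Valuation.map_sub_lt _ ?_ hva2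
    rw [map_div₀, hy₃', div_lt_iff₀ (zero_lt_one.trans hy₃)]
    exact lt_of_le_of_lt hvz₃ (lt_mul_of_one_lt_right hμ0 hy₃)

end CF
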