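import Pool.Agent.MP_9ab903_nt.CF.Defs
import Pool.Agent.MP_9ab903_nt.CF.R3
import Pool.Agent.MP_9ab903_nt.AN.A6

set_option autoImplicit false

open NumberField IsDedekindDomain
open CM27 CMT
open scoped ComplexConjugate Classical

namespace CF

/-! ## [CF-R4] the kernel of reduction is an `ℤ[ω]`-module (file R4.lean; uses R2, R3) -/

theorem r4_red_zsmul (A : ValuationSubring ℂ) (h3 : A.valuation 3 = 1) (n : ℤ)
    (P : (E ℂ).toAffine.Point) (hP : red A P = 0) : red A (n • P) = 0 := by
  have h := map_zsmul (AddMonoidHom.mk' (red A) (fun P Q => red_add A h3 P Q)) n P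
  change red A (n • P) = n • red A P at h
  rw [hP] at h
  exact h.trans (zsmul_zero _)

theorem r4_val_w (A : ValuationSubring ℂ) : A.valuation w = 1 := by
  have h : A.valuation w ^ 3 = 1 := by rw [← map_pow, a6_w3, map_one]
  exact (pow_eq_one_iff.1 h).resolve_right (by norm_num)

theorem r4_val_emb (A : ValuationSubring ℂ) (a : Eis) : A.valuation (emb a) ≤ 1 := by
  rw [A.valuation_le_one_iff, emb_apply]
  have hw : w ∈ A := (A.valuation_le_one_iff w).1 (r4_val_w A).le
  exact A.add_mem _ _ (intCast_mem A _) (A.mul_mem _ _ (intCast_mem A _) hw)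

/-- a finite point in the kernel of reduction has a large `x`-coordinate -/
theorem r4_big (A : ValuationSubring ℂ) (h3 : A.valuation 3 = 1) (x y : ℂ)
    (n : (E ℂ).toAffine.Nonsingular x y) (h : red A (.some x y n) = 0) : 1 < A.valuation x := by
  by_contra hx
  obtain ⟨_, _, n', e⟩ := red_some A h3 x y n (not_lt.1 hx)
  rw [h] at e
  exact WeierstrassCurve.Affine.Point.some_ne_zero n' e.symm

theorem r4_w (A : ValuationSubring ℂ) (h3 : A.valuation 3 = 1) (z : ℂ)
    (hz : red A (pt z) = 0) : red A (pt (w * z)) = 0 ∧ zz (pt (w * z)) = w * zz (pt z) := by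
  rw [← ptW_pt]
  cases hP : pt z with
  | zero => exact ⟨rfl, by simp [ptW, zz]⟩
  | some x y n =>
    rw [hP] at hz
    have hx := r4_big A h3 x y n hz
    constructor
    · apply red_some_big
      rw [map_mul, r4_val_w, one_mul]
      exact hx
    · simp only [ptW, zz]
      ring

/-- `red (pt (ω z)) = 0` iff `red (pt z) = 0` (`x(ω z) = ω x(z)`), and the kernel is a subgroup. -/
theorem ker_emb_mul (A : ValuationSubring ℂ) (h3 : A.valuation 3 = 1) (z : ℂ)
    (hz : red A (pt z) = 0) (a : Eis) : red A (pt (emb a * z)) = 0 := by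
  have e : emb a * z = (a.re : ℂ) * z + (a.im : ℂ) * (w * z) := by
    rw [emb_apply]; ring
  rw [e, pt_add, red_add A h3, a7_pt_zsmul, a7_pt_zsmul, r4_red_zsmul A h3 _ _ hz,
    r4_red_zsmul A h3 _ _ (r4_w A h3 z hz).1, add_zero]

theorem r4_zz_zero : zz (0 : (E ℂ).toAffine.Point) = 0 := rfl

theorem r4_pt_zero : pt 0 = 0 := by
  have h := pt_emb 0
  rwa [map_zero] at h

/-- `zz (pt (a z)) ≡ a zz (pt z)` -/
theorem zz_emb_mul (A : ValuationSubring ℂ) (h3 : A.valuation 3 = 1) (z : ℂ)
    (hz : red A (pt z) = 0) (hz0 : pt z ≠ 0) (a : Eis) :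
    A.valuation (zz (pt (emb a * z)) - emb a * zz (pt z)) < A.valuation (zz (pt z)) := by
  set t := zz (pt z) with ht
  have ht0 : t ≠ 0 := fun h => hz0 (zz_eq_zero A h3 _ hz h)
  have hv : 0 < A.valuation t := by
    rw [zero_lt_iff]
    exact (Valuation.ne_zero_iff _).2 ht0
  let v := A.valuation
  -- the size of `zz (pt (a z))`
  have hle : ∀ a : Eis, v (zz (pt (emb a * z)) - emb a * t) < v t →
      v (zz (pt (emb a * z))) ≤ v t := by
    intro a ha
    have e : zz (pt (emb a * z)) = (zz (pt (emb a * z)) - emb a * t) + emb a * t := by ring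
    rw [e]
    refine (Valuation.map_add _ _ _).trans (max_le ha.le ?_)
    rw [map_mul]
    exact mul_le_of_le_one_left' (r4_val_emb A a)
  let H : AddSubgroup Eis :=
    { carrier := {a | v (zz (pt (emb a * z)) - emb a * t) < v t}
      zero_mem' := by
        change v (zz (pt (emb 0 * z)) - emb 0 * t) < v t
        rw [map_zero, zero_mul, zero_mul, r4_pt_zero, r4_zz_zero, sub_zero, map_zero]
        exact hv
      add_mem' := by
        intro a b ha hb
        change v (zz (pt (emb (a + b) * z)) - emb (a + b) * t) < v t
        change v (zz (pt (emb a * z)) - emb a * t) < v t at ha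
        change v (zz (pt (emb b * z)) - emb b * t) < v t at hb
        have e : emb (a + b) * z = emb a * z + emb b * z := by rw [map_add, add_mul]
        have e' : emb (a + b) * t = emb a * t + emb b * t := by rw [map_add, add_mul]
        rw [e, e', pt_add]
        by_cases hne : pt (emb a * z) ≠ 0 ∨ pt (emb b * z) ≠ 0
        · have h1 := zz_add A h3 _ _ (ker_emb_mul A h3 z hz a) (ker_emb_mul A h3 z hz b) hne
          have h2 : v (zz (pt (emb a * z) + pt (emb b * z)) - zz (pt (emb a * z)) -
              zz (pt (emb b * z))) < v t :=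
            h1.trans_le (max_le (hle a ha) (hle b hb))
          have e2 : zz (pt (emb a * z) + pt (emb b * z)) - (emb a * t + emb b * t) =
              (zz (pt (emb a * z) + pt (emb b * z)) - zz (pt (emb a * z)) - zz (pt (emb b * z))) +
              ((zz (pt (emb a * z)) - emb a * t) + (zz (pt (emb b * z)) - emb b * t)) := by ring
          rw [e2]
          exact Valuation.map_add_lt _ h2 (Valuation.map_add_lt _ ha hb)
        · push Not at hne
          have e2 : zz (pt (emb a * z) + pt (emb b * z)) - (emb a * t + emb b * t) =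
              (zz (pt (emb a * z)) - emb a * t) + (zz (pt (emb b * z)) - emb b * t) := by
            rw [hne.1, hne.2, add_zero, r4_zz_zero]
            ring
          rw [e2]
          exact Valuation.map_add_lt _ ha hb
      neg_mem' := by
        intro a ha
        change v (zz (pt (emb (-a) * z)) - emb (-a) * t) < v t
        change v (zz (pt (emb a * z)) - emb a * t) < v t at ha
        have e : emb (-a) * z = -(emb a * z) := by rw [map_neg, neg_mul]
        have e' : emb (-a) * t = -(emb a * t) := by rw [map_neg, neg_mul]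
        rw [e, e', pt_neg]
        set P := pt (emb a * z) with hP
        by_cases hne : P = 0
        · rw [hne, r4_zz_zero, zero_sub] at ha
          rw [hne, neg_zero, r4_zz_zero, zero_sub, neg_neg]
          rwa [Valuation.map_neg] at ha
        · have hk := ker_emb_mul A h3 z hz a
          have hk' : red A (-P) = 0 := by rw [red_neg A h3, hk, neg_zero]
          have h1 := zz_add A h3 P (-P) hk hk' (Or.inl hne)
          rw [add_neg_cancel, r4_zz_zero, zero_sub] at h1
          have h2 : v (zz P + zz (-P)) < max (v (zz P)) (v (zz (-P))) := by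
            have e2 : -zz P - zz (-P) = -(zz P + zz (-P)) := by ring
            rw [e2, Valuation.map_neg] at h1
            exact h1
          have h3' : v (zz P + zz (-P)) < v (zz P) := by
            rcases le_or_gt (v (zz (-P))) (v (zz P)) with h4 | h4
            · rwa [max_eq_left h4] at h2
            · exfalso
              rw [max_eq_right h4.le] at h2
              have h5 : v (zz P + zz (-P)) = v (zz (-P)) := Valuation.map_add_eq_of_lt_right _ h4
              exact (lt_irrefl _ (h5 ▸ h2))
          have e2 : zz (-P) - -(emb a * t) = (zz P + zz (-P)) - (zz P - emb a * t) := by ring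
          rw [e2]
          exact Valuation.map_sub_lt _ (h3'.trans_le (hle a ha)) ha }
  have h1 : (1 : Eis) ∈ H := by
    change v (zz (pt (emb 1 * z)) - emb 1 * t) < v t
    rw [map_one, one_mul, one_mul, ← ht, sub_self, map_zero]
    exact hv
  have hw : (⟨0, 1⟩ : Eis) ∈ H := by
    change v (zz (pt (emb ⟨0, 1⟩ * z)) - emb ⟨0, 1⟩ * t) < v t
    rw [a6_emb_om, (r4_w A h3 z hz).2, ← ht, sub_self, map_zero]
    exact hv
  have ha : a = a.re • (1 : Eis) + a.im • (⟨0, 1⟩ : Eis) := by
    ext <;> simp
  have : a ∈ H := by
    rw [ha]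
    exact H.add_mem (H.zsmul_mem h1 _) (H.zsmul_mem hw _)
  exact this

/-- no torsion of order prime to the residue characteristic in the kernel of reduction -/
theorem tors_inj (A : ValuationSubring ℂ) (h3 : A.valuation 3 = 1) (z : ℂ)
    (hz : red A (pt z) = 0) (g : Eis) (hg : A.valuation (emb g) = 1)
    (h : pt (emb g * z) = 0) : pt z = 0 := by
  by_contra hz0
  have h1 := zz_emb_mul A h3 z hz hz0 g
  rw [h, r4_zz_zero, zero_sub, Valuation.map_neg, map_mul, hg, one_mul] at h1
  exact lt_irrefl _ h1

end CF
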