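import Pool.Agent.MP_9ab903_nt.CF.Defs
import Pool.Agent.MP_9ab903_nt.CF.R4
import Pool.Agent.MP_9ab903_nt.CF.P1

set_option autoImplicit false

open NumberField IsDedekindDomain
open CM27 CMT
open scoped ComplexConjugate Classical

namespace CF

/-! ## [CF-P3] the points of order `b` are in the kernel of reduction at `b` (file P3.lean; uses
R2-R4, P1) -/

theorem p3_val_int (A : ValuationSubring ℂ) (n : ℤ) : A.valuation (n : ℂ) ≤ 1 :=
  (A.valuation_le_one_iff _).2 (intCast_mem A n)

theorem p3_val_w (A : ValuationSubring ℂ) : A.valuation w = 1 := by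
  have h : A.valuation w ^ 3 = 1 := by rw [← map_pow, a6_w3, map_one]
  exact (pow_eq_one_iff.1 h).resolve_right (by norm_num)

theorem p3_val_emb (A : ValuationSubring ℂ) (a : Eis) : A.valuation (emb a) ≤ 1 := by
  rw [emb_apply]
  refine (A.valuation.map_add _ _).trans (max_le (p3_val_int A _) ?_)
  rw [map_mul, p3_val_w, mul_one]
  exact p3_val_int A _

theorem p3_val_one_add (A : ValuationSubring ℂ) (x : ℂ) (h : A.valuation x < 1) :
    A.valuation (1 + x) = 1 := by
  have h1 : A.valuation x < A.valuation 1 := by rwa [map_one]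
  rw [A.valuation.map_add_eq_of_lt_left h1, map_one]

/-- `3` is a unit at `b` -/
theorem val_three (A : ValuationSubring ℂ) (b : Eis) (hb : Primary b)
    (hA : A.valuation (emb b) < 1) : A.valuation 3 = 1 := by
  have h3 : A.valuation 3 ≤ 1 := by
    have := p3_val_int A 3
    exact_mod_cast this
  rcases h3.lt_or_eq with h | h
  · exfalso
    obtain ⟨c, hc⟩ := hb
    have e : emb b = 1 + 3 * emb c := by
      have : b = 1 + 3 * c := by rw [← hc]; ring
      rw [this, map_add, map_mul, map_one, map_ofNat]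
    have h1 : A.valuation (3 * emb c) < 1 := by
      rw [map_mul]
      calc A.valuation 3 * A.valuation (emb c) ≤ A.valuation 3 * 1 :=
            mul_le_mul_right (p3_val_emb A c) _
        _ = A.valuation 3 := mul_one _
        _ < 1 := h
    rw [e, p3_val_one_add A _ h1] at hA
    exact lt_irrefl _ hA
  · exact h

theorem p3_residue_zero_iff (A : ValuationSubring ℂ) (x : A) :
    IsLocalRing.residue A x = 0 ↔ A.valuation (x : ℂ) < 1 := by
  rw [IsLocalRing.residue_eq_zero_iff, A.valuation_lt_one_iff]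

theorem p3_three_ne (A : ValuationSubring ℂ) (h3 : A.valuation 3 = 1) :
    (3 : IsLocalRing.ResidueField A) ≠ 0 := by
  have h : IsLocalRing.residue A (3 : A) ≠ 0 := by
    rw [Ne, p3_residue_zero_iff]
    have : ((3 : A) : ℂ) = 3 := rfl
    rw [this, h3]
    exact lt_irrefl _
  rwa [map_ofNat] at h

/-- points with `x = 0` are killed by `3` -/
theorem p3_flex (k : Type) [Field k] (h3 : (3 : k) ≠ 0) (x y : k)
    (n : (E k).toAffine.Nonsingular x y) (hx : x = 0) :
    (3 : ℕ) • (WeierstrassCurve.Affine.Point.some x y n : (E k).toAffine.Point) = 0 := by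
  subst hx
  have heq := (WeierstrassCurve.Affine.equation_iff _ _).1 n.1
  simp only [E] at heq
  obtain ⟨n1, n2, n3, h⟩ := col k h3 0 y 0 0 0 (by ring) (by ring) (by linear_combination -heq)
  have e : ∀ (m : (E k).toAffine.Nonsingular 0 (0 * 0 + y)),
      (WeierstrassCurve.Affine.Point.some 0 (0 * 0 + y) m : (E k).toAffine.Point) =
        .some 0 y n := by
    intro m
    congr 1
    ring
  rw [e n1, add_assoc] at h
  rw [succ_nsmul, succ_nsmul, succ_nsmul, zero_nsmul, zero_add, add_assoc]
  exact h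

/-- reduction as a homomorphism -/
noncomputable def p3_hom (A : ValuationSubring ℂ) (h3 : A.valuation 3 = 1) :
    (E ℂ).toAffine.Point →+ (E (IsLocalRing.ResidueField A)).toAffine.Point where
  toFun := red A
  map_zero' := red_zero A
  map_add' := red_add A h3

theorem p3_red_nsmul (A : ValuationSubring ℂ) (h3 : A.valuation 3 = 1) (n : ℕ) (z : ℂ) :
    n • red A (pt z) = red A (pt (n * z)) := by
  have h1 := (map_nsmul (p3_hom A h3) n (pt z)).symm
  have h2 : pt ((n : ℂ) * z) = n • pt z := by
    have := a7_pt_zsmul n z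
    rw [natCast_zsmul] at this
    rw [← this]
    push_cast
    rfl
  rw [h2]
  exact h1

theorem p3_pt_zero : pt 0 = 0 := (pt_eq_zero_iff 0).2 ⟨0, map_zero _⟩

theorem p3_third_val (A : ValuationSubring ℂ) : A.valuation (xw (1 / 3)) = 1 := by
  have h : A.valuation (xw (1 / 3)) ^ 3 = 1 := by
    rw [← map_pow, third.1, Valuation.map_neg, map_one]
  exact (pow_eq_one_iff.1 h).resolve_right (by norm_num)

theorem p3_red_some (A : ValuationSubring ℂ) (h3 : A.valuation 3 = 1) (z : ℂ)
    (hz : z ∉ Set.range emb) (hx : A.valuation (xw z) ≤ 1) :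
    ∃ (x y : IsLocalRing.ResidueField A)
      (n : (E (IsLocalRing.ResidueField A)).toAffine.Nonsingular x y),
      red A (pt z) = .some x y n ∧ (x = 0 ↔ A.valuation (xw z) < 1) := by
  obtain ⟨h1, h2⟩ := pt_of_not_mem z hz
  obtain ⟨hx', hy', n', h⟩ := red_some A h3 _ _ h1 hx
  refine ⟨_, _, n', ?_, ?_⟩
  · rw [h2, h]
  · exact p3_residue_zero_iff A ⟨_, hx'⟩

theorem p3_three_third (A : ValuationSubring ℂ) (h3 : A.valuation 3 = 1) :
    (3 : ℕ) • red A (pt (1 / 3)) = 0 := by
  rw [p3_red_nsmul A h3]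
  have : ((3 : ℕ) : ℂ) * (1 / 3) = emb 1 := by
    rw [map_one]; push_cast; norm_num
  rw [this, pt_emb, red_zero]

theorem p3_norm_kill (A : ValuationSubring ℂ) (h3 : A.valuation 3 = 1) (b : Eis) (hb0 : b ≠ 0)
    (n : ℕ) (hn : b.norm = n) (δ : Eis) : n • red A (pt (emb δ / emb b)) = 0 := by
  rw [p3_red_nsmul A h3]
  have hb : emb b ≠ 0 := fun h => hb0 (emb_injective (by rw [h, map_zero]))
  have e : ((n : ℕ) : ℂ) * (emb δ / emb b) = emb (star b * δ) := by
    have h1 : ((n : ℕ) : ℂ) = emb b * emb (star b) := by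
      rw [← map_mul, a3_mul_star, hn]
      simp
    rw [h1, map_mul]
    field_simp
  rw [e, pt_emb, red_zero]

theorem p3_unit (A : ValuationSubring ℂ) (b : Eis) (hb : Primary b) (hb0 : b ≠ 0)
    (h3 : A.valuation 3 = 1) (δ : Eis) : A.valuation (xw (1 / 3 + emb δ / emb b)) = 1 := by
  obtain ⟨n, hn⟩ := Int.eq_ofNat_of_zero_le (norm_nonneg' b)
  have hn' : b.norm = (n : ℤ) := hn
  have hkill := p3_norm_kill A h3 b hb0 n hn' δ
  have hadd : red A (pt (1 / 3 + emb δ / emb b)) =
      red A (pt (1 / 3)) + red A (pt (emb δ / emb b)) := by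
    rw [pt_add, red_add A h3]
  obtain ⟨xP, yP, nP, hP, hP0⟩ := p3_red_some A h3 (1 / 3) a6_third_not_mem
    (p3_third_val A).le
  have hxP : xP ≠ 0 := by
    rw [Ne, hP0, p3_third_val]
    exact lt_irrefl _
  -- if `3` kills the reduction then it is the reduction of the point `1/3`
  have key : (3 : ℕ) • red A (pt (1 / 3 + emb δ / emb b)) = 0 →
      red A (pt (1 / 3 + emb δ / emb b)) = red A (pt (1 / 3)) := by
    intro h
    rw [hadd, nsmul_add, p3_three_third A h3, zero_add] at h
    have hmod : b.norm % 3 = 1 := a3_primary_norm hb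
    have hcop : Nat.Coprime 3 n := by
      rw [Nat.Prime.coprime_iff_not_dvd Nat.prime_three]
      omega
    have h0 : red A (pt (emb δ / emb b)) = 0 := by
      have h4 : addOrderOf (red A (pt (emb δ / emb b))) ∣ 3 := addOrderOf_dvd_of_nsmul_eq_zero h
      have h5 : addOrderOf (red A (pt (emb δ / emb b))) ∣ n :=
        addOrderOf_dvd_of_nsmul_eq_zero hkill
      have h6 : addOrderOf (red A (pt (emb δ / emb b))) ∣ 1 := by
        have := Nat.dvd_gcd h4 h5
        rwa [hcop] at this
      exact AddMonoid.addOrderOf_eq_one_iff.1 (Nat.dvd_one.1 h6)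
    rw [hadd, h0, add_zero]
  have hne : red A (pt (1 / 3 + emb δ / emb b)) ≠ 0 := by
    intro h
    have h1 := key (by rw [h, nsmul_zero])
    rw [h, hP] at h1
    exact WeierstrassCurve.Affine.Point.some_ne_zero _ h1.symm
  have hmem : (1 / 3 + emb δ / emb b) ∉ Set.range emb := by
    intro h
    apply hne
    rw [(pt_eq_zero_iff _).2 h, red_zero]
  have hle : A.valuation (xw (1 / 3 + emb δ / emb b)) ≤ 1 := by
    by_contra hlt
    push Not at hlt
    obtain ⟨h1, h2⟩ := pt_of_not_mem _ hmem
    apply hne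
    rw [h2, red_some_big A _ _ h1 hlt]
  obtain ⟨x, y, nn, hs, hx0⟩ := p3_red_some A h3 _ hmem hle
  rcases hle.lt_or_eq with hlt | heq
  · exfalso
    have hx := hx0.2 hlt
    have h1 := key (by rw [hs]; exact p3_flex _ (p3_three_ne A h3) x y nn hx)
    rw [hs, hP, WeierstrassCurve.Affine.Point.some.injEq] at h1
    exact hxP (by rw [← h1.1, hx])
  · exact heq

/-- the ideal of the `δ` such that `δ / b` is in the kernel of reduction -/
noncomputable def p3_ideal (A : ValuationSubring ℂ) (h3 : A.valuation 3 = 1) (b : Eis) :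
    Ideal Eis where
  carrier := {δ | red A (pt (emb δ / emb b)) = 0}
  zero_mem' := by
    change red A (pt (emb 0 / emb b)) = 0
    rw [map_zero, zero_div, p3_pt_zero, red_zero]
  add_mem' := by
    intro x y hx hy
    have hx' : red A (pt (emb x / emb b)) = 0 := hx
    have hy' : red A (pt (emb y / emb b)) = 0 := hy
    change red A (pt (emb (x + y) / emb b)) = 0
    rw [map_add, add_div, pt_add, red_add A h3, hx', hy', add_zero]
  smul_mem' := by
    intro c x hx
    have hx' : red A (pt (emb x / emb b)) = 0 := hx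
    change red A (pt (emb (c * x) / emb b)) = 0
    have := ker_emb_mul A h3 _ hx' c
    rw [map_mul, mul_div_assoc]
    exact this

/-- Sketch: `I = {δ | red (pt (δ/b)) = 0}` is an ideal of `ℤ[ω]` containing the prime `b` (R4), so it
is `(b)` or everything. If it is `(b)` then all `x(δ/b)`, `δ ∉ (b)`, are in `A`, so
`|C| ≤ |b|² < 1` for `C = b² ∏ x(δ/b)`. Let `t = 1/3`, so `x(t)³ = -1` (AN/A6 `third`),
`x(b t) = x(t)` as `b ≡ 1 mod 3`, and `∏_δ x(t + δ/b) = C x(t)`. But all `x(t + δ/b)` are units:
`red (pt (t + δ/b)) = red (pt t) + red (pt (δ/b))` is not `0` and not a point with `x = 0`, as those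
points and `red (pt t)` are killed by `3`, and `red (pt (δ/b))` is killed by `N b`, prime to `3`. -/
theorem red_b (A : ValuationSubring ℂ) (b : Eis) (hb : Primary b) (hbp : Prime b)
    (hA : A.valuation (emb b) < 1) (δ : Eis) : red A (pt (emb δ / emb b)) = 0 := by
  have h3 := val_three A b hb hA
  have hdom := eis_isDomain
  have hpid := eis_pid
  have hb0 : b ≠ 0 := hbp.ne_zero
  have heb : emb b ≠ 0 := fun h => hb0 (emb_injective (by rw [h, map_zero]))
  by_contra hδ
  have hbI : b ∈ p3_ideal A h3 b := by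
    change red A (pt (emb b / emb b)) = 0
    rw [div_self heb, ← map_one emb, pt_emb, red_zero]
  have hmax : (Ideal.span {b}).IsMaximal :=
    PrincipalIdealRing.isMaximal_of_irreducible hbp.irreducible
  have hne : p3_ideal A h3 b ≠ ⊤ := by
    intro h
    apply hδ
    have : δ ∈ p3_ideal A h3 b := by rw [h]; trivial
    exact this
  have hI : Ideal.span {b} = p3_ideal A h3 b :=
    hmax.eq_of_le hne ((Ideal.span_singleton_le_iff_mem _).2 hbI)
  -- the values of `x` at the other points are in `A`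
  have hle : ∀ γ : Eis, γ ∉ Ideal.span {b} → A.valuation (xw (emb γ / emb b)) ≤ 1 := by
    intro γ hγ
    rw [hI] at hγ
    have hγ' : red A (pt (emb γ / emb b)) ≠ 0 := hγ
    by_contra hlt
    push Not at hlt
    apply hγ'
    by_cases hmem : emb γ / emb b ∈ Set.range emb
    · rw [(pt_eq_zero_iff _).2 hmem, red_zero]
    · obtain ⟨h1, h2⟩ := pt_of_not_mem _ hmem
      rw [h2, red_some_big A _ _ h1 hlt]
  obtain ⟨c, hc⟩ := id hb
  have e : emb b * (1 / 3) = 1 / 3 + emb c := by
    have : b = 1 + 3 * c := by rw [← hc]; ring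
    rw [this, map_add, map_mul, map_one, map_ofNat]
    ring
  have hnm : emb b * (1 / 3) ∉ Set.range emb := by
    rw [e, a5_mem_add]
    exact a6_third_not_mem
  have hfin : Finite (Eis ⧸ Ideal.span {b}) := I3.quot_finite b hb0
  have : Fintype (Eis ⧸ Ideal.span {b}) := Fintype.ofFinite _
  have : Fintype {δ : Eis ⧸ Ideal.span {b} // δ ≠ 0} := Fintype.ofFinite _
  have hprod := prod_x b hb (1 / 3) hnm
  rw [e, xw_add, finprod_eq_prod_of_fintype, finprod_eq_prod_of_fintype] at hprod
  have hv := congrArg A.valuation hprod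
  rw [map_prod, map_mul, p3_third_val, mul_one, map_mul, map_pow, map_prod] at hv
  rw [Finset.prod_eq_one (fun i _ => p3_unit A b hb hb0 h3 _)] at hv
  have h1 : ∏ i : {δ : Eis ⧸ Ideal.span {b} // δ ≠ 0},
      A.valuation (xw (emb i.1.out / emb b)) ≤ 1 := by
    apply Finset.prod_le_one'
    intro i _
    apply hle
    intro hmem
    apply i.2
    rw [← Ideal.Quotient.eq_zero_iff_mem] at hmem
    exact (Quotient.out_eq' i.1).symm.trans hmem
  have h2 : A.valuation (emb b) ^ 2 < 1 := pow_lt_one₀ zero_le hA (by norm_num)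
  have h4 : A.valuation (emb b) ^ 2 * ∏ i : {δ : Eis ⧸ Ideal.span {b} // δ ≠ 0},
      A.valuation (xw (emb i.1.out / emb b)) < 1 :=
    lt_of_le_of_lt (mul_le_mul_right h1 _) (by rwa [mul_one])
  rw [← hv] at h4
  exact lt_irrefl _ h4

end CF
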