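import Pool.Agent.MP_9ab903_nt.CF.Defs
import Pool.Agent.MP_9ab903_nt.CF.P3
import Pool.Agent.MP_9ab903_nt.CF.P2

set_option autoImplicit false

open NumberField IsDedekindDomain
open CM27 CMT
open scoped ComplexConjugate Classical

namespace CF

/-! ## [CF-P4] Kronecker's congruence: multiplication by `b` reduces to the Frobenius (file P4.lean;
uses R2-R4, P1-P3) -/

/-- the number of residue classes modulo `b` is the norm of `b` -/
theorem p4_card (b : Eis) : Nat.card (Eis ⧸ Ideal.span {b}) = b.norm.natAbs := by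
  have := eis_isDomain
  have := eis_pid
  have h1 := Ideal.absNorm_span_singleton (S := Eis) b
  have h2 : Algebra.norm ℤ b = b.norm := by
    rw [Algebra.norm_apply, ← QuadraticAlgebra.det_toLinearMap_eq_norm]
    rfl
  rw [h2, Ideal.absNorm_apply, Submodule.cardQuot_apply] at h1
  exact h1

/-- two points with the same reduction have congruent coordinates -/
theorem p4_congr (A : ValuationSubring ℂ) (h3 : A.valuation 3 = 1) (z z' : ℂ)
    (hz : z ∉ Set.range emb) (hx : A.valuation (xw z) ≤ 1)
    (h : red A (pt z') = red A (pt z)) :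
    z' ∉ Set.range emb ∧ A.valuation (xw z' - xw z) < 1 ∧ A.valuation (yy z' - yy z) < 1 ∧
      A.valuation (yy z) ≤ 1 := by
  obtain ⟨n, hn⟩ := pt_of_not_mem z hz
  obtain ⟨hx1, hy1, n1, h1⟩ := red_some A h3 _ _ n hx
  rw [hn, h1] at h
  have hz' : z' ∉ Set.range emb := by
    rintro ⟨c, rfl⟩
    rw [pt_emb, red_zero] at h
    exact absurd h (by rintro ⟨⟩)
  obtain ⟨n', hn'⟩ := pt_of_not_mem z' hz'
  have hx' : A.valuation (xw z') ≤ 1 := by
    by_contra hcon
    push Not at hcon
    rw [hn', red_some_big A _ _ n' hcon] at h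
    exact absurd h (by rintro ⟨⟩)
  obtain ⟨hx2, hy2, n2, h2⟩ := red_some A h3 _ _ n' hx'
  rw [hn', h2] at h
  have h4 := (WeierstrassCurve.Affine.Point.some.injEq _ _ _ _ _ _).mp h
  refine ⟨hz', ?_, ?_, ?_⟩
  · have h5 := h4.1
    rw [← sub_eq_zero, ← map_sub, IsLocalRing.residue_eq_zero_iff,
      ValuationSubring.valuation_lt_one_iff] at h5
    exact h5
  · have h5 := h4.2
    rw [← sub_eq_zero, ← map_sub, IsLocalRing.residue_eq_zero_iff,
      ValuationSubring.valuation_lt_one_iff] at h5
    exact h5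
  · exact (ValuationSubring.valuation_le_one_iff _ _).2 hy1

/-- congruent factors give congruent products -/
theorem p4_prod (A : ValuationSubring ℂ) {ι : Type} (s : Finset ι) (F : ι → ℂ) (c : ℂ)
    (hc : A.valuation c ≤ 1) (h : ∀ i ∈ s, A.valuation (F i - c) < 1) :
    A.valuation (∏ i ∈ s, F i - c ^ s.card) < 1 := by
  induction s using Finset.induction_on with
  | empty => simp
  | insert a s ha ih =>
    rw [Finset.prod_insert ha, Finset.card_insert_of_notMem ha]
    have h1 := ih (fun i hi => h i (Finset.mem_insert_of_mem hi))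
    have h2 := h a (Finset.mem_insert_self a s)
    have h3 : A.valuation (F a) ≤ 1 := by
      have e : F a = (F a - c) + c := by ring
      rw [e]
      exact (A.valuation.map_add _ _).trans (max_le h2.le hc)
    have e : F a * ∏ i ∈ s, F i - c ^ (s.card + 1) =
        F a * (∏ i ∈ s, F i - c ^ s.card) + (F a - c) * c ^ s.card := by ring
    rw [e]
    refine A.valuation.map_add_lt ?_ ?_
    · rw [map_mul]
      exact (mul_le_of_le_one_left' h3).trans_lt h1
    · rw [map_mul, map_pow]
      exact mul_lt_one_of_lt_of_le h2 (pow_le_one' hc _)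

theorem p4_val_one (A : ValuationSubring ℂ) {x : ℂ} {n : ℕ} (hn : n ≠ 0)
    (h : A.valuation x ^ n = 1) : A.valuation x = 1 := by
  rcases lt_trichotomy (A.valuation x) 1 with h1 | h1 | h1
  · exact absurd h (pow_lt_one₀ zero_le h1 hn).ne
  · exact h1
  · exact absurd h (one_lt_pow₀ h1 hn).ne'

/-- the congruence for a function `f` with a product formula -/
theorem p4_main (A : ValuationSubring ℂ) (b : Eis) (hb : Primary b)
    (f : ℂ → ℂ) (C : ℂ) (hper : ∀ (z : ℂ) (a : Eis), f (z + emb a) = f z)
    (hprod : ∀ z : ℂ, emb b * z ∉ Set.range emb →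
      ∏ᶠ δ : Eis ⧸ Ideal.span {b}, f (z + emb δ.out / emb b) = C * f (emb b * z))
    (hcong : ∀ z : ℂ, z ∉ Set.range emb → A.valuation (xw z) ≤ 1 →
      A.valuation (f z) ≤ 1 ∧ ∀ δ : Eis, A.valuation (f (z + emb δ / emb b) - f z) < 1)
    (hmem : ∀ z : ℂ, z ∉ Set.range emb → A.valuation (xw z) ≤ 1 → emb b * z ∉ Set.range emb)
    (ζ : ℂ) (hζ : f (1 / 3) ^ 3 = ζ) (hζ1 : ζ = 1 ∨ ζ = -1)
    (hζ2 : ∀ k : ℕ, b.norm.natAbs = 3 * k + 1 → A.valuation (ζ ^ k - 1) < 1)
    (z : ℂ) (hz : z ∉ Set.range emb) (hx : A.valuation (xw z) ≤ 1) :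
    A.valuation (f (emb b * z) - f z ^ b.norm.natAbs) < 1 := by
  have hb0 : b ≠ 0 := by
    rintro rfl
    obtain ⟨a, ha⟩ := hb
    have h1 := congrArg QuadraticAlgebra.re ha
    have h3 : (3 : Eis).re = 3 := rfl
    have h4 : (3 : Eis).im = 0 := rfl
    simp only [QuadraticAlgebra.re_sub, QuadraticAlgebra.re_mul, QuadraticAlgebra.re_zero,
      QuadraticAlgebra.re_one, h3, h4] at h1
    omega
  have hfin : Finite (Eis ⧸ Ideal.span {b}) := I3.quot_finite b hb0
  have : Fintype (Eis ⧸ Ideal.span {b}) := Fintype.ofFinite _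
  have hcard : (Finset.univ : Finset (Eis ⧸ Ideal.span {b})).card = b.norm.natAbs := by
    rw [← p4_card b, Nat.card_eq_fintype_card, Finset.card_univ]
  -- the congruence for the product
  have key : ∀ z : ℂ, z ∉ Set.range emb → A.valuation (xw z) ≤ 1 →
      A.valuation (C * f (emb b * z) - f z ^ b.norm.natAbs) < 1 := by
    intro z hz hx
    obtain ⟨h1, h2⟩ := hcong z hz hx
    rw [← hprod z (hmem z hz hx), finprod_eq_prod_of_fintype, ← hcard]
    exact p4_prod A _ _ _ h1 (fun δ _ => h2 _)
  -- the constant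
  have ht3 := third.1
  have hxt : A.valuation (xw (1 / 3)) ≤ 1 := by
    have h1 : A.valuation (xw (1 / 3)) ^ 3 = 1 := by
      rw [← map_pow, ht3, Valuation.map_neg, map_one]
    exact (p4_val_one A (by norm_num) h1).le
  have hft : A.valuation (f (1 / 3)) = 1 := by
    have h1 : A.valuation (f (1 / 3)) ^ 3 = 1 := by
      rw [← map_pow, hζ]
      rcases hζ1 with h | h <;> rw [h]
      · exact map_one _
      · rw [Valuation.map_neg, map_one]
    exact p4_val_one A (by norm_num) h1
  have hbt : f (emb b * (1 / 3)) = f (1 / 3) := by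
    obtain ⟨a, ha⟩ := hb
    have h1 : emb b = 1 + 3 * emb a := by
      have h2 : b = 1 + 3 * a := by linear_combination ha
      rw [h2, map_add, map_one, map_mul, map_ofNat]
    have h2 : emb b * (1 / 3) = 1 / 3 + emb a := by
      rw [h1]; ring
    rw [h2, hper]
  have hC : A.valuation (C - 1) < 1 := by
    have h1 := key (1 / 3) a6_third_not_mem hxt
    rw [hbt] at h1
    have hq : b.norm.natAbs % 3 = 1 := by
      have h2 := b7_norm_mod b hb
      have h3 := norm_nonneg' b
      omega
    obtain ⟨k, hk⟩ : ∃ k, b.norm.natAbs = 3 * k + 1 := ⟨b.norm.natAbs / 3, by omega⟩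
    rw [hk, pow_succ, pow_mul, hζ, ← sub_mul, map_mul, hft, mul_one] at h1
    have e : C - 1 = (C - ζ ^ k) + (ζ ^ k - 1) := by ring
    rw [e]
    exact A.valuation.map_add_lt h1 (hζ2 k hk)
  have hC1 : A.valuation C = 1 := by
    have e : C = 1 + (C - 1) := by ring
    rw [e]
    exact A.valuation.map_one_add_of_lt hC
  have h1 := key z hz hx
  have h2 := (hcong z hz hx).1
  have h3 : A.valuation (f (emb b * z)) ≤ 1 := by
    have e : A.valuation (f (emb b * z)) = A.valuation (C * f (emb b * z)) := by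
      rw [map_mul, hC1, one_mul]
    have e2 : C * f (emb b * z) =
        (C * f (emb b * z) - f z ^ b.norm.natAbs) + f z ^ b.norm.natAbs := by ring
    rw [e, e2]
    refine (A.valuation.map_add _ _).trans (max_le h1.le ?_)
    rw [map_pow]
    exact pow_le_one' h2 _
  have e : f (emb b * z) - f z ^ b.norm.natAbs =
      (C * f (emb b * z) - f z ^ b.norm.natAbs) - (C - 1) * f (emb b * z) := by ring
  rw [e]
  refine A.valuation.map_sub_lt h1 ?_
  rw [map_mul]
  exact mul_lt_one_of_lt_of_le hC h3

/-- Sketch: `pt (z + δ/b)` and `pt z` have the same reduction (P3), so `∏_δ x(z + δ/b) ≡ x(z)^q`,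
`q = N b = #(ℤ[ω]/b)`, and `= C x(b z)`. The constant: the same for `z = 1/3`, where `x(1/3)³ = -1`
and `x(b/3) = x(1/3)`: `C ≡ x(1/3)^(q-1) ≡ 1` (`3 | q - 1`, and `q` is odd or `2 ≡ 0`). For `y`: use the
point `(0, -1)`, which is fixed by `b`. -/
theorem frob_congr (A : ValuationSubring ℂ) (b : Eis) (hb : Primary b) (hbp : Prime b)
    (hA : A.valuation (emb b) < 1) (z : ℂ) (hz : z ∉ Set.range emb)
    (hx : A.valuation (xw z) ≤ 1) :
    emb b * z ∉ Set.range emb ∧
      A.valuation (xw (emb b * z) - xw z ^ b.norm.natAbs) < 1 ∧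
      A.valuation (yy (emb b * z) - yy z ^ b.norm.natAbs) < 1 := by
  have h3 := val_three A b hb hA
  have hb0 : emb b ≠ 0 := by
    intro h
    exact hbp.ne_zero (emb_injective (by rw [h, map_zero]))
  have hmem : ∀ z : ℂ, z ∉ Set.range emb → A.valuation (xw z) ≤ 1 →
      emb b * z ∉ Set.range emb := by
    rintro z hz hx ⟨c, hc⟩
    obtain ⟨n, hn⟩ := pt_of_not_mem z hz
    obtain ⟨hx1, hy1, n1, h1⟩ := red_some A h3 _ _ n hx
    have h2 := red_b A b hb hbp hA c
    have e : emb c / emb b = z := by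
      rw [hc]; field_simp
    rw [e, hn, h1] at h2
    exact absurd h2 (by rintro ⟨⟩)
  have hc : ∀ z : ℂ, z ∉ Set.range emb → A.valuation (xw z) ≤ 1 → ∀ δ : Eis,
      A.valuation (xw (z + emb δ / emb b) - xw z) < 1 ∧
      A.valuation (yy (z + emb δ / emb b) - yy z) < 1 ∧ A.valuation (yy z) ≤ 1 := by
    intro z hz hx δ
    have h1 : red A (pt (z + emb δ / emb b)) = red A (pt z) := by
      rw [pt_add, red_add A h3, red_b A b hb hbp hA, add_zero]
    exact (p4_congr A h3 z _ hz hx h1).2
  refine ⟨hmem z hz hx, ?_, ?_⟩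
  · refine p4_main A b hb xw _ xw_add (prod_x b hb)
      (fun z hz hx => ⟨hx, fun δ => (hc z hz hx δ).1⟩) hmem (-1) third.1 (Or.inr rfl) ?_ z hz hx
    intro k hk
    rcases Nat.even_or_odd k with he | ho
    · rw [he.neg_one_pow]; simp
    · rw [ho.neg_one_pow]
      have h2 : ¬ Odd b.norm := by
        rw [Int.not_odd_iff_even, Int.even_iff]
        have h4 := norm_nonneg' b
        obtain ⟨j, hj⟩ := ho
        omega
      obtain ⟨c, hc⟩ := b7_even_dvd b h2
      have hdom := eis_isDomain
      have hu : IsUnit c := by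
        rcases hbp.irreducible.isUnit_or_isUnit hc with h5 | h5
        · exfalso
          rw [eis_isUnit_iff, norm_eq] at h5
          have h6 : (2 : Eis).re = 2 := rfl
          have h7 : (2 : Eis).im = 0 := rfl
          rw [h6, h7] at h5
          norm_num at h5
        · exact h5
      obtain ⟨d, hd⟩ := hu.exists_right_inv
      have hint : ∀ a : Eis, A.valuation (emb a) ≤ 1 := by
        intro a
        have hw1 : A.valuation w = 1 := by
          refine p4_val_one A (n := 3) (by norm_num) ?_
          rw [← map_pow, a1_w3, map_one]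
        have hi : ∀ n : ℤ, A.valuation (n : ℂ) ≤ 1 := by
          intro n
          rw [ValuationSubring.valuation_le_one_iff]
          exact intCast_mem A n
        rw [emb_apply]
        refine (A.valuation.map_add _ _).trans (max_le (hi _) ?_)
        rw [map_mul, hw1, mul_one]
        exact hi _
      have h8 : (2 : ℂ) = emb b * emb d := by
        rw [hc, ← map_mul, mul_assoc, hd, mul_one, map_ofNat]
      have e : (-1 - 1 : ℂ) = -(emb b * emb d) := by rw [← h8]; norm_num
      rw [e, Valuation.map_neg, map_mul]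
      exact mul_lt_one_of_lt_of_le hA (hint d)
  · obtain ⟨C, hC⟩ := prod_y b hb
    refine p4_main A b hb yy C (fun z a => by unfold yy; rw [yw_add]) hC
      (fun z hz hx => ⟨(hc z hz hx 0).2.2, fun δ => (hc z hz hx δ).2.1⟩) hmem 1 ?_ (Or.inl rfl) ?_
      z hz hx
    · have h5 := weq (1 / 3) a6_third_not_mem
      have h6 := third.1
      have h7 : yy (1 / 3) ^ 2 + yy (1 / 3) + 1 = 0 := by
        unfold yy
        linear_combination h5 / 4 + h6
      linear_combination (yy (1 / 3) - 1) * h7
    · intro k _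
      simp

end CF
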