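import Pool.Agent.MP_9ab903_nt.CF.G4

set_option autoImplicit false

open NumberField IsDedekindDomain
open CM27 CMT
open scoped ComplexConjugate Classical

namespace CF

/-! ## [CF-D2] `F` is a Galois extension of `ℚ(ω)`, unramified outside of `3` and `S` (file D2.lean;
uses G3, G4, H2, H3) -/

/-- the field `ℚ(ω)` -/
noncomputable def KK : IntermediateField ℚ ℂ := IntermediateField.adjoin ℚ {w}

theorem KK_le (F : IntermediateField ℚ ℂ) (hw : w ∈ F) : KK ≤ F := by
  rw [KK, IntermediateField.adjoin_le_iff, Set.singleton_subset_iff]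
  exact hw

/-- `F` as an extension of `ℚ(ω)` -/
@[reducible] noncomputable def algK (F : IntermediateField ℚ ℂ) (hw : w ∈ F) : Algebra KK F :=
  (IntermediateField.inclusion (KK_le F hw)).toRingHom.toAlgebra

theorem d2_prim : IsPrimitiveRoot w 3 := by
  have h1 : w ^ 3 = 1 := by
    have h := w_sq
    calc w ^ 3 = w * w * w := by ring
      _ = (-1 - w) * w := by rw [h]
      _ = -w - w * w := by ring
      _ = 1 := by rw [h]; ring
  have h2 : w ≠ 1 := by
    intro h
    have := congrArg Complex.re h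
    rw [w_re, Complex.one_re] at this
    norm_num at this
  have h3 : orderOf w = 3 := orderOf_eq_prime h1 h2
  rw [← h3]
  exact IsPrimitiveRoot.orderOf w

instance KK_cyc : IsCyclotomicExtension {3} ℚ KK := by
  change IsCyclotomicExtension {3} ℚ (IntermediateField.adjoin ℚ {w}).toSubalgebra
  rw [IntermediateField.adjoin_simple_toSubalgebra_of_isAlgebraic
    (d2_prim.isIntegral (by norm_num)).tower_top.isAlgebraic]
  exact d2_prim.adjoin_isCyclotomicExtension ℚ

instance KK_numberField : NumberField KK := IsCyclotomicExtension.numberField {3} ℚ KK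

theorem d2_w_mem : w ∈ KK := by
  unfold KK
  exact IntermediateField.mem_adjoin_simple_self ℚ w

theorem d2_emb_mem (a : Eis) : emb a ∈ KK := by
  rw [emb_apply]
  exact add_mem (intCast_mem KK _) (mul_mem (intCast_mem KK _) d2_w_mem)

/-- `emb` with values in `KK` -/
noncomputable def d2_f : Eis →+* KK := emb.codRestrict KK d2_emb_mem

theorem d2_f_coe (a : Eis) : ((d2_f a : KK) : ℂ) = emb a := rfl

theorem d2_prim' : IsPrimitiveRoot (⟨w, d2_w_mem⟩ : KK) 3 :=
  IsPrimitiveRoot.of_map_of_injective (f := KK.val) (by exact d2_prim) (KK.val.toRingHom.injective)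

theorem d2_f_int (a : Eis) : IsIntegral ℤ (d2_f a) := by
  have h1 : IsIntegral ℤ (⟨w, d2_w_mem⟩ : KK) := d2_prim'.isIntegral (by norm_num)
  have h2 : d2_f a = algebraMap ℤ KK a.re + algebraMap ℤ KK a.im * ⟨w, d2_w_mem⟩ := by
    apply Subtype.ext
    rw [d2_f_coe, emb_apply]
    simp
  rw [h2]
  exact isIntegral_algebraMap.add (isIntegral_algebraMap.mul h1)

/-- every element of `ℤ[ω]` gives an integer of `ℚ(ω)` -/
theorem exists_KK : ∃ φ : Eis ≃+* 𝓞 KK, ∀ a, (((φ a : 𝓞 KK) : KK) : ℂ) = emb a := by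
  let g : Eis →+* 𝓞 KK := d2_f.codRestrict (integralClosure ℤ KK) d2_f_int
  have hg : ∀ a, ((g a : 𝓞 KK) : KK) = d2_f a := fun a => rfl
  refine ⟨RingEquiv.ofBijective g ⟨?_, ?_⟩, ?_⟩
  · intro a b hab
    apply emb_injective
    have := congrArg (fun x : 𝓞 KK => ((x : KK) : ℂ)) hab
    exact this
  · intro x
    have : Fact (Nat.Prime 3) := ⟨Nat.prime_three⟩
    have hcl := IsCyclotomicExtension.Rat.isIntegralClosure_adjoin_singleton_of_prime
      (p := 3) d2_prim'
    obtain ⟨y, hy⟩ := (hcl.isIntegral_iff (x := (x : KK))).1 x.isIntegral_coe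
    have hle : Algebra.adjoin ℤ {(⟨w, d2_w_mem⟩ : KK)} ≤ subalgebraOfSubring d2_f.range := by
      rw [Algebra.adjoin_le_iff, Set.singleton_subset_iff]
      refine ⟨⟨0, 1⟩, ?_⟩
      apply Subtype.ext
      rw [d2_f_coe, emb_apply]
      simp
    obtain ⟨a, ha⟩ := hle y.2
    refine ⟨a, ?_⟩
    apply RingOfIntegers.ext
    rw [hg, ha]
    exact hy
  · intro a
    rfl

theorem d2_finrank_KK : Module.finrank ℚ KK = 2 := by
  rw [IsCyclotomicExtension.finrank (n := 3) KK (Polynomial.cyclotomic.irreducible_rat (by norm_num))]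
  decide

/-- the field of the elements fixed by `σ` -/
def d2_fix (σ : ℂ ≃+* ℂ) : IntermediateField ℚ ℂ where
  carrier := {x | σ x = x}
  mul_mem' := by
    intro a b ha hb
    change σ (a * b) = a * b
    rw [map_mul, show σ a = a from ha, show σ b = b from hb]
  one_mem' := map_one σ
  add_mem' := by
    intro a b ha hb
    change σ (a + b) = a + b
    rw [map_add, show σ a = a from ha, show σ b = b from hb]
  zero_mem' := map_zero σ
  algebraMap_mem' := by
    intro q
    change σ (algebraMap ℚ ℂ q) = algebraMap ℚ ℂ q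
    rw [eq_ratCast, map_ratCast]
  inv_mem' := by
    intro a ha
    change σ a⁻¹ = a⁻¹
    rw [map_inv₀, show σ a = a from ha]

theorem d2_mem_fix (σ : ℂ ≃+* ℂ) (x : ℂ) : x ∈ d2_fix σ ↔ σ x = x := Iff.rfl

theorem d2_AutK_fix (σ : AutK) (x : ℂ) (hx : x ∈ KK) : (σ : ℂ ≃+* ℂ) x = x := by
  have hle : KK ≤ d2_fix (σ : ℂ ≃+* ℂ) := by
    rw [KK, IntermediateField.adjoin_le_iff, Set.singleton_subset_iff]
    exact σ.2
  exact hle hx

theorem d2_mem_fixer (F : IntermediateField ℚ ℂ) (σ : AutK) :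
    σ ∈ fixer F ↔ F ≤ d2_fix (σ : ℂ ≃+* ℂ) := Iff.rfl

/-- `F` is stable under the automorphisms of `ℂ` over `ℚ(ω)` -/
theorem d2_stable (S : Finset Eis) (hS : ∀ b ∈ S, GoodEis b) (F : IntermediateField ℚ ℂ)
    [NumberField F] (hw : w ∈ F) (hF : F ≤ LS S) (σ : AutK) (x : ℂ) (hx : x ∈ F) :
    (σ : ℂ ≃+* ℂ) x ∈ F := by
  set y : ℂ := (σ : ℂ ≃+* ℂ) x with hy
  have hxi : IsIntegral ℚ x := by
    have h1 : IsIntegral ℚ (⟨x, hx⟩ : F) := Algebra.IsIntegral.isIntegral _
    exact h1.map F.val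
  have hyi : IsIntegral ℚ y := by
    have h1 := hxi.map (RingHom.toRatAlgHom (σ : ℂ ≃+* ℂ).toRingHom)
    exact h1
  have hfd : FiniteDimensional ℚ F := inferInstance
  have hfd' : FiniteDimensional ℚ (IntermediateField.adjoin ℚ {y}) :=
    IntermediateField.adjoin.finiteDimensional hyi
  have hfd2 : FiniteDimensional ℚ ↥(F ⊔ IntermediateField.adjoin ℚ {y}) :=
    IntermediateField.finiteDimensional_sup F _
  have hnf : NumberField ↥(F ⊔ IntermediateField.adjoin ℚ {y}) :=
    { to_charZero := inferInstance, to_finiteDimensional := hfd2 }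
  have hwF : w ∈ F ⊔ IntermediateField.adjoin ℚ {y} := (le_sup_left : F ≤ _) hw
  have hfix : fixer (F ⊔ IntermediateField.adjoin ℚ {y}) = fixer F := by
    apply le_antisymm
    · intro τ hτ
      rw [d2_mem_fixer] at hτ ⊢
      exact le_sup_left.trans hτ
    · intro τ hτ
      rw [d2_mem_fixer] at hτ ⊢
      refine sup_le hτ ?_
      rw [IntermediateField.adjoin_le_iff, Set.singleton_subset_iff]
      change (τ : ℂ ≃+* ℂ) y = y
      rw [hy, LS_comm S hS τ σ x (hF hx), show (τ : ℂ ≃+* ℂ) x = x from hτ hx]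
  have h1 := index_fixer F hw
  have h2 := index_fixer (F ⊔ IntermediateField.adjoin ℚ {y}) hwF
  rw [hfix, h1] at h2
  have h3 : F = F ⊔ IntermediateField.adjoin ℚ {y} :=
    IntermediateField.eq_of_le_of_finrank_eq le_sup_left h2
  rw [h3]
  exact (le_sup_right : _ ≤ F ⊔ IntermediateField.adjoin ℚ {y})
    (IntermediateField.mem_adjoin_simple_self ℚ y)

theorem d2_tower (F : IntermediateField ℚ ℂ) (hw : w ∈ F) :
    letI := algK F hw; IsScalarTower ℚ KK F := by
  letI := algK F hw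
  exact IsScalarTower.of_algebraMap_eq fun q => rfl

theorem d2_finite (F : IntermediateField ℚ ℂ) [NumberField F] (hw : w ∈ F) :
    letI := algK F hw; FiniteDimensional KK F := by
  letI := algK F hw
  haveI := d2_tower F hw
  exact Module.Finite.of_restrictScalars_finite ℚ KK F

theorem d2_finrank (F : IntermediateField ℚ ℂ) [NumberField F] (hw : w ∈ F) :
    letI := algK F hw; 2 * Module.finrank KK F = Module.finrank ℚ F := by
  letI := algK F hw
  haveI := d2_tower F hw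
  haveI := d2_finite F hw
  have h := Module.finrank_mul_finrank ℚ KK F
  rw [d2_finrank_KK] at h
  exact h

/-- the restriction of `σ` to `F` -/
noncomputable def d2_res (S : Finset Eis) (hS : ∀ b ∈ S, GoodEis b) (F : IntermediateField ℚ ℂ)
    [NumberField F] (hw : w ∈ F) (hF : F ≤ LS S) (σ : AutK) :
    letI := algK F hw; F ≃ₐ[KK] F :=
  letI := algK F hw
  haveI := d2_finite F hw
  AlgEquiv.ofBijective
    ({ toFun := fun x => ⟨(σ : ℂ ≃+* ℂ) x, d2_stable S hS F hw hF σ x x.2⟩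
       map_one' := Subtype.ext (map_one (σ : ℂ ≃+* ℂ))
       map_mul' := fun x y => Subtype.ext (map_mul (σ : ℂ ≃+* ℂ) _ _)
       map_zero' := Subtype.ext (map_zero (σ : ℂ ≃+* ℂ))
       map_add' := fun x y => Subtype.ext (map_add (σ : ℂ ≃+* ℂ) _ _)
       commutes' := fun c => Subtype.ext (d2_AutK_fix σ c c.2) } : F →ₐ[KK] F)
    (AlgHom.bijective _)

theorem d2_res_apply (S : Finset Eis) (hS : ∀ b ∈ S, GoodEis b) (F : IntermediateField ℚ ℂ)
    [NumberField F] (hw : w ∈ F) (hF : F ≤ LS S) (σ : AutK) (x : F) :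
    ((d2_res S hS F hw hF σ x : F) : ℂ) = (σ : ℂ ≃+* ℂ) x := rfl

theorem d2_galois (S : Finset Eis) (hS : ∀ b ∈ S, GoodEis b) (F : IntermediateField ℚ ℂ)
    [NumberField F] (hw : w ∈ F) (hF : F ≤ LS S) :
    letI := algK F hw; IsGalois KK F := by
  letI := algK F hw
  haveI := d2_finite F hw
  have hfr : Module.finrank KK F = (fixer F).index := by
    have h1 := index_fixer F hw
    have h2 := d2_finrank F hw
    have h3 : 2 * (fixer F).index = 2 * Module.finrank KK F := by rw [h1]; exact h2.symm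
    omega
  apply IsGalois.of_card_aut_eq_finrank
  apply le_antisymm
  · rw [Nat.card_eq_fintype_card]
    exact AlgEquiv.card_le
  · rw [hfr, Subgroup.index]
    have hfin : Finite (F ≃ₐ[KK] F) := inferInstance
    refine Nat.card_le_card_of_injective
      (fun q : AutK ⧸ fixer F => d2_res S hS F hw hF q.out) ?_
    intro q q' h
    have h1 : ∀ x ∈ F, ((q.out : AutK) : ℂ ≃+* ℂ) x = ((q'.out : AutK) : ℂ ≃+* ℂ) x := by
      intro x hx
      have h2 := congrArg (fun τ : F ≃ₐ[KK] F => ((τ ⟨x, hx⟩ : F) : ℂ)) h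
      exact h2
    have h3 : (q.out : AutK)⁻¹ * q'.out ∈ fixer F := by
      intro x hx
      change ((q.out : AutK) : ℂ ≃+* ℂ).symm (((q'.out : AutK) : ℂ ≃+* ℂ) x) = x
      rw [← h1 x hx, RingEquiv.symm_apply_apply]
    have h4 := QuotientGroup.eq.2 h3
    rwa [QuotientGroup.out_eq', QuotientGroup.out_eq'] at h4

/-- Galois: `LS_stable`, `extend_aut`. -/
theorem galois_F (S : Finset Eis) (hS : ∀ b ∈ S, GoodEis b) (F : IntermediateField ℚ ℂ)
    [NumberField F] (hw : w ∈ F) (hF : F ≤ LS S) (n : ℕ) (h : Module.finrank ℚ F = 2 ^ (n + 1)) :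
    letI := algK F hw; IsGalois KK F ∧ Module.finrank KK F = 2 ^ n := by
  letI := algK F hw
  refine ⟨d2_galois S hS F hw hF, ?_⟩
  have h1 := d2_finrank F hw
  rw [h, pow_succ] at h1
  have h2 : 2 * Module.finrank KK F = 2 * 2 ^ n := by rw [h1]; ring
  exact Nat.eq_of_mul_eq_mul_left two_pos h2

/-- the fundamental identity -/
theorem d2_aux (K F : Type) [Field K] [NumberField K] [Field F] [NumberField F] [Algebra K F]
    [IsGalois K F] (v : HeightOneSpectrum (𝓞 K)) (P : HeightOneSpectrum (𝓞 F))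
    (hPv : P.asIdeal.LiesOver v.asIdeal) (q f g : ℕ) (hq : Nat.card (𝓞 K ⧸ v.asIdeal) = q)
    (hcard : Nat.card (𝓞 F ⧸ P.asIdeal) = q ^ f)
    (hg : (v.asIdeal.primesOver (𝓞 F)).ncard = g) (hgf : g * f = Module.finrank K F) :
    P.asIdeal.ramificationIdx (𝓞 K) = 1 := by
  have hvmax : v.asIdeal.IsMaximal := v.isMaximal
  have hPmax : P.asIdeal.IsMaximal := P.isMaximal
  have : Finite (𝓞 K ⧸ v.asIdeal) := Ring.HasFiniteQuotients.finiteQuotient v.ne_bot
  have : Finite (𝓞 F ⧸ P.asIdeal) := Ring.HasFiniteQuotients.finiteQuotient P.ne_bot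
  have hmain := Ideal.ncard_primesOver_mul_ramificationIdxIn_mul_inertiaDegIn
      v.asIdeal (𝓞 F) Gal(F/K)
  rw [IsGalois.card_aut_eq_finrank, hg,
    Ideal.ramificationIdxIn_eq_ramificationIdx v.asIdeal P.asIdeal Gal(F/K),
    Ideal.inertiaDegIn_eq_inertiaDeg v.asIdeal P.asIdeal Gal(F/K)] at hmain
  have hf : P.asIdeal.inertiaDeg (𝓞 K) = f := by
    have h1 : Nat.card (𝓞 F ⧸ P.asIdeal) = q ^ (P.asIdeal.inertiaDeg (𝓞 K)) := by
      rw [Ideal.inertiaDeg_eq_of_isMaximal v.asIdeal P.asIdeal, ← hq]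
      let : Field (𝓞 K ⧸ v.asIdeal) := Ideal.Quotient.field v.asIdeal
      exact Module.natCard_eq_pow_finrank
    rw [hcard] at h1
    have hq1 : 1 < q := by
      rw [← hq]
      have : Nontrivial (𝓞 K ⧸ v.asIdeal) := Ideal.Quotient.nontrivial_iff.2 (Ideal.IsPrime.ne_top')
      exact Finite.one_lt_card
    exact (Nat.pow_right_injective hq1 h1).symm
  rw [hf, ← hgf] at hmain
  have hpos : 0 < g * f := by
    rw [hgf]
    exact Module.finrank_pos
  have h2 : P.asIdeal.ramificationIdx (𝓞 K) * (g * f) = 1 * (g * f) := by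
    rw [one_mul]
    calc _ = g * (P.asIdeal.ramificationIdx (𝓞 K) * f) := by ring
      _ = _ := hmain
  exact Nat.eq_of_mul_eq_mul_right hpos h2

/-- a primary generator of a prime of `ℚ(ω)` which does not divide `3` -/
theorem d2_gen (φ : Eis ≃+* 𝓞 KK) (v : HeightOneSpectrum (𝓞 KK)) (h3 : (3 : 𝓞 KK) ∉ v.asIdeal) :
    ∃ b : Eis, Primary b ∧ Prime b ∧ ∀ a : Eis, φ a ∈ v.asIdeal ↔ b ∣ a := by
  haveI := eis_isDomain
  haveI := eis_pid
  set I : Ideal Eis := v.asIdeal.comap φ.toRingHom with hI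
  have hIp : I.IsPrime := Ideal.IsPrime.comap _
  obtain ⟨b0, hb0⟩ := (IsPrincipalIdealRing.principal I).principal
  have hb0' : I = Ideal.span {b0} := hb0
  have hmem : ∀ a : Eis, φ a ∈ v.asIdeal ↔ b0 ∣ a := by
    intro a
    rw [← Ideal.mem_span_singleton, ← hb0', hI, Ideal.mem_comap]
    rfl
  have hb00 : b0 ≠ 0 := by
    rintro rfl
    apply v.ne_bot
    rw [eq_bot_iff]
    intro x hx
    have h1 := (hmem (φ.symm x)).1 (by rwa [φ.apply_symm_apply])
    rw [zero_dvd_iff] at h1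
    rw [Ideal.mem_bot, ← φ.apply_symm_apply x, h1, map_zero]
  have hb0p : Prime b0 := (Ideal.span_singleton_prime hb00).1 (hb0' ▸ hIp)
  have h3' : ¬ b0 ∣ 3 := by
    intro h
    apply h3
    have := (hmem 3).2 h
    rwa [map_ofNat] at this
  have hn : ¬ (3 : ℤ) ∣ b0.norm := by
    intro h
    obtain ⟨x, y⟩ := b0
    have hnorm : QuadraticAlgebra.norm (⟨x, y⟩ : Eis) = x ^ 2 - x * y + y ^ 2 := by
      simp [QuadraticAlgebra.norm]
      ring
    rw [hnorm] at h
    have hxy : (3 : ℤ) ∣ x + y := by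
      have h1 : (3 : ℤ) ∣ (x + y) ^ 2 := by
        have : (x + y) ^ 2 = (x ^ 2 - x * y + y ^ 2) + 3 * (x * y) := by ring
        rw [this]
        exact dvd_add h (dvd_mul_right _ _)
      exact Int.prime_three.dvd_of_dvd_pow h1
    obtain ⟨k, hk⟩ := hxy
    have hy : y = 3 * k - x := by linarith
    subst hy
    -- `b0 = θ c`, `θ = 1 + 2 ω`
    have h3e : (3 : Eis) = ⟨3, 0⟩ := by
      have h := QuadraticAlgebra.algebraMap_eq (R := ℤ) (a := -1) (b := -1) 3
      rw [← h]
      exact (map_ofNat (algebraMap ℤ Eis) 3).symm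
    have hθ : (⟨1, 2⟩ : Eis) * ⟨1, 2⟩ = -3 := by
      rw [h3e]
      ext <;> simp <;> norm_num
    have hfac : (⟨x, 3 * k - x⟩ : Eis) = ⟨1, 2⟩ * ⟨2 * k - x, k - x⟩ := by
      ext <;> simp <;> ring
    have hθ3 : (⟨1, 2⟩ : Eis) ∣ 3 := ⟨-⟨1, 2⟩, by rw [mul_neg, hθ, neg_neg]⟩
    have hdvd : (⟨x, 3 * k - x⟩ : Eis) ∣ ⟨1, 2⟩ * ⟨2 * k - x, k - x⟩ := by rw [← hfac]
    rcases hb0p.dvd_or_dvd hdvd with h4 | h4
    · exact h3' (h4.trans hθ3)
    · obtain ⟨d, hd⟩ := h4
      rw [hd] at hfac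
      have h5 : (⟨x, 3 * k - x⟩ : Eis) * 1 = ⟨x, 3 * k - x⟩ * (⟨1, 2⟩ * d) := by
        rw [mul_one]
        calc (⟨x, 3 * k - x⟩ : Eis) = ⟨1, 2⟩ * (⟨x, 3 * k - x⟩ * d) := hfac
          _ = _ := by ring
      have h6 := mul_left_cancel₀ hb00 h5
      have h7 := congrArg QuadraticAlgebra.norm h6
      rw [map_mul, map_one] at h7
      have h8 : QuadraticAlgebra.norm (⟨1, 2⟩ : Eis) = 3 := by
        simp [QuadraticAlgebra.norm]
      rw [h8] at h7
      omega
  obtain ⟨u, hu, hub⟩ := exists_primary b0 hn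
  refine ⟨u * b0, hub, ?_, ?_⟩
  · have hassoc : Associated b0 (u * b0) := by
      obtain ⟨u', rfl⟩ := hu
      exact ⟨u', by rw [mul_comm]⟩
    exact hassoc.prime hb0p
  · intro a
    rw [hmem]
    constructor
    · intro h
      exact (hu.mul_left_dvd).2 h
    · intro h
      exact (hu.mul_left_dvd).1 h

/-- Unramified outside of `3` and `S`: `decomp` for the primary prime `b` below `P`, `b ∉ S`, so
`Ib S b` is trivial: the number `g` of the places of `F` above `b` and the residue degree `f` satisfy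
`g f = [F : ℚ(ω)]` (`index_fixer`, `th_eq_one_iff`, `th_surjective`), so `∑ e_v f_v = [F : ℚ(ω)]`
forces all `e_v = 1`. -/
theorem unram_F (S : Finset Eis) (hS : ∀ b ∈ S, GoodEis b) (F : IntermediateField ℚ ℂ)
    [NumberField F] (hw : w ∈ F) (hF : F ≤ LS S) :
    letI := algK F hw
    ∀ (v : HeightOneSpectrum (𝓞 KK)) (P : HeightOneSpectrum (𝓞 F)),
      P.asIdeal.LiesOver v.asIdeal → (3 : 𝓞 KK) ∉ v.asIdeal →
      (∀ b ∈ S, ∀ x : 𝓞 KK, ((x : KK) : ℂ) = emb b → x ∉ v.asIdeal) →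
      P.asIdeal.ramificationIdx (𝓞 KK) = 1 := by
  letI := algK F hw
  intro v P hPv h3 hSv
  haveI := d2_finite F hw
  haveI := d2_galois S hS F hw hF
  obtain ⟨φ, hφ⟩ := exists_KK
  obtain ⟨b, hb, hbp, hbv⟩ := d2_gen φ v h3
  have hbS : b ∉ S := fun hbS => hSv b hbS (φ b) (hφ b) ((hbv b).2 dvd_rfl)
  obtain ⟨ϕ, -, hdec⟩ := decomp S hS b hb hbp
  have hIb : Ib S b = ⊥ := by
    rw [eq_bot_iff]
    intro a ha
    rw [Subgroup.mem_bot]
    funext b'
    exact ha b' (fun h => hbS (h ▸ b'.2))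
  -- the residue field of `ℚ(ω)`
  have hq : Nat.card (𝓞 KK ⧸ v.asIdeal) = b.norm.natAbs := by
    obtain ⟨f, g, hf, -, -, hc, -, hidx⟩ := hdec KK d2_w_mem (KK_le _ (w_mem_LS S))
    have h1 : (fixer KK).map (th S) ⊔ Ib S b = ⊤ := by
      rw [eq_top_iff]
      intro a _
      obtain ⟨σ, rfl⟩ := th_surjective S hS a
      exact Subgroup.mem_sup_left ⟨σ, fun x hx => d2_AutK_fix σ x hx, rfl⟩
    rw [h1, Subgroup.index_top] at hidx
    have hf1 : f = 1 := Nat.eq_one_of_mul_eq_one_left hidx.symm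
    have := hc v ⟨φ b, (hbv b).2 dvd_rfl, hφ b⟩
    rwa [hf1, pow_one] at this
  obtain ⟨f, g, hf, hfin, hg, hc, -, hidx⟩ := hdec F hw hF
  have habove : ∀ Q : HeightOneSpectrum (𝓞 F), Q ∈ above F b ↔ Q.asIdeal.LiesOver v.asIdeal := by
    intro Q
    have hcoe : ∀ a : Eis, (((algebraMap (𝓞 KK) (𝓞 F) (φ a) : 𝓞 F) : F) : ℂ) = emb a := by
      intro a
      rw [← hφ a]
      rfl
    constructor
    · rintro ⟨x, hx, hxb⟩
      have hx' : x = algebraMap (𝓞 KK) (𝓞 F) (φ b) := by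
        apply RingOfIntegers.ext
        apply Subtype.ext
        rw [hxb, hcoe]
      rw [hx'] at hx
      have hle : v.asIdeal ≤ Q.asIdeal.under (𝓞 KK) := by
        intro y hy
        have h1 : b ∣ φ.symm y := by
          rw [← hbv, φ.apply_symm_apply]
          exact hy
        obtain ⟨c, hc⟩ := h1
        have h2 : y = φ b * φ c := by rw [← map_mul, ← hc, φ.apply_symm_apply]
        rw [h2]
        exact Ideal.mul_mem_right _ _ hx
      have hmax : v.asIdeal.IsMaximal := v.isMaximal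
      exact ⟨hmax.eq_of_le (Ideal.IsPrime.ne_top inferInstance) hle⟩
    · intro hQ
      refine ⟨algebraMap (𝓞 KK) (𝓞 F) (φ b), ?_, hcoe b⟩
      have h1 : φ b ∈ v.asIdeal := (hbv b).2 dvd_rfl
      rw [Ideal.over_def Q.asIdeal v.asIdeal] at h1
      exact h1
  have hPa : P ∈ above F b := (habove P).2 hPv
  have hncard : (v.asIdeal.primesOver (𝓞 F)).ncard = g := by
    rw [← hg]
    have hbij : Set.BijOn HeightOneSpectrum.asIdeal (above F b) (v.asIdeal.primesOver (𝓞 F)) := by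
      refine ⟨fun v hv => ⟨v.isPrime, (habove v).1 hv⟩,
        fun _ _ _ _ h => HeightOneSpectrum.ext h, ?_⟩
      intro Q hQ
      have hQ0 : Q ≠ ⊥ := Ideal.ne_bot_of_mem_primesOver v.ne_bot hQ
      exact ⟨⟨Q, hQ.1, hQ0⟩, (habove _).2 hQ.2, rfl⟩
    exact hbij.ncard_eq.symm
  have hgf : g * f = Module.finrank KK F := by
    rw [← hidx, hIb, sup_bot_eq, Subgroup.index_map_eq _ (th_surjective S hS)]
    · have h1 := index_fixer F hw
      have h2 := d2_finrank F hw
      have h3 : 2 * (fixer F).index = 2 * Module.finrank KK F := by rw [h1]; exact h2.symm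
      omega
    · intro σ hσ
      have h1 := (th_eq_one_iff S hS σ).1 hσ
      intro x hx
      exact h1 x (hF hx)
  exact d2_aux KK F v P hPv _ f g hq (hc P hPa) hncard hgf

end CF
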