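import Pool.Agent.MP_9ab903_nt.CF.D2
import Pool.Agent.MP_9ab903_nt.Disc

set_option autoImplicit false

open NumberField IsDedekindDomain
open CM27 CMT
open scoped ComplexConjugate Classical

namespace CF

/-! ## [CF-D1] the discriminant of `F` is odd (file D1.lean; uses D2) -/

/-- the places of `ℚ(ω)` above `2` are unramified over `ℚ` -/
theorem d1_KK (v : Ideal (𝓞 KK)) (hv : v.IsPrime) (h2 : (2 : 𝓞 KK) ∈ v) :
    v.ramificationIdx ℤ = 1 := by
  have hd : ¬ (2 : ℤ) ∣ discr KK := by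
    intro h
    have h1 : (2 : ℕ) ∣ (discr KK).natAbs := by
      have := Int.natAbs_dvd_natAbs.2 h
      simpa using this
    have h3 := h1.trans (CM27.disc_cyclotomic_dvd 3 KK)
    have h4 := Nat.prime_two.dvd_of_dvd_pow h3
    omega
  have h5 := (not_dvd_discr_iff_forall_mem KK (𝓞 KK) Int.prime_two).1 hd v hv (by exact_mod_cast h2)
  exact Ideal.ramificationIdx_eq_one v ℤ

/-- the places of `F` above `2` are unramified over `ℚ` -/
theorem d1_ram (S : Finset Eis) (hS : ∀ b ∈ S, GoodEis b) (F : IntermediateField ℚ ℂ)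
    [NumberField F] (hw : w ∈ F) (hF : F ≤ LS S) (P : Ideal (𝓞 F)) (hP : P.IsPrime)
    (hP0 : P ≠ ⊥) (h2 : (2 : 𝓞 F) ∈ P) : P.ramificationIdx ℤ = 1 := by
  letI := algK F hw
  haveI := d2_finite F hw
  have hv2 : (2 : 𝓞 KK) ∈ P.under (𝓞 KK) := by
    change algebraMap (𝓞 KK) (𝓞 F) 2 ∈ P
    rwa [map_ofNat]
  have hvp : (P.under (𝓞 KK)).IsPrime := inferInstance
  have hone : ∀ n : ℕ, ¬ 2 ∣ n → ((n : 𝓞 KK)) ∉ P.under (𝓞 KK) := by
    intro n hn h
    apply hvp.ne_top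
    rw [Ideal.eq_top_iff_one]
    obtain ⟨k, hk⟩ : ∃ k, n = 2 * k + 1 := ⟨n / 2, by omega⟩
    have h3 : (1 : 𝓞 KK) = (n : 𝓞 KK) - 2 * (k : 𝓞 KK) := by
      rw [hk]; push_cast; ring
    rw [h3]
    exact Ideal.sub_mem _ h (Ideal.mul_mem_right _ _ hv2)
  have hv0 : P.under (𝓞 KK) ≠ ⊥ := by
    intro h
    rw [h, Ideal.mem_bot] at hv2
    exact two_ne_zero hv2
  have h3 : (3 : 𝓞 KK) ∉ P.under (𝓞 KK) := by
    have := hone 3 (by norm_num)
    exact_mod_cast this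
  have hSv : ∀ b ∈ S, ∀ x : 𝓞 KK, ((x : KK) : ℂ) = emb b → x ∉ P.under (𝓞 KK) := by
    intro b hb x hx h
    obtain ⟨φ, hφ⟩ := exists_KK
    have hxb : x = φ b := by
      apply RingOfIntegers.ext
      apply Subtype.ext
      rw [hx, hφ]
    obtain ⟨-, p, hp, hn⟩ := hS b hb
    have h4 : φ (b * star b) ∈ P.under (𝓞 KK) := by
      rw [map_mul, ← hxb]
      exact Ideal.mul_mem_right _ _ h
    rw [a3_mul_star, hn, Int.cast_natCast, map_natCast] at h4
    refine hone p ?_ h4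
    intro h5
    have h6 := (Nat.prime_dvd_prime_iff_eq Nat.prime_two hp.1).1 h5
    have h7 := hp.2.1
    omega
  have h4 := unram_F S hS F hw hF ⟨P.under (𝓞 KK), hvp, hv0⟩ ⟨P, hP, hP0⟩ ⟨rfl⟩ h3 hSv
  have h5 := d1_KK _ hvp hv2
  have h6 := Ideal.ramificationIdx_tower (R := ℤ) (P.under (𝓞 KK)) P
  rw [h6, h5, one_mul]
  exact h4

/-- Sketch: `unram_F` (`2` is prime in `ℤ[ω]` and not in `S`), and `2` is unramified in `ℚ(ω)`; then
`NumberField.not_dvd_discr_iff_...` (Mathlib, discriminant and different). Compare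
`Pool/Agent/MP_9ab903_nt/Disc.lean`. -/
theorem odd_discr (S : Finset Eis) (hS : ∀ b ∈ S, GoodEis b) (F : IntermediateField ℚ ℂ)
    [NumberField F] (hw : w ∈ F) (hF : F ≤ LS S) : Odd (discr F).natAbs := by
  have hd : ¬ (2 : ℤ) ∣ discr F := by
    rw [not_dvd_discr_iff_forall_mem F (𝓞 F) Int.prime_two]
    intro P hP h2
    have h2' : (2 : 𝓞 F) ∈ P := by exact_mod_cast h2
    have hP0 : P ≠ ⊥ := by
      rintro rfl
      rw [Ideal.mem_bot] at h2'
      exact two_ne_zero h2'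
    exact Ideal.ramificationIdx_eq_one_iff.1 (d1_ram S hS F hw hF P hP hP0 h2')
  rw [← Nat.not_even_iff_odd, even_iff_two_dvd]
  intro h
  apply hd
  rw [← Int.natAbs_dvd_natAbs]
  exact h

/-- the places of `F` above `2` are unramified over `ℚ` -/
theorem two_unram (S : Finset Eis) (hS : ∀ b ∈ S, GoodEis b) (F : IntermediateField ℚ ℂ)
    [NumberField F] (hw : w ∈ F) (hF : F ≤ LS S) (v : HeightOneSpectrum (𝓞 F))
    (hv : (2 : 𝓞 F) ∈ v.asIdeal) : (2 : 𝓞 F) ∉ v.asIdeal ^ 2 := by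
  intro h
  have h1 := d1_ram S hS F hw hF v.asIdeal v.isPrime v.ne_bot hv
  have hmap : ∀ I : Ideal (𝓞 F), (2 : 𝓞 F) ∈ I →
      (Ideal.span {(2 : ℤ)}).map (algebraMap ℤ (𝓞 F)) ≤ I := by
    intro I hI
    rw [Ideal.map_span, Set.image_singleton, Ideal.span_singleton_le_iff_mem, map_ofNat]
    exact hI
  have hlo : v.asIdeal.LiesOver (Ideal.span {(2 : ℤ)}) :=
    (Ideal.liesOver_span_iff v.isPrime.ne_top Int.prime_two).2 (by exact_mod_cast hv)
  have h20 : Ideal.span {(2 : ℤ)} ≠ ⊥ := by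
    rw [Ne, Ideal.span_singleton_eq_bot]
    norm_num
  have h2 := Ideal.ramificationIdx'_eq_ramificationIdx (Ideal.span {(2 : ℤ)}) v.asIdeal h20
  rw [h1] at h2
  exact (Ideal.ramificationIdx'_ne_one_iff (hmap _ hv)).2 (hmap _ h) h2

end CF
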