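import Pool.Agent.MP_9ab903_nt.Tam
import Pool.Agent.MP_9ab903_nt.AN.Defs
import Pool.Agent.MP_dfae13_nt.T.J4

set_option autoImplicit false

open NumberField IsDedekindDomain
open CM27
open scoped Classical

namespace CF

section dvr

open Polynomial

variable (A : Type) [CommRing A] [IsDomain A] [IsDiscreteValuationRing A]
  {K : Type} [Field K] [Algebra A K] [IsFractionRing A K]

/-- The `u` of a minimal equation has the largest valuation (the smallest absolute value). -/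
theorem j0_le (W : WeierstrassCurve K) (hΔ : W.Δ ≠ 0) (T T' : WeierstrassCurve.VariableChange K)
    (hT : WeierstrassCurve.IsMinimal A (T • W)) (hT' : WeierstrassCurve.IsIntegral A (T' • W)) :
    (IsDiscreteValuationRing.maximalIdeal A).valuation K (T.u : K) ≤
      (IsDiscreteValuationRing.maximalIdeal A).valuation K (T'.u : K) := by
  have h1 := hT.val_Δ_maximal
  have hinv : (T' * T⁻¹) • (T • W) = T' • W := by rw [mul_smul, inv_smul_smul]
  have h2 := h1.2 (j := T' * T⁻¹)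
    (by show WeierstrassCurve.IsIntegral A ((T' * T⁻¹) • (T • W)); rw [hinv]; exact hT')
  have hle : ((WeierstrassCurve.valuation_Δ_aux A ((1 : WeierstrassCurve.VariableChange K) •
      (T • W)) : { v : WithZero (Multiplicative ℤ) // v ≤ 1 }) : WithZero (Multiplicative ℤ)) =
      (IsDiscreteValuationRing.maximalIdeal A).valuation K (T • W).Δ := by
    rw [one_smul]
    exact WeierstrassCurve.valuation_Δ_aux_eq_of_isIntegral A _
  have hinvv : ((WeierstrassCurve.valuation_Δ_aux A ((T' * T⁻¹) • (T • W)) :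
      { v : WithZero (Multiplicative ℤ) // v ≤ 1 }) : WithZero (Multiplicative ℤ)) =
      (IsDiscreteValuationRing.maximalIdeal A).valuation K (T' • W).Δ := by
    rw [hinv]
    exact WeierstrassCurve.valuation_Δ_aux_eq_of_isIntegral A _
  have hge : (IsDiscreteValuationRing.maximalIdeal A).valuation K (T' • W).Δ ≤
      (IsDiscreteValuationRing.maximalIdeal A).valuation K (T • W).Δ := by
    by_contra hlt
    push Not at hlt
    have h4 : (WeierstrassCurve.valuation_Δ_aux A ((1 : WeierstrassCurve.VariableChange K) •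
        (T • W))) ≤ (WeierstrassCurve.valuation_Δ_aux A ((T' * T⁻¹) • (T • W))) := by
      rw [← Subtype.coe_le_coe, hinvv, hle]
      exact hlt.le
    have h5 := h2 h4
    rw [← Subtype.coe_le_coe] at h5
    have h6 : (IsDiscreteValuationRing.maximalIdeal A).valuation K (T' • W).Δ ≤
      (IsDiscreteValuationRing.maximalIdeal A).valuation K (T • W).Δ := by
      rw [← hle, ← hinvv]
      exact h5
    exact absurd h6 (not_le.2 hlt)
  rw [WeierstrassCurve.variableChange_Δ, WeierstrassCurve.variableChange_Δ, map_mul, map_mul,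
    map_pow, map_pow] at hge
  have hW : (IsDiscreteValuationRing.maximalIdeal A).valuation K W.Δ ≠ 0 :=
    (Valuation.ne_zero_iff _).2 hΔ
  by_contra hlt
  push Not at hlt
  have hu : (IsDiscreteValuationRing.maximalIdeal A).valuation K (T.u : K) ≠ 0 :=
    (Valuation.ne_zero_iff _).2 (Units.ne_zero _)
  have hu' : (IsDiscreteValuationRing.maximalIdeal A).valuation K (T'.u : K) ≠ 0 :=
    (Valuation.ne_zero_iff _).2 (Units.ne_zero _)
  rw [Units.val_inv_eq_inv_val, Units.val_inv_eq_inv_val, map_inv₀, map_inv₀] at hge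
  have h7 : ((IsDiscreteValuationRing.maximalIdeal A).valuation K (T.u : K))⁻¹ ^ 12 <
      ((IsDiscreteValuationRing.maximalIdeal A).valuation K (T'.u : K))⁻¹ ^ 12 := by
    apply pow_lt_pow_left₀ _ zero_le (by norm_num)
    exact (inv_lt_inv₀ (zero_lt_iff.2 hu) (zero_lt_iff.2 hu')).2 hlt
  have h8 := mul_lt_mul_of_pos_right h7 (zero_lt_iff.2 hW)
  exact absurd hge (not_le.2 h8)

variable {A}

theorem j0_two {p : A} (hp : Irreducible p) (h3 : p ∣ 3) : IsUnit (2 : A) := by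
  by_contra hn
  have h1 : (2 : A) ∈ IsLocalRing.maximalIdeal A := (IsLocalRing.mem_maximalIdeal _).2 hn
  rw [(IsDiscreteValuationRing.irreducible_iff_uniformizer p).1 hp, Ideal.mem_span_singleton] at h1
  apply hp.not_isUnit
  apply isUnit_of_dvd_one
  have h2 := dvd_sub h3 h1
  have e : (3 : A) - 2 = 1 := by norm_num
  rwa [e] at h2

theorem j0_unit {p : A} (hp : Irreducible p) {x : A} (h : ¬ p ∣ x) : IsUnit x := by
  by_contra hn
  have h1 : x ∈ IsLocalRing.maximalIdeal A := (IsLocalRing.mem_maximalIdeal _).2 hn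
  rw [(IsDiscreteValuationRing.irreducible_iff_uniformizer p).1 hp, Ideal.mem_span_singleton] at h1
  exact h h1

theorem j0_le_of_dvd {p : A} (hp : Irreducible p) {m n : ℕ} {w : A} (hw : IsUnit w)
    (h : p ^ m ∣ p ^ n * w) : m ≤ n := by
  rw [hw.dvd_mul_right] at h
  exact (pow_dvd_pow_iff hp.ne_zero hp.not_isUnit).1 h

/-- `4 ρ³ - 3 (1 - 2 ρ)²` divisible by `p ^ (6 c)`. -/
theorem j0_rho {p : A} (hp : Irreducible p) {v3 : A} (hv3 : IsUnit v3) {k : ℕ} (hk : ¬ 3 ∣ k)
    (h3 : (3 : A) = v3 * p ^ k) {c : ℕ} {ρ : A} (h : p ^ (6 * c) ∣ 4 * ρ ^ 3 - 3 * (1 - 2 * ρ) ^ 2) :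
    6 * c ≤ k ∧ p ^ (2 * c) ∣ ρ := by
  have hpp : Prime p := hp.prime
  have hk0 : k ≠ 0 := by
    rintro rfl
    exact hk (dvd_zero 3)
  have hp3 : p ∣ 3 := by
    rw [h3]
    exact (dvd_pow_self p hk0).mul_left v3
  have h2 : IsUnit (2 : A) := j0_two hp hp3
  have h4 : IsUnit (4 : A) := by
    have : (4 : A) = 2 * 2 := by norm_num
    rw [this]; exact h2.mul h2
  rcases Nat.eq_zero_or_pos c with rfl | hc
  · simp
  have hpd : p ∣ 4 * ρ ^ 3 := by
    have h5 : p ∣ p ^ (6 * c) := dvd_pow_self p (by omega)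
    have h6 := dvd_add (h5.trans h) (hp3.mul_right ((1 - 2 * ρ) ^ 2))
    have e : 4 * ρ ^ 3 - 3 * (1 - 2 * ρ) ^ 2 + 3 * (1 - 2 * ρ) ^ 2 = 4 * ρ ^ 3 := by ring
    rwa [e] at h6
  have hpρ : p ∣ ρ := by
    rcases hpp.dvd_or_dvd hpd with h5 | h5
    · exact absurd (isUnit_of_dvd_unit h5 h4) hp.not_isUnit
    · exact hpp.dvd_of_dvd_pow h5
  have hg : IsUnit (1 - 2 * ρ) := by
    apply j0_unit hp
    intro h5
    apply hp.not_isUnit
    apply isUnit_of_dvd_one
    have h6 := dvd_add h5 (hpρ.mul_left 2)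
    have e : 1 - 2 * ρ + 2 * ρ = 1 := by ring
    rwa [e] at h6
  by_cases hρ0 : ρ = 0
  · subst hρ0
    refine ⟨?_, dvd_zero _⟩
    have e : 4 * (0 : A) ^ 3 - 3 * (1 - 2 * 0) ^ 2 = p ^ k * (-v3) := by rw [h3]; ring
    rw [e] at h
    exact j0_le_of_dvd hp hv3.neg h
  obtain ⟨a, θ, hθ⟩ := IsDiscreteValuationRing.eq_unit_mul_pow_irreducible hρ0 hp
  have hak : 3 * a ≠ k := fun h5 => hk ⟨a, h5.symm⟩
  have huu : ∀ x y : A, IsUnit x → p ∣ y → IsUnit (x + y) := by
    intro x y hx hy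
    apply j0_unit hp
    intro h5
    have h6 := dvd_sub h5 hy
    rw [add_sub_cancel_right] at h6
    exact hp.not_isUnit (isUnit_of_dvd_unit h6 hx)
  rcases lt_or_gt_of_ne hak with hlt | hlt
  · obtain ⟨d, hd⟩ := Nat.exists_eq_add_of_lt hlt
    have e : 4 * ρ ^ 3 - 3 * (1 - 2 * ρ) ^ 2 =
        p ^ (3 * a) * (4 * (θ : A) ^ 3 + p * (-(v3 * p ^ d * (1 - 2 * ρ) ^ 2))) := by
      have e2 : ρ ^ 3 = (θ : A) ^ 3 * p ^ (3 * a) := by
        rw [hθ, mul_pow, ← pow_mul, mul_comm a 3]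
      rw [h3, hd, e2]
      ring
    rw [e] at h
    have h5 := j0_le_of_dvd hp (huu _ _ (h4.mul (θ.isUnit.pow 3)) (dvd_mul_right _ _)) h
    refine ⟨by omega, ?_⟩
    rw [hθ]
    exact (pow_dvd_pow p (by omega)).mul_left _
  · obtain ⟨d, hd⟩ := Nat.exists_eq_add_of_lt hlt
    have e : 4 * ρ ^ 3 - 3 * (1 - 2 * ρ) ^ 2 =
        p ^ k * (-(v3 * (1 - 2 * ρ) ^ 2) + p * (4 * (θ : A) ^ 3 * p ^ d)) := by
      rw [h3]
      have e2 : ρ ^ 3 = (θ : A) ^ 3 * (p ^ k * (p ^ d * p)) := by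
        rw [hθ, mul_pow, ← pow_mul, mul_comm a 3, hd, pow_add, pow_add]
        ring
      rw [e2]
      ring
    rw [e] at h
    have h5 := j0_le_of_dvd hp (huu _ _ (hv3.mul (hg.pow 2)).neg (dvd_mul_right _ _)) h
    refine ⟨by omega, ?_⟩
    rw [hθ]
    exact (pow_dvd_pow p (by omega)).mul_left _

/-- The data of a minimal equation. -/
structure J0D (T : WeierstrassCurve.VariableChange K) (I : WeierstrassCurve A)
    (p l1 u β : A) (h : ℕ) : Prop where
  hI : T • CMT.Wt (0 : K) = I.map (algebraMap A K)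
  hu : (T.u : K) = algebraMap A K u
  hr : T.r = algebraMap A K (u ^ 2 * β - 1)
  hp : Irreducible p
  hl1 : IsUnit l1
  hh : h = 1 ∨ h = 2
  h3 : (3 : A) = -(u ^ 6 * (p ^ h * l1) ^ 2)

theorem j0_data (p : A) (hp : Irreducible p) (v3 : A) (hv3 : IsUnit v3) (k : ℕ) (hk : ¬ 3 ∣ k)
    (h3 : (3 : A) = v3 * p ^ k) (l : A) (hl : l ^ 2 = -3) (T : WeierstrassCurve.VariableChange K)
    (hT : WeierstrassCurve.IsMinimal A (T • E K)) (I : WeierstrassCurve A)
    (hI : T • E K = I.map (algebraMap A K)) :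
    ∃ (l1 u β : A) (h : ℕ), J0D T I p l1 u β h := by
  have hinj : Function.Injective (algebraMap A K) := IsFractionRing.injective A K
  have hpp : Prime p := hp.prime
  have hk0 : k ≠ 0 := by
    rintro rfl
    exact hk (dvd_zero 3)
  have hp3 : p ∣ 3 := by
    rw [h3]
    exact (dvd_pow_self p hk0).mul_left v3
  obtain ⟨i2, hi2⟩ := (j0_two hp hp3).exists_right_inv
  have h30 : (3 : A) ≠ 0 := by
    rw [h3]
    exact mul_ne_zero hv3.ne_zero (pow_ne_zero _ hp.ne_zero)
  have hint : WeierstrassCurve.IsIntegral A (E K) := ⟨⟨E A, (c1_map (algebraMap A K)).symm⟩⟩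
  have hΔ : (E K).Δ ≠ 0 := by
    rw [c1_Δ]
    have e : (-27 : K) = algebraMap A K (-(3 ^ 3)) := by
      rw [map_neg, map_pow, map_ofNat]; norm_num
    rw [e]
    intro h0
    have := hinj (h0.trans (map_zero _).symm)
    exact pow_ne_zero 3 h30 (neg_eq_zero.1 this)
  -- `u` is integral
  obtain ⟨u, hu⟩ : ∃ u : A, algebraMap A K u = (T.u : K) := by
    apply IsDiscreteValuationRing.exists_lift_of_le_one
    have h1 := j0_le A (E K) hΔ T 1 hT (by rw [one_smul]; exact hint)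
    have h2 : ((1 : WeierstrassCurve.VariableChange K).u : K) = 1 := rfl
    rw [h2, map_one] at h1
    exact h1
  have hu0 : u ≠ 0 := by
    rintro rfl
    rw [map_zero] at hu
    exact T.u.ne_zero hu.symm
  have huK : (T.u : K) ≠ 0 := T.u.ne_zero
  -- `r` is integral
  have hb6 : 1 + 4 * T.r ^ 3 = algebraMap A K (u ^ 6 * I.b₆) := by
    have h : (T • E K).b₆ = algebraMap A K I.b₆ := by rw [hI]; simp
    rw [map_mul, map_pow, ← h, WeierstrassCurve.variableChange_b₆, hu, Units.val_inv_eq_inv_val]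
    simp only [E, WeierstrassCurve.b₂, WeierstrassCurve.b₄, WeierstrassCurve.b₆]
    field_simp
    ring
  have hi2K : (2 : K) * algebraMap A K i2 = 1 := by
    rw [← map_ofNat (algebraMap A K) 2, ← map_mul, hi2, map_one]
  obtain ⟨r, hr⟩ : ∃ r : A, algebraMap A K r = T.r := by
    refine c1_root A K (X ^ 3 - C ((u ^ 6 * I.b₆ - 1) * i2 ^ 2)) ?_ _ ?_
    · monicity!
    · rw [eval₂_sub, eval₂_pow, eval₂_X, eval₂_C, map_mul, map_sub, ← hb6, map_one, map_pow]
      linear_combination (-(T.r ^ 3) * (2 * algebraMap A K i2 + 1)) * hi2K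
  have hb6A : u ^ 6 * I.b₆ = 4 * (r + 1) ^ 3 - 3 * (1 - 2 * (r + 1)) ^ 2 := by
    apply hinj
    rw [← hb6, ← hr]
    simp only [map_sub, map_mul, map_pow, map_add, map_one, map_ofNat]
    ring
  -- valuations
  obtain ⟨c, ε, hε⟩ := IsDiscreteValuationRing.eq_unit_mul_pow_irreducible hu0 hp
  have hl0 : l ≠ 0 := by
    rintro rfl
    apply h30
    linear_combination hl
  obtain ⟨j, η, hη⟩ := IsDiscreteValuationRing.eq_unit_mul_pow_irreducible hl0 hp
  have hkj : k = 2 * j := by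
    obtain ⟨v3', rfl⟩ := hv3
    refine IsDiscreteValuationRing.unit_mul_pow_congr_pow hp hp (-v3') (η ^ 2) k (2 * j) ?_
    have e1 : ((-v3' : Aˣ) : A) * p ^ k = -3 := by
      rw [Units.val_neg, neg_mul, ← h3]
    rw [e1, ← hl, hη, Units.val_pow_eq_pow_val]
    ring
  have hdvd : p ^ (6 * c) ∣ 4 * (r + 1) ^ 3 - 3 * (1 - 2 * (r + 1)) ^ 2 := by
    rw [← hb6A, hε]
    exact ⟨(ε : A) ^ 6 * I.b₆, by ring⟩
  obtain ⟨hck, β', hβ'⟩ := j0_rho hp hv3 hk h3 hdvd
  -- maximality
  have hmax : k < 6 * c + 6 := by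
    by_contra hcon
    push Not at hcon
    obtain ⟨d, hd⟩ := Nat.exists_eq_add_of_le hcon
    have hpK : algebraMap A K p ≠ 0 := fun h0 => hp.ne_zero (hinj (by rw [h0, map_zero]))
    have h3K : (3 : K) = algebraMap A K (v3 * p ^ d) * algebraMap A K p ^ (6 * c + 6) := by
      rw [← map_pow, ← map_mul, mul_assoc, ← pow_add, add_comm d, ← hd, ← h3, map_ofNat]
    set T' : WeierstrassCurve.VariableChange K :=
      ⟨Units.mk0 (algebraMap A K p ^ (c + 1)) (pow_ne_zero _ hpK), -1, 0, -algebraMap A K i2⟩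
      with hT'
    have hT'u : (T'.u : K) = algebraMap A K p ^ (c + 1) := rfl
    have hI' : T' • E K = (⟨0, -(p ^ (4 * (c + 1)) * (v3 * p ^ d)), 0,
        p ^ (2 * (c + 1)) * (v3 * p ^ d), -(i2 ^ 2 * (v3 * p ^ d))⟩ : WeierstrassCurve A).map
          (algebraMap A K) := by
      have hne : algebraMap A K p ^ (c + 1) ≠ 0 := pow_ne_zero _ hpK
      ext
      · rw [WeierstrassCurve.variableChange_a₁]
        simp [E, hT']
      · rw [WeierstrassCurve.variableChange_a₂, Units.val_inv_eq_inv_val, hT'u]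
        simp only [E, hT', WeierstrassCurve.map_a₂, map_neg, map_mul, map_pow]
        rw [inv_pow, inv_mul_eq_iff_eq_mul₀ (pow_ne_zero 2 hne)]
        simp only [map_mul, map_pow] at h3K
        linear_combination (-1 : K) * h3K
      · rw [WeierstrassCurve.variableChange_a₃]
        simp only [E, hT', WeierstrassCurve.map_a₃, map_zero]
        linear_combination (-((T'.u⁻¹ : Kˣ) : K) ^ 3) * hi2K
      · rw [WeierstrassCurve.variableChange_a₄, Units.val_inv_eq_inv_val, hT'u]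
        simp only [E, hT', WeierstrassCurve.map_a₄, map_mul, map_pow]
        rw [inv_pow, inv_mul_eq_iff_eq_mul₀ (pow_ne_zero 4 hne)]
        simp only [map_mul, map_pow] at h3K
        linear_combination (1 : K) * h3K
      · rw [WeierstrassCurve.variableChange_a₆, Units.val_inv_eq_inv_val, hT'u]
        simp only [E, hT', WeierstrassCurve.map_a₆, map_neg, map_mul, map_pow]
        rw [inv_pow, inv_mul_eq_iff_eq_mul₀ (pow_ne_zero 6 hne)]
        simp only [map_mul, map_pow] at h3K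
        linear_combination (-algebraMap A K i2 ^ 2) * h3K + (algebraMap A K i2 + 1) * hi2K
    have h1 := j0_le A (E K) hΔ T T' hT ⟨⟨_, hI'⟩⟩
    rw [hT'u, ← hu, hε, map_mul, map_mul, map_pow, map_pow, map_pow,
      CMT.val_algebraMap_unit A _ ε.isUnit, CMT.val_irreducible A p hp, one_mul, pow_succ] at h1
    have h2 : WithZero.exp (-1 : ℤ) < (1 : WithZero (Multiplicative ℤ)) := by
      rw [← WithZero.exp_zero, WithZero.exp_lt_exp]; norm_num
    have h4 : (0 : WithZero (Multiplicative ℤ)) < WithZero.exp (-1 : ℤ) ^ c := by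
      apply pow_pos
      exact WithZero.exp_pos
    have h5 := mul_lt_mul_of_pos_left h2 h4
    rw [mul_one] at h5
    exact absurd h1 (not_le.2 h5)
  obtain ⟨h, hh, hjh⟩ : ∃ h : ℕ, (h = 1 ∨ h = 2) ∧ j = 3 * c + h := by
    refine ⟨j - 3 * c, ?_, by omega⟩
    have : ¬ 3 ∣ 2 * j := by rwa [← hkj]
    omega
  have hεi : (ε : A) * ((ε⁻¹ : Aˣ) : A) = 1 := by rw [← Units.val_mul]; simp
  refine ⟨(η : A) * ((ε⁻¹ : Aˣ) : A) ^ 3, u, ((ε⁻¹ : Aˣ) : A) ^ 2 * β', h, hI, hu.symm, ?_, hp,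
    η.isUnit.mul ((ε⁻¹).isUnit.pow 3), hh, ?_⟩
  · rw [← hr]
    congr 1
    have e : r = (r + 1) - 1 := by ring
    rw [e, hβ', hε]
    have e2 : ((ε : A) * p ^ c) ^ 2 * (((ε⁻¹ : Aˣ) : A) ^ 2 * β') =
        ((ε : A) * ((ε⁻¹ : Aˣ) : A)) ^ 2 * (p ^ (2 * c) * β') := by ring
    rw [e2, hεi]
    ring
  · have e : u ^ 3 * (p ^ h * ((η : A) * ((ε⁻¹ : Aˣ) : A) ^ 3)) = l := by
      rw [hε, hη, hjh]
      have e2 : ((ε : A) * p ^ c) ^ 3 * (p ^ h * ((η : A) * ((ε⁻¹ : Aˣ) : A) ^ 3)) =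
        ((ε : A) * ((ε⁻¹ : Aˣ) : A)) ^ 3 * (η * (p ^ (3 * c) * p ^ h)) := by ring
      rw [e2, hεi, pow_add]
      ring
    have e2 : u ^ 6 * (p ^ h * ((η : A) * ((ε⁻¹ : Aˣ) : A) ^ 3)) ^ 2 =
      (u ^ 3 * (p ^ h * ((η : A) * ((ε⁻¹ : Aˣ) : A) ^ 3))) ^ 2 := by ring
    rw [e2, e, hl]
    ring


/-- the integral coordinate `z = 2 y + a₁ x + a₃` -/
def j0z (I : WeierstrassCurve A) (a b : A) : A := 2 * b + I.a₁ * a + I.a₃

section model

variable {T : WeierstrassCurve.VariableChange K} {I : WeierstrassCurve A} {p l1 u β : A} {h : ℕ}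

theorem J0D.p_dvd (hM : J0D T I p l1 u β h) : p ∣ p ^ h := by
  rcases hM.hh with h1 | h1 <;> rw [h1]
  · simp
  · exact ⟨p, by ring⟩

theorem J0D.p_dvd_three (hM : J0D T I p l1 u β h) : p ∣ 3 := by
  rw [hM.h3]
  obtain ⟨c, hc⟩ := hM.p_dvd
  exact ⟨-(u ^ 6 * p * (c * l1) ^ 2), by rw [hc]; ring⟩

theorem J0D.two (hM : J0D T I p l1 u β h) : ¬ p ∣ 2 := fun h1 =>
  hM.hp.not_isUnit (isUnit_of_dvd_unit h1 (j0_two hM.hp hM.p_dvd_three))

theorem J0D.u_ne (hM : J0D T I p l1 u β h) : u ≠ 0 := by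
  rintro rfl
  have h1 := hM.hu
  rw [map_zero] at h1
  exact T.u.ne_zero h1

theorem J0D.XX (hM : J0D T I p l1 u β h) (a : A) :
    CMT.XX T (algebraMap A K a) = algebraMap A K (u ^ 2 * (a + β) - 1) := by
  rw [CMT.XX, hM.hu, hM.hr]
  simp only [map_add, map_mul, map_pow, map_sub, map_one]
  ring

theorem J0D.ZZ (hM : J0D T I p l1 u β h) (a b : A) :
    CMT.ZZ T (algebraMap A K a) (algebraMap A K b) = algebraMap A K (u ^ 3 * j0z I a b) := by
  rw [CMT.ZZ_eq (0 : K), j0z, hM.hu, hM.hI]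
  simp only [map_add, map_mul, map_pow, WeierstrassCurve.map_a₁, WeierstrassCurve.map_a₃,
    map_ofNat]

theorem J0D.sq (hM : J0D T I p l1 u β h) (a b : A)
    (hab : (T • CMT.Wt (0 : K)).toAffine.Equation (algebraMap A K a) (algebraMap A K b)) :
    j0z I a b ^ 2 = 4 * (a + β) ^ 3 + (p ^ h * l1) ^ 2 * (1 - 2 * u ^ 2 * (a + β)) ^ 2 := by
  have hinj : Function.Injective (algebraMap A K) := IsFractionRing.injective A K
  have h1 := CMT.ZZ_sq (0 : K) T _ _ hab
  rw [hM.ZZ, hM.XX] at h1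
  have h2 : (u ^ 3 * j0z I a b) ^ 2 = 4 * (u ^ 2 * (a + β) - 1) ^ 3 + 1 := by
    apply hinj
    simp only [map_pow, map_add, map_mul, map_one, map_ofNat, map_sub] at h1 ⊢
    linear_combination h1
  apply mul_left_cancel₀ (pow_ne_zero 6 hM.u_ne)
  linear_combination h2 - (1 - 2 * u ^ 2 * (a + β)) ^ 2 * hM.h3

/-- Data of a point of singular reduction. -/
structure J0S (I : WeierstrassCurve A) (p l1 u β : A) (h : ℕ) (a b ζ τ : A) : Prop where
  hz : j0z I a b = p ^ h * ζ
  hx : a + β = p ^ h * τ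
  hsq : ζ ^ 2 = (l1 * (1 - 2 * u ^ 2 * (a + β))) ^ 2 + 4 * p ^ h * τ ^ 3

theorem J0D.data (hM : J0D T I p l1 u β h) (a b : A)
    (hsq : j0z I a b ^ 2 = 4 * (a + β) ^ 3 + (p ^ h * l1) ^ 2 * (1 - 2 * u ^ 2 * (a + β)) ^ 2)
    (hz : p ∣ j0z I a b) : ∃ ζ τ, J0S I p l1 u β h a b ζ τ := by
  have hp := hM.hp
  have hpp : Prime p := hp.prime
  have h2 := hM.two
  have h4 : ∀ x : A, p ∣ 4 * x → p ∣ x := by
    intro x hx
    have e : (4 : A) * x = 2 * (2 * x) := by ring
    rw [e] at hx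
    exact (hpp.dvd_or_dvd ((hpp.dvd_or_dvd hx).resolve_left h2)).resolve_left h2
  obtain ⟨z1, hz1⟩ := hz
  obtain ⟨cc, hcc⟩ := hM.p_dvd
  have hx : p ∣ a + β := by
    apply hpp.dvd_of_dvd_pow (n := 3)
    apply h4
    refine ⟨p * z1 ^ 2 - p * cc ^ 2 * l1 ^ 2 * (1 - 2 * u ^ 2 * (a + β)) ^ 2, ?_⟩
    rw [hz1, hcc] at hsq
    linear_combination -hsq
  obtain ⟨x1, hx1⟩ := hx
  set g := 1 - 2 * u ^ 2 * (a + β) with hg
  rcases hM.hh with rfl | rfl
  · refine ⟨z1, x1, by rw [hz1]; ring, by rw [hx1]; ring, ?_⟩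
    rw [hz1, hx1] at hsq
    apply mul_left_cancel₀ (pow_ne_zero 2 hp.ne_zero)
    rw [← hg]
    linear_combination hsq
  · have h5 : z1 ^ 2 = p * (4 * x1 ^ 3 + p * l1 ^ 2 * g ^ 2) := by
      rw [hz1, hx1] at hsq
      apply mul_left_cancel₀ (pow_ne_zero 2 hp.ne_zero)
      linear_combination hsq
    obtain ⟨z2, hz2⟩ : p ∣ z1 := hpp.dvd_of_dvd_pow (n := 2) ⟨_, h5⟩
    have h6 : p * z2 ^ 2 = 4 * x1 ^ 3 + p * l1 ^ 2 * g ^ 2 := by
      rw [hz2] at h5
      apply mul_left_cancel₀ hp.ne_zero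
      linear_combination h5
    obtain ⟨x2, hx2⟩ : p ∣ x1 := by
      apply hpp.dvd_of_dvd_pow (n := 3)
      apply h4
      exact ⟨z2 ^ 2 - l1 ^ 2 * g ^ 2, by linear_combination -h6⟩
    refine ⟨z2, x2, by rw [hz1, hz2]; ring, by rw [hx1, hx2]; ring, ?_⟩
    rw [hx2] at h6
    apply mul_left_cancel₀ hp.ne_zero
    rw [← hg]
    linear_combination h6

theorem J0S.not_dvd (hM : J0D T I p l1 u β h) {a b ζ τ : A} (hD : J0S I p l1 u β h a b ζ τ) :
    ¬ p ∣ ζ := by
  intro hζ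
  have hp := hM.hp
  have hpp : Prime p := hp.prime
  have h1 := hD.hsq
  obtain ⟨cc, hcc⟩ := hM.p_dvd
  have hg : ¬ p ∣ 1 - 2 * u ^ 2 * (a + β) := by
    intro h2
    apply hp.not_isUnit
    apply isUnit_of_dvd_one
    obtain ⟨d, hd⟩ := h2
    refine ⟨d + 2 * u ^ 2 * (cc * τ), ?_⟩
    have h3 := hD.hx
    rw [hcc] at h3
    linear_combination hd + 2 * u ^ 2 * h3
  have h5 : p ∣ (l1 * (1 - 2 * u ^ 2 * (a + β))) ^ 2 := by
    obtain ⟨d, hd⟩ := hζ
    refine ⟨p * d ^ 2 - 4 * cc * τ ^ 3, ?_⟩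
    rw [hd, hcc] at h1
    linear_combination -h1
  rcases hpp.dvd_or_dvd (hpp.dvd_of_dvd_pow h5) with h6 | h6
  · exact hp.not_isUnit (isUnit_of_dvd_unit h6 hM.hl1)
  · exact hg h6

/-- The data of a point which is not of nonsingular reduction. -/
theorem J0D.exists_data (W : WeierstrassCurve K) [W.IsMinimal A] (hW : W = T • CMT.Wt (0 : K))
    (hM : J0D T (W.integralModel A) p l1 u β h) (P : W.toAffine.Point)
    (hP : ¬ SBSD.NonsingularReduction A W P) :
    ∃ (a b ζ τ : A) (hn : W.toAffine.Nonsingular (algebraMap A K a) (algebraMap A K b)),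
      P = .some _ _ hn ∧ J0S (W.integralModel A) p l1 u β h a b ζ τ := by
  obtain ⟨a, b, hab, rfl, hz⟩ := CMT.not_nonsingular W P hP
  rw [(IsDiscreteValuationRing.irreducible_iff_uniformizer p).1 hM.hp, Ideal.mem_span_singleton]
    at hz
  have h2 := hM.sq a b (by
    have h3 := hab.1
    subst hW
    exact h3)
  obtain ⟨ζ, τ, hD⟩ := hM.data a b h2 hz
  exact ⟨a, b, ζ, τ, hab, rfl, hD⟩

/-- Opposite classes. -/
theorem J0D.add_opposite (W : WeierstrassCurve K) [W.IsMinimal A] (hW : W = T • CMT.Wt (0 : K))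
    (hM : J0D T (W.integralModel A) p l1 u β h)
    (a b ζ τ : A) (hn : W.toAffine.Nonsingular (algebraMap A K a) (algebraMap A K b))
    (hD : J0S (W.integralModel A) p l1 u β h a b ζ τ)
    (a' b' ζ' τ' : A) (hn' : W.toAffine.Nonsingular (algebraMap A K a') (algebraMap A K b'))
    (hD' : J0S (W.integralModel A) p l1 u β h a' b' ζ' τ')
    (hopp : p ∣ ζ + ζ') :
    SBSD.NonsingularReduction A W ((.some _ _ hn : W.toAffine.Point) + .some _ _ hn') := by
  have hinj : Function.Injective (algebraMap A K) := IsFractionRing.injective A K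
  have hp := hM.hp
  have hpp : Prime p := hp.prime
  have hl2' := hM.two
  have hζ := hD.not_dvd hM
  have hph : p ^ h ≠ 0 := pow_ne_zero _ hp.ne_zero
  have h2K : (2 : K) ≠ 0 := by
    intro h0
    apply hl2'
    have : (2 : A) = 0 := hinj (by rw [map_ofNat, map_zero, h0])
    rw [this]
    exact dvd_zero p
  have hkey : ¬ p ∣ ζ - ζ' := by
    intro h1
    have h2 : p ∣ 2 * ζ := by
      have : 2 * ζ = (ζ - ζ') + (ζ + ζ') := by ring
      rw [this]
      exact dvd_add h1 hopp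
    rcases hpp.dvd_or_dvd h2 with h3 | h3
    · exact hl2' h3
    · exact hζ h3
  by_cases hxy : algebraMap A K a = algebraMap A K a' ∧
      algebraMap A K b = W.toAffine.negY (algebraMap A K a') (algebraMap A K b')
  · rw [WeierstrassCurve.Affine.Point.add_of_Y_eq hxy.1 hxy.2]
    trivial
  by_cases hx : algebraMap A K a = algebraMap A K a'
  · exfalso
    have hy : algebraMap A K b ≠ W.toAffine.negY (algebraMap A K a') (algebraMap A K b') :=
      fun hy => hxy ⟨hx, hy⟩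
    have hyy := WeierstrassCurve.Affine.Y_eq_of_Y_ne hn.1 hn'.1 hx hy
    have h1 : a = a' := hinj hx
    have h2 : b = b' := hinj hyy
    apply hkey
    have h3 := hD.hz
    have h4 := hD'.hz
    rw [h1, h2] at h3
    have h5 : ζ = ζ' := mul_left_cancel₀ hph (h3.symm.trans h4)
    rw [h5, sub_self]
    exact dvd_zero p
  by_contra hS
  rw [WeierstrassCurve.Affine.Point.add_some hxy] at hS
  obtain ⟨a₃, b₃, ζ₃, τ₃, h₃, heq, hD₃⟩ := J0D.exists_data W hW hM _ hS
  have hxx : W.toAffine.addX (algebraMap A K a) (algebraMap A K a')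
      (W.toAffine.slope (algebraMap A K a) (algebraMap A K a') (algebraMap A K b)
        (algebraMap A K b')) = algebraMap A K a₃ :=
    (WeierstrassCurve.Affine.Point.some.inj heq).1
  have hadd := (CMT.XX_add (0 : K) T (algebraMap A K a) (algebraMap A K a')
    (algebraMap A K b) (algebraMap A K b') hx).resolve_right h2K
  rw [← hW, hxx, hM.XX, hM.XX, hM.XX, hM.ZZ, hM.ZZ] at hadd
  have hne : a - a' ≠ 0 := fun h0 => hx (by rw [sub_eq_zero.1 h0])
  have huK : algebraMap A K u ≠ 0 := fun h0 => hM.u_ne (hinj (by rw [h0, map_zero]))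
  have hneK : (2 * (algebraMap A K (u ^ 2 * (a + β) - 1) -
      algebraMap A K (u ^ 2 * (a' + β) - 1)) : K) ≠ 0 := by
    rw [← map_sub]
    refine mul_ne_zero h2K (fun h0 => ?_)
    have h1 : u ^ 2 * (a + β) - 1 - (u ^ 2 * (a' + β) - 1) = u ^ 2 * (a - a') := by ring
    rw [h1, map_mul, map_pow] at h0
    rcases mul_eq_zero.1 h0 with h2 | h2
    · exact pow_ne_zero 2 huK h2
    · exact hne (hinj (by rw [h2, map_zero]))
  have hA : 4 * (u ^ 2 * (a - a')) ^ 2 * (u ^ 2 * ((a₃ + β) + (a + β) + (a' + β)) - 3) =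
      (u ^ 3 * (j0z (W.integralModel A) a b - j0z (W.integralModel A) a' b')) ^ 2 := by
    apply hinj
    have hq := div_mul_cancel₀ (algebraMap A K (u ^ 3 * j0z (W.integralModel A) a b) -
      algebraMap A K (u ^ 3 * j0z (W.integralModel A) a' b')) hneK
    generalize (algebraMap A K (u ^ 3 * j0z (W.integralModel A) a b) -
      algebraMap A K (u ^ 3 * j0z (W.integralModel A) a' b')) /
        (2 * (algebraMap A K (u ^ 2 * (a + β) - 1) -
          algebraMap A K (u ^ 2 * (a' + β) - 1))) = q at hq hadd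
    simp only [map_mul, map_pow, map_sub, map_add, map_ofNat, map_one] at hadd hq ⊢
    linear_combination (4 * (algebraMap A K u ^ 2 * (algebraMap A K a - algebraMap A K a')) ^ 2) *
      hadd + (algebraMap A K u ^ 3 * (algebraMap A K (j0z (W.integralModel A) a b) -
        algebraMap A K (j0z (W.integralModel A) a' b')) +
        q * (2 * (algebraMap A K u ^ 2 * (algebraMap A K a - algebraMap A K a')))) * hq
  have e0 : a - a' = p ^ h * (τ - τ') := by linear_combination hD.hx - hD'.hx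
  rw [hD.hz, hD'.hz, hD.hx, hD'.hx, hD₃.hx, e0] at hA
  have h5 : (u ^ 6 * (p ^ h) ^ 2) * (4 * (τ - τ') ^ 2 * (p ^ h * (τ₃ + τ + τ') +
      u ^ 4 * (p ^ h * l1) ^ 2)) = (u ^ 6 * (p ^ h) ^ 2) * (ζ - ζ') ^ 2 := by
    linear_combination hA + 4 * (u ^ 2 * (p ^ h * (τ - τ'))) ^ 2 * hM.h3
  have h6 := mul_left_cancel₀ (mul_ne_zero (pow_ne_zero 6 hM.u_ne) (pow_ne_zero 2 hph)) h5
  obtain ⟨cc, hcc⟩ := hM.p_dvd
  refine hkey (hpp.dvd_of_dvd_pow (n := 2) ⟨4 * (τ - τ') ^ 2 * (cc * (τ₃ + τ + τ') +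
      u ^ 4 * cc * p ^ h * l1 ^ 2), ?_⟩)
  rw [← h6]
  linear_combination (4 * (τ - τ') ^ 2 * ((τ₃ + τ + τ') + u ^ 4 * l1 ^ 2 * p ^ h)) * hcc

theorem J0D.b2 (hM : J0D T I p l1 u β h) :
    I.b₂ = -(4 * (u ^ 2 * β - 1) * u ^ 4 * (p ^ h * l1) ^ 2) := by
  have hinj : Function.Injective (algebraMap A K) := IsFractionRing.injective A K
  have huK : algebraMap A K u ≠ 0 := fun h0 => hM.u_ne (hinj (by rw [h0, map_zero]))
  have hb : (T • CMT.Wt (0 : K)).b₂ = algebraMap A K I.b₂ := by rw [hM.hI]; simp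
  have h1 : u ^ 2 * I.b₂ = 12 * (u ^ 2 * β - 1) := by
    apply hinj
    rw [map_mul, ← hb, WeierstrassCurve.variableChange_b₂, Units.val_inv_eq_inv_val, hM.hu, hM.hr]
    simp only [CMT.Wt, WeierstrassCurve.b₂, map_mul, map_ofNat, map_sub, map_one, map_pow]
    field_simp
    ring
  apply mul_left_cancel₀ (pow_ne_zero 2 hM.u_ne)
  rw [h1]
  linear_combination (4 * (u ^ 2 * β - 1)) * hM.h3

theorem J0D.b4 (hM : J0D T I p l1 u β h) :
    I.b₄ = -(2 * (u ^ 2 * β - 1) ^ 2 * u ^ 2 * (p ^ h * l1) ^ 2) := by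
  have hinj : Function.Injective (algebraMap A K) := IsFractionRing.injective A K
  have huK : algebraMap A K u ≠ 0 := fun h0 => hM.u_ne (hinj (by rw [h0, map_zero]))
  have hb : (T • CMT.Wt (0 : K)).b₄ = algebraMap A K I.b₄ := by rw [hM.hI]; simp
  have h1 : u ^ 4 * I.b₄ = 6 * (u ^ 2 * β - 1) ^ 2 := by
    apply hinj
    rw [map_mul, ← hb, WeierstrassCurve.variableChange_b₄, Units.val_inv_eq_inv_val, hM.hu, hM.hr]
    simp only [CMT.Wt, WeierstrassCurve.b₂, WeierstrassCurve.b₄, map_mul, map_ofNat, map_sub,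
      map_one, map_pow]
    field_simp
    ring
  apply mul_left_cancel₀ (pow_ne_zero 4 hM.u_ne)
  rw [h1]
  linear_combination (2 * (u ^ 2 * β - 1) ^ 2) * hM.h3

/-- A point with `p ∣ z` has singular reduction. -/
theorem J0D.singular_of_dvd (W : WeierstrassCurve K) [W.IsMinimal A]
    (hM : J0D T (W.integralModel A) p l1 u β h)
    (a b : A) (hn : W.toAffine.Nonsingular (algebraMap A K a) (algebraMap A K b))
    (hZ : p ∣ j0z (W.integralModel A) a b) :
    ¬ SBSD.NonsingularReduction A W (.some _ _ hn) := by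
  intro hS
  have h1 := (WeierstrassCurve.Affine.nonsingular_iff _ _).1 (hS a b rfl rfl)
  have hp := hM.hp
  have hpp : Prime p := hp.prime
  set I := W.integralModel A with hI
  obtain ⟨cc, hcc⟩ := hM.p_dvd
  have kb2 : p ∣ I.b₂ := by
    rw [hM.b2, hcc]
    exact ⟨-(4 * (u ^ 2 * β - 1) * u ^ 4 * p * (cc * l1) ^ 2), by ring⟩
  have kb4 : p ∣ I.b₄ := by
    rw [hM.b4, hcc]
    exact ⟨-(2 * (u ^ 2 * β - 1) ^ 2 * u ^ 2 * p * (cc * l1) ^ 2), by ring⟩
  have hm : IsLocalRing.maximalIdeal A = Ideal.span {p} :=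
    (IsDiscreteValuationRing.irreducible_iff_uniformizer p).1 hp
  have hF : p ∣ I.a₁ * b - (3 * a ^ 2 + 2 * I.a₂ * a + I.a₄) := by
    obtain ⟨c1, hc1⟩ := hZ
    obtain ⟨c2, hc2⟩ := kb2
    obtain ⟨c3, hc3⟩ := kb4
    obtain ⟨c4, hc4⟩ := hM.p_dvd_three
    have h5 : p ∣ 2 * (I.a₁ * b - (3 * a ^ 2 + 2 * I.a₂ * a + I.a₄)) := by
      refine ⟨I.a₁ * c1 - c2 * a - c3 - 2 * c4 * a ^ 2, ?_⟩
      have e1 : I.b₂ = I.a₁ ^ 2 + 4 * I.a₂ := rfl
      have e2 : I.b₄ = 2 * I.a₄ + I.a₁ * I.a₃ := rfl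
      rw [e1] at hc2
      rw [e2] at hc3
      rw [j0z] at hc1
      linear_combination I.a₁ * hc1 - a * hc2 - hc3 - (2 * a ^ 2) * hc4
    exact (hpp.dvd_or_dvd h5).resolve_left hM.two
  have e1 : (W.reduction A).toAffine.a₁ = IsLocalRing.residue A I.a₁ := rfl
  have e2 : (W.reduction A).toAffine.a₂ = IsLocalRing.residue A I.a₂ := rfl
  have e3 : (W.reduction A).toAffine.a₃ = IsLocalRing.residue A I.a₃ := rfl
  have e4 : (W.reduction A).toAffine.a₄ = IsLocalRing.residue A I.a₄ := rfl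
  have hz' : IsLocalRing.residue A (2 * b + I.a₁ * a + I.a₃) = 0 := by
    rw [IsLocalRing.residue_eq_zero_iff, hm, Ideal.mem_span_singleton]
    exact hZ
  have hF' : IsLocalRing.residue A (I.a₁ * b - (3 * a ^ 2 + 2 * I.a₂ * a + I.a₄)) = 0 := by
    rw [IsLocalRing.residue_eq_zero_iff, hm, Ideal.mem_span_singleton]
    exact hF
  simp only [map_add, map_mul, map_sub, map_pow, map_ofNat] at hz' hF'
  rcases h1.2 with h2 | h2
  · apply h2
    rw [e1, e2, e4]
    linear_combination hF'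
  · apply h2
    rw [e1, e3]
    linear_combination hz'

/-- The double of a point of singular reduction has singular reduction. -/
theorem J0D.double_singular (W : WeierstrassCurve K) [W.IsMinimal A]
    (hW : W = T • CMT.Wt (0 : K)) (hM : J0D T (W.integralModel A) p l1 u β h)
    (P : W.toAffine.Point) (hP : ¬ SBSD.NonsingularReduction A W P) :
    ¬ SBSD.NonsingularReduction A W (P + P) := by
  obtain ⟨a, b, ζ, τ, hn, rfl, hD⟩ := J0D.exists_data W hW hM P hP
  have hinj : Function.Injective (algebraMap A K) := IsFractionRing.injective A K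
  have hp := hM.hp
  have hpp : Prime p := hp.prime
  have hζ := hD.not_dvd hM
  obtain ⟨ζu, rfl⟩ := j0_unit hp hζ
  have hph : p ^ h ≠ 0 := pow_ne_zero _ hp.ne_zero
  have hζK : algebraMap A K (ζu : A) * algebraMap A K ((ζu⁻¹ : Aˣ) : A) = 1 := by
    rw [← map_mul]; simp
  have huK : algebraMap A K u ≠ 0 := fun h0 => hM.u_ne (hinj (by rw [h0, map_zero]))
  have hphK : algebraMap A K (p ^ h) ≠ 0 := fun h0 => hph (hinj (by rw [h0, map_zero]))
  have hζ0 : algebraMap A K (ζu : A) ≠ 0 := left_ne_zero_of_mul_eq_one hζK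
  have h3K : (3 : K) = -(algebraMap A K u ^ 6 * (algebraMap A K (p ^ h) * algebraMap A K l1) ^ 2) := by
    have := congrArg (algebraMap A K) hM.h3
    simpa only [map_ofNat, map_neg, map_mul, map_pow] using this
  have hzK : algebraMap A K (j0z (W.integralModel A) a b) =
      algebraMap A K (p ^ h) * algebraMap A K (ζu : A) := by
    rw [hD.hz, map_mul]
  have hZZ : CMT.ZZ T (algebraMap A K a) (algebraMap A K b) ≠ 0 := by
    rw [hM.ZZ, map_mul, map_pow, hzK]
    exact mul_ne_zero (pow_ne_zero 3 huK) (mul_ne_zero hphK hζ0)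
  have hy : algebraMap A K b ≠ W.toAffine.negY (algebraMap A K a) (algebraMap A K b) := by
    intro hy
    apply hZZ
    rw [CMT.ZZ_eq (0 : K), ← hW]
    have h1 : 2 * algebraMap A K b + W.a₁ * algebraMap A K a + W.a₃ = 0 := by
      have h2 : W.toAffine.negY (algebraMap A K a) (algebraMap A K b) =
        -algebraMap A K b - W.a₁ * algebraMap A K a - W.a₃ := rfl
      rw [h2] at hy
      linear_combination hy
    rw [h1, mul_zero]
  rw [WeierstrassCurve.Affine.Point.add_self_of_Y_ne hy]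
  -- the new coordinates
  set Xo : A := u ^ 2 * (a + β) - 1 with hXo
  set x3 : A := u ^ 4 * (p ^ h) ^ 2 * l1 ^ 4 * Xo ^ 4 * ((ζu⁻¹ : Aˣ) : A) ^ 2 - 2 * (a + β) -
    u ^ 4 * (p ^ h * l1) ^ 2 with hx3
  set a3 : A := x3 - β with ha3
  have hxx : W.toAffine.addX (algebraMap A K a) (algebraMap A K a)
      (W.toAffine.slope (algebraMap A K a) (algebraMap A K a) (algebraMap A K b)
        (algebraMap A K b)) = algebraMap A K a3 := by
    have h1 := CMT.XX_double (0 : K) T (algebraMap A K a) (algebraMap A K b) hZZ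
      (by rw [← hW]; exact hy)
    rw [← hW, hM.XX, hM.ZZ, ← hXo, map_mul, map_pow, hzK] at h1
    have h2 : (3 * algebraMap A K Xo ^ 2 / (algebraMap A K u ^ 3 *
        (algebraMap A K (p ^ h) * algebraMap A K (ζu : A)))) ^ 2 - 2 * algebraMap A K Xo =
        algebraMap A K (u ^ 2 * (a3 + β) - 1) := by
      have h3 : (3 * algebraMap A K Xo ^ 2 / (algebraMap A K u ^ 3 *
        (algebraMap A K (p ^ h) * algebraMap A K (ζu : A)))) ^ 2 =
        algebraMap A K u ^ 6 * algebraMap A K (p ^ h) ^ 2 * algebraMap A K l1 ^ 4 *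
          algebraMap A K Xo ^ 4 * algebraMap A K ((ζu⁻¹ : Aˣ) : A) ^ 2 := by
        rw [h3K, div_pow, div_eq_iff (pow_ne_zero 2 (mul_ne_zero (pow_ne_zero 3 huK)
          (mul_ne_zero hphK hζ0)))]
        have h4 : algebraMap A K (ζu : A) ^ 2 * algebraMap A K ((ζu⁻¹ : Aˣ) : A) ^ 2 = 1 := by
          rw [← mul_pow, hζK, one_pow]
        linear_combination (-(algebraMap A K u ^ 12 * algebraMap A K (p ^ h) ^ 4 *
          algebraMap A K l1 ^ 4 * algebraMap A K Xo ^ 4)) * h4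
      rw [h3, ha3, sub_add_cancel, hx3, hXo]
      simp only [map_sub, map_add, map_mul, map_pow, map_one, map_ofNat]
      simp only [map_pow] at h3K
      linear_combination h3K
    rw [h2, ← hM.XX, CMT.XX, CMT.XX] at h1
    have h4 : (T.u : K) ^ 2 ≠ 0 := pow_ne_zero _ T.u.ne_zero
    exact mul_left_cancel₀ h4 (add_right_cancel h1)
  have hns := WeierstrassCurve.Affine.nonsingular_add hn hn fun hxy => hy hxy.right
  obtain ⟨b3, hb3⟩ : ∃ b3 : A, algebraMap A K b3 = W.toAffine.addY (algebraMap A K a)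
      (algebraMap A K a) (algebraMap A K b) (W.toAffine.slope (algebraMap A K a) (algebraMap A K a)
        (algebraMap A K b) (algebraMap A K b)) := by
    have h1 := (WeierstrassCurve.Affine.equation_iff' _ _).1 hns.1
    rw [hxx] at h1
    have i1 := WeierstrassCurve.integralModel_a₁_eq A W
    have i2 := WeierstrassCurve.integralModel_a₂_eq A W
    have i3 := WeierstrassCurve.integralModel_a₃_eq A W
    have i4 := WeierstrassCurve.integralModel_a₄_eq A W
    have i6 := WeierstrassCurve.integralModel_a₆_eq A W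
    set I := W.integralModel A
    refine c1_root A K (X ^ 2 + C (I.a₁ * a3 + I.a₃) * X -
      C (a3 ^ 3 + I.a₂ * a3 ^ 2 + I.a₄ * a3 + I.a₆)) ?_ _ ?_
    · monicity!
    · rw [eval₂_sub, eval₂_add, eval₂_pow, eval₂_mul, eval₂_X, eval₂_C, eval₂_C]
      simp only [map_add, map_mul, map_pow, i1, i2, i3, i4, i6]
      simp only [WeierstrassCurve.toAffine] at h1 ⊢
      linear_combination h1
  have hns3 : W.toAffine.Nonsingular (algebraMap A K a3) (algebraMap A K b3) := by
    rw [← hxx, hb3]; exact hns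
  have hpt : (WeierstrassCurve.Affine.Point.some _ _ hns : W.toAffine.Point) =
      .some (algebraMap A K a3) (algebraMap A K b3) hns3 := by
    simp only [WeierstrassCurve.Affine.Point.some.injEq]
    exact ⟨hxx, hb3.symm⟩
  rw [hpt]
  refine J0D.singular_of_dvd W hM a3 b3 _ ?_
  have hsq3 := hM.sq a3 b3 (by rw [← hW]; exact hns3.1)
  obtain ⟨cc, hcc⟩ := hM.p_dvd
  have hx3d : p ∣ a3 + β := by
    rw [ha3, sub_add_cancel, hx3]
    have e := hD.hx
    refine ⟨cc * (u ^ 4 * p ^ h * l1 ^ 4 * Xo ^ 4 * ((ζu⁻¹ : Aˣ) : A) ^ 2 - 2 * τ -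
      u ^ 4 * p ^ h * l1 ^ 2), ?_⟩
    linear_combination (u ^ 4 * p ^ h * l1 ^ 4 * Xo ^ 4 * ((ζu⁻¹ : Aˣ) : A) ^ 2 - 2 * τ -
      u ^ 4 * p ^ h * l1 ^ 2) * hcc - 2 * e
  obtain ⟨κ, hκ⟩ := hx3d
  refine hpp.dvd_of_dvd_pow (n := 2) ⟨4 * p ^ 2 * κ ^ 3 +
    p * (cc * l1) ^ 2 * (1 - 2 * u ^ 2 * (a3 + β)) ^ 2, ?_⟩
  rw [hsq3, hκ, hcc]
  ring

/-- The Tamagawa number at a place above `3`. -/
theorem j0_tam (p : A) (hp : Irreducible p) (v3 : A) (hv3 : IsUnit v3) (k : ℕ) (hk : ¬ 3 ∣ k)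
    (h3 : (3 : A) = v3 * p ^ k) (l : A) (hl : l ^ 2 = -3) :
    SBSD.tamagawa A (E K) = 1 ∨ SBSD.tamagawa A (E K) = 3 := by
  obtain ⟨T, hT, hTm, -⟩ := CMT.exists_minimal_T A (E K)
  have hI : T • E K = (((E K).minimal A).integralModel A).map (algebraMap A K) := by
    rw [← hT]
    exact (WeierstrassCurve.baseChange_integralModel_eq A _).symm
  obtain ⟨l1, u, β, h, hM⟩ := j0_data p hp v3 hv3 k hk h3 l hl T hTm _ hI
  unfold SBSD.tamagawa
  refine CMT.index_odd _ ?_ ?_
  · intro P Q hP hQ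
    obtain ⟨a, b, ζ, τ, hn, rfl, hD⟩ := J0D.exists_data _ hT hM P hP
    obtain ⟨a', b', ζ', τ', hn', rfl, hD'⟩ := J0D.exists_data _ hT hM Q hQ
    obtain ⟨cc, hcc⟩ := hM.p_dvd
    have h3 : p ∣ (ζ + ζ') * (ζ + (-ζ')) := by
      refine ⟨cc * (l1 ^ 2 * (-4 * u ^ 2 * (τ - τ') + 4 * u ^ 4 * p ^ h * (τ ^ 2 - τ' ^ 2)) +
        4 * τ ^ 3 - 4 * τ' ^ 3), ?_⟩
      have e1 := hD.hsq
      have e2 := hD'.hsq
      rw [hD.hx] at e1
      rw [hD'.hx] at e2
      linear_combination e1 - e2 + (l1 ^ 2 * (-4 * u ^ 2 * (τ - τ') +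
        4 * u ^ 4 * p ^ h * (τ ^ 2 - τ' ^ 2)) + 4 * τ ^ 3 - 4 * τ' ^ 3) * hcc
    rcases hp.prime.dvd_or_dvd h3 with h4 | h4
    · right
      exact J0D.add_opposite _ hT hM a b ζ τ hn hD a' b' ζ' τ' hn' hD' h4
    · left
      have hneg : ((E K).minimal A).toAffine.negY (algebraMap A K a')
          (algebraMap A K b') = algebraMap A K (-b' -
            (((E K).minimal A).integralModel A).a₁ * a' -
            (((E K).minimal A).integralModel A).a₃) := by
        simp only [map_sub, map_neg, map_mul, WeierstrassCurve.integralModel_a₁_eq,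
          WeierstrassCurve.integralModel_a₃_eq]
        rfl
      have hn'' : ((E K).minimal A).toAffine.Nonsingular (algebraMap A K a')
          (algebraMap A K (-b' -
            (((E K).minimal A).integralModel A).a₁ * a' -
            (((E K).minimal A).integralModel A).a₃)) := by
        rw [← hneg]
        exact (WeierstrassCurve.Affine.nonsingular_neg _ _).2 hn'
      have hDn : J0S (((E K).minimal A).integralModel A) p l1 u β h a' (-b' -
            (((E K).minimal A).integralModel A).a₁ * a' -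
            (((E K).minimal A).integralModel A).a₃) (-ζ') τ' := by
        refine ⟨?_, hD'.hx, ?_⟩
        · have h5 := hD'.hz
          simp only [j0z] at h5 ⊢
          linear_combination -h5
        · rw [neg_sq]
          exact hD'.hsq
      have h6 := J0D.add_opposite _ hT hM a b ζ τ hn hD a' _ (-ζ') τ' hn'' hDn h4
      have hpn : (-(.some _ _ hn' : ((E K).minimal A).toAffine.Point)) = .some _ _ hn'' := by
        rw [WeierstrassCurve.Affine.Point.neg_some]
        simp only [WeierstrassCurve.Affine.Point.some.injEq, true_and]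
        exact hneg
      rw [sub_eq_add_neg, hpn]
      exact h6
  · intro P hP
    exact J0D.double_singular _ hT hM P hP

end model

end dvr

theorem j0_absNorm (F : Type) [Field F] [NumberField F] (v : HeightOneSpectrum (𝓞 F)) (hv : (3 : 𝓞 F) ∈ v.asIdeal) :
    Odd (Ideal.absNorm v.asIdeal) := by
  have h1 : Ideal.absNorm v.asIdeal ∣ Ideal.absNorm (Ideal.span {(3 : 𝓞 F)}) :=
    Ideal.absNorm_dvd_absNorm_of_le ((Ideal.span_singleton_le_iff_mem _).2 hv)
  have h2 : Odd (Ideal.absNorm (Ideal.span {(3 : 𝓞 F)})) := by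
    rw [Ideal.absNorm_span_singleton]
    have e : (3 : 𝓞 F) = algebraMap ℤ (𝓞 F) 3 := by simp
    rw [e, Algebra.norm_algebraMap, Int.natAbs_pow]
    exact Odd.pow (by decide)
  exact Odd.of_dvd_nat h2 h1

section
variable (F : Type) [Field F] [NumberField F]
  (h3 : ∀ v : HeightOneSpectrum (𝓞 F), (3 : 𝓞 F) ∈ v.asIdeal →
    ∃ (k : ℕ) (ϖ u : v.adicCompletionIntegers F), ¬ 3 ∣ k ∧ Irreducible ϖ ∧ IsUnit u ∧
      (3 : v.adicCompletionIntegers F) = u * ϖ ^ k)
include h3

/-- Away from `3` the model has good reduction, the Tamagawa number is `1`. At `v | 3`: additive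
reduction (compare L1 and CM/C2), `E(F_v)` has no point of order `2` (`x³ = -1/4` has no solution, as
`(1 + t)³ = 1 - 3` is impossible: the valuation of `(1 + t)³ - 1` is never `k`), the group of points of
nonsingular reduction is uniquely `2`-divisible (the kernel of reduction is a pro-`3` group and the
nonsingular points of the reduction are the additive group of the residue field), so the index is odd
(it is finite by Mathlib or by compactness; for infinite index the value is `0`, so the finiteness has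
to be proved: see the file for `E_d` over `ℚ(ω)`, or use that the type is `IV` or `IV*`, index `1` or
`3`; if `3 = u ϖ^k` and `ω ∈ F`: `Y² - 2 √-3 X Y + √-3 Y = X³`). -/
theorem tam_odd (hw : ∃ om : F, om ^ 2 + om + 1 = 0) :
    Odd (∏ᶠ v : HeightOneSpectrum (𝓞 F), SBSD.tam (E F) v) := by
  obtain ⟨om, hom⟩ := hw
  refine finprod_induction Odd odd_one (fun _ _ hx hy => hx.mul hy) fun v => ?_
  unfold SBSD.tam
  rw [c4_baseChange]
  by_cases hv : (3 : 𝓞 F) ∈ v.asIdeal
  · obtain ⟨k, ϖ, u, hk, hϖ, hu, h3'⟩ := h3 v hv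
    have hinj : Function.Injective (algebraMap (v.adicCompletionIntegers F) (v.adicCompletion F)) :=
      IsFractionRing.injective _ _
    have hl : (algebraMap F (v.adicCompletion F) (2 * om + 1)) ^ 2 = -3 := by
      rw [← map_pow]
      have e : (2 * om + 1) ^ 2 = -3 := by linear_combination 4 * hom
      rw [e, map_neg, map_ofNat]
    obtain ⟨l, hl'⟩ := c1_root (v.adicCompletionIntegers F) (v.adicCompletion F)
      (Polynomial.X ^ 2 + Polynomial.C 3) (by monicity!)
      (algebraMap F (v.adicCompletion F) (2 * om + 1)) (by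
        rw [Polynomial.eval₂_add, Polynomial.eval₂_pow, Polynomial.eval₂_X, Polynomial.eval₂_C, hl,
          map_ofNat]
        ring)
    have hl2 : l ^ 2 = -3 := by
      apply hinj
      rw [map_pow, hl', hl, map_neg, map_ofNat]
    rcases j0_tam (K := v.adicCompletion F) ϖ hϖ u hu k hk h3' l hl2 with h | h <;> rw [h] <;> decide
  · rw [SBSD.tamagawa_good _ _ (by
      have := isUnit_completion F v 3 (by exact_mod_cast hv)
      exact_mod_cast this)]
    exact odd_one

/-- The Néron factors are `1` away from `3` and powers of `3` at the places above `3`. -/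
theorem neron_unit : ∃ q : ℚ, 0 < q ∧ padicValRat 2 q = 0 ∧
    ∏ᶠ v : HeightOneSpectrum (𝓞 F), SBSD.neron (E F) v = (q : ℝ) := by
  refine finprod_induction (fun x : ℝ => ∃ q : ℚ, 0 < q ∧ padicValRat 2 q = 0 ∧ x = (q : ℝ))
    ⟨1, one_pos, by simp, by simp⟩ ?_ fun v => ?_
  · rintro x y ⟨q, hq, hq2, rfl⟩ ⟨q', hq', hq2', rfl⟩
    refine ⟨q * q', mul_pos hq hq', ?_, by push_cast; ring⟩
    rw [padicValRat.mul hq.ne' hq'.ne', hq2, hq2']
    rfl
  by_cases hv : (3 : 𝓞 F) ∈ v.asIdeal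
  · unfold SBSD.neron
    generalize ((((E F).baseChange (v.adicCompletion F)).exists_isMinimal
        (v.adicCompletionIntegers F)).choose.u : (v.adicCompletion F)ˣ) = x
    have hx0 : (x : v.adicCompletion F) ≠ 0 := x.ne_zero
    have hvx : Valued.v (x : v.adicCompletion F) ≠ 0 := (Valuation.ne_zero_iff _).2 hx0
    have hodd := j0_absNorm F v hv
    have hN0 : (Ideal.absNorm v.asIdeal : ℚ) ≠ 0 := by
      have := hodd.pos
      positivity
    refine ⟨((Ideal.absNorm v.asIdeal : ℚ) ^ (WithZero.unzero hvx).toAdd)⁻¹, ?_, ?_, ?_⟩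
    · have h1 : (0 : ℚ) < Ideal.absNorm v.asIdeal := by exact_mod_cast hodd.pos
      positivity
    · rw [padicValRat.inv, padicValRat.zpow, padicValRat.of_nat,
        padicValNat.eq_zero_of_not_dvd (Nat.two_dvd_ne_zero.2 (Nat.odd_iff.1 hodd))]
      simp
    · rw [FinitePlace.norm_def, WithZeroMulInt.toNNReal_neg_apply _ hvx]
      push_cast
      rfl
  · exact ⟨1, one_pos, by simp, by
      rw [SBSD.neron_eq_one F v (fun h => absurd h hv)]; simp⟩

end

end CF
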