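import Pool.Agent.MP_9ab903_nt.SB.FIN
import Pool.Agent.MP_9ab903_nt.SB.UR

set_option autoImplicit false
set_option linter.style.haveILetI false
set_option linter.unusedSectionVars false

open Polynomial NumberField IsDedekindDomain
open CM27
open scoped Classical

namespace CF

/-! ## [CF-SG2] `R F / R K` is unramified where `F / K` is

`K` contains a primitive third root of unity, `F / K` is Galois of degree `2 ^ n`, `R F = F(π)`,
`R K = K(π)`, `π ^ 3 = 2`. -/

theorem sg2_mapR_comp {A B C : Type} [Field A] [Field B] [Field C] (f : A →+* B) (g : B →+* C)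
    (z : R A) : mapR g (mapR f z) = mapR (g.comp f) z := by
  have h : (mapR g).comp (mapR f) = mapR (g.comp f) := by
    apply AdjoinRoot.ringHom_ext
    · ext x
      change mapR g (mapR f (algebraMap A (R A) x)) = mapR (g.comp f) (algebraMap A (R A) x)
      rw [mapR_algebraMap, mapR_algebraMap, mapR_algebraMap]
      rfl
    · change mapR g (mapR f (pr A)) = mapR (g.comp f) (pr A)
      rw [mapR_pr, mapR_pr, mapR_pr]
  exact congrArg (fun φ : R A →+* R C => φ z) h

theorem sg2_finrank (K : Type) [Field K] [Fact (Irreducible (cubPoly K))] :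
    Module.finrank K (R K) = 3 := by
  rw [(AdjoinRoot.powerBasis' (cubPoly_monic K)).finrank, AdjoinRoot.powerBasis'_dim,
    cubPoly_natDegree]

theorem sg2_isGalois {K : Type} [Field K] [CharZero K] [hK : Fact (Irreducible (cubPoly K))]
    (om : K) (hom : om ^ 2 + om + 1 = 0) : IsGalois K (R K) := by
  have h3 : om ^ 3 = 1 := by linear_combination (om - 1) * hom
  have h1 : om ≠ 1 := by
    rintro rfl
    norm_num at hom
  haveI : Fact (Nat.Prime 3) := ⟨Nat.prime_three⟩
  have hprim : IsPrimitiveRoot om 3 := IsPrimitiveRoot.iff_orderOf.2 (orderOf_eq_prime h3 h1)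
  have hne : (primitiveRoots 3 K).Nonempty :=
    ⟨om, (mem_primitiveRoots (by norm_num)).2 hprim⟩
  have hirr : Irreducible (X ^ 3 - C (2 : K)) := hK.out
  haveI : IsSplittingField K (R K) (X ^ 3 - C (2 : K)) :=
    isSplittingField_AdjoinRoot_X_pow_sub_C hne hirr
  exact isGalois_of_isSplittingField_X_pow_sub_C hne hirr (R K)

section

variable {K F : Type} [Field K] [NumberField K] [Field F] [NumberField F] [Algebra K F]
    [Fact (Irreducible (cubPoly K))] [Fact (Irreducible (cubPoly F))]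

theorem sg2_scalarTower :
    letI : Algebra (R K) (R F) := (mapR (algebraMap K F)).toAlgebra
    IsScalarTower K (R K) (R F) := by
  letI : Algebra (R K) (R F) := (mapR (algebraMap K F)).toAlgebra
  refine IsScalarTower.of_algebraMap_eq fun x => ?_
  change algebraMap K (R F) x = mapR (algebraMap K F) (algebraMap K (R K) x)
  rw [mapR_algebraMap, ← IsScalarTower.algebraMap_apply]

theorem sg2_finrank_RF (n : ℕ) (hn : Module.finrank K F = 2 ^ n) :
    letI : Algebra (R K) (R F) := (mapR (algebraMap K F)).toAlgebra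
    Module.finrank (R K) (R F) = 2 ^ n := by
  letI : Algebra (R K) (R F) := (mapR (algebraMap K F)).toAlgebra
  haveI : IsScalarTower K (R K) (R F) := sg2_scalarTower
  haveI : FiniteDimensional K (R F) := Module.Finite.trans F (R F)
  haveI : Module.Finite (R K) (R F) := Module.Finite.of_restrictScalars_finite K (R K) (R F)
  have h1 := Module.finrank_mul_finrank K (R K) (R F)
  have h2 := Module.finrank_mul_finrank K F (R F)
  rw [sg2_finrank] at h1
  rw [sg2_finrank, hn, ← h1] at h2
  change Module.finrank (R K) (R F) = 2 ^ n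
  omega

/-- The automorphism of `R F` over `R K`. -/
noncomputable def sg2_aut (σ : F ≃ₐ[K] F) :
    letI : Algebra (R K) (R F) := (mapR (algebraMap K F)).toAlgebra
    R F →ₐ[R K] R F :=
  letI : Algebra (R K) (R F) := (mapR (algebraMap K F)).toAlgebra
  { mapR (σ : F →+* F) with
    commutes' := fun z => by
      change mapR (σ : F →+* F) (mapR (algebraMap K F) z) = mapR (algebraMap K F) z
      rw [sg2_mapR_comp]
      congr 1
      congr 1
      ext x
      exact σ.commutes x }

theorem sg2_isGalois_RF [IsGalois K F] (n : ℕ) (hn : Module.finrank K F = 2 ^ n) :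
    letI : Algebra (R K) (R F) := (mapR (algebraMap K F)).toAlgebra
    IsGalois (R K) (R F) := by
  letI : Algebra (R K) (R F) := (mapR (algebraMap K F)).toAlgebra
  haveI : IsScalarTower K (R K) (R F) := sg2_scalarTower
  haveI : FiniteDimensional K (R F) := Module.Finite.trans F (R F)
  haveI : Module.Finite (R K) (R F) := Module.Finite.of_restrictScalars_finite K (R K) (R F)
  apply IsGalois.of_card_aut_eq_finrank
  have h1 : Module.finrank (R K) (R F) = 2 ^ n := sg2_finrank_RF n hn
  have h2 : Nat.card (R F →ₐ[R K] R F) ≤ Module.finrank (R K) (R F) :=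
    card_algHom_le_finrank (R K) (R F) (R F)
  have h3 : Nat.card Gal(F/K) = 2 ^ n := by rw [← hn, IsGalois.card_aut_eq_finrank]
  have h4 : Nat.card (R F ≃ₐ[R K] R F) = Nat.card (R F →ₐ[R K] R F) :=
    Nat.card_congr (algEquivEquivAlgHom (R K) (R F)).toEquiv
  have hinj : Function.Injective (sg2_aut (K := K) (F := F)) := by
    intro σ τ h
    ext x
    have h5 := congrArg (fun φ : R F →ₐ[R K] R F => φ (algebraMap F (R F) x)) h
    change mapR (σ : F →+* F) (algebraMap F (R F) x) = mapR (τ : F →+* F) (algebraMap F (R F) x)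
      at h5
    rw [mapR_algebraMap, mapR_algebraMap] at h5
    exact (algebraMap F (R F)).injective h5
  have h6 : Nat.card Gal(F/K) ≤ Nat.card (R F →ₐ[R K] R F) := by
    haveI : Finite (R F →ₐ[R K] R F) := inferInstance
    exact Nat.card_le_card_of_injective _ hinj
  apply le_antisymm
  · rw [h4]; exact h2
  · rw [h4, h1, ← h3]; exact h6

end

theorem sg2_dvd {A B : Type} [Field A] [NumberField A] [Field B] [NumberField B] [Algebra A B]
    [IsGalois A B] (v : HeightOneSpectrum (𝓞 A)) (w : HeightOneSpectrum (𝓞 B))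
    [w.asIdeal.LiesOver v.asIdeal] : w.asIdeal.ramificationIdx (𝓞 A) ∣ Module.finrank A B := by
  have h1 := Ideal.ncard_primesOver_mul_ramificationIdxIn_mul_inertiaDegIn v.asIdeal (𝓞 B)
    Gal(B/A)
  rw [Ideal.ramificationIdxIn_eq_ramificationIdx v.asIdeal w.asIdeal Gal(B/A),
    IsGalois.card_aut_eq_finrank] at h1
  rw [← h1]
  exact dvd_mul_of_dvd_right (dvd_mul_right _ _) _

/-- If `F / K` is unramified at all places of `F` above the place of `K` below the place `v` of `R K`,
then there is a place `P` of `R F` with `w_P(z) = w_v(z)` for `z` in `R K`. -/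
theorem unram_gal {K F : Type} [Field K] [NumberField K] [Field F] [NumberField F] [Algebra K F]
    [IsGalois K F] (n : ℕ) (hn : Module.finrank K F = 2 ^ n)
    [Fact (Irreducible (cubPoly K))] [Fact (Irreducible (cubPoly F))] (om : K)
    (hom : om ^ 2 + om + 1 = 0) (v : HeightOneSpectrum (𝓞 (R K)))
    (hu : ∀ (v₀ : HeightOneSpectrum (𝓞 K)) (P₀ : HeightOneSpectrum (𝓞 F)),
      v₀.asIdeal = v.asIdeal.under (𝓞 K) → P₀.asIdeal.LiesOver v₀.asIdeal →
        P₀.asIdeal.ramificationIdx (𝓞 K) = 1) :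
    ∃ P : HeightOneSpectrum (𝓞 (R F)),
      (∀ N : ℕ, (N : 𝓞 (R F)) ∈ P.asIdeal → (N : 𝓞 (R K)) ∈ v.asIdeal) ∧
      ∀ z : R K, P.valuation (R F) (mapR (algebraMap K F) z) = v.valuation (R K) z := by
  letI : Algebra (R K) (R F) := (mapR (algebraMap K F)).toAlgebra
  haveI : IsScalarTower K (R K) (R F) := sg2_scalarTower
  haveI : IsGalois (R K) (R F) := sg2_isGalois_RF n hn
  have hfr : Module.finrank (R K) (R F) = 2 ^ n := sg2_finrank_RF n hn
  haveI : IsGalois F (R F) := sg2_isGalois (algebraMap K F om) (by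
    rw [← map_pow, ← map_add, ← map_one (algebraMap K F), ← map_add, hom, map_zero])
  have := v.isMaximal
  obtain ⟨Q, hQm, hQ⟩ := Ideal.exists_maximal_ideal_liesOver_of_isIntegral
    (S := 𝓞 (R F)) v.asIdeal
  have hQ0 : Q ≠ ⊥ := Ideal.ne_bot_of_liesOver_of_ne_bot v.ne_bot Q
  let P : HeightOneSpectrum (𝓞 (R F)) := ⟨Q, hQm.isPrime, hQ0⟩
  haveI hP : P.asIdeal.LiesOver v.asIdeal := hQ
  -- the places below
  have hv0ne : v.asIdeal.under (𝓞 K) ≠ ⊥ := Ideal.IsIntegral.comap_ne_bot (𝓞 K) v.ne_bot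
  have hP0ne : P.asIdeal.under (𝓞 F) ≠ ⊥ := Ideal.IsIntegral.comap_ne_bot (𝓞 F) P.ne_bot
  let v₀ : HeightOneSpectrum (𝓞 K) := ⟨v.asIdeal.under (𝓞 K), inferInstance, hv0ne⟩
  let P₀ : HeightOneSpectrum (𝓞 F) := ⟨P.asIdeal.under (𝓞 F), inferInstance, hP0ne⟩
  haveI hvv : v.asIdeal.LiesOver v₀.asIdeal := ⟨rfl⟩
  haveI hPP : P.asIdeal.LiesOver P₀.asIdeal := ⟨rfl⟩
  haveI hPv : P.asIdeal.LiesOver v₀.asIdeal := Ideal.LiesOver.trans P.asIdeal v.asIdeal v₀.asIdeal
  haveI hP0v : P₀.asIdeal.LiesOver v₀.asIdeal := ⟨by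
    rw [hPv.over]
    change _ = Ideal.under _ (Ideal.under _ _)
    rw [Ideal.under_under]⟩
  have e1 := Ideal.ramificationIdx_tower (R := 𝓞 K) v.asIdeal P.asIdeal
  have e2 := Ideal.ramificationIdx_tower (R := 𝓞 K) P₀.asIdeal P.asIdeal
  have e3 : P₀.asIdeal.ramificationIdx (𝓞 K) = 1 := hu v₀ P₀ rfl hP0v
  have d1 : P.asIdeal.ramificationIdx (𝓞 (R K)) ∣ 2 ^ n := by
    rw [← hfr]; exact sg2_dvd v P
  have d2 : P.asIdeal.ramificationIdx (𝓞 F) ∣ 3 := by
    rw [← sg2_finrank F]; exact sg2_dvd P₀ P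
  have d3 : P.asIdeal.ramificationIdx (𝓞 (R K)) ∣ 3 := by
    refine dvd_trans ?_ d2
    rw [e3, one_mul] at e2
    rw [← e2, e1]
    exact Dvd.intro_left _ rfl
  have h1 : P.asIdeal.ramificationIdx (𝓞 (R K)) = 1 := by
    have hc : Nat.Coprime (2 ^ n) 3 := Nat.Coprime.pow_left n (by norm_num)
    exact Nat.eq_one_of_dvd_coprimes hc d1 d3
  refine ⟨P, fun N hN => ?_, fun z => ?_⟩
  · rw [hP.over, Ideal.under_def, Ideal.mem_comap, map_natCast]
    exact hN
  · have h2 := HeightOneSpectrum.valuation_liesOver (K := R K) (R F) v P z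
    rw [Ideal.ramificationIdx'_eq_ramificationIdx v.asIdeal P.asIdeal v.ne_bot, h1, pow_one] at h2
    exact h2.symm

end CF
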