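import Pool.Agent.MP_9ab903_nt.SB.FIN
import Pool.Agent.MP_9ab903_nt.SB.CO
import Pool.Agent.MP_dfae13_nt.T.I8

set_option autoImplicit false

open Polynomial NumberField IsDedekindDomain
open CM27
open scoped Classical

namespace CF

/-! ## [CF-SG3] even valuations at the places of `K(∛2)` above `2`, `3` and the good primes,
`K = ℚ(ω)` -/

private theorem sg3_prim {K : Type} [Field K] [CharZero K] (om : K)
    (hom : om ^ 2 + om + 1 = 0) : IsPrimitiveRoot om 3 := by
  rw [← Polynomial.isRoot_cyclotomic_iff, Polynomial.cyclotomic_three]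
  simp [hom]

/-- `R K / K` is Galois of degree `3`. -/
theorem isGalois_RK {K : Type} [Field K] [CharZero K] [Fact (Irreducible (cubPoly K))] (om : K)
    (hom : om ^ 2 + om + 1 = 0) : IsGalois K (R K) ∧ Module.finrank K (R K) = 3 := by
  have hprim := sg3_prim om hom
  have hζ : (primitiveRoots 3 K).Nonempty := ⟨om, (mem_primitiveRoots (by norm_num)).2 hprim⟩
  have H : Irreducible (X ^ 3 - C (2 : K)) := Fact.out (p := Irreducible (cubPoly K))
  have : IsSplittingField K (R K) (X ^ 3 - C (2 : K)) := isSplittingField_AdjoinRoot_X_pow_sub_C hζ H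
  exact ⟨isGalois_of_isSplittingField_X_pow_sub_C hζ H (R K),
    finrank_of_isSplittingField_X_pow_sub_C hζ H (R K)⟩

/-- The norm form of `ℤ[∛2]`. -/
private def sg3N {A : Type*} [CommRing A] (a b c : A) : A :=
  a ^ 3 + 2 * b ^ 3 + 4 * c ^ 3 - 6 * a * b * c

private theorem sg3N_int (a b c : ℤ) {A : Type*} [CommRing A] :
    ((sg3N a b c : ℤ) : A) = sg3N (a : A) b c := by
  simp only [sg3N]; push_cast; ring

/-- modulo a good prime the norm form is anisotropic -/
private theorem sg3_aniso {p : ℕ} (hp : GoodPrime p) {a b c : ℤ}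
    (h : (p : ℤ) ∣ sg3N a b c) : (p : ℤ) ∣ a ∧ (p : ℤ) ∣ b ∧ (p : ℤ) ∣ c := by
  have : Fact p.Prime := ⟨hp.1⟩
  have : Fact (Irreducible (cubPoly (ZMod p))) :=
    ⟨irreducible_of_no_root fun x hx => hp.2.2 ⟨x, hx⟩⟩
  have h1 : ((sg3N a b c : ℤ) : ZMod p) = 0 := (ZMod.intCast_zmod_eq_zero_iff_dvd _ _).2 h
  rw [sg3N_int] at h1
  have h2 : Algebra.norm (ZMod p) (trip (a : ZMod p) (b : ZMod p) (c : ZMod p)) = 0 := by
    rw [norm_trip]
    exact h1
  have h3 : trip (a : ZMod p) (b : ZMod p) (c : ZMod p) = trip 0 0 0 := by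
    rw [Algebra.norm_eq_zero_iff] at h2
    rw [h2]
    simp [trip]
  obtain ⟨ha, hb, hc⟩ := trip_inj h3
  exact ⟨(ZMod.intCast_zmod_eq_zero_iff_dvd _ _).1 ha, (ZMod.intCast_zmod_eq_zero_iff_dvd _ _).1 hb,
    (ZMod.intCast_zmod_eq_zero_iff_dvd _ _).1 hc⟩

section val

variable {L : Type*} [Field L] (w : Valuation L (WithZero (Multiplicative ℤ)))

private theorem sg3_add (a b : L) (h : w a = w b → w a = 0) : w (a + b) = max (w a) (w b) := by
  by_cases hab : w a = w b
  · have ha := h hab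
    have hb : w b = 0 := hab ▸ ha
    rw [ha, hb]
    rw [map_eq_zero] at ha hb
    rw [ha, hb]
    simp
  · exact Valuation.map_add_of_distinct_val w hab

private theorem sg3_max {K : Type} [Field K] [Algebra K L] (r : L) (hr : w r ≠ 0)
    (h1 : ∀ x : K, w (algebraMap K L x) ≠ w r) (h2 : ∀ x : K, w (algebraMap K L x) ≠ w r ^ 2)
    (x y z : K) :
    w (algebraMap K L x + algebraMap K L y * r + algebraMap K L z * r ^ 2) =
      max (max (w (algebraMap K L x)) (w (algebraMap K L y) * w r))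
        (w (algebraMap K L z) * w r ^ 2) := by
  have e1 : w (algebraMap K L y * r) = w (algebraMap K L y) * w r := map_mul _ _ _
  have e2 : w (algebraMap K L z * r ^ 2) = w (algebraMap K L z) * w r ^ 2 := by
    rw [map_mul, map_pow]
  have hxy : w (algebraMap K L x + algebraMap K L y * r) =
      max (w (algebraMap K L x)) (w (algebraMap K L y) * w r) := by
    rw [← e1]
    refine sg3_add w _ _ fun h => ?_
    rw [e1] at h
    by_contra h0
    have hy : w (algebraMap K L y) ≠ 0 := fun h3 => h0 (by rw [h, h3, zero_mul])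
    refine h1 (x / y) ?_
    rw [map_div₀, map_div₀, h, mul_div_cancel_left₀ _ hy]
  rw [← hxy, ← e2]
  refine sg3_add w _ _ fun h => ?_
  rw [e2] at h
  by_contra h0
  have hz : w (algebraMap K L z) ≠ 0 := fun h3 => h0 (by rw [h, h3, zero_mul])
  rw [hxy] at h h0
  rcases max_choice (w (algebraMap K L x)) (w (algebraMap K L y) * w r) with h3 | h3
  · rw [h3] at h
    refine h2 (x / z) ?_
    rw [map_div₀, map_div₀, h, mul_div_cancel_left₀ _ hz]
  · rw [h3] at h
    refine h1 (y / z) ?_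
    have h4 : w (algebraMap K L y) = w (algebraMap K L z) * w r := by
      apply mul_right_cancel₀ hr
      rw [h, sq, mul_assoc]
    rw [map_div₀, map_div₀, h4, mul_div_cancel_left₀ _ hz]

private theorem sg3_eq_one {x y : L} (hx : w x ≤ 1) (hy : w y ≤ 1) (h : w (x * y) = 1) :
    w x = 1 := by
  refine le_antisymm hx ?_
  by_contra hc
  have hc' := lt_of_not_ge hc
  rw [map_mul] at h
  have h3 : w x * w y ≤ w x * 1 := mul_le_mul_right hy _
  rw [mul_one, h] at h3
  exact absurd h3 (not_le_of_gt hc')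

private theorem sg3_root_le (hint : ∀ n : ℤ, w (n : L) ≤ 1) {r : L} (hr : r ^ 3 = 2) : w r ≤ 1 := by
  have h1 : w r ^ 3 ≤ 1 := by
    rw [← map_pow, hr]
    have := hint 2
    simpa using this
  exact (pow_le_one_iff (by norm_num)).1 h1

private theorem sg3_rho (hint : ∀ n : ℤ, w (n : L) ≤ 1) {r : L} (hr : r ^ 3 = 2) :
    w (1 + r) ^ 3 = w 3 := by
  have hr1 := sg3_root_le w hint hr
  have hA : w (1 + r + r ^ 2) ≤ 1 := by
    refine (Valuation.map_add _ _ _).trans (max_le ((Valuation.map_add _ _ _).trans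
      (max_le (by rw [map_one]) hr1)) ?_)
    rw [map_pow]
    exact pow_le_one₀ zero_le hr1
  have hB : w (r - 1) ≤ 1 := (Valuation.map_sub _ _ _).trans (max_le hr1 (by rw [map_one]))
  have h1 : w (1 + r + r ^ 2) = 1 := by
    refine sg3_eq_one w hA hB ?_
    have : (1 + r + r ^ 2) * (r - 1) = 1 := by linear_combination hr
    rw [this, map_one]
  rw [← map_pow]
  have h2 : (1 + r) ^ 3 = 3 * (1 + r + r ^ 2) := by linear_combination hr
  rw [h2, map_mul, h1, mul_one]

private theorem sg3_coprime {p : ℕ} (hp : p.Prime) (hint : ∀ n : ℤ, w (n : L) ≤ 1)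
    (hv : w (p : L) < 1) {n : ℤ} (hn : ¬ (p : ℤ) ∣ n) : w (n : L) = 1 := by
  have h1 : IsCoprime (p : ℤ) n := by
    rw [Prime.coprime_iff_not_dvd (Nat.prime_iff_prime_int.1 hp)]
    exact hn
  obtain ⟨x, y, hxy⟩ := h1
  refine le_antisymm (hint n) ?_
  by_contra hc
  have hc' := lt_of_not_ge hc
  have h3 : w (((x * p + y * n : ℤ)) : L) < 1 := by
    push_cast
    refine (Valuation.map_add _ _ _).trans_lt (max_lt ?_ ?_)
    · rw [map_mul]
      exact mul_lt_one_of_nonneg_of_lt_one_right (hint x) zero_le hv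
    · rw [map_mul]
      exact mul_lt_one_of_nonneg_of_lt_one_right (hint y) zero_le hc'
  rw [hxy] at h3
  simp at h3

private theorem sg3_intval {p : ℕ} (hp : GoodPrime p) (hint : ∀ n : ℤ, w (n : L) ≤ 1)
    (hv : w (p : L) < 1) {r : L} (hr : r ^ 3 = 2) (a b c : ℤ)
    (h : ¬ ((p : ℤ) ∣ a ∧ (p : ℤ) ∣ b ∧ (p : ℤ) ∣ c)) :
    w ((a : L) + b * r + c * r ^ 2) = 1 := by
  have hr1 := sg3_root_le w hint hr
  have hle : ∀ a b c : ℤ, w ((a : L) + b * r + c * r ^ 2) ≤ 1 := by
    intro a b c
    refine (Valuation.map_add _ _ _).trans (max_le ((Valuation.map_add _ _ _).trans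
      (max_le (hint a) ?_)) ?_)
    · rw [map_mul]
      exact mul_le_one' (hint b) hr1
    · rw [map_mul, map_pow]
      exact mul_le_one' (hint c) (pow_le_one' hr1 2)
  refine sg3_eq_one w (hle a b c) (hle (a ^ 2 - 2 * b * c) (2 * c ^ 2 - a * b) (b ^ 2 - a * c)) ?_
  have hN := sg3_coprime w hp.1 hint hv (n := sg3N a b c) fun h1 => h (sg3_aniso hp h1)
  rw [← hN]
  congr 1
  simp only [sg3N]
  push_cast
  linear_combination ((b : L) * ((b : L) ^ 2 - a * c) + c * (2 * (c : L) ^ 2 - a * b)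
    + c * ((b : L) ^ 2 - a * c) * r) * hr

private theorem sg3_good {K : Type} [Field K] [Algebra K L] {p : ℕ} (hp : GoodPrime p)
    (hint : ∀ n : ℤ, w (n : L) ≤ 1) (hv : w (p : L) < 1)
    (hP : ∀ u : K, w (algebraMap K L u) ≤ 1 → ∃ n : ℤ, w (algebraMap K L u - n) < 1)
    {r : L} (hr : r ^ 3 = 2) (x y z : K) :
    w (algebraMap K L x + algebraMap K L y * r + algebraMap K L z * r ^ 2) =
      max (max (w (algebraMap K L x)) (w (algebraMap K L y))) (w (algebraMap K L z)) := by
  have hr1 := sg3_root_le w hint hr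
  -- the normalised case
  have key : ∀ x y z : K, w (algebraMap K L x) ≤ 1 → w (algebraMap K L y) ≤ 1 →
      w (algebraMap K L z) ≤ 1 → (x = 1 ∨ y = 1 ∨ z = 1) →
      w (algebraMap K L x + algebraMap K L y * r + algebraMap K L z * r ^ 2) = 1 := by
    intro x y z hx hy hz h1
    obtain ⟨a, ha⟩ := hP x hx
    obtain ⟨b, hb⟩ := hP y hy
    obtain ⟨c, hc⟩ := hP z hz
    have hne : ∀ (u : K) (n : ℤ), u = 1 → w (algebraMap K L u - n) < 1 → ¬ (p : ℤ) ∣ n := by
      rintro u n rfl hn ⟨k, rfl⟩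
      rw [map_one] at hn
      have h2 : w (((p : ℤ) * k : ℤ) : L) < 1 := by
        push_cast
        rw [map_mul, mul_comm]
        exact mul_lt_one_of_nonneg_of_lt_one_right (hint k) zero_le hv
      have h3 : w ((1 - (((p : ℤ) * k : ℤ) : L)) + (((p : ℤ) * k : ℤ) : L)) < 1 :=
        (Valuation.map_add _ _ _).trans_lt (max_lt hn h2)
      rw [sub_add_cancel, map_one] at h3
      exact lt_irrefl _ h3
    have hne' : ¬ ((p : ℤ) ∣ a ∧ (p : ℤ) ∣ b ∧ (p : ℤ) ∣ c) := by
      rintro ⟨h2, h3, h4⟩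
      rcases h1 with h1 | h1 | h1
      · exact hne x a h1 ha h2
      · exact hne y b h1 hb h3
      · exact hne z c h1 hc h4
    have h5 := sg3_intval w hp hint hv hr a b c hne'
    have h6 : w ((algebraMap K L x + algebraMap K L y * r + algebraMap K L z * r ^ 2) -
        ((a : L) + b * r + c * r ^ 2)) < 1 := by
      have e : (algebraMap K L x + algebraMap K L y * r + algebraMap K L z * r ^ 2) -
        ((a : L) + b * r + c * r ^ 2) = (algebraMap K L x - a) + (algebraMap K L y - b) * r +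
          (algebraMap K L z - c) * r ^ 2 := by ring
      rw [e]
      refine (Valuation.map_add _ _ _).trans_lt (max_lt ((Valuation.map_add _ _ _).trans_lt
        (max_lt ha ?_)) ?_)
      · rw [map_mul, mul_comm]
        exact mul_lt_one_of_nonneg_of_lt_one_right hr1 zero_le hb
      · rw [map_mul, map_pow, mul_comm]
        exact mul_lt_one_of_nonneg_of_lt_one_right (pow_le_one' hr1 2) zero_le hc
    have h7 := Valuation.map_add_eq_of_lt_left w (x := (a : L) + b * r + c * r ^ 2)
      (y := (algebraMap K L x + algebraMap K L y * r + algebraMap K L z * r ^ 2) -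
        ((a : L) + b * r + c * r ^ 2)) (by rw [h5]; exact h6)
    rw [add_sub_cancel, h5] at h7
    exact h7
  -- scaling
  have scale : ∀ m x y z : K, m ≠ 0 → (x = m ∨ y = m ∨ z = m) →
      w (algebraMap K L x) ≤ w (algebraMap K L m) → w (algebraMap K L y) ≤ w (algebraMap K L m) →
      w (algebraMap K L z) ≤ w (algebraMap K L m) →
      w (algebraMap K L x + algebraMap K L y * r + algebraMap K L z * r ^ 2) =
        w (algebraMap K L m) := by
    intro m x y z hm h1 hx hy hz
    have hm' : algebraMap K L m ≠ 0 := (_root_.map_ne_zero _).2 hm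
    have hwm : w (algebraMap K L m) ≠ 0 := (Valuation.ne_zero_iff w).2 hm'
    have hle : ∀ u : K, w (algebraMap K L u) ≤ w (algebraMap K L m) →
        w (algebraMap K L (u / m)) ≤ 1 := by
      intro u hu
      rw [map_div₀, map_div₀]
      exact div_le_one_of_le₀ hu zero_le
    have h2 := key (x / m) (y / m) (z / m) (hle x hx) (hle y hy) (hle z hz) (by
      rcases h1 with rfl | rfl | rfl
      · exact Or.inl (div_self hm)
      · exact Or.inr (Or.inl (div_self hm))
      · exact Or.inr (Or.inr (div_self hm)))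
    have e : algebraMap K L x + algebraMap K L y * r + algebraMap K L z * r ^ 2 =
        algebraMap K L m * (algebraMap K L (x / m) + algebraMap K L (y / m) * r +
          algebraMap K L (z / m) * r ^ 2) := by
      rw [map_div₀, map_div₀, map_div₀]
      field_simp
    rw [e, map_mul, h2, mul_one]
  by_cases h0 : x = 0 ∧ y = 0 ∧ z = 0
  · obtain ⟨rfl, rfl, rfl⟩ := h0
    simp
  rcases le_total (w (algebraMap K L x)) (w (algebraMap K L y)) with hxy | hxy
  · rcases le_total (w (algebraMap K L y)) (w (algebraMap K L z)) with hyz | hyz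
    · have hz0 : z ≠ 0 := by
        rintro rfl
        rw [map_zero, map_zero] at hyz
        have hy0 := le_antisymm hyz zero_le
        rw [hy0] at hxy
        have hx0 := le_antisymm hxy zero_le
        rw [map_eq_zero, map_eq_zero] at hx0 hy0
        exact h0 ⟨hx0, hy0, rfl⟩
      rw [scale z x y z hz0 (Or.inr (Or.inr rfl)) (hxy.trans hyz) hyz le_rfl, max_eq_right hxy,
        max_eq_right hyz]
    · have hy0 : y ≠ 0 := by
        rintro rfl
        rw [map_zero, map_zero] at hyz hxy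
        have hz0 := le_antisymm hyz zero_le
        have hx0 := le_antisymm hxy zero_le
        rw [map_eq_zero, map_eq_zero] at hx0 hz0
        exact h0 ⟨hx0, rfl, hz0⟩
      rw [scale y x y z hy0 (Or.inr (Or.inl rfl)) hxy le_rfl hyz, max_eq_right hxy,
        max_eq_left hyz]
  · rcases le_total (w (algebraMap K L x)) (w (algebraMap K L z)) with hxz | hxz
    · have hz0 : z ≠ 0 := by
        rintro rfl
        rw [map_zero, map_zero] at hxz
        have hx0 := le_antisymm hxz zero_le
        rw [hx0] at hxy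
        have hy0 := le_antisymm hxy zero_le
        rw [map_eq_zero, map_eq_zero] at hx0 hy0
        exact h0 ⟨hx0, hy0, rfl⟩
      rw [scale z x y z hz0 (Or.inr (Or.inr rfl)) hxz (hxy.trans hxz) le_rfl, max_eq_left hxy,
        max_eq_right hxz]
    · have hx0 : x ≠ 0 := by
        rintro rfl
        rw [map_zero, map_zero] at hxz hxy
        have hz0 := le_antisymm hxz zero_le
        have hy0 := le_antisymm hxy zero_le
        rw [map_eq_zero, map_eq_zero] at hy0 hz0
        exact h0 ⟨rfl, hy0, hz0⟩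
      rw [scale x x y z hx0 (Or.inl rfl) le_rfl hxy hxz, max_eq_left hxy, max_eq_left hxz]

end val

section field

variable (K : Type) [Field K] [NumberField K] [IsCyclotomicExtension {3} ℚ K]

/-- the valuation of `p` at a place of `ℚ(ω)` above `p` -/
private theorem sg3_ord (p : ℕ) (hp : p.Prime) (v0 : HeightOneSpectrum (𝓞 K))
    (hv : (p : 𝓞 K) ∈ v0.asIdeal) : ∃ k : ℤ, (k = 1 ∨ k = 2) ∧
      v0.valuation K (p : K) = WithZero.exp (-k) := by
  have hmap : algebraMap (𝓞 K) K (p : 𝓞 K) = (p : K) := map_natCast _ _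
  have hlt : v0.valuation K (p : K) < 1 := by
    rw [← hmap, v0.valuation_lt_one_iff_mem]
    exact hv
  have hn3 : (p : 𝓞 K) ∉ v0.asIdeal ^ 3 := by
    intro h3
    have h4 : Ideal.absNorm (v0.asIdeal ^ 3) ∣ Ideal.absNorm (Ideal.span {(p : 𝓞 K)}) :=
      Ideal.absNorm_dvd_absNorm_of_le ((Ideal.span_singleton_le_iff_mem _).2 h3)
    have h5 : Ideal.absNorm (Ideal.span {(p : 𝓞 K)}) = p ^ 2 := by
      rw [Ideal.absNorm_span_singleton]
      have : (p : 𝓞 K) = algebraMap ℤ (𝓞 K) (p : ℤ) := by simp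
      rw [this, Algebra.norm_algebraMap, RingOfIntegers.rank, CMT.i8_finrank, Int.natAbs_pow]
      simp
    rw [map_pow, h5] at h4
    have h6 : Ideal.absNorm v0.asIdeal ∣ p ^ 2 := (dvd_pow_self _ (by norm_num)).trans h4
    obtain ⟨j, hj, hj'⟩ := (Nat.dvd_prime_pow hp).1 h6
    have h7 : Ideal.absNorm v0.asIdeal ≠ 1 := fun h => v0.isPrime.ne_top (Ideal.absNorm_eq_one_iff.1 h)
    have hj0 : j ≠ 0 := by
      rintro rfl
      exact h7 (by rw [hj', pow_zero])
    rw [hj', ← pow_mul, Nat.pow_dvd_pow_iff_le_right hp.one_lt] at h4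
    omega
  have hgt : ¬ v0.valuation K (p : K) ≤ WithZero.exp (-((3 : ℕ) : ℤ)) := by
    rw [← hmap, v0.valuation_of_algebraMap, v0.intValuation_le_pow_iff_mem]
    exact hn3
  have h0 : v0.valuation K (p : K) ≠ 0 := by
    intro h0
    rw [h0] at hgt
    exact hgt zero_le
  have h6 : v0.valuation K (p : K) = WithZero.exp (WithZero.log (v0.valuation K (p : K))) :=
    (WithZero.exp_log h0).symm
  rw [h6] at hlt hgt
  rw [← WithZero.exp_zero, WithZero.exp_lt_exp] at hlt
  rw [WithZero.exp_le_exp] at hgt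
  push Not at hgt
  push_cast at hgt
  refine ⟨-WithZero.log (v0.valuation K (p : K)), by omega, ?_⟩
  rw [neg_neg]
  exact h6

/-- the residue field of `ℚ(ω)` at a place above `p = 1 mod 3` is `𝔽_p` -/
private theorem sg3_res (p : ℕ) (hp : p.Prime) (hp3 : p % 3 = 1) (v0 : HeightOneSpectrum (𝓞 K))
    (hv : (p : 𝓞 K) ∈ v0.asIdeal) (x : 𝓞 K) : ∃ n : ℤ, x - n ∈ v0.asIdeal := by
  have : Fact p.Prime := ⟨hp⟩
  have hζ := IsCyclotomicExtension.zeta_spec 3 ℚ K
  set z : 𝓞 K := hζ.toInteger with hz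
  have hz2 : z ^ 2 + z + 1 = 0 := by
    apply RingOfIntegers.ext
    have h1 : (IsCyclotomicExtension.zeta 3 ℚ K) ^ 2 + IsCyclotomicExtension.zeta 3 ℚ K + 1 = 0 := by
      have := (Polynomial.isRoot_cyclotomic_iff (n := 3)).2 hζ
      rw [Polynomial.cyclotomic_three] at this
      simpa using this
    have h2 : algebraMap (𝓞 K) K z = IsCyclotomicExtension.zeta 3 ℚ K := rfl
    rw [← h2] at h1
    change algebraMap (𝓞 K) K (z ^ 2 + z + 1) = algebraMap (𝓞 K) K 0
    rw [map_add, map_add, map_pow, map_one, map_zero]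
    exact h1
  -- an integer root modulo p
  obtain ⟨r, hr⟩ : ∃ r : ℤ, (p : ℤ) ∣ r ^ 2 + r + 1 := by
    have : Fact (Nat.Prime 3) := ⟨Nat.prime_three⟩
    have hcard : 3 ∣ Fintype.card (ZMod p)ˣ := by
      rw [ZMod.card_units_eq_totient, Nat.totient_prime hp]
      omega
    obtain ⟨g, hg⟩ := exists_prime_orderOf_dvd_card 3 hcard
    have hg3 : (g : ZMod p) ^ 3 = 1 := by
      have : g ^ 3 = 1 := by rw [← hg]; exact pow_orderOf_eq_one g
      have h2 := congrArg (fun u : (ZMod p)ˣ => (u : ZMod p)) this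
      simpa using h2
    have hg1 : (g : ZMod p) ≠ 1 := by
      intro h
      have : g = 1 := Units.ext h
      rw [this, orderOf_one] at hg
      norm_num at hg
    refine ⟨((g : ZMod p).val : ℤ), ?_⟩
    rw [← ZMod.intCast_zmod_eq_zero_iff_dvd]
    push_cast
    rw [ZMod.natCast_zmod_val]
    have h3 : ((g : ZMod p) - 1) * ((g : ZMod p) ^ 2 + g + 1) = 0 := by linear_combination hg3
    exact (mul_eq_zero.1 h3).resolve_left (sub_ne_zero.2 hg1)
  have hzn : ∃ n : ℤ, z - n ∈ v0.asIdeal := by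
    have hmem : (z - (r : 𝓞 K)) * (z - ((-1 - r : ℤ) : 𝓞 K)) ∈ v0.asIdeal := by
      obtain ⟨k, hk⟩ := hr
      have e : (z - (r : 𝓞 K)) * (z - ((-1 - r : ℤ) : 𝓞 K)) = -(k : 𝓞 K) * (p : 𝓞 K) := by
        have hk' : ((r ^ 2 + r + 1 : ℤ) : 𝓞 K) = (((p : ℤ) * k : ℤ) : 𝓞 K) := by rw [hk]
        push_cast at hk' ⊢
        linear_combination hz2 - hk'
      rw [e]
      exact Ideal.mul_mem_left _ _ hv
    rcases v0.isPrime.mem_or_mem hmem with h | h
    · exact ⟨r, h⟩
    · exact ⟨-1 - r, h⟩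
  have htop : x ∈ Algebra.adjoin ℤ {z} := by
    have h1 := hζ.integralPowerBasis.adjoin_gen_eq_top
    rw [IsPrimitiveRoot.integralPowerBasis_gen] at h1
    rw [h1]
    exact Algebra.mem_top
  induction htop using Algebra.adjoin_induction with
  | mem y hy =>
    rw [Set.mem_singleton_iff.1 hy]
    exact hzn
  | algebraMap n => exact ⟨n, by simp⟩
  | add a b _ _ ha hb =>
    obtain ⟨n, hn⟩ := ha
    obtain ⟨m, hm⟩ := hb
    refine ⟨n + m, ?_⟩
    have e : a + b - ((n + m : ℤ) : 𝓞 K) = (a - n) + (b - m) := by push_cast; ring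
    rw [e]
    exact add_mem hn hm
  | mul a b _ _ ha hb =>
    obtain ⟨n, hn⟩ := ha
    obtain ⟨m, hm⟩ := hb
    refine ⟨n * m, ?_⟩
    have e : a * b - ((n * m : ℤ) : 𝓞 K) = b * (a - n) + n * (b - m) := by push_cast; ring
    rw [e]
    exact add_mem (Ideal.mul_mem_left _ _ hn) (Ideal.mul_mem_left _ _ hm)

private theorem sg3_res' (p : ℕ) (hp : p.Prime) (hp3 : p % 3 = 1) (v0 : HeightOneSpectrum (𝓞 K))
    (hv : (p : 𝓞 K) ∈ v0.asIdeal) (u : K) (hu : v0.valuation K u ≤ 1) :
    ∃ n : ℤ, v0.valuation K (u - n) < 1 := by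
  obtain ⟨a, ha⟩ := HeightOneSpectrum.exists_valuation_sub_lt_of_integer v0 hu 1
  obtain ⟨n, hn⟩ := sg3_res K p hp hp3 v0 hv a
  refine ⟨n, ?_⟩
  have h1 : v0.valuation K (algebraMap (𝓞 K) K (a - n)) < 1 :=
    (v0.valuation_lt_one_iff_mem (K := K) _).2 hn
  have e : u - n = algebraMap (𝓞 K) K (a - n) - (algebraMap (𝓞 K) K a - u) := by
    rw [map_sub, map_intCast]
    ring
  rw [e]
  exact (Valuation.map_sub _ _ _).trans_lt (max_lt h1 (by simpa using ha))

variable [Fact (Irreducible (cubPoly K))]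

/-- the valuation is invariant under the automorphism -/
private theorem sg3_inv (om : K) (hom : om ^ 2 + om + 1 = 0) (p : ℕ)
    (hp : p = 2 ∨ p = 3 ∨ GoodPrime p) (v : HeightOneSpectrum (𝓞 (R K)))
    (hv : (p : 𝓞 (R K)) ∈ v.asIdeal) (z : R K) :
    v.valuation (R K) (CMT.th om hom z) = v.valuation (R K) z := by
  set w := v.valuation (R K) with hw
  have hne : v.asIdeal.under (𝓞 K) ≠ ⊥ := Ideal.under_ne_bot _ v.ne_bot
  let v0 : HeightOneSpectrum (𝓞 K) := ⟨v.asIdeal.under (𝓞 K), inferInstance, hne⟩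
  have hlo : v.asIdeal.LiesOver v0.asIdeal := ⟨rfl⟩
  set e := v0.asIdeal.ramificationIdx' v.asIdeal with he
  have he0 : e ≠ 0 := Ideal.IsDedekindDomain.ramificationIdx'_ne_zero_of_liesOver v.asIdeal v0.ne_bot
  have hval : ∀ x : K, v0.valuation K x ^ e = w (algebraMap K (R K) x) := fun x =>
    HeightOneSpectrum.valuation_liesOver (R K) v0 v x
  have hv0 : (p : 𝓞 K) ∈ v0.asIdeal := by
    change (p : 𝓞 K) ∈ v.asIdeal.under (𝓞 K)
    rw [Ideal.mem_comap, map_natCast]
    exact hv
  have hint : ∀ n : ℤ, w (n : R K) ≤ 1 := by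
    intro n
    have h := v.valuation_le_one (K := R K) (n : 𝓞 (R K))
    simpa using h
  have hwp : w (p : R K) < 1 := by
    have h := (v.valuation_lt_one_iff_mem (K := R K) (p : 𝓞 (R K))).2 hv
    simpa using h
  have hom3 : om ^ 3 = 1 := CMT.i8_om3 om hom
  have hpr : pr K ^ 3 = 2 := pr_pow K
  have hpr' : (algebraMap K (R K) om * pr K) ^ 3 = 2 := by
    rw [mul_pow, ← map_pow, hom3, map_one, one_mul, hpr]
  have hwom : w (algebraMap K (R K) om) = 1 := by
    have : w (algebraMap K (R K) om) ^ 3 = 1 := by rw [← map_pow, ← map_pow, hom3, map_one, map_one]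
    exact (pow_eq_one_iff_of_nonneg zero_le (by norm_num)).1 this
  have hth1 : CMT.th om hom (pr K) = algebraMap K (R K) om * pr K := AdjoinRoot.lift_root _
  have hth2 : ∀ x : K, CMT.th om hom (algebraMap K (R K) x) = algebraMap K (R K) x :=
    fun x => AdjoinRoot.lift_of _
  have hpp : p.Prime := by
    rcases hp with rfl | rfl | h
    · exact Nat.prime_two
    · exact Nat.prime_three
    · exact h.1
  -- distinctness
  have hdist : ∀ r : R K, w r ^ 3 = w (p : R K) → w r ≠ 0 ∧
      (∀ x : K, w (algebraMap K (R K) x) ≠ w r) ∧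
      (∀ x : K, w (algebraMap K (R K) x) ≠ w r ^ 2) := by
    intro r hr
    obtain ⟨k, hk, hkp⟩ := sg3_ord K p hpp v0 hv0
    have hwp' : w (p : R K) = v0.valuation K (p : K) ^ e := by
      rw [hval, map_natCast (algebraMap K (R K)) p]
    have hgen : ∀ (x : K) (j : ℕ), j = 1 ∨ j = 2 → w (algebraMap K (R K) x) ≠ w r ^ j := by
      intro x j hj hx
      have h1 : (v0.valuation K x ^ 3) ^ e = (v0.valuation K (p : K) ^ j) ^ e := by
        rw [← pow_mul, mul_comm 3 e, pow_mul, hval, hx, ← pow_mul, mul_comm j 3, pow_mul, hr, hwp',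
          ← pow_mul, ← pow_mul, mul_comm e j]
      have h2 : v0.valuation K x ^ 3 = v0.valuation K (p : K) ^ j :=
        (pow_left_inj₀ zero_le zero_le he0).1 h1
      rw [hkp] at h2
      have h0 : v0.valuation K x ≠ 0 := by
        intro h0
        rw [h0, zero_pow (by norm_num)] at h2
        exact pow_ne_zero j WithZero.exp_ne_zero h2.symm
      rw [← WithZero.exp_log h0, ← WithZero.exp_nsmul, ← WithZero.exp_nsmul,
        WithZero.exp_inj] at h2
      simp only [nsmul_eq_mul, Nat.cast_ofNat] at h2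
      rcases hj with rfl | rfl <;> rcases hk with rfl | rfl <;> push_cast at h2 <;> omega
    refine ⟨?_, fun x => ?_, fun x => hgen x 2 (Or.inr rfl)⟩
    · intro h0
      rw [h0, zero_pow (by norm_num)] at hr
      rw [eq_comm, map_eq_zero] at hr
      exact hpp.ne_zero (by exact_mod_cast hr)
    · have := hgen x 1 (Or.inl rfl)
      rwa [pow_one] at this
  obtain ⟨a, b, c, rfl⟩ := trip_surj z
  rcases hp with rfl | rfl | hg
  · -- p = 2
    have h1 : w (pr K) ^ 3 = w ((2 : ℕ) : R K) := by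
      rw [← map_pow, hpr]
      norm_num
    have hww : w (algebraMap K (R K) om * pr K) = w (pr K) := by rw [map_mul, hwom, one_mul]
    obtain ⟨d0, d1, d2⟩ := hdist (pr K) h1
    have f1 := sg3_max w (pr K) d0 d1 d2 a b c
    have f2 := sg3_max w (algebraMap K (R K) om * pr K) (by rwa [hww]) (by rwa [hww]) (by rwa [hww])
      a b c
    rw [hww] at f2
    have e2 : CMT.th om hom (trip a b c) = algebraMap K (R K) a +
        algebraMap K (R K) b * (algebraMap K (R K) om * pr K) +
          algebraMap K (R K) c * (algebraMap K (R K) om * pr K) ^ 2 := by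
      simp only [trip, map_add, map_mul, map_pow, hth1, hth2]
    rw [e2, f2]
    exact f1.symm
  · -- p = 3
    have h1 : w (1 + pr K) ^ 3 = w ((3 : ℕ) : R K) := by
      rw [sg3_rho w hint hpr]
      norm_num
    have h2 : w (1 + algebraMap K (R K) om * pr K) ^ 3 = w ((3 : ℕ) : R K) := by
      rw [sg3_rho w hint hpr']
      norm_num
    have hww : w (1 + algebraMap K (R K) om * pr K) = w (1 + pr K) :=
      (pow_left_inj₀ zero_le zero_le (by norm_num)).1 (h2.trans h1.symm)
    obtain ⟨d0, d1, d2⟩ := hdist (1 + pr K) h1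
    have f1 := sg3_max w (1 + pr K) d0 d1 d2 (a - b + c) (b - 2 * c) c
    have f2 := sg3_max w (1 + algebraMap K (R K) om * pr K) (by rwa [hww]) (by rwa [hww])
      (by rwa [hww]) (a - b + c) (b - 2 * c) c
    rw [hww] at f2
    have e1 : trip a b c = algebraMap K (R K) (a - b + c) + algebraMap K (R K) (b - 2 * c) *
        (1 + pr K) + algebraMap K (R K) c * (1 + pr K) ^ 2 := by
      simp only [trip, map_add, map_sub, map_mul, map_ofNat]
      ring
    have e2 : CMT.th om hom (trip a b c) = algebraMap K (R K) (a - b + c) +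
        algebraMap K (R K) (b - 2 * c) * (1 + algebraMap K (R K) om * pr K) +
          algebraMap K (R K) c * (1 + algebraMap K (R K) om * pr K) ^ 2 := by
      simp only [trip, map_add, map_sub, map_mul, map_pow, hth1, hth2, map_ofNat]
      ring
    rw [e2, f2, e1, f1]
  · -- good prime
    have hP : ∀ u : K, w (algebraMap K (R K) u) ≤ 1 →
        ∃ n : ℤ, w (algebraMap K (R K) u - n) < 1 := by
      intro u hu
      rw [← hval, pow_le_one_iff he0] at hu
      obtain ⟨n, hn⟩ := sg3_res' K p hg.1 hg.2.1 v0 hv0 u hu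
      refine ⟨n, ?_⟩
      have e3 : algebraMap K (R K) u - n = algebraMap K (R K) (u - n) := by
        rw [map_sub, map_intCast]
      rw [e3, ← hval]
      exact pow_lt_one₀ zero_le hn he0
    have f1 := sg3_good w hg hint hwp hP hpr a b c
    have f2 := sg3_good w hg hint hwp hP hpr' a b c
    have e1 : trip a b c = algebraMap K (R K) a + algebraMap K (R K) b * pr K +
      algebraMap K (R K) c * pr K ^ 2 := rfl
    have e2 : CMT.th om hom (trip a b c) = algebraMap K (R K) a +
        algebraMap K (R K) b * (algebraMap K (R K) om * pr K) +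
          algebraMap K (R K) c * (algebraMap K (R K) om * pr K) ^ 2 := by
      simp only [trip, map_add, map_mul, map_pow, hth1, hth2]
    rw [e2, f2, e1, f1]

end field

/-- There is only one place of `R K` above the place of `K` below `v` if `v` contains `2`, `3` or a
good prime.

Proof.  `g e f = 3` (`Ideal.ncard_primesOver_mul_ramificationIdxIn_mul_inertiaDegIn`) so it is enough to
show `3 ∣ e` or `f ≠ 1`.  `w_v(x) = w_{v₀}(x) ^ e` for `x` in `K` (`HeightOneSpectrum.valuation_liesOver`).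
If `2 ∈ v`: `2` is inert in `K` so `w_{v₀}(2) = exp (-1)`, and `w_v(2) = w_v(π) ^ 3`: `3 ∣ e`.
If `3 ∈ v`: `3 = (1 - om)² * unit`, `w_{v₀}(3) = exp (-2)` and `(1 + π) ^ 3 = 3 (1 + π + π²)`,
`(1 + π + π²) (π - 1) = 1`: `3 ∣ 2 e`.
If `p ∈ v`, `p` good: `p = 1 mod 3` splits in `K`, `𝓞 K / v₀ = 𝔽_p`; if `f = 1` then `𝓞 (R K) / v = 𝔽_p`
contains a cube root of `2`, contradiction. -/
theorem unique_place (K : Type) [Field K] [NumberField K] [IsCyclotomicExtension {3} ℚ K]
    [Fact (Irreducible (cubPoly K))] (om : K) (hom : om ^ 2 + om + 1 = 0) (p : ℕ)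
    (hp : p = 2 ∨ p = 3 ∨ GoodPrime p) (v v' : HeightOneSpectrum (𝓞 (R K)))
    (hv : (p : 𝓞 (R K)) ∈ v.asIdeal)
    (h : v'.asIdeal.under (𝓞 K) = v.asIdeal.under (𝓞 K)) : v' = v := by
  have hinv := sg3_inv K om hom p hp v hv
  have hle : v'.asIdeal ≤ v.asIdeal := by
    intro x hx
    -- the norm of `x`
    set X : R K := algebraMap (𝓞 (R K)) (R K) x with hX
    set e : 𝓞 (R K) ≃+* 𝓞 (R K) := RingOfIntegers.mapRingEquiv (CMT.thE om hom) with he
    have hex : ∀ y : 𝓞 (R K), algebraMap (𝓞 (R K)) (R K) (e y) =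
      CMT.th om hom (algebraMap (𝓞 (R K)) (R K) y) := fun y => rfl
    have hNR : algebraMap (𝓞 K) (𝓞 (R K)) (RingOfIntegers.norm K x) = x * (e x * e (e x)) := by
      apply RingOfIntegers.ext
      have h1 := CMT.mul_th om hom X
      rw [← nrm_eq] at h1
      have h2 : trip (Algebra.norm K X) 0 0 = algebraMap K (R K) (Algebra.norm K X) := by
        simp [trip]
      rw [h2] at h1
      change algebraMap (𝓞 (R K)) (R K) (algebraMap (𝓞 K) (𝓞 (R K)) (RingOfIntegers.norm K x)) =
        algebraMap (𝓞 (R K)) (R K) (x * (e x * e (e x)))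
      rw [map_mul, map_mul, hex (e x), hex x, ← IsScalarTower.algebraMap_apply,
        IsScalarTower.algebraMap_apply (𝓞 K) K (R K)]
      rw [mul_assoc] at h1
      exact h1.symm
    have h3 : RingOfIntegers.norm K x ∈ v'.asIdeal.under (𝓞 K) := by
      rw [Ideal.mem_comap, hNR]
      exact Ideal.mul_mem_right _ _ hx
    rw [h, Ideal.mem_comap, hNR] at h3
    have h4 : ∀ y : 𝓞 (R K), e y ∈ v.asIdeal → y ∈ v.asIdeal := by
      intro y hy
      rw [← v.valuation_lt_one_iff_mem (K := R K)] at hy ⊢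
      have h7 : v.valuation (R K) (CMT.th om hom (algebraMap (𝓞 (R K)) (R K) y)) < 1 := hy
      rwa [hinv] at h7
    rcases v.isPrime.mem_or_mem h3 with h5 | h5
    · exact h5
    · rcases v.isPrime.mem_or_mem h5 with h6 | h6
      · exact h4 _ h6
      · exact h4 _ (h4 _ h6)
  have h2 : v'.asIdeal = v.asIdeal :=
    (v'.isMaximal.eq_of_le v.isPrime.ne_top hle)
  exact HeightOneSpectrum.ext h2

/-- Proof.  `θ = CMT.thE om hom` is an automorphism of `R K / K`, so `w_v ∘ θ` is the valuation of a place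
above the same place of `K` (see `exists_conj`, `coPr` in `MP_9ab903_nt/SB/CO.lean`), which is `v` by
`unique_place`.  So `w_v(θ z) = w_v(z)` and `w_v(N z) = w_v(z) ^ 3` (`CMT.mul_th`), and `w_v(N z)` is a
square. -/
theorem even_ram_K (K : Type) [Field K] [NumberField K] [IsCyclotomicExtension {3} ℚ K]
    [Fact (Irreducible (cubPoly K))] (om : K) (hom : om ^ 2 + om + 1 = 0) (z : R K) (hz : z ≠ 0)
    (hN : ∃ n : K, Algebra.norm K z = n ^ 2) (p : ℕ)
    (hp : p = 2 ∨ p = 3 ∨ GoodPrime p) (v : HeightOneSpectrum (𝓞 (R K)))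
    (hv : (p : 𝓞 (R K)) ∈ v.asIdeal) : IsSquare (v.valuation (R K) z) := by
  have hinv := sg3_inv K om hom p hp v hv
  obtain ⟨n, hn⟩ := hN
  have h1 := congrArg (v.valuation (R K)) (CMT.mul_th om hom z)
  rw [map_mul, map_mul, hinv, hinv, hinv, ← nrm_eq, hn] at h1
  have h2 : trip (n ^ 2) 0 0 = (algebraMap K (R K) n) ^ 2 := by simp [trip]
  rw [h2, map_pow] at h1
  have hz' : v.valuation (R K) z ≠ 0 := (Valuation.ne_zero_iff _).2 hz
  refine ⟨v.valuation (R K) (algebraMap K (R K) n) / v.valuation (R K) z, ?_⟩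
  rw [div_mul_div_comm, ← pow_two, ← h1]
  field_simp

end CF
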