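import Pool.Agent.MP_9ab903_nt.SB.FIN
import Pool.Agent.MP_ae0bd0_nt.CM.R2b
import Pool.Agent.MP_ae0bd0_nt.CM.R6
import Pool.Agent.MP_9ab903_nt.CF.SG1
import Pool.Agent.MP_9ab903_nt.CF.SG2
import Pool.Agent.MP_9ab903_nt.CF.SG3

set_option autoImplicit false

open Polynomial NumberField IsDedekindDomain
open CM27
open scoped Classical

namespace CF

/-! ## [CF-S] the algebraic half: `F / ℚ(ω)` Galois of degree `2 ^ n`, unramified outside of `3` and the
primes above good primes (file SG.lean) -/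

/-- `F / K` is unramified outside of `3` and the primes above good primes. -/
def Unr (K F : Type) [Field K] [Field F] [Algebra K F] : Prop :=
  ∀ (v : HeightOneSpectrum (𝓞 K)) (P : HeightOneSpectrum (𝓞 F)), P.asIdeal.LiesOver v.asIdeal →
    (3 : 𝓞 K) ∉ v.asIdeal → (∀ p : ℕ, GoodPrime p → (p : 𝓞 K) ∉ v.asIdeal) →
    P.asIdeal.ramificationIdx (𝓞 K) = 1

/-- Elements of `K(∛2)` with a square norm and even valuations. -/
theorem sg_class (K : Type) [Field K] [NumberField K] [IsCyclotomicExtension {3} ℚ K]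
    [Fact (Irreducible (cubPoly K))] (om : K) (hom : om ^ 2 + om + 1 = 0)
    (z : R K) (h0 : CMT.Ev 6 z) : ∃ W : R K, W ≠ 0 ∧ (z = W ^ 2 ∨ z = (pr K - 1) * W ^ 2 ∨
      z = CMT.th om hom (pr K - 1) * W ^ 2 ∨
      z = CMT.th om hom (CMT.th om hom (pr K - 1)) * W ^ 2) := by
  have hN0 : (6 : ℕ) ≠ 0 := by norm_num
  have hNg : ∀ p : ℕ, p.Prime → p ∣ 6 → p = 2 ∨ p = 3 ∨ GoodPrime p := by
    intro p hp h1
    have h2 : p ∣ 2 * 3 := h1
    rcases (Nat.Prime.dvd_mul hp).1 h2 with h3 | h3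
    · exact Or.inl ((Nat.prime_dvd_prime_iff_eq hp Nat.prime_two).1 h3)
    · exact Or.inr (Or.inl ((Nat.prime_dvd_prime_iff_eq hp Nat.prime_three).1 h3))
  have hz := h0.ne
  obtain ⟨c, hc, hcc, -⟩ := CMT.exists_conj_K K om hom
  have h1 := h0.th om hom
  have h2 := h1.th om hom
  obtain ⟨j0, s0, hj0, hs0, e0⟩ := h0.mul_conj om hom hN0 hNg dvd_rfl c hc hcc
  obtain ⟨j1, s1, hj1, hs1, e1⟩ := h1.mul_conj om hom hN0 hNg dvd_rfl c hc hcc
  obtain ⟨j2, s2, hj2, hs2, e2⟩ := h2.mul_conj om hom hN0 hNg dvd_rfl c hc hcc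
  set θ := CMT.th om hom with hθ
  have hθ0 : ∀ x : R K, x ≠ 0 → θ x ≠ 0 := fun x hx =>
    (map_ne_zero_iff _ (CMT.thE om hom).injective).2 hx
  have h3 : ∀ x, θ (θ (θ x)) = x := CMT.th_three om hom
  have hcθ : ∀ x, mapR (c : K →+* K) (θ x) = θ (θ (mapR (c : K →+* K) x)) :=
    CMT.th_conj om hom (c : K →+* K) hc
  set y := mapR (c : K →+* K) z with hy
  obtain ⟨n', hn'⟩ := (h0.conj (c : K ≃+* K)).norm
  have hn'' : nrm y = n' ^ 2 := hn'
  have hy0 : y ≠ 0 := (h0.conj (c : K ≃+* K)).ne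
  have f1 : z * θ y = θ (θ (pr K - 1)) ^ j1 * θ (θ s1) ^ 2 := by
    have := congrArg (fun x => θ (θ x)) e1
    simp only [map_mul, map_pow, h3, hcθ] at this
    exact this
  have f2 : z * θ (θ y) = θ (pr K - 1) ^ j2 * θ s2 ^ 2 := by
    have := congrArg θ e2
    simp only [map_mul, map_pow, h3, hcθ] at this
    exact this
  have hprod : y * θ y * θ (θ y) = trip n' 0 0 ^ 2 := by
    rw [CMT.mul_th, hn'', pow_two, pow_two, trip_mul_self]
  have hn0 : n' ≠ 0 := by
    rintro rfl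
    exact nrm_ne_zero hy0 (by rw [hn'']; ring)
  set T : R K := trip n' 0 0 with hT
  have hT0 : T ≠ 0 := trip_ne_zero hn0
  set A := pr K - 1 with hA
  have hABC : A * θ A * θ (θ A) = 1 := CMT.prod_eps om hom
  have hA0 : A ≠ 0 := by
    intro h
    rw [h, zero_mul, zero_mul] at hABC
    exact zero_ne_one hABC
  set W : R K := s0 * θ (θ s1) * θ s2 * (z * T)⁻¹ with hW
  have hW0 : W ≠ 0 := mul_ne_zero (mul_ne_zero (mul_ne_zero hs0 (hθ0 _ (hθ0 _ hs1))) (hθ0 _ hs2))
    (inv_ne_zero (mul_ne_zero hz hT0))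
  have key : z = A ^ j0 * θ (θ A) ^ j1 * θ A ^ j2 * W ^ 2 := by
    have g1 : z * (z * T) ^ 2 = A ^ j0 * θ (θ A) ^ j1 * θ A ^ j2 *
        (s0 * θ (θ s1) * θ s2) ^ 2 := by
      calc z * (z * T) ^ 2 = z ^ 3 * T ^ 2 := by ring
        _ = (z * y) * (z * θ y) * (z * θ (θ y)) := by rw [← hprod]; ring
        _ = _ := by rw [e0, f1, f2]; ring
    rw [hW, mul_pow, ← mul_assoc, ← g1, mul_assoc, ← mul_pow,
      mul_inv_cancel₀ (mul_ne_zero hz hT0), one_pow, mul_one]
  have hB0 : θ (θ A) ≠ 0 := hθ0 _ (hθ0 _ hA0)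
  have hC0 : θ A ≠ 0 := hθ0 _ hA0
  interval_cases j0 <;> interval_cases j1 <;> interval_cases j2
  · exact ⟨W, hW0, Or.inl (by rw [key]; ring)⟩
  · exact ⟨W, hW0, Or.inr (Or.inr (Or.inl (by rw [key]; ring)))⟩
  · exact ⟨W, hW0, Or.inr (Or.inr (Or.inr (by rw [key]; ring)))⟩
  · refine ⟨W * A⁻¹, mul_ne_zero hW0 (inv_ne_zero hA0), Or.inr (Or.inl ?_)⟩
    rw [key]
    have hi := mul_inv_cancel₀ hA0
    linear_combination W ^ 2 * (-(θ A * θ (θ A)) * hi + A⁻¹ * hABC - A⁻¹ * hi)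
  · exact ⟨W, hW0, Or.inr (Or.inl (by rw [key]; ring))⟩
  · refine ⟨W * (θ (θ A))⁻¹, mul_ne_zero hW0 (inv_ne_zero hB0), Or.inr (Or.inr (Or.inr ?_))⟩
    rw [key]
    have hi := mul_inv_cancel₀ hB0
    linear_combination W ^ 2 * (-(θ A * A) * hi + (θ (θ A))⁻¹ * hABC - (θ (θ A))⁻¹ * hi)
  · refine ⟨W * (θ A)⁻¹, mul_ne_zero hW0 (inv_ne_zero hC0), Or.inr (Or.inr (Or.inl ?_))⟩
    rw [key]
    have hi := mul_inv_cancel₀ hC0
    linear_combination W ^ 2 * (-(θ (θ A) * A) * hi + (θ A)⁻¹ * hABC - (θ A)⁻¹ * hi)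
  · refine ⟨W, hW0, Or.inl ?_⟩
    rw [key]
    linear_combination W ^ 2 * hABC

theorem exists_om (K : Type) [Field K] [NumberField K] [IsCyclotomicExtension {3} ℚ K] :
    ∃ om : K, om ^ 2 + om + 1 = 0 := by
  have h := IsCyclotomicExtension.zeta_spec 3 ℚ K
  refine ⟨IsCyclotomicExtension.zeta 3 ℚ K, ?_⟩
  have h1 := (Polynomial.isRoot_cyclotomic_iff (R := K) (n := 3)).2 h
  rw [Polynomial.cyclotomic_three, IsRoot.def] at h1
  simpa using h1

/-- The automorphisms of `F` over `K` act on the units of `R F`. -/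
@[reducible] noncomputable def sgAct (K F : Type) [Field K] [Field F] [Algebra K F] :
    MulDistribMulAction (F ≃ₐ[K] F) (R F)ˣ where
  smul σ z := Units.map (mapR (σ : F →+* F) : R F →* R F) z
  one_smul z := by
    ext
    exact sel_mapR_id _
  mul_smul σ τ z := by
    ext
    exact (sel_mapR_comp (τ : F →+* F) (σ : F →+* F) _).symm
  smul_mul σ z z' := map_mul _ _ _
  smul_one σ := map_one _

theorem sg_mapR_th {K F : Type} [Field K] [Field F] (f : K →+* F) (om : K)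
    (hom : om ^ 2 + om + 1 = 0) (hom' : f om ^ 2 + f om + 1 = 0) (z : R K) :
    mapR f (CMT.th om hom z) = CMT.th (f om) hom' (mapR f z) := by
  obtain ⟨a, b, c, rfl⟩ := trip_surj z
  rw [CMT.th_trip, mapR_trip, mapR_trip, CMT.th_trip, map_mul, map_mul, map_pow]

theorem sg_w2 {F : Type} [Field F] [NumberField F] (v : HeightOneSpectrum (𝓞 F))
    (h2 : (2 : 𝓞 F) ∈ v.asIdeal) (h4 : (2 : 𝓞 F) ∉ v.asIdeal ^ 2) :
    v.valuation F 2 = WithZero.exp (-1) := by
  have hmap2 : algebraMap (𝓞 F) F 2 = 2 := map_ofNat _ 2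
  have hw2lt : v.valuation F 2 < 1 := by
    rw [← hmap2, v.valuation_lt_one_iff_mem]
    exact h2
  have h5 : ¬ v.valuation F 2 ≤ WithZero.exp (-((2 : ℕ) : ℤ)) := by
    rw [← hmap2, v.valuation_of_algebraMap, v.intValuation_le_pow_iff_mem]
    exact h4
  have h0 : v.valuation F 2 ≠ 0 := by
    intro h0
    rw [h0] at h5
    exact h5 zero_le
  have h6 : v.valuation F 2 = WithZero.exp (WithZero.log (v.valuation F 2)) :=
    (WithZero.exp_log h0).symm
  rw [h6] at hw2lt h5 ⊢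
  rw [← WithZero.exp_zero, WithZero.exp_lt_exp] at hw2lt
  rw [WithZero.exp_le_exp] at h5
  congr 1
  push Not at h5
  push_cast at h5
  omega

section
variable (K F : Type) [Field K] [NumberField K] [IsCyclotomicExtension {3} ℚ K] [Field F]
  [NumberField F] [Algebra K F] [IsGalois K F] (n : ℕ) (hn : Module.finrank K F = 2 ^ n)
  (hu : Unr K F)

include K n hn in
omit [IsGalois K F] in
theorem sg_irreducible : Irreducible (cubPoly F) := by
  refine irreducible_of_two_pow (1 + n) ?_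
  rw [← Module.finrank_mul_finrank ℚ K F, CMT.i8_finrank, hn, pow_add]

include K hu in
omit [IsGalois K F] in
theorem sg_exists_two :
    ∃ v : HeightOneSpectrum (𝓞 F), (2 : 𝓞 F) ∈ v.asIdeal ∧ (2 : 𝓞 F) ∉ v.asIdeal ^ 2 := by
  obtain ⟨v, h2, h4⟩ := CMT.two_prime_K K
  have := v.isMaximal
  obtain ⟨Q, hQm, hQ⟩ := Ideal.exists_maximal_ideal_liesOver_of_isIntegral
    (S := 𝓞 F) v.asIdeal
  have hQ0 : Q ≠ ⊥ := Ideal.ne_bot_of_liesOver_of_ne_bot v.ne_bot Q
  let w : HeightOneSpectrum (𝓞 F) := ⟨Q, hQm.isPrime, hQ0⟩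
  have hw : w.asIdeal.LiesOver v.asIdeal := hQ
  have hne : ∀ k : ℕ, k % 2 = 1 → (k : 𝓞 K) ∉ v.asIdeal := by
    intro k hk h3
    apply v.isPrime.ne_top
    rw [Ideal.eq_top_iff_one]
    have h5 : (1 : 𝓞 K) = k - 2 * ((k / 2 : ℕ) : 𝓞 K) := by
      have h6 : k = 2 * (k / 2) + 1 := by omega
      conv_rhs => rw [h6]
      push_cast
      have : (2 * (k / 2) + 1) / 2 = k / 2 := by omega
      rw [this]
      ring
    rw [h5]
    exact Ideal.sub_mem _ h3 (Ideal.mul_mem_right _ _ h2)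
  have hram : w.asIdeal.ramificationIdx (𝓞 K) = 1 := by
    refine hu v w hw (by exact_mod_cast hne 3 (by norm_num)) fun p hp => hne p ?_
    have h7 := hp.1.eq_two_or_odd
    rcases h7 with h8 | h8
    · exfalso
      have := hp.2.1
      omega
    · exact h8
  have hram' : v.asIdeal.ramificationIdx' w.asIdeal = 1 := by
    rw [Ideal.ramificationIdx'_eq_ramificationIdx _ _ v.ne_bot, hram]
  have hval : w.valuation F 2 = WithZero.exp (-1) := by
    have h5 := HeightOneSpectrum.valuation_liesOver (K := K) F v w 2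
    rw [hram', pow_one, map_ofNat (algebraMap K F) 2, sg_w2 v h2 h4] at h5
    exact h5.symm
  have hmap2 : algebraMap (𝓞 F) F 2 = 2 := map_ofNat _ 2
  refine ⟨w, ?_, ?_⟩
  · rw [← w.valuation_lt_one_iff_mem (K := F)]
    change w.valuation F (algebraMap (𝓞 F) F 2) < 1
    rw [hmap2, hval, ← WithZero.exp_zero, WithZero.exp_lt_exp]
    norm_num
  · rw [← w.intValuation_le_pow_iff_mem, ← w.valuation_of_algebraMap (K := F)]
    change ¬ w.valuation F (algebraMap (𝓞 F) F 2) ≤ _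
    rw [hmap2, hval, WithZero.exp_le_exp]
    norm_num

include hn hu in
theorem selmer_trivial_gal (z : R F) (hz : z ≠ 0) (hN : ∃ y : F, Algebra.norm F z = y ^ 2)
    (hloc : ∀ v : HeightOneSpectrum (𝓞 F), LocCond z (v.adicCompletion F)) :
    ∃ t : R F, z = t ^ 2 := by
  have hirrF : Fact (Irreducible (cubPoly F)) := ⟨sg_irreducible K F n hn⟩
  have hirrK : Fact (Irreducible (cubPoly K)) := ⟨CMT.irreducible_K K⟩
  have hfd : FiniteDimensional K F := Module.Finite.of_restrictScalars_finite ℚ K F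
  obtain ⟨om, hom⟩ := exists_om K
  by_contra hsq
  have hgood : Good z := ⟨hz, hN, even_of_locCond F z hloc,
    fun v h2 h4 => inU2_of_locCond F z v h2 h4 (hloc v)⟩
  letI := sgAct K F
  let A : Subgroup (R F)ˣ :=
    { carrier := {u | Good (u : R F)}
      mul_mem' := fun {a b} ha hb => by
        change Good ((a * b : (R F)ˣ) : R F)
        rw [Units.val_mul]
        exact Good.mul ha hb
      one_mem' := by
        change Good ((1 : (R F)ˣ) : R F)
        have := Good.sq (1 : R F) one_ne_zero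
        rwa [one_pow] at this
      inv_mem' := fun {a} ha => by
        change Good ((a⁻¹ : (R F)ˣ) : R F)
        rw [Units.val_inv_eq_inv_val]
        exact Good.inv ha }
  obtain ⟨z1, hz1, hz1', hfix⟩ := exists_fixed_mod (U := (R F)ˣ) (G := F ≃ₐ[K] F) n
    (by rw [IsGalois.card_aut_eq_finrank, hn]) A
    (fun σ u hu => Good.mapR (hu : Good (u : R F)) (σ : F ≃+* F)) (Units.mk0 z hz) hgood
    (by
      rintro ⟨u, hu⟩
      exact hsq ⟨u, by
        have := congrArg (Units.val) hu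
        rw [Units.val_pow_eq_pow_val] at this
        exact this⟩)
  have hg1 : Good (z1 : R F) := hz1
  obtain ⟨y, hy⟩ := hg1.norm
  obtain ⟨t, ht, z0, hz0⟩ := descend_gal (K := K) (z1 : R F) hg1.ne y hy (fun σ => by
    obtain ⟨u, hu⟩ := hfix σ
    exact ⟨u, by
      have := congrArg (Units.val) hu
      rw [Units.val_mul, Units.val_pow_eq_pow_val] at this
      exact this⟩)
  have hmapinj := sel_mapR_injective (algebraMap K F)
  have hz00 : z0 ≠ 0 := by
    rintro rfl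
    rw [map_zero] at hz0
    exact mul_ne_zero hg1.ne (pow_ne_zero 2 ht) hz0.symm
  -- replace `z0` by `z0 * N(z0)`
  set ν : K := nrm z0 with hν
  have hν0 : ν ≠ 0 := nrm_ne_zero hz00
  rw [nrm_eq] at hy
  have hνF : algebraMap K F ν = (y * nrm t) ^ 2 := by
    rw [hν, ← nrm_mapR, hz0, map_mul, map_pow, hy]
    ring
  have hyt : y * nrm t ≠ 0 := by
    intro h
    rw [h, zero_pow two_ne_zero] at hνF
    exact hν0 ((algebraMap K F).injective (by rw [hνF, map_zero]))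
  set z0' : R K := z0 * trip ν 0 0 with hz0'
  set t' : R F := t * trip (y * nrm t) 0 0 with ht'
  have ht'0 : t' ≠ 0 := mul_ne_zero ht (trip_ne_zero hyt)
  have hmap : mapR (algebraMap K F) z0' = z1 * t' ^ 2 := by
    have e : trip ((y * nrm t) ^ 2) 0 0 = trip (y * nrm t) 0 0 ^ 2 := by
      rw [pow_two, pow_two, trip_mul_self]
    rw [hz0', map_mul, mapR_trip, map_zero, hz0, hνF, ht', e]
    ring
  have hz0'0 : z0' ≠ 0 := mul_ne_zero hz00 (trip_ne_zero hν0)
  have hN' : nrm z0' = (ν ^ 2) ^ 2 := by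
    rw [hz0', map_mul, nrm_trip, ← hν]
    ring
  -- all valuations are even
  have heven : ∀ v : HeightOneSpectrum (𝓞 (R K)), IsSquare (v.valuation (R K) z0') := by
    intro v
    by_cases hv : ∃ p : ℕ, (p = 2 ∨ p = 3 ∨ GoodPrime p) ∧ (p : 𝓞 (R K)) ∈ v.asIdeal
    · obtain ⟨p, hp, hpv⟩ := hv
      exact even_ram_K K om hom z0' hz0'0 ⟨ν ^ 2, hN'⟩ p hp v hpv
    · have hv' : ∀ p : ℕ, (p = 2 ∨ p = 3 ∨ GoodPrime p) → (p : 𝓞 (R K)) ∉ v.asIdeal :=
        fun p hp hpv => hv ⟨p, hp, hpv⟩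
      obtain ⟨P, hP, hPv⟩ := unram_gal (K := K) (F := F) n hn om hom v (by
        intro v₀ P₀ hv₀ hP₀
        have hmem : ∀ p : ℕ, (p = 2 ∨ p = 3 ∨ GoodPrime p) → (p : 𝓞 K) ∉ v₀.asIdeal := by
          intro p hp hpv
          apply hv' p hp
          rw [hv₀, Ideal.under_def, Ideal.mem_comap, map_natCast] at hpv
          exact hpv
        exact hu v₀ P₀ hP₀ (by exact_mod_cast hmem 3 (Or.inr (Or.inl rfl)))
          fun p hp => hmem p (Or.inr (Or.inr hp)))
      have h6 : (6 : 𝓞 (R F)) ∉ P.asIdeal := by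
        intro h6
        have h7 := hP 6 (by exact_mod_cast h6)
        have h8 : ((6 : ℕ) : 𝓞 (R K)) = ((2 : ℕ) : 𝓞 (R K)) * ((3 : ℕ) : 𝓞 (R K)) := by
          norm_num
        rw [h8] at h7
        rcases v.isPrime.mem_or_mem h7 with h9 | h9
        · exact hv' 2 (Or.inl rfl) h9
        · exact hv' 3 (Or.inr (Or.inl rfl)) h9
      rw [← hPv, hmap, map_mul, map_pow]
      exact (hg1.even P h6).mul (IsSquare.sq _)
  obtain ⟨W, hW0, hW⟩ := sg_class K om hom z0' ⟨hz0'0, ⟨_, hN'⟩, fun P _ => heven P⟩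
  set f := algebraMap K F with hf
  have hom' : f om ^ 2 + f om + 1 = 0 := by
    rw [← map_pow, ← map_add, ← map_one f, ← map_add, hom, map_zero]
  set θ := CMT.th (f om) hom' with hθ
  have hWF : mapR f W * t'⁻¹ ≠ 0 := mul_ne_zero (by
    intro h
    exact hW0 (hmapinj (by rw [h, map_zero]))) (inv_ne_zero ht'0)
  have hz1D : ∀ D : R K, z0' = D * W ^ 2 → (z1 : R F) = mapR f D * (mapR f W * t'⁻¹) ^ 2 := by
    intro D hD
    have h1 : mapR f z0' = mapR f D * mapR f W ^ 2 := by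
      rw [hD, map_mul, map_pow]
    rw [mul_pow, ← mul_assoc, ← h1, hmap, mul_assoc, ← mul_pow, mul_inv_cancel₀ ht'0, one_pow,
      mul_one]
  obtain ⟨v, h2, h4⟩ := sg_exists_two K F hu
  have hnot := not_inU2 (v.valuation F) (sg_w2 v h2 h4)
  have hprF : mapR f (pr K - 1) = pr F - 1 := by rw [map_sub, map_one, mapR_pr]
  have h3 : ∀ x, θ (θ (θ x)) = x := CMT.th_three (f om) hom'
  have hU : ∀ D : R K, z0' = D * W ^ 2 → InU2 (v.valuation F) (mapR f D) := by
    intro D hD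
    have h6 : mapR f D = (z1 : R F) * ((mapR f W * t'⁻¹)⁻¹) ^ 2 := by
      rw [hz1D D hD, mul_assoc, ← mul_pow, mul_inv_cancel₀ hWF, one_pow, mul_one]
    rw [h6]
    exact (Good.mul hg1 (Good.sq _ (inv_ne_zero hWF))).two v h2 h4
  rcases hW with hW | hW | hW | hW
  · apply hz1'
    refine ⟨Units.mk0 _ hWF, ?_⟩
    ext
    rw [Units.val_pow_eq_pow_val, hz1D 1 (by rw [hW, one_mul]), map_one, one_mul]
    rfl
  · have h5 := hU _ hW
    rw [hprF] at h5
    exact hnot h5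
  · have h5 := CMT.InU2.th (f om) hom' _ (CMT.InU2.th (f om) hom' _ (hU _ hW))
    rw [sg_mapR_th f om hom hom', hprF] at h5
    change InU2 _ (θ (θ (θ (pr F - 1)))) at h5
    rw [h3] at h5
    exact hnot h5
  · have h5 := CMT.InU2.th (f om) hom' _ (hU _ hW)
    rw [sg_mapR_th f om hom hom', sg_mapR_th f om hom hom', hprF] at h5
    change InU2 _ (θ (θ (θ (pr F - 1)))) at h5
    rw [h3] at h5
    exact hnot h5

include hn hu in
theorem sg_divisible (P : (E F).toAffine.Point) : ∃ Q, P = 2 • Q := by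
  have hirrF : Fact (Irreducible (cubPoly F)) := ⟨sg_irreducible K F n hn⟩
  obtain ⟨t, ht⟩ := selmer_trivial_gal K F n hn hu (zOf P) (zOf_ne_zero P) (by
    rcases P with _ | ⟨x, y, hxy⟩
    · exact ⟨1, by rw [one_pow]; exact map_one _⟩
    · exact ⟨_, norm_zOf hxy⟩) (fun v => ⟨ptMap (algebraMap F (v.adicCompletion F)) P, 1,
      isUnit_one, by rw [one_pow, mul_one]; exact (zOf_ptMap _ P).symm⟩)
  exact exists_half P t ht

include hn hu in
theorem finite_points_gal : Finite (E F).toAffine.Point := by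
  obtain ⟨v, h2, h4⟩ := sg_exists_two K F hu
  exact finite_of_divisible v h2 h4 (sg_divisible K F n hn hu)

include K hn hu in
theorem odd_points_gal : Odd (Nat.card (E F).toAffine.Point) := by
  have hirrF : Fact (Irreducible (cubPoly F)) := ⟨sg_irreducible K F n hn⟩
  have hfin := finite_points_gal K F n hn hu
  rw [← Nat.not_even_iff_odd]
  intro hev
  obtain ⟨P, hP⟩ := exists_prime_addOrderOf_dvd_card' (G := (E F).toAffine.Point) 2 hev.two_dvd
  have h2 : 2 • P = 2 • (0 : (E F).toAffine.Point) := by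
    rw [smul_zero, ← hP, addOrderOf_nsmul_eq_zero]
  have h0 := two_smul_injective h2
  rw [h0, addOrderOf_zero] at hP
  norm_num at hP

include hn hu in
theorem sha_gal (k : ℕ) (x : SBSD.Sha (E F)) (h2 : 2 ^ k • x = 0) : x = 0 := by
  refine fin_two_pow (A := SBSD.Sha (E F)) (fun x hx => ?_) k x h2
  obtain ⟨c, rfl⟩ := QuotientAddGroup.mk_surjective x
  obtain ⟨hc1, hc2, -⟩ := c.2
  have h3 : 2 • c ∈ (SBSD.coboundaries (E F)).addSubgroupOf (SBSD.locTrivial (E F)) := by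
    rw [← QuotientAddGroup.eq_zero_iff]
    exact hx
  obtain ⟨P, hP⟩ := AddSubgroup.mem_addSubgroupOf.1 h3
  exact (QuotientAddGroup.eq_zero_iff _).2 (AddSubgroup.mem_addSubgroupOf.2
    (sha_two_of_selmer F (fun z hz hN hloc => selmer_trivial_gal K F n hn hu z hz hN hloc)
      c.1 hc1 hc2 ⟨P, fun σ => hP σ⟩))

end

end CF
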