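import Pool.Agent.MP_9ab903_nt.CF.Defs

set_option autoImplicit false

open NumberField IsDedekindDomain
open CM27 CMT
open scoped ComplexConjugate Classical

namespace CF

/-! ## [CF-G1] the action of `AutK` on torsion points (file G1.lean) -/

theorem g1_emb_ne {g : Eis} (hg : g ≠ 0) : emb g ≠ 0 := by
  intro h
  exact hg (emb_injective (h.trans (map_zero emb).symm))

/-- from `gal_fix` (AN/A7) with `N = 3 N(g)` -/
theorem gal_eis (g : Eis) (hg : g ≠ 0) (σ : ℂ ≃+* ℂ) (hσ : σ w = w) :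
    ∃ u : Eis, IsCoprime u g ∧
      ∀ c : Eis, ptMap (σ : ℂ →+* ℂ) (pt (emb c / emb g)) = pt (emb (c * u) / emb g) := by
  have hn : 0 < g.norm := a1_norm_pos hg
  obtain ⟨n, hn'⟩ := Int.eq_ofNat_of_zero_le hn.le
  have hn0 : 0 < n := by omega
  have hgg : g * star g = (n : Eis) := by
    have h1 := QuadraticAlgebra.algebraMap_norm_eq_mul_star g
    rw [← h1, hn']
    simp
  have hN : ((3 * n : ℕ) : Eis) = g * (3 * star g) := by
    push_cast
    rw [← hgg]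
    ring
  have hNC : (((3 * n : ℕ) : ℕ) : ℂ) = emb g * (3 * emb (star g)) := by
    have := congrArg emb hN
    rw [map_natCast, map_mul, map_mul] at this
    rw [this]
    congr 2
    exact map_ofNat emb 3
  obtain ⟨u, u', h1, -, h3⟩ := gal_fix (3 * n) (by omega) (Dvd.intro _ rfl) σ hσ
  have hgC := g1_emb_ne hg
  have hNC0 : (((3 * n : ℕ) : ℕ) : ℂ) ≠ 0 := by
    have : (3 * n : ℕ) ≠ 0 := by omega
    exact_mod_cast this
  have hs : emb (star g) ≠ 0 := by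
    intro h
    rw [h] at hNC
    simp only [mul_zero] at hNC
    exact hNC0 hNC
  have key : ∀ c : Eis, emb c / emb g = emb (c * (3 * star g)) / ((3 * n : ℕ) : ℂ) := by
    intro c
    rw [hNC, map_mul, map_mul, map_ofNat]
    field_simp
  refine ⟨u, ?_, fun c => ?_⟩
  · obtain ⟨k, hk⟩ := h1
    refine ⟨u', -(3 * star g * k), ?_⟩
    rw [hN] at hk
    linear_combination hk
  · rw [key c, h3, key (c * u)]
    congr 3
    ring

theorem g1_ne_zero {b : Eis} (hb : GoodEis b) : b ≠ 0 := by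
  rintro rfl
  obtain ⟨-, p, hp, h⟩ := hb
  have h1 : (0 : Eis).norm = 0 := by simp
  rw [h1] at h
  exact hp.1.ne_zero (by exact_mod_cast h.symm)

/-- the property which describes the action on the points of order `b` -/
def G1P (b : Eis) (σ : ℂ ≃+* ℂ) (v : Eis ⧸ Ideal.span {b}) : Prop :=
  ∀ u : Eis, v = Ideal.Quotient.mk _ u →
    ∀ c : Eis, ptMap (σ : ℂ →+* ℂ) (pt (emb c / emb b)) = pt (emb (c * u) / emb b)

theorem g1_pt_congr (b : Eis) (hb : b ≠ 0) (u u' c : Eis)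
    (h : (Ideal.Quotient.mk (Ideal.span {b}) u) = Ideal.Quotient.mk _ u') :
    pt (emb (c * u) / emb b) = pt (emb (c * u') / emb b) := by
  rw [Ideal.Quotient.eq, Ideal.mem_span_singleton] at h
  obtain ⟨k, hk⟩ := h
  rw [pt_eq_iff]
  refine ⟨c * k, ?_⟩
  have hbC := g1_emb_ne hb
  have e : c * u = c * u' + b * (c * k) := by linear_combination c * hk
  rw [e, map_add, map_mul emb b]
  field_simp
  ring

theorem g1_unique (b : Eis) (hb : b ≠ 0) (σ : ℂ ≃+* ℂ) (v v' : Eis ⧸ Ideal.span {b})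
    (h : G1P b σ v) (h' : G1P b σ v') : v = v' := by
  obtain ⟨u, rfl⟩ := Ideal.Quotient.mk_surjective v
  obtain ⟨u', rfl⟩ := Ideal.Quotient.mk_surjective v'
  have h1 := h u rfl 1
  have h2 := h' u' rfl 1
  rw [h1, pt_eq_iff] at h2
  obtain ⟨d, hd⟩ := h2
  rw [Ideal.Quotient.eq, Ideal.mem_span_singleton]
  refine ⟨d, emb_injective ?_⟩
  have hbC := g1_emb_ne hb
  rw [map_mul, hd, map_sub, one_mul, one_mul]
  field_simp

theorem g1_exists (b : Eis) (hb : b ≠ 0) (σ : ℂ ≃+* ℂ) (hσ : σ w = w) :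
    ∃ v : (Eis ⧸ Ideal.span {b})ˣ, G1P b σ v := by
  obtain ⟨u, hu, h⟩ := gal_eis b hb σ hσ
  obtain ⟨x, y, hxy⟩ := hu
  have h1 : (Ideal.Quotient.mk (Ideal.span {b}) u) * (Ideal.Quotient.mk (Ideal.span {b}) x) = 1 := by
    rw [← map_mul, ← map_one (Ideal.Quotient.mk (Ideal.span {b})), Ideal.Quotient.eq,
      Ideal.mem_span_singleton]
    exact ⟨-y, by linear_combination hxy⟩
  refine ⟨⟨Ideal.Quotient.mk _ u, Ideal.Quotient.mk _ x, h1, by rw [mul_comm]; exact h1⟩, ?_⟩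
  intro u' hu' c
  rw [h c]
  exact g1_pt_congr b hb u u' c hu'

theorem g1_one (b : Eis) (hb : b ≠ 0) : G1P b 1 1 := by
  intro u hu c
  have e : ((1 : ℂ ≃+* ℂ) : ℂ →+* ℂ) = RingHom.id ℂ := by
    ext x
    rfl
  rw [e, ptMap_id]
  have h := g1_pt_congr b hb 1 u c (by rw [map_one]; exact hu)
  rw [← h, mul_one]

theorem g1_mul (b : Eis) (σ τ : ℂ ≃+* ℂ) (v v' : Eis ⧸ Ideal.span {b})
    (h : G1P b σ v) (h' : G1P b τ v') (hb : b ≠ 0) : G1P b (σ * τ) (v * v') := by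
  obtain ⟨u, rfl⟩ := Ideal.Quotient.mk_surjective v
  obtain ⟨u', rfl⟩ := Ideal.Quotient.mk_surjective v'
  intro s hs c
  have e : ((σ * τ : ℂ ≃+* ℂ) : ℂ →+* ℂ) = (σ : ℂ →+* ℂ).comp (τ : ℂ →+* ℂ) := by
    ext x
    rfl
  rw [e, ← ptMap_comp, h' u' rfl, h u rfl, mul_assoc]
  apply g1_pt_congr b hb
  rw [mul_comm u' u, map_mul]
  exact hs

theorem exists_th (S : Finset Eis) (hS : ∀ b ∈ S, GoodEis b) : ∃ θ, IsTh S θ := by
  have hne : ∀ b : {x // x ∈ S}, (b : Eis) ≠ 0 := fun b => g1_ne_zero (hS b b.2)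
  choose f hf using fun (σ : AutK) (b : {x // x ∈ S}) =>
    g1_exists (b : Eis) (hne b) (σ : ℂ ≃+* ℂ) σ.2
  refine ⟨MonoidHom.mk' (fun σ b => f σ b) ?_, ?_⟩
  · intro σ τ
    funext b
    apply Units.ext
    exact g1_unique b (hne b) _ _ _ (hf (σ * τ) b)
      (g1_mul (b : Eis) (σ : ℂ ≃+* ℂ) (τ : ℂ ≃+* ℂ) _ _ (hf σ b) (hf τ b) (hne b))
  · intro σ b u hu c
    exact hf σ b u hu c

theorem th_spec (S : Finset Eis) (hS : ∀ b ∈ S, GoodEis b) : IsTh S (th S) := by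
  have h := exists_th S hS
  unfold th
  rw [dif_pos h]
  exact h.choose_spec

end CF
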