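import Pool.Agent.MP_9ab903_nt.CF.AF
import Pool.Agent.MP_9ab903_nt.CF.J0
import Pool.Agent.MP_9ab903_nt.CF.SG
import Pool.Agent.MP_9ab903_nt.CF.D1
import Pool.Agent.MP_9ab903_nt.CF.T1
import Pool.Agent.MP_9ab903_nt.Assembly
import Pool.Agent.MP_9ab903_nt.FinalDefs

set_option autoImplicit false

open NumberField IsDedekindDomain
open CM27 CMT
open scoped ComplexConjugate Classical

namespace CF

/-! ## the final statement for `F ≤ LS S` -/

theorem order_eq {K : Type} [Field K] (W : WeierstrassCurve K) [Finite W.toAffine.Point]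
    {L : ℂ → ℂ} (h : analyticOrderAt L 1 = 0) :
    analyticOrderAt L 1 = Module.finrank ℤ W.toAffine.Point := by
  rw [h, CM27.finrank_finite]
  rfl

theorem card_tors {K : Type} [Field K] (W : WeierstrassCurve K) [Finite W.toAffine.Point] :
    Nat.card (AddCommGroup.torsion W.toAffine.Point) = Nat.card W.toAffine.Point :=
  CM27.card_torsion _

section
variable (S : Finset Eis) (hS : ∀ b ∈ S, GoodEis b) (F : IntermediateField ℚ ℂ) [NumberField F]
  (hw : w ∈ F) (hF : F ≤ LS S) (n : ℕ) (h : Module.finrank ℚ F = 2 ^ (n + 1))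
include hS hw hF h

/-- `F / ℚ(ω)` is unramified outside of `3` and the good primes -/
theorem unr_F : letI := algK F hw; Unr KK F := by
  letI := algK F hw
  intro v P hPv h3 hgood
  refine unram_F S hS F hw hF v P hPv h3 ?_
  intro b hb x hx hxv
  obtain ⟨hprim, p, hp, hn⟩ := hS b hb
  apply hgood p hp
  obtain ⟨φ, hφ⟩ := exists_KK
  have h1 : x = φ b := by
    ext
    rw [hφ, hx]
  have h2 : ((p : ℕ) : 𝓞 KK) = φ b * φ (star b) := by
    rw [← map_mul, a3_mul_star, hn]
    simp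
  rw [h2, ← h1]
  exact Ideal.mul_mem_right _ _ hxv

theorem points_F : Finite (E F).toAffine.Point ∧ Odd (Nat.card (E F).toAffine.Point) ∧
    ∀ (k : ℕ) (x : SBSD.Sha (E F)), 2 ^ k • x = 0 → x = 0 := by
  letI := algK F hw
  obtain ⟨hG, hd⟩ := galois_F S hS F hw hF n h
  haveI := hG
  have hu : Unr KK F := unr_F S hS F hw hF n h
  exact ⟨finite_points_gal KK F n hd hu, odd_points_gal KK F n hd hu,
    fun k x => sha_gal KK F n hd hu k x⟩

theorem strong_F : SBSD.TwoPartRankZero (E F) := by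
  obtain ⟨hfin, hodd, hsha⟩ := points_F S hS F hw hF n h
  obtain ⟨L, hL1, hL2, hL3, q, hq1, hq2, hq3⟩ := analytic_F S hS F hw hF n h
  have hell : (E F).IsElliptic := by
    rw [WeierstrassCurve.isElliptic_iff]
    have : (E F).Δ = -27 := by
      simp only [E, WeierstrassCurve.Δ, WeierstrassCurve.b₂, WeierstrassCurve.b₄,
        WeierstrassCurve.b₆, WeierstrassCurve.b₈]
      norm_num
    rw [this]
    norm_num
  have h1 : analyticOrderAt L 1 = 0 := by
    have han : AnalyticAt ℂ L 1 := hL1.analyticAt 1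
    exact han.analyticOrderAt_eq_zero.2 hL3
  have hodd' : Odd (discr F).natAbs := odd_discr S hS F hw hF
  have h3 := fun v hv => three_ram S hS F hw hF n h v hv
  have htam := tam_odd F h3 ⟨⟨w, hw⟩, by
    ext
    change w ^ 2 + w + 1 = 0
    linear_combination w_sq⟩
  obtain ⟨q3, hq3pos, hq3v, hner⟩ := neron_unit F h3
  set T : ℕ := ∏ᶠ v : HeightOneSpectrum (𝓞 F), SBSD.tam (E F) v with hT
  have hN : (Nat.card (E F).toAffine.Point : ℚ) ≠ 0 := by exact_mod_cast hodd.pos.ne'
  have hD : ((discr F).natAbs : ℚ) ≠ 0 := by exact_mod_cast hodd'.pos.ne'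
  have hT0 : (T : ℚ) ≠ 0 := by exact_mod_cast htam.pos.ne'
  have hper : SBSD.period (E F) = CM27.period F * q3 := by
    rw [SBSD.period, hner, CM27.period]
    congr 1
    refine Finset.prod_congr rfl fun v _ => ?_
    rw [SBSD.archPeriod_eq]
    rfl
  refine ⟨hell, hfin, L, ⟨hL1, hL2⟩, order_eq (E F) h1, hL3, fun x k => hsha k x,
    q * (discr F).natAbs * (Nat.card (E F).toAffine.Point : ℚ) ^ 4 * (((q3 * T) ^ 2)⁻¹), ?_, ?_, ?_⟩
  · exact mul_ne_zero (mul_ne_zero (mul_ne_zero hq1 hD) (pow_ne_zero _ hN))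
      (inv_ne_zero (pow_ne_zero _ (mul_ne_zero hq3pos.ne' hT0)))
  · have h4 : padicValRat 2 ((Nat.card (E F).toAffine.Point : ℚ) ^ 4) = 0 := by
      rw [padicValRat.pow, padic_unit_odd hodd]
      simp
    have h5 : padicValRat 2 (((q3 * T) ^ 2)⁻¹) = 0 := by
      rw [padicValRat.inv, padicValRat.pow,
        padic_unit_mul hq3pos.ne' hT0 hq3v (padic_unit_odd htam)]
      simp
    refine padic_unit_mul (mul_ne_zero (mul_ne_zero hq1 hD) (pow_ne_zero _ hN))
      (inv_ne_zero (pow_ne_zero _ (mul_ne_zero hq3pos.ne' hT0))) ?_ h5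
    exact padic_unit_mul (mul_ne_zero hq1 hD) (pow_ne_zero _ hN)
      (padic_unit_mul hq1 hD hq2 (padic_unit_odd hodd')) h4
  · rw [SBSD.bsdQuotient, hper, card_tors]
    have hP : (CM27.period F : ℂ) ≠ 0 := by
      intro h0
      rw [h0] at hq3
      apply hL3
      have h1 : L 1 ^ 2 = 0 := by rw [hq3]; ring
      exact (pow_eq_zero_iff two_ne_zero).1 h1
    have hsq : ((√|(discr F : ℝ)| : ℝ) : ℂ) ^ 2 = ((discr F).natAbs : ℂ) := by
      rw [← Complex.ofReal_pow, Real.sq_sqrt (abs_nonneg _)]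
      have h1 : |(discr F : ℝ)| = (((discr F).natAbs : ℕ) : ℝ) := by
        rw [Nat.cast_natAbs, Int.cast_abs]
      rw [h1, Complex.ofReal_natCast]
    have hq3C : (q3 : ℂ) ≠ 0 := by exact_mod_cast hq3pos.ne'
    have hTC : (T : ℂ) ≠ 0 := by exact_mod_cast hT0
    rw [div_pow, mul_pow, mul_pow, hq3, hsq, ← pow_mul, ← hT]
    push_cast
    field_simp

end

/-- a field which contains `ω` has degree `2 ^ (n + 1)` if its degree is a power of two -/
theorem exists_succ (F : IntermediateField ℚ ℂ) (hw : w ∈ F) (n : ℕ)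
    (h : Module.finrank ℚ F = 2 ^ n) : ∃ k, n = k + 1 := by
  rcases n with _ | k
  · exfalso
    rw [pow_zero, IntermediateField.finrank_eq_one_iff] at h
    subst h
    obtain ⟨q, hq⟩ := IntermediateField.mem_bot.1 hw
    have h1 := congrArg Complex.im hq
    rw [w_im] at h1
    have h2 : ((algebraMap ℚ ℂ q : ℂ)).im = 0 := by simp
    rw [h2] at h1
    have h3 : (0 : ℝ) < √3 / 2 := by positivity
    linarith
  · exact ⟨k, rfl⟩

theorem w_mem_of (F : IntermediateField ℚ ℂ) (h : ∃ c ∈ F, c ^ 2 + c + 1 = 0) : w ∈ F := by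
  obtain ⟨c, hc, h1⟩ := h
  have h2 : c * c = -1 - c := by linear_combination h1
  rcases a7_w_cases c h2 with h3 | h3
  · rwa [← h3]
  · have hwc : conj w = -1 - w := by
      apply Complex.ext
      · rw [Complex.conj_re, Complex.sub_re, Complex.neg_re, Complex.one_re, w_re]; norm_num
      · rw [Complex.conj_im, Complex.sub_im, Complex.neg_im, Complex.one_im]; ring
    have h4 : w = -1 - c := by rw [h3, hwc]; ring
    rw [h4]
    exact F.sub_mem (F.neg_mem F.one_mem) hc

/-- the fields between `ℚ(ω)` and `ℚ(ω)(E[m])` -/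
theorem strong_m (m : ℕ) (hm : GoodLevel m) (F : IntermediateField ℚ ℂ) [NumberField F]
    (hw : w ∈ F) (hF : F ≤ torsionField (E ℂ) m) (n : ℕ) (h : Module.finrank ℚ F = 2 ^ n) :
    SBSD.TwoPartRankZero (E F) := by
  obtain ⟨S, hS, -, hSm⟩ := exists_S m hm
  obtain ⟨k, rfl⟩ := exists_succ F hw n h
  exact strong_F S hS F hw (hF.trans (torsionField_le m hm S hS hSm)) k h

/-- the rank part -/
theorem rank_m (m : ℕ) (hm : GoodLevel m) (F : IntermediateField ℚ ℂ) [NumberField F]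
    (hw : w ∈ F) (hF : F ≤ torsionField (E ℂ) m) (n : ℕ) (h : Module.finrank ℚ F = 2 ^ n) :
    Finite (E F).toAffine.Point ∧ ∃ L : ℂ → ℂ, Differentiable ℂ L ∧
      (∀ s : ℂ, 3 / 2 < s.re → LSeriesSummable (fun k => ((E F).LFunction k : ℂ)) s ∧
        L s = (E F).LSeries s) ∧ L 1 ≠ 0 := by
  obtain ⟨S, hS, -, hSm⟩ := exists_S m hm
  obtain ⟨k, rfl⟩ := exists_succ F hw n h
  have hF' := hF.trans (torsionField_le m hm S hS hSm)
  obtain ⟨L, h1, h2, h3, -⟩ := analytic_F S hS F hw hF' k h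
  exact ⟨(points_F S hS F hw hF' k h).1, L, h1, h2, h3⟩

end CF
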