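import Pool.Agent.MP_9ab903_nt.CF.Defs

set_option autoImplicit false

open NumberField IsDedekindDomain
open CM27 CMT
open scoped ComplexConjugate Classical

namespace CF

/-! ## [CF-N1] the sums `SX g X lx` for characters of 2-power order (file N1.lean)

Adapt `Pool/Agent/MP_dfae13_nt/T/H.lean` (the same statements for quadratic `X`, structure `IsQ`). -/

variable {n : ℕ} {g : Eis} {X : Eis → ℂ}

theorem n1_norm (hX : IsP n g X) (a : Eis) (ha : X a ≠ 0) : ‖X a‖ = 1 := by
  rcases hX.val a with h | h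
  · exact absurd h ha
  · exact Complex.norm_eq_one_of_pow_eq_one h (pow_ne_zero _ two_ne_zero)

theorem IsP.isX (hX : IsP n g X) (hg : Odd g.norm) : IsX g X where
  mul := hX.mul
  one := hX.one
  per := hX.per
  le_one a := by
    by_cases h : X a = 0
    · rw [h, norm_zero]
      exact zero_le_one
    · exact (n1_norm hX a h).le
  two := by
    refine n1_norm hX _ fun h => ?_
    exact (hX.zero _).1 h (h_two_cop hg)

theorem IsP.star (hX : IsP n g X) : IsP n (star g) (fun a => X (star a)) where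
  mul a b := by rw [star_mul', hX.mul]
  one := by rw [star_one, hX.one]
  per a b := by
    have h : Star.star (a + Star.star g * b) = Star.star a + g * Star.star b := by
      rw [star_add, star_mul', star_star]
    rw [h, hX.per]
  val a := hX.val _
  zero a := by
    rw [hX.zero, ← h_star_cop, star_star]

theorem IsP.map (hX : IsP n g X) (σ : ℂ ≃+* ℂ) : IsP n g (fun a => σ (X a)) where
  mul a b := by rw [hX.mul, map_mul]
  one := by rw [hX.one, map_one]
  per a b := by rw [hX.per]
  val a := by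
    rcases hX.val a with h | h
    · left
      rw [h, map_zero]
    · right
      rw [← map_pow, h, map_one]
  zero a := by
    rw [← hX.zero]
    exact map_eq_zero_iff σ σ.injective

theorem IsP.conj (hX : IsP n g X) : IsP n g (fun a => conj (X a)) :=
  hX.map (starRingAut : ℂ ≃+* ℂ)

theorem n1_lx_val (hg : Odd g.norm) (A : ValuationSubring ℂ) (hA : A.valuation 2 < 1) (x : Eis) :
    A.valuation (lx (emb (1 + 3 * x) / (3 * emb g))) ≤ 1 := h_lx_val hg A hA x

theorem SX_alg (hX : IsP n g X) (hg : Odd g.norm) : IsAlgebraic ℚ (SX g X lx) := by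
  have hfinite : Finite (Eis ⧸ Ideal.span {g}) := I3.quot_finite g (h_ne hg)
  have : Fintype (Eis ⧸ Ideal.span {g}) := Fintype.ofFinite _
  have key : ∀ z : ℂ, z ∈ algebraicClosure ℚ ℂ ↔ IsAlgebraic ℚ z := fun z => mem_algebraicClosure_iff
  rw [← key, SX, finsum_eq_sum_of_fintype]
  refine sum_mem fun δ _ => mul_mem ?_ ?_
  · rw [key]
    rcases hX.val (1 + 3 * δ.out) with h | h
    · rw [h]
      exact isAlgebraic_zero
    · refine IsAlgebraic.of_pow (n := 2 ^ n) (pow_pos two_pos n) ?_
      rw [h]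
      exact isAlgebraic_one
  · rw [key]
    exact h_lx_alg hg _

/-- a root of unity of 2-power order is congruent to 1 modulo the valuations above 2 -/
theorem n1_root (A : ValuationSubring ℂ) (hA : A.valuation 2 < 1) (z : ℂ) (k : ℕ)
    (hz : A.valuation (z ^ 2 ^ k - 1) < 1) : A.valuation (z - 1) < 1 := by
  induction k with
  | zero => simpa using hz
  | succ k ih =>
    apply ih
    set x := z ^ 2 ^ k with hx
    have h1 : z ^ 2 ^ (k + 1) = x ^ 2 := by rw [hx, ← pow_mul, pow_succ]
    rw [h1] at hz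
    have hv1 : A.valuation x ≤ 1 := by
      by_contra h
      push Not at h
      have h2 : 1 < A.valuation (x ^ 2) := by
        rw [map_pow]
        exact one_lt_pow₀ h two_ne_zero
      have h3 : A.valuation (x ^ 2) ≤ max (A.valuation (x ^ 2 - 1)) (A.valuation 1) := by
        have := Valuation.map_add A.valuation (x ^ 2 - 1) 1
        rwa [sub_add_cancel] at this
      rw [map_one] at h3
      exact absurd (h3.trans (max_le hz.le le_rfl)) (not_le.2 h2)
    have hv2 : A.valuation (x - 1) ≤ 1 := by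
      refine (Valuation.map_sub _ _ _).trans (max_le hv1 ?_)
      rw [map_one]
    have e : (x - 1) ^ 2 = (x ^ 2 - 1) - 2 * (x - 1) := by ring
    have h4 : A.valuation ((x - 1) ^ 2) < 1 := by
      rw [e]
      refine lt_of_le_of_lt (Valuation.map_sub _ _ _) (max_lt hz ?_)
      rw [map_mul]
      calc A.valuation 2 * A.valuation (x - 1) ≤ A.valuation 2 * 1 := mul_le_mul_right hv2 _
        _ < 1 := by rw [mul_one]; exact hA
    rw [map_pow] at h4
    by_contra h5
    push Not at h5
    exact absurd (one_le_pow₀ h5 (n := 2)) (not_le.2 h4)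

/-- the value is a `2`-adic unit -/
theorem n1_SX_val (hX : IsP n g X) (hg : Odd g.norm) (A : ValuationSubring ℂ)
    (hA : A.valuation 2 < 1) (P : ℂ) (hP : TT g = P * lam (1 / 3)) (hPA : A.valuation P = 1) :
    A.valuation (SX g X lx) = 1 := by
  have hg0 := h_ne hg
  have hfinite : Finite (Eis ⧸ Ideal.span {g}) := I3.quot_finite g hg0
  have : Fintype (Eis ⧸ Ideal.span {g}) := Fintype.ofFinite _
  have hthird := b4_third_val A hA
  have hoff3 : Off (1 / 3) := by
    have hz3 : ((3 : ℕ) : ℂ) * (1 / 3) ∈ Set.range emb := ⟨1, by rw [map_one]; norm_num⟩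
    exact off_of_odd 3 (by decide) (1 / 3) hz3 b4_third_notmem
  have hT2 : ∑ δ : Eis ⧸ Ideal.span {g}, (if IsCoprime (1 + 3 * δ.out) g then
      lx (emb (1 + 3 * δ.out) / (3 * emb g)) else 0) = P * lx (1 / 3) := by
    have hT := hP
    rw [lam_eq _ hoff3, TT, finsum_eq_sum_of_fintype] at hT
    have e1 : ∑ δ : Eis ⧸ Ideal.span {g}, (if IsCoprime (1 + 3 * δ.out) g then
        lam (emb (1 + 3 * δ.out) / (3 * emb g)) else 0) =
        OmC * ∑ δ : Eis ⧸ Ideal.span {g}, (if IsCoprime (1 + 3 * δ.out) g then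
          lx (emb (1 + 3 * δ.out) / (3 * emb g)) else 0) := by
      rw [Finset.mul_sum]
      refine Finset.sum_congr rfl fun δ _ => ?_
      split_ifs
      · exact lam_eq _ (h_off hg0 _)
      · rw [mul_zero]
    have e2 : OmC * ∑ δ : Eis ⧸ Ideal.span {g}, (if IsCoprime (1 + 3 * δ.out) g then
          lx (emb (1 + 3 * δ.out) / (3 * emb g)) else 0) = OmC * (P * lx (1 / 3)) := by
      rw [← e1]
      calc _ = P * (OmC * lx (1 / 3)) := by
            rw [← hT]
        _ = _ := by ring
    exact mul_left_cancel₀ OmC_ne e2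
  have hsum : SX g X lx = (∑ δ : Eis ⧸ Ideal.span {g},
      (X (1 + 3 * δ.out) * lx (emb (1 + 3 * δ.out) / (3 * emb g)) -
        (if IsCoprime (1 + 3 * δ.out) g then lx (emb (1 + 3 * δ.out) / (3 * emb g)) else 0)))
      + P * lx (1 / 3) := by
    rw [← hT2, Finset.sum_sub_distrib, SX, finsum_eq_sum_of_fintype]
    ring
  have hkey : A.valuation (∑ δ : Eis ⧸ Ideal.span {g},
      (X (1 + 3 * δ.out) * lx (emb (1 + 3 * δ.out) / (3 * emb g)) -
        (if IsCoprime (1 + 3 * δ.out) g then lx (emb (1 + 3 * δ.out) / (3 * emb g)) else 0))) < 1 := by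
    refine Valuation.map_sum_lt _ one_ne_zero fun δ _ => ?_
    by_cases hc : IsCoprime (1 + 3 * δ.out) g
    · rw [if_pos hc]
      have h1 : X (1 + 3 * δ.out) * lx (emb (1 + 3 * δ.out) / (3 * emb g)) -
          lx (emb (1 + 3 * δ.out) / (3 * emb g)) =
          (X (1 + 3 * δ.out) - 1) * lx (emb (1 + 3 * δ.out) / (3 * emb g)) := by ring
      rw [h1, map_mul]
      have hv : A.valuation (X (1 + 3 * δ.out) - 1) < 1 := by
        rcases hX.val (1 + 3 * δ.out) with h | h
        · exact absurd hc ((hX.zero _).1 h)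
        · apply n1_root A hA _ n
          rw [h, sub_self, map_zero]
          exact zero_lt_one
      calc A.valuation (X (1 + 3 * δ.out) - 1) *
            A.valuation (lx (emb (1 + 3 * δ.out) / (3 * emb g)))
          ≤ A.valuation (X (1 + 3 * δ.out) - 1) * 1 := mul_le_mul_right (h_lx_val hg A hA _) _
        _ < 1 := by rw [mul_one]; exact hv
    · rw [if_neg hc, (hX.zero _).2 hc, zero_mul, sub_zero, map_zero]
      exact zero_lt_one
  have hone : A.valuation (P * lx (1 / 3)) = 1 := by rw [map_mul, hPA, hthird, mul_one]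
  rw [hsum, Valuation.map_add_eq_of_lt_right _ (by rw [hone]; exact hkey), hone]

/-- `2`-adic unit: `X(a) ≡ 1` for `a` coprime to `g` (`X(a)` is a root of unity of 2-power order); then
as in `SX_val` of H.lean -/
theorem SX_unit (T : Finset Eis) (hT : ∀ b ∈ T, GoodEis b) (hX : IsP n (gS T) X)
    (A : ValuationSubring ℂ) (hA : A.valuation 2 < 1) : A.valuation (SX (gS T) X lx) = 1 := by
  obtain ⟨P, hP, hPA⟩ := TT_gS T hT
  exact n1_SX_val hX (h_gS T hT).2 A hA P hP (hPA A hA)

/-- the periodic summand -/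
theorem n1_per (hX : IsP n g X) (hg : g ≠ 0) (a b : Eis) :
    X (1 + 3 * (a + g * b)) * lx (emb (1 + 3 * (a + g * b)) / (3 * emb g)) =
      X (1 + 3 * a) * lx (emb (1 + 3 * a) / (3 * emb g)) := by
  have hgC : emb g ≠ 0 := emb_ne hg
  have e1 : 1 + 3 * (a + g * b) = (1 + 3 * a) + g * (3 * b) := by ring
  have e2 : emb (1 + 3 * (a + g * b)) / (3 * emb g) = emb (1 + 3 * a) / (3 * emb g) + emb b := by
    rw [e1, map_add, map_mul, map_mul emb 3 b, map_ofNat]
    field_simp
  rw [e2, lx_add, e1, hX.per]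

theorem SX_conj' (hX : IsP n g X) (hg : g ≠ 0) :
    conj (SX g X lx) = -SX (star g) (fun a => conj (X (star a))) lx := by
  have hs0 : star g ≠ 0 := by
    intro h
    apply hg
    rw [← star_star g, h, star_zero]
  have hfinite : Finite (Eis ⧸ Ideal.span {g}) := I3.quot_finite g hg
  have : Fintype (Eis ⧸ Ideal.span {g}) := Fintype.ofFinite _
  have hfinite' : Finite (Eis ⧸ Ideal.span {star g}) := I3.quot_finite _ hs0
  have : Fintype (Eis ⧸ Ideal.span {star g}) := Fintype.ofFinite _
  rw [SX, SX, finsum_eq_sum_of_fintype, finsum_eq_sum_of_fintype, map_sum,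
    ← Finset.sum_neg_distrib]
  refine Finset.sum_bij' (fun δ _ => Ideal.Quotient.mk (Ideal.span {star g}) (star δ.out))
    (fun δ _ => Ideal.Quotient.mk (Ideal.span {g}) (star δ.out)) (fun _ _ => Finset.mem_univ _)
    (fun _ _ => Finset.mem_univ _) ?_ ?_ ?_
  · intro δ _
    obtain ⟨k, hk⟩ := I3.out_spec (star g) (star δ.out)
    rw [hk]
    have e : star (star δ.out + star g * k) = δ.out + g * star k := by
      rw [star_add, star_star, star_mul', star_star]
    rw [e]
    conv_rhs => rw [← Ideal.Quotient.mk_out δ]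
    rw [Ideal.Quotient.mk_eq_mk_iff_sub_mem, Ideal.mem_span_singleton]
    exact ⟨star k, by ring⟩
  · intro δ _
    obtain ⟨k, hk⟩ := I3.out_spec g (star δ.out)
    rw [hk]
    have e : star (star δ.out + g * k) = δ.out + star g * star k := by
      rw [star_add, star_star, star_mul']
    rw [e]
    conv_rhs => rw [← Ideal.Quotient.mk_out δ]
    rw [Ideal.Quotient.mk_eq_mk_iff_sub_mem, Ideal.mem_span_singleton]
    exact ⟨star k, by ring⟩
  · intro δ _
    obtain ⟨k, hk⟩ := I3.out_spec (star g) (star δ.out)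
    rw [hk, n1_per hX.star.conj hs0, map_mul]
    have e1 : star (1 + 3 * star δ.out) = 1 + 3 * δ.out := by
      rw [star_add, star_one, star_mul', star_star, star_ofNat]
    have e2 : emb (1 + 3 * star δ.out) / (3 * emb (star g)) =
        conj (emb (1 + 3 * δ.out) / (3 * emb g)) := by
      rw [← e1, emb_star, emb_star, map_div₀, map_mul, Complex.conj_conj, Complex.conj_ofNat]
    rw [e1, e2, lx_conj]
    ring

/-- the action of the automorphisms of `ℂ` that fix `ω`: see `SX_gal` in H.lean -/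
theorem SX_gal' (hX : IsP n g X) (hg : Odd g.norm) (σ : ℂ ≃+* ℂ) (hσ : σ w = w) :
    ∃ u : Eis, IsCoprime u g ∧
      (∀ c : Eis, ptMap (σ : ℂ →+* ℂ) (pt (emb c / emb g)) = pt (emb (c * u) / emb g)) ∧
      σ (SX g X lx) * σ (X u) = SX g (fun a => σ (X a)) lx := by
  have hg0 := h_ne hg
  have hgC : emb g ≠ 0 := emb_ne hg0
  have hfinite : Finite (Eis ⧸ Ideal.span {g}) := I3.quot_finite g hg0
  have : Fintype (Eis ⧸ Ideal.span {g}) := Fintype.ofFinite _
  have hpos : 0 < 3 * g.norm.natAbs := (h_odd_abs hg).pos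
  obtain ⟨u, u', huu, ⟨v, hv⟩, hc⟩ := gal_fix (3 * g.norm.natAbs) hpos (dvd_mul_right _ _) σ hσ
  have hgN : g ∣ ((3 * g.norm.natAbs : ℕ) : Eis) := by
    refine ⟨3 * star g, ?_⟩
    push_cast
    rw [h_natAbs, a2_cast_norm]
    ring
  have hcop : IsCoprime u g := by
    obtain ⟨k, hk⟩ := hgN.trans huu
    exact ⟨u', -k, by linear_combination hk⟩
  have hu : u = 1 + 3 * v := by linear_combination hv
  have hgs : emb (star g) ≠ 0 := by
    rw [emb_star]
    exact (_root_.map_ne_zero _).2 hgC
  have hpt : ∀ c : Eis, emb (c * (star g)) / ((3 * g.norm.natAbs : ℕ) : ℂ) =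
      emb c / (3 * emb g) := by
    intro c
    have h1 := h_emb_star g
    push_cast
    rw [map_mul, ← h1]
    field_simp
  have hpt' : ∀ c : Eis, emb (3 * c * (star g)) / ((3 * g.norm.natAbs : ℕ) : ℂ) =
      emb c / emb g := by
    intro c
    rw [hpt, map_mul, map_ofNat]
    field_simp
  have h1 : ∀ x : Eis, σ (lx (emb (1 + 3 * x) / (3 * emb g))) =
      lx (emb ((1 + 3 * x) * u) / (3 * emb g)) := by
    intro x
    apply lx_ptMap (σ : ℂ →+* ℂ) _ _ (h_off hg0 x)
    have h3 := hc ((1 + 3 * x) * star g)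
    have h4 : (1 + 3 * x) * star g * u = (1 + 3 * x) * u * star g := by ring
    rw [h4, hpt, hpt] at h3
    exact h3
  refine ⟨u, hcop, ?_, ?_⟩
  · intro c
    have h3 := hc (3 * c * star g)
    have h4 : 3 * c * star g * u = 3 * (c * u) * star g := by ring
    rw [h4, hpt', hpt'] at h3
    exact h3
  · have hXσ := hX.map σ
    have e1 : SX g (fun a => σ (X a)) lx = ∑ᶠ δ : Eis ⧸ Ideal.span {g},
        (fun x => σ (X (1 + 3 * x)) * lx (emb (1 + 3 * x) / (3 * emb g))) δ.out := rfl
    rw [e1, ← SX_reindex hg0 (fun x => σ (X (1 + 3 * x)) * lx (emb (1 + 3 * x) / (3 * emb g)))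
      (n1_per hXσ hg0) u v hcop, SX, finsum_eq_sum_of_fintype, finsum_eq_sum_of_fintype,
      map_sum, Finset.sum_mul]
    refine Finset.sum_congr rfl fun δ _ => ?_
    have e2 : 1 + 3 * (v + u * δ.out) = (1 + 3 * δ.out) * u := by rw [hu]; ring
    rw [map_mul, h1, e2, hX.mul, map_mul σ (X _) (X u)]
    ring

end CF
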