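import Pool.Agent.MP_9ab903_nt.CF.G5
import Pool.Agent.MP_9ab903_nt.CF.A1
import Pool.Agent.MP_9ab903_nt.CF.N1
import Pool.Agent.MP_9ab903_nt.CF.G1

set_option autoImplicit false

open NumberField IsDedekindDomain
open CM27 CMT
open scoped ComplexConjugate Classical

namespace CF

/-! ## [CF-N2] the product over the characters of `F` (file N2.lean; uses A1, C1, G1, G5, N1) -/

/-- the character `σ ∘ X` -/
noncomputable def n2_map (S : Finset Eis) (σ : ℂ ≃+* ℂ) (X : XX S) : XX S :=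
  fun b => (X b).ringHomComp (σ : ℂ →+* ℂ)

theorem n2_ev (S : Finset Eis) (σ : ℂ ≃+* ℂ) (X : XX S) (a : AS S) :
    ev S (n2_map S σ X) a = σ (ev S X a) := by
  unfold ev n2_map
  rw [map_prod]
  rfl

theorem n2_map_symm (S : Finset Eis) (σ : ℂ ≃+* ℂ) (X : XX S) :
    n2_map S σ (n2_map S σ.symm X) = X := by
  funext b
  ext a
  simp [n2_map]

theorem n2_symm_map (S : Finset Eis) (σ : ℂ ≃+* ℂ) (X : XX S) :
    n2_map S σ.symm (n2_map S σ X) = X := by
  funext b
  ext a
  simp [n2_map]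

/-- `chF S F` is stable under `X ↦ σ ∘ X` -/
theorem chF_map (S : Finset Eis) (hS : ∀ b ∈ S, GoodEis b) (F : IntermediateField ℚ ℂ)
    (σ : ℂ ≃+* ℂ) (X : XX S) :
    (fun b => (X b).ringHomComp (σ : ℂ →+* ℂ)) ∈ chF S F ↔ X ∈ chF S F := by
  rw [mem_chF S hS, mem_chF S hS]
  have h1 : ∀ a : AS S, ev S (fun b => (X b).ringHomComp (σ : ℂ →+* ℂ)) a = σ (ev S X a) :=
    n2_ev S σ X
  refine forall₂_congr fun τ _ => ?_
  rw [h1, map_eq_one_iff σ σ.injective]

/-- reindexing of a product over `chF S F` -/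
theorem n2_prod (S : Finset Eis) (hS : ∀ b ∈ S, GoodEis b) (F : IntermediateField ℚ ℂ)
    (σ : ℂ ≃+* ℂ) (f : XX S → ℂ) :
    ∏ X ∈ chF S F, f (n2_map S σ X) = ∏ X ∈ chF S F, f X := by
  refine Finset.prod_bij' (fun X _ => n2_map S σ X) (fun X _ => n2_map S σ.symm X) ?_ ?_ ?_ ?_ ?_
  · intro X hX
    exact (chF_map S hS F σ X).2 hX
  · intro X hX
    exact (chF_map S hS F σ.symm X).2 hX
  · intro X _
    exact n2_symm_map S σ X
  · intro X _
    exact n2_map_symm S σ X
  · intro X _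
    rfl

/-- the value of the primitive character at an element which describes the action of `σ` on the
points of order `gX S X` -/
theorem n2_Xt (S : Finset Eis) (hS : ∀ b ∈ S, GoodEis b) (X : XX S) (σ : AutK) (u : Eis)
    (hu : ∀ c : Eis, ptMap ((σ : ℂ ≃+* ℂ) : ℂ →+* ℂ) (pt (emb c / emb (gX S X))) =
      pt (emb (c * u) / emb (gX S X))) : Xt S X u = ev S X (th S σ) := by
  have hne : ∀ b ∈ S, b ≠ 0 := by
    intro b hb h0
    obtain ⟨-, p, hp, hn⟩ := hS b hb
    rw [h0, norm_eq] at hn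
    have h1 := hp.1.pos
    simp at hn
    omega
  have hg0 : gX S X ≠ 0 := by
    have := eis_isDomain
    unfold gX
    refine Finset.prod_ne_zero_iff.2 fun b _ => ?_
    split_ifs
    · exact one_ne_zero
    · exact hne b b.2
  unfold Xt ev
  refine Finset.prod_congr rfl fun b _ => ?_
  split_ifs with hb
  · rw [hb, MulChar.one_apply_coe]
  · congr 1
    obtain ⟨v, hv⟩ := Ideal.Quotient.mk_surjective
      ((th S σ b : Eis ⧸ Ideal.span {(b : Eis)}))
    have hth := th_spec S hS σ b v hv.symm 1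
    have hdvd : (b : Eis) ∣ gX S X := by
      unfold gX
      have h1 := Finset.dvd_prod_of_mem
        (fun b : {x // x ∈ S} => if X b = 1 then (1 : Eis) else (b : Eis)) (Finset.mem_univ b)
      simp only [if_neg hb] at h1
      exact h1
    obtain ⟨k, hk⟩ := hdvd
    have hb0 : emb (b : Eis) ≠ 0 := emb_ne (hne b b.2)
    have hk0 : emb k ≠ 0 := by
      apply emb_ne
      rintro rfl
      rw [mul_zero] at hk
      exact hg0 hk
    have h2 := hu k
    rw [hk, map_mul, map_mul] at h2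
    have e1 : emb k / (emb (b : Eis) * emb k) = emb 1 / emb (b : Eis) := by
      rw [map_one]; field_simp
    have e2 : emb k * emb u / (emb (b : Eis) * emb k) = emb u / emb (b : Eis) := by
      field_simp
    rw [e1, e2, hth, one_mul, pt_eq_iff] at h2
    obtain ⟨d, hd⟩ := h2
    rw [← hv, Ideal.Quotient.mk_eq_mk_iff_sub_mem, Ideal.mem_span_singleton]
    refine ⟨-d, emb_injective ?_⟩
    rw [map_sub, map_mul, map_neg, hd]
    field_simp
    ring

/-- Sketch: by `SX_gal'` with `g = gX S X`: `u ≡ th S σ b` modulo all `b | gX S X` (`th_spec`; `pt` is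
injective modulo `ℤ[ω]`), so `σ (Xt S X u) = ev S (σ ∘ X) (th S σ)`. The product over `X ∈ chF S F`,
with `chF_map` and `prod_ev` (`H = (fixer F).map (th S)`). -/
theorem PF_gal (S : Finset Eis) (hS : ∀ b ∈ S, GoodEis b) (F : IntermediateField ℚ ℂ)
    [NumberField F] (hw : w ∈ F) (hF : F ≤ LS S) (n : ℕ) (h : Module.finrank ℚ F = 2 ^ (n + 1))
    (σ : AutK) : (σ : ℂ ≃+* ℂ) (PF S F) ^ 2 = PF S F ^ 2 := by
  set s : ℂ ≃+* ℂ := (σ : ℂ ≃+* ℂ) with hs
  have hP : ∀ X ∈ chF S F, IsP n (gX S X) (Xt S X) := fun X hX =>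
    isP_Xt S hS X n (pow_chF S hS F hw hF n h X hX)
  have hodd : ∀ X : XX S, Odd (gX S X).norm := by
    intro X
    obtain ⟨T, hTS, hg, -⟩ := gX_eq S hS X
    rw [hg]
    exact (h_gS T fun b hb => hS b (hTS hb)).2
  have hterm : ∀ X ∈ chF S F, s (SX (gX S X) (Xt S X) lx) * ev S (n2_map S s X) (th S σ) =
      SX (gX S (n2_map S s X)) (Xt S (n2_map S s X)) lx := by
    intro X hX
    obtain ⟨u, -, hu, hsum⟩ := SX_gal' (hP X hX) (hodd X) s σ.2
    have h1 := n2_Xt S hS X σ u hu
    have h2 : Xt S (n2_map S s X) = fun a => s (Xt S X a) :=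
      funext fun a => (Xt_map S X s a).1
    have h3 : gX S (n2_map S s X) = gX S X := (Xt_map S X s 0).2
    rw [h2, h3, ← hsum, n2_ev, h1]
  have hprod : s (PF S F) * ∏ X ∈ chF S F, ev S X (th S σ) = PF S F := by
    have h1 : ∏ X ∈ chF S F, ev S X (th S σ) =
        ∏ X ∈ chF S F, ev S (n2_map S s X) (th S σ) :=
      (n2_prod S hS F s fun X => ev S X (th S σ)).symm
    unfold PF
    rw [h1, map_prod, ← Finset.prod_mul_distrib, Finset.prod_congr rfl hterm]
    exact n2_prod S hS F s fun X => SX (gX S X) (Xt S X) lx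
  have hT : ∀ X, X ∈ chF S F ↔ ∀ a ∈ (fixer F).map (th S), ev S X a = 1 := by
    intro X
    rw [mem_chF S hS]
    constructor
    · rintro h1 a ⟨τ, hτ, rfl⟩
      exact h1 τ hτ
    · intro h1 τ hτ
      exact h1 _ ⟨τ, hτ, rfl⟩
  rcases prod_ev S hS _ (chF S F) hT (th S σ) with h1 | h1
  · rw [h1, mul_one] at hprod
    rw [hprod]
  · rw [h1] at hprod
    have h2 : s (PF S F) = -PF S F := by linear_combination -hprod
    rw [h2, neg_sq]

theorem n2_w_conj : conj w = -1 - w := by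
  apply Complex.ext
  · rw [Complex.conj_re, Complex.sub_re, Complex.neg_re, Complex.one_re, w_re]; norm_num
  · rw [Complex.conj_im, Complex.sub_im, Complex.neg_im, Complex.one_im]; ring

/-- The fourth power of the absolute value of `PF S F` is a rational number, `2`-adic unit.
Sketch: `PF_gal`; `σ` with `σ ω = ω²` is `τ ∘ conj`, `τ ∈ AutK` (as in `SX_rat` of H.lean; `PF` and
`conj PF` are both fixed up to sign by `AutK`: for `conj PF` use `σ ∘ conj = conj ∘ (conj ∘ σ ∘ conj)`).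
Unit: `SX_unit` for all valuation rings `A` of `ℂ` with `|2| < 1` (also for `conj⁻¹ A`); compare
`analytic_S` in H.lean, how the 2-adic valuation of a rational number is obtained from this. -/
theorem PF_rat (S : Finset Eis) (hS : ∀ b ∈ S, GoodEis b) (F : IntermediateField ℚ ℂ)
    [NumberField F] (hw : w ∈ F) (hF : F ≤ LS S) (n : ℕ) (h : Module.finrank ℚ F = 2 ^ (n + 1)) :
    ∃ q : ℚ, 0 < q ∧ padicValRat 2 q = 0 ∧ (PF S F * conj (PF S F)) ^ 2 = (q : ℂ) := by
  have hP : ∀ X ∈ chF S F, IsP n (gX S X) (Xt S X) := fun X hX =>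
    isP_Xt S hS X n (pow_chF S hS F hw hF n h X hX)
  have hodd : ∀ X : XX S, Odd (gX S X).norm := by
    intro X
    obtain ⟨T, hTS, hg, -⟩ := gX_eq S hS X
    rw [hg]
    exact (h_gS T fun b hb => hS b (hTS hb)).2
  set t := PF S F with ht
  -- algebraicity
  have key : ∀ z : ℂ, z ∈ algebraicClosure ℚ ℂ ↔ IsAlgebraic ℚ z := fun z =>
    mem_algebraicClosure_iff
  have halg : IsAlgebraic ℚ t := by
    rw [← key, ht, PF]
    refine prod_mem fun X hX => ?_
    rw [key]
    exact SX_alg (hP X hX) (hodd X)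
  have hconjP : conj t = ∏ X ∈ chF S F,
      -SX (star (gX S X)) (fun a => conj (Xt S X (star a))) lx := by
    rw [ht, PF, map_prod]
    exact Finset.prod_congr rfl fun X hX => SX_conj' (hP X hX) (h_ne (hodd X))
  have halg' : IsAlgebraic ℚ (conj t) := by
    rw [← key, hconjP]
    refine prod_mem fun X hX => neg_mem ?_
    rw [key]
    refine SX_alg (hP X hX).star.conj ?_
    rw [QuadraticAlgebra.norm_star]
    exact hodd X
  -- Galois action
  have hfix : ∀ σ : ℂ ≃+* ℂ, σ w = w → σ t ^ 2 = t ^ 2 ∧ σ (conj t) ^ 2 = (conj t) ^ 2 := by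
    intro σ hσ
    refine ⟨PF_gal S hS F hw hF n h ⟨σ, hσ⟩, ?_⟩
    set τ : ℂ ≃+* ℂ := ((starRingAut : ℂ ≃+* ℂ).trans σ).trans (starRingAut : ℂ ≃+* ℂ) with hτ
    have hτa : ∀ x, τ x = conj (σ (conj x)) := fun x => rfl
    have hτw : τ w = w := by
      rw [hτa, n2_w_conj, map_sub, map_neg, map_one, hσ, map_sub, map_neg, map_one, n2_w_conj]
      ring
    have h1 : τ t ^ 2 = t ^ 2 := PF_gal S hS F hw hF n h ⟨τ, hτw⟩
    rw [hτa] at h1
    have h2 := congrArg conj h1
    rw [map_pow, Complex.conj_conj, map_pow] at h2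
    exact h2
  obtain ⟨q, hq⟩ : ∃ q : ℚ, (q : ℂ) = (t * conj t) ^ 2 := by
    apply fixed_rat _ ((halg.mul halg').pow 2)
    intro σ
    have hx : σ w * σ w = -1 - σ w := by
      rw [← map_mul, w_sq, map_sub, map_neg, map_one]
    rcases a7_w_cases (σ w) hx with h0 | h0
    · obtain ⟨h1, h2⟩ := hfix σ h0
      rw [map_pow, map_mul, mul_pow, h1, h2, mul_pow]
    · set τ : ℂ ≃+* ℂ := (starRingAut : ℂ ≃+* ℂ).trans σ with hτ
      have hτa : ∀ x, τ x = σ (conj x) := fun x => rfl
      have hτw : τ w = w := by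
        rw [hτa, n2_w_conj, map_sub, map_neg, map_one, h0, n2_w_conj]
        ring
      obtain ⟨h1, h2⟩ := hfix τ hτw
      rw [hτa] at h1 h2
      rw [Complex.conj_conj] at h2
      rw [map_pow, map_mul, mul_pow, h1, h2, mul_pow]
      ring
  -- valuations
  obtain ⟨A, hA⟩ := exists_val
  have hvt : A.valuation t = 1 := by
    rw [ht, PF, map_prod]
    refine Finset.prod_eq_one fun X hX => ?_
    obtain ⟨T, hTS, hg, -⟩ := gX_eq S hS X
    have h1 := hP X hX
    rw [hg] at h1 ⊢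
    exact SX_unit T (fun b hb => hS b (hTS hb)) h1 A hA
  have hvt' : A.valuation (conj t) = 1 := by
    rw [hconjP, map_prod]
    refine Finset.prod_eq_one fun X hX => ?_
    obtain ⟨T, hTS, hg, -⟩ := gX_eq S hS X
    have h1 := (hP X hX).star.conj
    rw [hg, ← gS_star] at h1
    rw [hg, ← gS_star, Valuation.map_neg]
    exact SX_unit (T.image star) (good_star T fun b hb => hS b (hTS hb)) h1 A hA
  have hvq : A.valuation (q : ℂ) = 1 := by
    rw [hq, map_pow, map_mul, hvt, hvt', mul_one, one_pow]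
  have htne : t ≠ 0 := by
    intro h0
    rw [h0, map_zero] at hvt
    exact zero_ne_one hvt
  refine ⟨q, ?_, rat_val q A hA hvq, hq.symm⟩
  have h1 : ((q : ℝ) : ℂ) = ((Complex.normSq t ^ 2 : ℝ) : ℂ) := by
    have h2 : ((q : ℝ) : ℂ) = (q : ℂ) := by norm_cast
    rw [h2, hq, Complex.mul_conj]
    push_cast
    ring
  have h2 : (q : ℝ) = Complex.normSq t ^ 2 := by exact_mod_cast h1
  have h3 : 0 < Complex.normSq t := Complex.normSq_pos.2 htne
  have h4 : (0 : ℝ) < q := by rw [h2]; positivity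
  exact_mod_cast h4

/-- The product of the Euler factors at `2`: a rational number with odd numerator and denominator
(it is an algebraic integer fixed by all automorphisms, congruent to `1` at all places above `2`). -/
theorem two_factor (S : Finset Eis) (hS : ∀ b ∈ S, GoodEis b) (F : IntermediateField ℚ ℂ)
    [NumberField F] (hw : w ∈ F) (hF : F ≤ LS S) (n : ℕ) (h : Module.finrank ℚ F = 2 ^ (n + 1)) :
    ∃ q : ℚ, q ≠ 0 ∧ padicValRat 2 q = 0 ∧
      ∏ X ∈ chF S F, (2 + (Xt S X (-2))⁻¹) = (q : ℂ) := by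
  have hP : ∀ X ∈ chF S F, IsP n (gX S X) (Xt S X) := fun X hX =>
    isP_Xt S hS X n (pow_chF S hS F hw hF n h X hX)
  have hodd : ∀ X : XX S, Odd (gX S X).norm := by
    intro X
    obtain ⟨T, hTS, hg, -⟩ := gX_eq S hS X
    rw [hg]
    exact (h_gS T fun b hb => hS b (hTS hb)).2
  have hroot : ∀ X ∈ chF S F, Xt S X (-2) ^ 2 ^ n = 1 := by
    intro X hX
    rcases (hP X hX).val (-2) with h1 | h1
    · exact absurd (h_two_cop (hodd X)) (((hP X hX).zero _).1 h1)
    · exact h1
  have key : ∀ z : ℂ, z ∈ algebraicClosure ℚ ℂ ↔ IsAlgebraic ℚ z := fun z =>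
    mem_algebraicClosure_iff
  have halg : IsAlgebraic ℚ (∏ X ∈ chF S F, (2 + (Xt S X (-2))⁻¹)) := by
    rw [← key]
    refine prod_mem fun X hX => add_mem ?_ (inv_mem ?_)
    · exact ofNat_mem _ 2
    · rw [key]
      refine ⟨Polynomial.X ^ 2 ^ n - Polynomial.C 1, ?_, ?_⟩
      · exact (Polynomial.monic_X_pow_sub_C 1 (by positivity)).ne_zero
      · simp [hroot X hX]
  obtain ⟨q, hq⟩ := fixed_rat _ halg (by
    intro σ
    rw [map_prod]
    have h1 : ∀ X ∈ chF S F, σ (2 + (Xt S X (-2))⁻¹) =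
        (fun X : XX S => 2 + (Xt S X (-2))⁻¹) (n2_map S σ X) := by
      intro X _
      have h2 : Xt S (n2_map S σ X) (-2) = σ (Xt S X (-2)) := (Xt_map S X σ (-2)).1
      simp only [h2, map_add, map_inv₀, map_ofNat]
    rw [Finset.prod_congr rfl h1]
    exact n2_prod S hS F σ fun X : XX S => 2 + (Xt S X (-2))⁻¹)
  obtain ⟨A, hA⟩ := exists_val
  have hv : A.valuation (q : ℂ) = 1 := by
    rw [hq, map_prod]
    refine Finset.prod_eq_one fun X hX => ?_
    have h1 : A.valuation (Xt S X (-2)) = 1 := by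
      have h2 := congrArg A.valuation (hroot X hX)
      rw [map_pow, map_one] at h2
      exact (pow_eq_one_iff.1 h2).resolve_right (by positivity)
    have h3 : A.valuation ((Xt S X (-2))⁻¹) = 1 := by rw [map_inv₀, h1, inv_one]
    rw [Valuation.map_add_eq_of_lt_right _ (by rw [h3]; exact hA), h3]
  refine ⟨q, ?_, rat_val q A hA hv, hq.symm⟩
  rintro rfl
  simp at hv

end CF
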