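import Pool.Agent.MP_9ab903_nt.CF.L2
import Pool.Agent.MP_9ab903_nt.CF.N2
import Pool.Agent.MP_9ab903_nt.AN.Final

set_option autoImplicit false

open NumberField IsDedekindDomain ArithmeticFunction
open CM27 CMT
open scoped ComplexConjugate Classical

namespace CF

/-! ## [CF-AF] the value of the `L`-series of `E` over `F` at `1` (file AF.lean) -/

section
variable (S : Finset Eis) (hS : ∀ b ∈ S, GoodEis b)
include hS

theorem gX_odd (X : XX S) : Odd (gX S X).norm := by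
  obtain ⟨T, hT, hg, -⟩ := gX_eq S hS X
  rw [hg]
  exact (h_gS T fun b hb => hS b (hT hb)).2

/-- the value for one character -/
theorem value_X (n : ℕ) (X : XX S) (hX : ∀ b, X b ^ 2 ^ n = 1) :
    ∃ Φ₁ Φ₂ : ℂ → ℂ, Differentiable ℂ Φ₁ ∧ Differentiable ℂ Φ₂ ∧
      (∀ s : ℂ, 3 / 2 < s.re → LSeriesSummable (fun k => Dg (gx S X) k) s ∧
        Φ₁ s = LSeries (fun k => Dg (gx S X) k) s) ∧
      (∀ s : ℂ, 3 / 2 < s.re → LSeriesSummable (fun k => Dg (gy S X) k) s ∧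
        Φ₂ s = LSeries (fun k => Dg (gy S X) k) s) ∧
      Φ₁ 1 * Φ₂ 1 = (Om : ℂ) ^ 2 * (SX (gX S X) (Xt S X) lx *
        conj (SX (gX S X) (fun a => conj (Xt S X a)) lx)) /
          (9 * ((gX S X).norm.natAbs : ℂ) * (2 + (Xt S X (-2))⁻¹) ^ 2) := by
  set g := gX S X with hg
  set Y := Xt S X with hY
  have hP : IsP n g Y := isP_Xt S hS X n hX
  have hodd : Odd g.norm := gX_odd S hS X
  have hX' : IsX g Y := hP.isX hodd
  have hodds : Odd (star g).norm := by rw [QuadraticAlgebra.norm_star]; exact hodd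
  have hg0 := h_ne hodd
  have hs0 := h_ne hodds
  obtain ⟨Φ₂, d2, s2, v2⟩ := entire_X hodd hX'
  obtain ⟨Φ₁, d1, s1, v1⟩ := entire_X hodds hX'.star
  have hc1 : coefX (fun a => Y (star a)) = fun k => Dg (gx S X) k :=
    funext fun k => coefX_star Y k
  have hc2 : coefX Y = fun k => Dg (gy S X) k := rfl
  rw [hc1] at s1
  rw [hc2] at s2
  refine ⟨Φ₁, Φ₂, d1, d2, s1, s2, ?_⟩
  have hst : star (-2 : Eis) = -2 := by rw [star_neg, star_ofNat]
  rw [TX_eq hg0] at v2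
  rw [TX_eq hs0, hst] at v1
  have hconj := SX_conj' hP.conj hg0
  simp only [Complex.conj_conj] at hconj
  have h1 : SX (star g) (fun a => Y (star a)) lx =
      -conj (SX g (fun a => conj (Y a)) lx) := by
    rw [hconj, neg_neg]
  rw [h1] at v1
  have hN := h_emb_star g
  have he1 := emb_ne hg0
  have he2 := emb_ne hs0
  have hY2 : Y (-2) ≠ 0 := by
    intro h0
    have := hX'.two
    rw [h0, norm_zero] at this
    exact zero_ne_one this
  have hε0 : (2 : ℂ) + (Y (-2))⁻¹ ≠ 0 := by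
    intro h2
    have h3 : (Y (-2))⁻¹ = -2 := by linear_combination h2
    have h4 : ‖(Y (-2))⁻¹‖ = 1 := by rw [norm_inv, hX'.two, inv_one]
    rw [h3] at h4
    norm_num at h4
  have hOm : OmC ^ 2 = -(Om : ℂ) ^ 2 := fin_OmC_sq
  have hN0 : ((g.norm.natAbs : ℕ) : ℂ) ≠ 0 := by
    rw [← hN]
    exact mul_ne_zero he1 he2
  have hden : (9 * ((g.norm.natAbs : ℕ) : ℂ) * (2 + (Y (-2))⁻¹) ^ 2 : ℂ) ≠ 0 :=
    mul_ne_zero (mul_ne_zero (by norm_num) hN0) (pow_ne_zero 2 hε0)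
  rw [v1, v2, eq_div_iff hden, ← hN]
  set ε := 2 + (Y (-2))⁻¹ with hε
  set A := SX g Y lx
  set B := conj (SX g (fun a => conj (Y a)) lx)
  field_simp
  linear_combination (-9 * A * B) * hOm

end

section
variable (S : Finset Eis) (hS : ∀ b ∈ S, GoodEis b) (F : IntermediateField ℚ ℂ) [NumberField F]
  (hw : w ∈ F) (hF : F ≤ LS S) (n : ℕ) (h : Module.finrank ℚ F = 2 ^ (n + 1))
include hS hw hF h

theorem card_chF' : (chF S F).card = 2 ^ n := by
  have h1 := card_chF S hS F hw hF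
  rw [h, pow_succ] at h1
  omega

/-- complex conjugation permutes the characters -/
theorem prod_conj : ∏ X ∈ chF S F, conj (SX (gX S X) (fun a => conj (Xt S X a)) lx) =
    conj (PF S F) := by
  rw [PF, map_prod]
  set c : ℂ ≃+* ℂ := starRingAut with hc
  refine Finset.prod_bij' (fun X _ b => (X b).ringHomComp (c : ℂ →+* ℂ))
    (fun X _ b => (X b).ringHomComp (c : ℂ →+* ℂ)) ?_ ?_ ?_ ?_ ?_
  · intro X hX
    exact (chF_map S hS F c X).2 hX
  · intro X hX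
    exact (chF_map S hS F c X).2 hX
  · intro X _
    funext b
    ext x
    change c (c (X b x)) = X b x
    exact Complex.conj_conj _
  · intro X _
    funext b
    ext x
    change c (c (X b x)) = X b x
    exact Complex.conj_conj _
  · intro X _
    have h1 : Xt S (fun b => (X b).ringHomComp (c : ℂ →+* ℂ)) = fun a => conj (Xt S X a) :=
      funext fun a => (Xt_map S X c a).1
    rw [h1, (Xt_map S X c 0).2]

/-- **The analytic half.** -/
theorem analytic_F : ∃ L : ℂ → ℂ, Differentiable ℂ L ∧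
    (∀ s : ℂ, 3 / 2 < s.re → LSeriesSummable (fun k => ((E F).LFunction k : ℂ)) s ∧
      L s = (E F).LSeries s) ∧ L 1 ≠ 0 ∧
    ∃ q : ℚ, q ≠ 0 ∧ padicValRat 2 q = 0 ∧ L 1 ^ 2 = q * ((period F : ℝ) : ℂ) ^ 2 := by
  have key : ∀ X ∈ chF S F, ∃ Φ : ℂ → ℂ, Differentiable ℂ Φ ∧
      (∀ s : ℂ, 3 / 2 < s.re → LSeriesSummable (fun k => (Dg (gx S X) * Dg (gy S X)) k) s ∧
        Φ s = LSeries (fun k => (Dg (gx S X) * Dg (gy S X)) k) s) ∧
      Φ 1 = (Om : ℂ) ^ 2 * (SX (gX S X) (Xt S X) lx *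
        conj (SX (gX S X) (fun a => conj (Xt S X a)) lx)) /
          (9 * ((gX S X).norm.natAbs : ℂ) * (2 + (Xt S X (-2))⁻¹) ^ 2) := by
    intro X hX
    obtain ⟨Φ₁, Φ₂, d1, d2, s1, s2, hv⟩ := value_X S hS n X (pow_chF S hS F hw hF n h X hX)
    refine ⟨fun s => Φ₁ s * Φ₂ s, d1.mul d2, ?_, hv⟩
    intro s hs
    refine ⟨ArithmeticFunction.LSeriesSummable_mul (s1 s hs).1 (s2 s hs).1, ?_⟩
    rw [ArithmeticFunction.LSeries_mul' (s1 s hs).1 (s2 s hs).1, ← (s1 s hs).2, ← (s2 s hs).2]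
  choose! Φ hΦ1 hΦ2 hΦ3 using key
  have hLC : (fun k => ((E F).LFunction k : ℂ)) = fun k => (∏ X ∈ chF S F,
      (Dg (gx S X) * Dg (gy S X))) k := by
    funext k
    rw [← LC_apply, LF_eq S hS F hw hF n h]
    rfl
  obtain ⟨q₁, hq₁, hv₁, he₁⟩ := PF_rat S hS F hw hF n h
  obtain ⟨q₂, hq₂, hv₂, he₂⟩ := two_factor S hS F hw hF n h
  set N : ℕ := ∏ X ∈ chF S F, (gX S X).norm.natAbs with hN
  have hNodd : Odd N := by
    rw [hN]
    refine Finset.prod_induction _ Odd (fun a b => Odd.mul) odd_one fun X _ => ?_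
    exact Int.natAbs_odd.2 (gX_odd S hS X)
  have hN0 : (N : ℚ) ≠ 0 := by exact_mod_cast hNodd.pos.ne'
  have hval : ∏ X ∈ chF S F, Φ X 1 = (Om : ℂ) ^ (2 * 2 ^ n) * (PF S F * conj (PF S F)) /
      (9 ^ 2 ^ n * N * q₂ ^ 2) := by
    rw [Finset.prod_congr rfl hΦ3, Finset.prod_div_distrib, Finset.prod_mul_distrib,
      Finset.prod_mul_distrib, prod_conj S hS F hw hF n h, Finset.prod_mul_distrib,
      Finset.prod_mul_distrib, Finset.prod_pow (chF S F) 2 (fun X => 2 + (Xt S X (-2))⁻¹), he₂,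
      Finset.prod_const, Finset.prod_const, card_chF' S hS F hw hF n h, ← pow_mul, hN,
      Nat.cast_prod]
    rfl
  have hOm : (Om : ℂ) ≠ 0 := by exact_mod_cast Om_pos.ne'
  have h90 : ((9 : ℂ) ^ 2 ^ n) ≠ 0 := pow_ne_zero _ (by norm_num)
  have hNC : (N : ℂ) ≠ 0 := by exact_mod_cast hN0
  have hq₂C : (q₂ : ℂ) ≠ 0 := by exact_mod_cast hq₂
  have hq₁C : (q₁ : ℂ) ≠ 0 := by exact_mod_cast hq₁.ne'
  have hval2 : (∏ X ∈ chF S F, Φ X 1) ^ 2 = (Om : ℂ) ^ (2 * 2 ^ (n + 1)) * q₁ /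
      (9 ^ 2 ^ n * N * q₂ ^ 2) ^ 2 := by
    rw [hval, div_pow, mul_pow, he₁, ← pow_mul]
    congr 3
    ring
  have hne : ∏ X ∈ chF S F, Φ X 1 ≠ 0 := by
    intro h0
    rw [h0] at hval2
    have h1 : (Om : ℂ) ^ (2 * 2 ^ (n + 1)) * q₁ / (9 ^ 2 ^ n * N * q₂ ^ 2) ^ 2 ≠ 0 :=
      div_ne_zero (mul_ne_zero (pow_ne_zero _ hOm) hq₁C)
        (pow_ne_zero _ (mul_ne_zero (mul_ne_zero h90 hNC) (pow_ne_zero _ hq₂C)))
    exact h1 (by rw [← hval2]; norm_num)
  refine ⟨fun s => ∏ X ∈ chF S F, Φ X s, Differentiable.fun_finsetProd hΦ1, ?_, hne, ?_⟩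
  · intro s hs
    obtain ⟨h1, h2⟩ := LSeries_prod (chF S F) (fun X => Dg (gx S X) * Dg (gy S X)) s
      (fun X hX => (hΦ2 X hX s hs).1)
    rw [hLC]
    refine ⟨h1, ?_⟩
    have h3 : (E F).LSeries s = LSeries (fun k => ((E F).LFunction k : ℂ)) s := rfl
    rw [h3, hLC, h2]
    exact Finset.prod_congr rfl fun X hX => (hΦ2 X hX s hs).2
  · obtain ⟨r, hr⟩ := period_sq F
    rw [h] at hr
    have hrC : ((period F : ℝ) : ℂ) ^ 2 = 3 ^ r * (Om : ℂ) ^ (2 * 2 ^ (n + 1)) := by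
      exact_mod_cast congrArg (fun t : ℝ => (t : ℂ)) hr
    have h30 : ((3 : ℚ) ^ r) ≠ 0 := pow_ne_zero _ (by norm_num)
    have h9Q : ((9 : ℚ) ^ 2 ^ n) ≠ 0 := pow_ne_zero _ (by norm_num)
    have v3 : padicValRat 2 ((3 : ℚ) ^ r)⁻¹ = 0 := by
      rw [padicValRat.inv, padicValRat.pow]
      have : padicValRat 2 (3 : ℚ) = 0 := by
        have := padic_unit_odd (N := 3) (by decide)
        exact_mod_cast this
      rw [this]
      simp
    have v9 : padicValRat 2 ((9 : ℚ) ^ 2 ^ n) = 0 := by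
      rw [padicValRat.pow]
      have : padicValRat 2 (9 : ℚ) = 0 := by
        have := padic_unit_odd (N := 9) (by decide)
        exact_mod_cast this
      rw [this]
      simp
    have vq2 : padicValRat 2 (q₂ ^ 2) = 0 := by
      rw [padicValRat.pow, hv₂]
      simp
    have vD : padicValRat 2 (((9 : ℚ) ^ 2 ^ n * N * q₂ ^ 2) ^ 2)⁻¹ = 0 := by
      rw [padicValRat.inv, padicValRat.pow, padic_unit_mul (mul_ne_zero h9Q hN0)
        (pow_ne_zero _ hq₂) (padic_unit_mul h9Q hN0 v9 (padic_unit_odd hNodd)) vq2]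
      simp
    have hD0 : ((9 : ℚ) ^ 2 ^ n * N * q₂ ^ 2) ^ 2 ≠ 0 :=
      pow_ne_zero _ (mul_ne_zero (mul_ne_zero h9Q hN0) (pow_ne_zero _ hq₂))
    refine ⟨q₁ * ((9 ^ 2 ^ n * N * q₂ ^ 2) ^ 2)⁻¹ * (3 ^ r)⁻¹, ?_, ?_, ?_⟩
    · exact mul_ne_zero (mul_ne_zero hq₁.ne' (inv_ne_zero hD0)) (inv_ne_zero h30)
    · exact padic_unit_mul (mul_ne_zero hq₁.ne' (inv_ne_zero hD0)) (inv_ne_zero h30)
        (padic_unit_mul hq₁.ne' (inv_ne_zero hD0) hv₁ vD) v3
    · rw [hval2, hrC]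
      push_cast
      have h3C : ((3 : ℂ) ^ r) ≠ 0 := pow_ne_zero _ (by norm_num)
      field_simp

end

end CF
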