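import Pool.Agent.MP_9ab903_nt.CF.Defs
import Pool.Agent.MP_ae0bd0_nt.CM.D2
import Pool.Agent.MP_ae0bd0_nt.CM.I3

set_option autoImplicit false

open NumberField IsDedekindDomain
open CM27 CMT
open scoped ComplexConjugate Classical

namespace CF

/-! ## [CF-C1] characters of `AS S` (file C1.lean) -/

theorem c1_ne {b : Eis} (hb : GoodEis b) : b ≠ 0 := by
  rintro rfl
  obtain ⟨-, p, hp, hn⟩ := hb
  rw [QuadraticAlgebra.norm_zero] at hn
  have h2 : p = 0 := by exact_mod_cast hn.symm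
  exact hp.1.ne_zero h2

theorem c1_fin (S : Finset Eis) (hS : ∀ b ∈ S, GoodEis b) (b : {x // x ∈ S}) :
    Finite (Eis ⧸ Ideal.span {(b : Eis)}) := I3.quot_finite _ (c1_ne (hS b b.2))

theorem XX_finite (S : Finset Eis) (hS : ∀ b ∈ S, GoodEis b) : Finite (XX S) := by
  have : ∀ b : {x // x ∈ S}, Finite (Eis ⧸ Ideal.span {(b : Eis)}) := c1_fin S hS
  infer_instance

theorem mem_chF (S : Finset Eis) (hS : ∀ b ∈ S, GoodEis b) (F : IntermediateField ℚ ℂ) (X : XX S) :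
    X ∈ chF S F ↔ ∀ σ ∈ fixer F, ev S X (th S σ) = 1 := by
  have := XX_finite S hS
  have h : {X : XX S | ∀ σ ∈ fixer F, ev S X (th S σ) = 1}.Finite := Set.toFinite _
  unfold chF
  rw [dif_pos h, Set.Finite.mem_toFinset]
  rfl

/-- the homomorphism given by `X` -/
noncomputable def c1_hom (S : Finset Eis) (X : XX S) : AS S →* ℂˣ where
  toFun a := ∏ b : {x // x ∈ S}, (X b).toUnitHom (a b)
  map_one' := by simp
  map_mul' a a' := by
    simp only [Pi.mul_apply, map_mul]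
    exact Finset.prod_mul_distrib

theorem c1_hom_apply (S : Finset Eis) (X : XX S) (a : AS S) :
    ((c1_hom S X a : ℂˣ) : ℂ) = ev S X a := by
  change ((∏ b : {x // x ∈ S}, (X b).toUnitHom (a b) : ℂˣ) : ℂ) = _
  rw [Units.coe_prod]
  unfold ev
  refine Finset.prod_congr rfl fun b _ => ?_
  rw [MulChar.coe_toUnitHom]

/-- the tuple of characters given by a homomorphism -/
noncomputable def c1_inv (S : Finset Eis) (χ : AS S →* ℂˣ) : XX S := fun b =>
  MulChar.ofUnitHom (χ.comp (MonoidHom.mulSingle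
    (fun b : {x // x ∈ S} => (Eis ⧸ Ideal.span {(b : Eis)})ˣ) b))

theorem c1_ev_inv (S : Finset Eis) (χ : AS S →* ℂˣ) (a : AS S) :
    ev S (c1_inv S χ) a = (χ a : ℂˣ) := by
  unfold ev c1_inv
  have h1 : ∀ b : {x // x ∈ S}, (MulChar.ofUnitHom (χ.comp (MonoidHom.mulSingle
      (fun b : {x // x ∈ S} => (Eis ⧸ Ideal.span {(b : Eis)})ˣ) b)))
        (a b : Eis ⧸ Ideal.span {(b : Eis)}) = ((χ (Pi.mulSingle b (a b)) : ℂˣ) : ℂ) := by
    intro b
    rw [MulChar.ofUnitHom_coe]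
    rfl
  have h2 : ∏ b : {x // x ∈ S}, (Pi.mulSingle b (a b) : AS S) = a := Finset.univ_prod_mulSingle a
  rw [Finset.prod_congr rfl fun b _ => h1 b, ← Units.coe_prod, ← map_prod, h2]

theorem c1_ev_inj (S : Finset Eis) (X Y : XX S) (h : ∀ a, ev S X a = ev S Y a) : X = Y := by
  funext b
  ext u
  have h1 := h (Pi.mulSingle b u)
  have h2 : ∀ Z : XX S, ev S Z (Pi.mulSingle b u) = Z b (u : Eis ⧸ Ideal.span {(b : Eis)}) := by
    intro Z
    unfold ev
    rw [Finset.prod_eq_single b]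
    · rw [Pi.mulSingle_eq_same]
    · intro c _ hc
      rw [Pi.mulSingle_eq_of_ne hc, Units.val_one, map_one]
    · intro hb
      exact absurd (Finset.mem_univ b) hb
  rw [h2, h2] at h1
  exact h1

section gen

variable {A Ξ : Type} [CommGroup A] [Finite A] (e : Ξ → A → ℂ) (hom : Ξ → A →* ℂˣ)
  (inv : (A →* ℂˣ) → Ξ) (h1 : ∀ χ a, e (inv χ) a = (χ a : ℂˣ)) (h2 : ∀ X a, ((hom X a : ℂˣ) : ℂ) = e X a)
  (h3 : ∀ X Y : Ξ, (∀ a, e X a = e Y a) → X = Y)

omit [Finite A] in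
include h2 in
theorem c1_trivial_sup (H J : Subgroup A) (X : Ξ) :
    ((∀ a ∈ H, e X a = 1) ∧ ∀ a ∈ J, e X a = 1) ↔ ∀ a ∈ H ⊔ J, e X a = 1 := by
  constructor
  · rintro ⟨h1, h2'⟩
    have h3 : H ⊔ J ≤ (hom X).ker := by
      refine sup_le (fun a ha => ?_) fun a ha => ?_
      · rw [MonoidHom.mem_ker]
        exact Units.ext (by rw [h2, h1 a ha]; rfl)
      · rw [MonoidHom.mem_ker]
        exact Units.ext (by rw [h2, h2' a ha]; rfl)
    intro a ha
    rw [← h2, (MonoidHom.mem_ker).1 (h3 ha)]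
    rfl
  · intro h
    exact ⟨fun a ha => h a (Subgroup.mem_sup_left ha), fun a ha => h a (Subgroup.mem_sup_right ha)⟩

omit [Finite A] in
include h1 h2 h3 in
/-- the characters trivial on `K` are the characters of the quotient -/
theorem c1_bij (K : Subgroup A) [Fintype (A ⧸ K →* ℂˣ)]
    (T : Finset Ξ) (hT : ∀ X, X ∈ T ↔ ∀ a ∈ K, e X a = 1) (g : Ξ → ℂ)
    (g' : (A ⧸ K →* ℂˣ) → ℂ)
    (hg : ∀ χ : A ⧸ K →* ℂˣ, g' χ = g (inv (χ.comp (QuotientGroup.mk' K)))) :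
    ∏ χ : A ⧸ K →* ℂˣ, g' χ = ∏ X ∈ T, g X := by
  refine Finset.prod_bij (fun χ _ => inv (χ.comp (QuotientGroup.mk' K))) ?_ ?_ ?_ ?_
  · intro χ _
    rw [hT]
    intro a ha
    rw [h1, MonoidHom.comp_apply, QuotientGroup.mk'_apply,
      (QuotientGroup.eq_one_iff a).2 ha, map_one]
    rfl
  · intro χ _ χ' _ h
    refine MonoidHom.ext fun x => ?_
    obtain ⟨a, rfl⟩ := QuotientGroup.mk'_surjective K x
    have h4 := congrArg (fun X => e X a) h
    simp only [h1, MonoidHom.comp_apply] at h4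
    exact Units.ext h4
  · intro X hX
    have h4 : K ≤ (hom X).ker := by
      intro a ha
      rw [MonoidHom.mem_ker]
      exact Units.ext (by rw [h2, (hT X).1 hX a ha]; rfl)
    refine ⟨QuotientGroup.lift K (hom X) h4, Finset.mem_univ _, ?_⟩
    refine h3 _ _ fun a => ?_
    rw [h1, ← h2]
    rfl
  · intro χ _
    exact hg χ

omit Ξ in
theorem c1_card_dual (K : Subgroup A) : Nat.card (A ⧸ K →* ℂˣ) = K.index := by
  have : NeZero (Monoid.exponent (A ⧸ K)) := ⟨Monoid.exponent_ne_zero_of_finite⟩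
  have : HasEnoughRootsOfUnity ℂ (Monoid.exponent (A ⧸ K)) := inferInstance
  rw [CommGroup.card_monoidHom_of_hasEnoughRootsOfUnity (A ⧸ K) ℂ]
  rfl

theorem c1_finite_dual (K : Subgroup A) : Finite (A ⧸ K →* ℂˣ) := by
  have h1 := c1_card_dual K
  refine Nat.finite_of_card_ne_zero ?_
  rw [h1]
  exact Subgroup.index_ne_zero_of_finite

include h1 h2 h3 in
theorem c1_grp (H J : Subgroup A) (φ : A) (f : ℕ)
    (hφ : ∀ k : ℕ, φ ^ k ∈ H ⊔ J ↔ f ∣ k) (T : Finset Ξ)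
    (hT : ∀ X, X ∈ T ↔ ∀ a ∈ H, e X a = 1) (u : ℂ) :
    ∏ X ∈ T, (if ∀ a ∈ J, e X a = 1 then 1 - e X φ * u else 1) =
      (1 - u ^ f) ^ ((H ⊔ J).index / f) := by
  have hfd := c1_finite_dual (H ⊔ J)
  let _ : Fintype (A ⧸ (H ⊔ J) →* ℂˣ) := Fintype.ofFinite _
  rw [← Finset.prod_filter]
  have hT' : ∀ X, X ∈ T.filter (fun X => ∀ a ∈ J, e X a = 1) ↔ ∀ a ∈ H ⊔ J, e X a = 1 := by
    intro X
    rw [Finset.mem_filter, hT, c1_trivial_sup e hom h2]
  rw [← c1_bij e hom inv h1 h2 h3 (H ⊔ J) _ hT' (fun X => 1 - e X φ * u)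
    (fun χ => 1 - (χ (QuotientGroup.mk φ) : ℂ) * u) (fun χ => by
      simp only [h1, MonoidHom.comp_apply, QuotientGroup.mk'_apply])]
  have hord : orderOf (QuotientGroup.mk φ : A ⧸ (H ⊔ J)) = f := by
    apply Nat.dvd_antisymm
    · rw [orderOf_dvd_iff_pow_eq_one, ← QuotientGroup.mk_pow, QuotientGroup.eq_one_iff]
      exact (hφ f).2 dvd_rfl
    · have h1 := pow_orderOf_eq_one (QuotientGroup.mk φ : A ⧸ (H ⊔ J))
      rw [← QuotientGroup.mk_pow, QuotientGroup.eq_one_iff] at h1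
      exact (hφ _).1 h1
  have h := prod_char (A ⧸ (H ⊔ J)) (QuotientGroup.mk φ) u
  rw [hord] at h
  exact h

include h1 h2 h3 in
theorem c1_card (H : Subgroup A)
    (T : Finset Ξ) (hT : ∀ X, X ∈ T ↔ ∀ a ∈ H, e X a = 1) : T.card = H.index := by
  have hfd := c1_finite_dual H
  let _ : Fintype (A ⧸ H →* ℂˣ) := Fintype.ofFinite _
  have h4 := c1_bij e hom inv h1 h2 h3 H T hT (fun _ => 2) (fun _ => 2) (fun _ => rfl)
  rw [Finset.prod_const, Finset.prod_const, Finset.card_univ, ← Nat.card_eq_fintype_card,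
    c1_card_dual] at h4
  have h5 : (2 : ℕ) ^ H.index = 2 ^ T.card := by exact_mod_cast h4
  exact (Nat.pow_right_injective le_rfl h5).symm

end gen

theorem c1_finAS (S : Finset Eis) (hS : ∀ b ∈ S, GoodEis b) : Finite (AS S) := by
  have : ∀ b : {x // x ∈ S}, Finite (Eis ⧸ Ideal.span {(b : Eis)}) := c1_fin S hS
  infer_instance

/-- the product over the characters of `AS S` which are trivial on `H`: the characters which are
nontrivial on `J` give the factor `1` (compare CM/D2 `prod_char`; `AS S` is a finite abelian group, the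
`ev S X` are all its characters) -/
theorem grp (S : Finset Eis) (hS : ∀ b ∈ S, GoodEis b) (H J : Subgroup (AS S)) (φ : AS S) (f : ℕ)
    (hf : 0 < f) (hφ : ∀ k : ℕ, φ ^ k ∈ H ⊔ J ↔ f ∣ k) (T : Finset (XX S))
    (hT : ∀ X, X ∈ T ↔ ∀ a ∈ H, ev S X a = 1) (u : ℂ) :
    ∏ X ∈ T, (if ∀ a ∈ J, ev S X a = 1 then 1 - ev S X φ * u else 1) =
      (1 - u ^ f) ^ ((H ⊔ J).index / f) := by
  have := c1_finAS S hS
  exact @c1_grp (AS S) (XX S) inferInstance this (ev S) (c1_hom S) (c1_inv S) (c1_ev_inv S)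
    (c1_hom_apply S) (c1_ev_inj S) H J φ f hφ T hT u

theorem card_chars (S : Finset Eis) (hS : ∀ b ∈ S, GoodEis b) (H : Subgroup (AS S))
    (T : Finset (XX S)) (hT : ∀ X, X ∈ T ↔ ∀ a ∈ H, ev S X a = 1) : T.card = H.index := by
  have := c1_finAS S hS
  exact @c1_card (AS S) (XX S) inferInstance this (ev S) (c1_hom S) (c1_inv S) (c1_ev_inv S)
    (c1_hom_apply S) (c1_ev_inj S) H T hT

/-- the product of the values at `a` of all characters trivial on `H` is `1` or `-1` -/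
theorem prod_ev (S : Finset Eis) (hS : ∀ b ∈ S, GoodEis b) (H : Subgroup (AS S))
    (T : Finset (XX S)) (hT : ∀ X, X ∈ T ↔ ∀ a ∈ H, ev S X a = 1) (a : AS S) :
    ∏ X ∈ T, ev S X a = 1 ∨ ∏ X ∈ T, ev S X a = -1 := by
  have hinv : ∀ (X : XX S) (a : AS S), ev S (c1_inv S (c1_hom S X)⁻¹) a = (ev S X a)⁻¹ := by
    intro X a
    rw [c1_ev_inv, MonoidHom.inv_apply, Units.val_inv_eq_inv_val, c1_hom_apply]
  have hne : ∀ (X : XX S) (a : AS S), ev S X a ≠ 0 := by
    intro X a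
    rw [← c1_hom_apply]
    exact Units.ne_zero _
  have h1 : ∏ X ∈ T, ev S X a = ∏ X ∈ T, (ev S X a)⁻¹ := by
    refine Finset.prod_bij' (fun X _ => c1_inv S (c1_hom S X)⁻¹)
      (fun X _ => c1_inv S (c1_hom S X)⁻¹) ?_ ?_ ?_ ?_ ?_
    · intro X hX
      rw [hT] at hX ⊢
      intro b hb
      rw [hinv, hX b hb, inv_one]
    · intro X hX
      rw [hT] at hX ⊢
      intro b hb
      rw [hinv, hX b hb, inv_one]
    · intro X _
      refine c1_ev_inj S _ _ fun b => ?_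
      rw [hinv, hinv, inv_inv]
    · intro X _
      refine c1_ev_inj S _ _ fun b => ?_
      rw [hinv, hinv, inv_inv]
    · intro X _
      rw [hinv, inv_inv]
  rw [Finset.prod_inv_distrib] at h1
  have h2 : ∏ X ∈ T, ev S X a ≠ 0 := Finset.prod_ne_zero_iff.2 fun X _ => hne X a
  have h3 : (∏ X ∈ T, ev S X a) * (∏ X ∈ T, ev S X a) = 1 := by
    nth_rewrite 2 [h1]
    exact mul_inv_cancel₀ h2
  exact mul_self_eq_one_iff.1 h3

end CF
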