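import Pool.Agent.MP_9ab903_nt.AN.A7
import Pool.Agent.MP_9ab903_nt.AN.A9
import Pool.Agent.MP_dfae13_nt.T.G
import Pool.Agent.MP_dfae13_nt.T.H

/-!
# [CF2] the 2-part of strong BSD for `E : y² + y = x³` over the fields `F` of 2-power degree between
`K = ℚ(ω)` and `K(E[m])`: definitions
-/

set_option autoImplicit false

open NumberField IsDedekindDomain
open scoped ComplexConjugate

namespace CF

open CM27 CMT

/-! ## Reduction of points -/

open Classical in
/-- Reduction of a point of `E` modulo the maximal ideal of a valuation ring `A`: points whose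
coordinates are not in `A` reduce to the point at infinity. -/
noncomputable def red {M : Type} [Field M] (A : ValuationSubring M) :
    (E M).toAffine.Point → (E (IsLocalRing.ResidueField A)).toAffine.Point
  | .zero => .zero
  | .some x y _ =>
    if h : ∃ (hx : x ∈ A) (hy : y ∈ A), (E (IsLocalRing.ResidueField A)).toAffine.Nonsingular
        (IsLocalRing.residue A ⟨x, hx⟩) (IsLocalRing.residue A ⟨y, hy⟩) then
      .some (IsLocalRing.residue A ⟨x, h.choose⟩) (IsLocalRing.residue A ⟨y, h.choose_spec.choose⟩)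
        h.choose_spec.choose_spec
    else .zero

/-- The local parameter `x / y` at the point at infinity. -/
noncomputable def zz {M : Type} [Field M] : (E M).toAffine.Point → M
  | .zero => 0
  | .some x y _ => x / y

/-- The coordinate `Y` of the point `pt z = (x, Y)`, `Y² + Y = x³`, `yw = 2 Y + 1`. -/
noncomputable def yy (z : ℂ) : ℂ := (yw z - 1) / 2

/-! ## Automorphisms of `ℂ` over `ℚ(ω)` and torsion points -/

/-- The automorphisms of `ℂ` which fix `ω`. -/
def AutK : Subgroup (ℂ ≃+* ℂ) where
  carrier := {σ | σ w = w}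
  one_mem' := rfl
  mul_mem' := by
    intro a b ha hb
    change a (b w) = w
    rw [show b w = w from hb]
    exact ha
  inv_mem' := by
    intro a ha
    have h1 : a w = w := ha
    change a.symm w = w
    rw [← h1, a.symm_apply_apply, h1]

/-- The automorphisms over `ℚ(ω)` which fix the field `F`. -/
def fixer (F : IntermediateField ℚ ℂ) : Subgroup AutK where
  carrier := {σ | ∀ x ∈ F, (σ : ℂ ≃+* ℂ) x = x}
  one_mem' := fun _ _ => rfl
  mul_mem' := by
    intro a b ha hb x hx
    change (a : ℂ ≃+* ℂ) ((b : ℂ ≃+* ℂ) x) = x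
    rw [hb x hx, ha x hx]
  inv_mem' := by
    intro a ha x hx
    change (a : ℂ ≃+* ℂ).symm x = x
    rw [RingEquiv.symm_apply_eq, ha x hx]

/-- The group `∏_{b ∈ S} (ℤ[ω] / b)ˣ`. -/
abbrev AS (S : Finset Eis) : Type := (b : {x // x ∈ S}) → (Eis ⧸ Ideal.span {(b : Eis)})ˣ

/-- The characters of `AS S`. -/
abbrev XX (S : Finset Eis) : Type :=
  (b : {x // x ∈ S}) → MulChar (Eis ⧸ Ideal.span {(b : Eis)}) ℂ

/-- The value of the character `X` at `a`. -/
noncomputable def ev (S : Finset Eis) (X : XX S) (a : AS S) : ℂ :=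
  ∏ b : {x // x ∈ S}, X b (a b : Eis ⧸ Ideal.span {(b : Eis)})

open Classical in
/-- The conductor of `X`: the product of the `b ∈ S` such that the component `X b` is nontrivial. -/
noncomputable def gX (S : Finset Eis) (X : XX S) : Eis :=
  ∏ b : {x // x ∈ S}, if X b = 1 then 1 else (b : Eis)

open Classical in
/-- The primitive character of `X` as a function on `ℤ[ω]`. -/
noncomputable def Xt (S : Finset Eis) (X : XX S) (a : Eis) : ℂ :=
  ∏ b : {x // x ∈ S}, if X b = 1 then 1 else X b (Ideal.Quotient.mk _ a)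

/-- `θ` describes the action of `AutK` on the points of order `b ∈ S`. -/
def IsTh (S : Finset Eis) (θ : AutK →* AS S) : Prop :=
  ∀ (σ : AutK) (b : {x // x ∈ S}) (u : Eis),
    (θ σ b : Eis ⧸ Ideal.span {(b : Eis)}) = Ideal.Quotient.mk _ u →
    ∀ c : Eis, ptMap ((σ : ℂ ≃+* ℂ) : ℂ →+* ℂ) (pt (emb c / emb b)) = pt (emb (c * u) / emb b)

open Classical in
/-- The homomorphism which describes the action of `AutK` on the points of order `b ∈ S`. -/
noncomputable def th (S : Finset Eis) : AutK →* AS S :=
  if h : ∃ θ, IsTh S θ then h.choose else 1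

/-- The field generated over `ℚ(ω)` by the coordinates of the points of order `b`, `b ∈ S`. -/
noncomputable def LS (S : Finset Eis) : IntermediateField ℚ ℂ :=
  IntermediateField.adjoin ℚ ({w} ∪ {c | ∃ b ∈ S, ∃ δ : Eis, ¬ b ∣ δ ∧
    (c = xw (emb δ / emb b) ∨ c = yw (emb δ / emb b))})

open Classical in
/-- The characters of `AS S` which belong to the subfield `F` of `LS S`. -/
noncomputable def chF (S : Finset Eis) (F : IntermediateField ℚ ℂ) : Finset (XX S) :=
  if h : {X : XX S | ∀ σ ∈ fixer F, ev S X (th S σ) = 1}.Finite then h.toFinset else ∅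

/-- A primitive character modulo `g` on `ℤ[ω]` whose order divides `2 ^ n`. -/
structure IsP (n : ℕ) (g : Eis) (X : Eis → ℂ) : Prop where
  mul : ∀ a b, X (a * b) = X a * X b
  one : X 1 = 1
  per : ∀ a b, X (a + g * b) = X a
  val : ∀ a, X a = 0 ∨ X a ^ 2 ^ n = 1
  zero : ∀ a, X a = 0 ↔ ¬ IsCoprime a g

/-- The product of the values (divided by `OmC`) of the `L`-functions of the characters of `F`. -/
noncomputable def PF (S : Finset Eis) (F : IntermediateField ℚ ℂ) : ℂ :=
  ∏ X ∈ chF S F, SX (gX S X) (Xt S X) lx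

/-- The places of `F` above the prime `b` of `ℤ[ω]`. -/
def above (F : IntermediateField ℚ ℂ) (b : Eis) : Set (HeightOneSpectrum (𝓞 F)) :=
  {v | ∃ x ∈ v.asIdeal, (((x : 𝓞 F) : F) : ℂ) = emb b}

end CF
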