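import Pool.Agent.MP_9ab903_nt.CF.Defs
import Pool.Agent.MP_9ab903_nt.CF.P4
import Pool.Agent.MP_9ab903_nt.CF.G1

set_option autoImplicit false

open NumberField IsDedekindDomain
open CM27 CMT
open scoped ComplexConjugate Classical

namespace CF

/-! ## [CF-G2] Frobenius and inertia elements (file G2.lean; uses R2, R4, P4, G1) -/

theorem g2_residue_eq {M : Type} [Field M] (A : ValuationSubring M) (a b : M) (ha : a ∈ A)
    (hb : b ∈ A) (h : A.valuation (a - b) < 1) :
    IsLocalRing.residue A ⟨a, ha⟩ = IsLocalRing.residue A ⟨b, hb⟩ := by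
  have h1 : (⟨a, ha⟩ : A) - ⟨b, hb⟩ ∈ IsLocalRing.maximalIdeal A :=
    (A.valuation_lt_one_iff _).2 h
  rw [← sub_eq_zero, ← map_sub]
  exact Ideal.Quotient.eq_zero_iff_mem.2 h1

theorem g2_some_congr {k : Type} [Field k] {x x' y y' : k} (h : (E k).toAffine.Nonsingular x y)
    (h' : (E k).toAffine.Nonsingular x' y') (hx : x = x') (hy : y = y') :
    (WeierstrassCurve.Affine.Point.some x y h : (E k).toAffine.Point) = .some x' y' h' := by
  subst hx; subst hy; rfl

theorem g2_val_close {M : Type} [Field M] (A : ValuationSubring M) (a b : M)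
    (h : A.valuation (a - b) < 1) (hb : A.valuation b ≤ 1) : A.valuation a ≤ 1 := by
  have e : a = (a - b) + b := by ring
  rw [e]
  exact (A.valuation.map_add _ _).trans (max_le h.le hb)

/-- points with congruent coordinates have the same reduction -/
theorem g2_red_eq {M : Type} [Field M] (A : ValuationSubring M) (h3 : A.valuation 3 = 1)
    (x y x' y' : M) (n : (E M).toAffine.Nonsingular x y) (n' : (E M).toAffine.Nonsingular x' y')
    (hx' : A.valuation x' ≤ 1) (h1 : A.valuation (x - x') < 1) (h2 : A.valuation (y - y') < 1) :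
    red A (.some x y n) = red A (.some x' y' n') := by
  have hx : A.valuation x ≤ 1 := g2_val_close A x x' h1 hx'
  obtain ⟨p1, p2, p3, p4⟩ := red_some A h3 x y n hx
  obtain ⟨q1, q2, q3, q4⟩ := red_some A h3 x' y' n' hx'
  rw [p4, q4]
  exact g2_some_congr _ _ (g2_residue_eq A _ _ _ _ h1) (g2_residue_eq A _ _ _ _ h2)

theorem g2_emb_ne (A : ValuationSubring ℂ) (g : Eis) (hg : A.valuation (emb g) = 1) :
    emb g ≠ 0 := by
  intro h
  rw [h, map_zero] at hg
  exact zero_ne_one hg

theorem g2_mem_iff (g : Eis) (hg : emb g ≠ 0) (δ : Eis) :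
    emb δ / emb g ∈ Set.range emb ↔ g ∣ δ := by
  constructor
  · rintro ⟨c, hc⟩
    refine ⟨c, ?_⟩
    apply emb_injective
    rw [map_mul, hc]
    field_simp
  · rintro ⟨c, rfl⟩
    refine ⟨c, ?_⟩
    rw [map_mul]
    field_simp

/-- two torsion points of order `g` with the same reduction are equal -/
theorem g2_eq_of_red (A : ValuationSubring ℂ) (h3 : A.valuation 3 = 1) (g : Eis)
    (hg : A.valuation (emb g) = 1) (a b : Eis)
    (h : red A (pt (emb a / emb g)) = red A (pt (emb b / emb g))) :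
    pt (emb a / emb g) = pt (emb b / emb g) := by
  have hg0 := g2_emb_ne A g hg
  have e : pt (emb (a - b) / emb g) = pt (emb a / emb g) + -pt (emb b / emb g) := by
    rw [← pt_neg, ← pt_add]
    congr 1
    rw [map_sub]
    ring
  have hz : red A (pt (emb (a - b) / emb g)) = 0 := by
    rw [e, red_add A h3, red_neg A h3, h, add_neg_cancel]
  have h0 : pt (emb g * (emb (a - b) / emb g)) = 0 := by
    have e2 : emb g * (emb (a - b) / emb g) = emb (a - b) := by field_simp
    rw [e2]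
    exact pt_emb _
  have h4 := tors_inj A h3 _ hz g hg h0
  rw [e] at h4
  rwa [← sub_eq_add_neg, sub_eq_zero] at h4

/-- the coordinates of the points of order `g` are integral at `A` -/
theorem val_tors (A : ValuationSubring ℂ) (h3 : A.valuation 3 = 1)
    (g : Eis) (hg : A.valuation (emb g) = 1) (δ : Eis) (hδ : ¬ g ∣ δ) :
    A.valuation (xw (emb δ / emb g)) ≤ 1 ∧ A.valuation (yy (emb δ / emb g)) ≤ 1 ∧
      A.valuation (yw (emb δ / emb g)) ≤ 1 := by
  have hg0 := g2_emb_ne A g hg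
  have hz : emb δ / emb g ∉ Set.range emb := fun h => hδ ((g2_mem_iff g hg0 δ).1 h)
  obtain ⟨n, hn⟩ := pt_of_not_mem _ hz
  have hx : A.valuation (xw (emb δ / emb g)) ≤ 1 := by
    by_contra hx
    push Not at hx
    have h1 : red A (pt (emb δ / emb g)) = 0 := by
      rw [hn]
      exact red_some_big A _ _ n hx
    have h0 : pt (emb g * (emb δ / emb g)) = 0 := by
      have e2 : emb g * (emb δ / emb g) = emb δ := by field_simp
      rw [e2]
      exact pt_emb _
    have h4 := tors_inj A h3 _ h1 g hg h0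
    exact hz ((pt_eq_zero_iff _).1 h4)
  obtain ⟨p1, p2, p3, p4⟩ := red_some A h3 _ _ n hx
  have hy : A.valuation (yy (emb δ / emb g)) ≤ 1 := (A.valuation_le_one_iff _).2 p2
  refine ⟨hx, hy, ?_⟩
  have h1 : yw (emb δ / emb g) ∈ A := by
    have e : yw (emb δ / emb g) = 2 * yy (emb δ / emb g) + 1 := by
      unfold yy
      ring
    rw [e]
    have h2 : (2 : ℂ) ∈ A := by
      exact natCast_mem A 2
    exact A.add_mem _ _ (A.mul_mem _ _ h2 p2) A.one_mem
  exact (A.valuation_le_one_iff _).2 h1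

/-- A `σ` which induces the `q`-th power map modulo `b` on the coordinates of the points of order `g`
acts on them as multiplication by `b`. -/
theorem gal_frob (A : ValuationSubring ℂ) (b : Eis) (hb : Primary b) (hbp : Prime b)
    (hA : A.valuation (emb b) < 1) (g : Eis) (hg : A.valuation (emb g) = 1)
    (σ : ℂ ≃+* ℂ) (hσ : σ w = w)
    (h1 : ∀ δ : Eis, ¬ g ∣ δ →
      A.valuation (σ (xw (emb δ / emb g)) - xw (emb δ / emb g) ^ b.norm.natAbs) < 1 ∧
      A.valuation (σ (yy (emb δ / emb g)) - yy (emb δ / emb g) ^ b.norm.natAbs) < 1)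
    (c : Eis) : ptMap (σ : ℂ →+* ℂ) (pt (emb c / emb g)) = pt (emb (c * b) / emb g) := by
  have h3 := val_three A b hb hA
  have hg0 := g2_emb_ne A g hg
  by_cases hc : g ∣ c
  · have e1 : pt (emb c / emb g) = 0 := (pt_eq_zero_iff _).2 ((g2_mem_iff g hg0 c).2 hc)
    have e2 : pt (emb (c * b) / emb g) = 0 :=
      (pt_eq_zero_iff _).2 ((g2_mem_iff g hg0 _).2 (hc.mul_right b))
    rw [e1, e2]
    rfl
  have hz : emb c / emb g ∉ Set.range emb := fun h => hc ((g2_mem_iff g hg0 c).1 h)
  have hgne : g ≠ 0 := by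
    rintro rfl
    exact hg0 (map_zero _)
  obtain ⟨u, -, hu⟩ := gal_eis g hgne σ hσ
  rw [hu]
  apply g2_eq_of_red A h3 g hg
  rw [← hu]
  obtain ⟨n, hn⟩ := pt_of_not_mem _ hz
  obtain ⟨hx, -, -⟩ := val_tors A h3 g hg c hc
  obtain ⟨f1, f2, f3⟩ := frob_congr A b hb hbp hA _ hz hx
  obtain ⟨n', hn'⟩ := pt_of_not_mem _ f1
  have e : emb (c * b) / emb g = emb b * (emb c / emb g) := by
    rw [map_mul]; ring
  rw [e, hn, hn']
  obtain ⟨g1, g2⟩ := h1 c hc
  have hxq : A.valuation (xw (emb c / emb g) ^ b.norm.natAbs) ≤ 1 := by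
    rw [map_pow]
    exact pow_le_one' hx _
  have key : ∀ s t r : ℂ, A.valuation (s - r) < 1 → A.valuation (t - r) < 1 →
      A.valuation (s - t) < 1 := by
    intro s t r ha hb
    have e : s - t = (s - r) - (t - r) := by ring
    rw [e]
    exact (A.valuation.map_sub _ _).trans_lt (max_lt ha hb)
  exact g2_red_eq A h3 _ _ _ _ _ _ (g2_val_close A _ _ f2 hxq) (key _ _ _ g1 f2)
    (key _ _ _ g2 f3)

/-- A `σ` which is trivial modulo the maximal ideal of `A` on the coordinates of the points of order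
`g` fixes these points. -/
theorem gal_inert (A : ValuationSubring ℂ) (h3 : A.valuation 3 = 1)
    (g : Eis) (hg : A.valuation (emb g) = 1) (σ : ℂ ≃+* ℂ) (hσ : σ w = w)
    (h1 : ∀ δ : Eis, ¬ g ∣ δ →
      A.valuation (σ (xw (emb δ / emb g)) - xw (emb δ / emb g)) < 1 ∧
      A.valuation (σ (yy (emb δ / emb g)) - yy (emb δ / emb g)) < 1)
    (c : Eis) : ptMap (σ : ℂ →+* ℂ) (pt (emb c / emb g)) = pt (emb c / emb g) := by
  have hg0 := g2_emb_ne A g hg
  by_cases hc : g ∣ c
  · have e1 : pt (emb c / emb g) = 0 := (pt_eq_zero_iff _).2 ((g2_mem_iff g hg0 c).2 hc)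
    rw [e1]
    rfl
  have hz : emb c / emb g ∉ Set.range emb := fun h => hc ((g2_mem_iff g hg0 c).1 h)
  have hgne : g ≠ 0 := by
    rintro rfl
    exact hg0 (map_zero _)
  obtain ⟨u, -, hu⟩ := gal_eis g hgne σ hσ
  rw [hu]
  apply g2_eq_of_red A h3 g hg
  rw [← hu]
  obtain ⟨n, hn⟩ := pt_of_not_mem _ hz
  obtain ⟨hx, -, -⟩ := val_tors A h3 g hg c hc
  rw [hn]
  obtain ⟨g1, g2⟩ := h1 c hc
  exact g2_red_eq A h3 _ _ _ _ _ _ hx g1 g2

end CF
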