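import Pool.Agent.MP_9ab903_nt.CF.Defs

set_option autoImplicit false

open NumberField IsDedekindDomain
open CM27 CMT
open scoped ComplexConjugate Classical

namespace CF

/-! ## [CF-H1] Hilbert theory for an abelian extension of number fields (file H1.lean) -/

open scoped Pointwise

/-- in a finite ring of the form `R ⧸ v`, field with `q ^ f` elements: `x ^ q ^ k = x` for all `x`
implies `f ∣ k`. -/
theorem h1_dvd (k' : Type) [Field k'] [Finite k'] (q f k : ℕ) (hq : 1 < q) (hf : 0 < f)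
    (hc : Nat.card k' = q ^ f) (h : ∀ x : k', x ^ q ^ k = x) : f ∣ k := by
  have : Fintype k' := Fintype.ofFinite k'
  rw [Nat.card_eq_fintype_card] at hc
  have hfr : ∀ a : ℕ, ∀ x : k', x ^ q ^ (f * a) = x := by
    intro a x
    rw [pow_mul, ← hc]
    exact FiniteField.pow_card_pow a x
  have hr : ∀ x : k', x ^ q ^ (k % f) = x := by
    intro x
    have h1 := h x
    conv_lhs at h1 => rw [← Nat.div_add_mod k f, pow_add, pow_mul, hfr]
    exact h1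
  by_contra hdvd
  have hlt : k % f < f := Nat.mod_lt _ hf
  have hpos : 0 < k % f := Nat.pos_of_ne_zero (fun h0 => hdvd (Nat.dvd_of_mod_eq_zero h0))
  set r := k % f with hr'
  have hqr : 1 < q ^ r := Nat.one_lt_pow hpos.ne' hq
  have hne : (Polynomial.X ^ q ^ r - Polynomial.X : Polynomial k') ≠ 0 :=
    FiniteField.X_pow_card_sub_X_ne_zero k' hqr
  have hdeg : (Polynomial.X ^ q ^ r - Polynomial.X : Polynomial k').natDegree = q ^ r :=
    FiniteField.X_pow_card_sub_X_natDegree_eq k' hqr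
  have hcard : (Finset.univ : Finset k').card ≤ q ^ r := by
    rw [← hdeg]
    refine Polynomial.card_le_degree_of_subset_roots (p := Polynomial.X ^ q ^ r - Polynomial.X) ?_
    intro x _
    rw [Polynomial.mem_roots hne]
    simp [hr x]
  rw [Finset.card_univ, hc] at hcard
  exact absurd hcard (not_le.mpr (Nat.pow_lt_pow_right hq hlt))

theorem h1_main (K L : Type) [Field K] [NumberField K] [Field L] [NumberField L]
    [Algebra K L] [IsGalois K L] (hab : ∀ σ τ : Gal(L/K), σ * τ = τ * σ)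
    (𝔭 : Ideal (𝓞 K)) [𝔭.IsMaximal] (hp0 : 𝔭 ≠ ⊥) (P : Ideal (𝓞 L)) [P.IsMaximal]
    [P.LiesOver 𝔭]
    (φ : Gal(L/K)) (hφ : ∀ x : 𝓞 L, φ • x - x ^ Nat.card (𝓞 K ⧸ 𝔭) ∈ P)
    (F : IntermediateField K L) :
    0 < 𝔭.inertiaDegIn (𝓞 F) ∧
    (∀ v : Ideal (𝓞 F), v ∈ 𝔭.primesOver (𝓞 F) →
          Nat.card (𝓞 F ⧸ v) = Nat.card (𝓞 K ⧸ 𝔭) ^ (𝔭.inertiaDegIn (𝓞 F))) ∧
    (∀ k : ℕ, φ ^ k ∈ F.fixingSubgroup ⊔ P.inertia Gal(L/K) ↔ 𝔭.inertiaDegIn (𝓞 F) ∣ k) ∧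
    (F.fixingSubgroup ⊔ P.inertia Gal(L/K)).index =
      (𝔭.primesOver (𝓞 F)).ncard * 𝔭.inertiaDegIn (𝓞 F) := by
  have hcomm : IsMulCommutative Gal(L/K) := ⟨⟨hab⟩⟩
  have hab0 : IsAbelianGalois K L := {}
  have hab' : IsAbelianGalois K F := IsAbelianGalois.tower_bot K F L
  let v : Ideal (𝓞 F) := P.under (𝓞 F)
  have hvP : P.LiesOver v := inferInstance
  have hvp : v.LiesOver 𝔭 := inferInstance
  have hvmax : v.IsMaximal := Ideal.IsMaximal.of_liesOver_isMaximal v 𝔭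
  have hv0 : v ≠ ⊥ := Ideal.ne_bot_of_liesOver_of_ne_bot hp0 v
  have hP0 : P ≠ ⊥ := Ideal.ne_bot_of_liesOver_of_ne_bot hp0 P
  have : Finite (𝓞 K ⧸ 𝔭) := Ring.HasFiniteQuotients.finiteQuotient hp0
  have : Finite (𝓞 F ⧸ v) := Ring.HasFiniteQuotients.finiteQuotient hv0
  have : Finite (𝓞 L ⧸ P) := Ring.HasFiniteQuotients.finiteQuotient hP0
  have hGal : IsGaloisGroup F.fixingSubgroup F L :=
    IsGaloisGroup.intermediateField Gal(L/K) K L F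
  have hGal2 : IsGaloisGroup F.fixingSubgroup (𝓞 F) (𝓞 L) :=
    IsGaloisGroup.of_isFractionRing F.fixingSubgroup (𝓞 F) (𝓞 L) F L
  have hcard : ∀ u : Ideal (𝓞 F), u ∈ 𝔭.primesOver (𝓞 F) →
          Nat.card (𝓞 F ⧸ u) = Nat.card (𝓞 K ⧸ 𝔭) ^ (𝔭.inertiaDegIn (𝓞 F)) := by
    rintro u ⟨hu1, hu2⟩
    have humax : u.IsMaximal := Ideal.IsMaximal.of_liesOver_isMaximal u 𝔭
    rw [Ideal.inertiaDegIn_eq_inertiaDeg 𝔭 u Gal(F/K), Ideal.inertiaDeg_eq_of_isMaximal 𝔭 u]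
    let : Field (𝓞 K ⧸ 𝔭) := Ideal.Quotient.field 𝔭
    exact Module.natCard_eq_pow_finrank
  have hfpos : 0 < 𝔭.inertiaDegIn (𝓞 F) :=
    Nat.pos_of_ne_zero (Ideal.inertiaDegIn_ne_zero Gal(F/K))
  have hvcard := hcard v ⟨hvmax.isPrime, hvp⟩
  have hφn : ∀ (n : ℕ) (x : 𝓞 L), Ideal.Quotient.mk P (φ ^ n • x) =
      (Ideal.Quotient.mk P x) ^ (Nat.card (𝓞 K ⧸ 𝔭)) ^ n := by
    intro n
    induction n with
    | zero => intro x; simp
    | succ n ih =>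
      intro x
      rw [pow_succ', mul_smul, Ideal.Quotient.eq.2 (hφ (φ ^ n • x)), map_pow, ih, ← pow_mul,
        pow_succ]
  refine ⟨hfpos, hcard, ?_, ?_⟩
  · intro k
    constructor
    · intro hk
      rw [Subgroup.mem_sup_of_normal_right] at hk
      obtain ⟨h, hh, j, hj, hhj⟩ := hk
      let : Field (𝓞 F ⧸ v) := Ideal.Quotient.field v
      refine h1_dvd (𝓞 F ⧸ v) (Nat.card (𝓞 K ⧸ 𝔭)) _ k ?_ hfpos hvcard ?_
      · have : Nontrivial (𝓞 K ⧸ 𝔭) := Ideal.Quotient.nontrivial_iff.2 (Ideal.IsPrime.ne_top')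
        exact Finite.one_lt_card
      · intro x
        obtain ⟨x, rfl⟩ := Ideal.Quotient.mk_surjective x
        rw [← map_pow, Ideal.Quotient.eq]
        change algebraMap (𝓞 F) (𝓞 L) (x ^ (Nat.card (𝓞 K ⧸ 𝔭)) ^ k - x) ∈ P
        rw [map_sub, map_pow, ← Ideal.Quotient.eq, map_pow, ← hφn, ← hhj, hab, mul_smul]
        have h1 : h • (algebraMap (𝓞 F) (𝓞 L) x) = algebraMap (𝓞 F) (𝓞 L) x := by
          exact smul_algebraMap (⟨h, hh⟩ : F.fixingSubgroup) x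
        rw [h1, Ideal.Quotient.eq]
        exact hj _
    · rintro ⟨a, rfl⟩
      rw [pow_mul]
      refine Subgroup.pow_mem _ ?_ a
      obtain ⟨σ, hσ⟩ := IsArithFrobAt.exists_of_isInvariant (𝓞 F) F.fixingSubgroup P
      have hσ' : ∀ x : 𝓞 L, Ideal.Quotient.mk P ((σ : Gal(L/K)) • x) =
          (Ideal.Quotient.mk P x) ^ (Nat.card (𝓞 K ⧸ 𝔭)) ^ (𝔭.inertiaDegIn (𝓞 F)) := by
        intro x
        have := Ideal.Quotient.eq.2 (hσ x)
        rw [← hvcard, ← map_pow, ← this]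
        rfl
      have hmem : φ ^ (𝔭.inertiaDegIn (𝓞 F)) * (σ : Gal(L/K))⁻¹ ∈ P.inertia Gal(L/K) := by
        intro x
        change (φ ^ (𝔭.inertiaDegIn (𝓞 F)) * (σ : Gal(L/K))⁻¹) • x - x ∈ P
        rw [← Ideal.Quotient.eq, mul_smul, hφn, ← hσ', smul_inv_smul]
      rw [← mul_one (φ ^ (𝔭.inertiaDegIn (𝓞 F))), ← inv_mul_cancel (σ : Gal(L/K)), ← mul_assoc]
      exact Subgroup.mul_mem _ (Subgroup.mem_sup_right hmem) (Subgroup.mem_sup_left σ.2)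
  · have hev := Ideal.ramificationIdxIn_mul_ramificationIdxIn (p := 𝔭) v Gal(F/K)
      (𝓞 L) Gal(L/K) F.fixingSubgroup
    have hg1 := Ideal.ncard_primesOver_mul_ramificationIdxIn_mul_inertiaDegIn
      𝔭 (𝓞 F) Gal(F/K)
    have hJ1 := Ideal.card_inertia_eq_ramificationIdxIn (G := Gal(L/K)) 𝔭 P
    have hJ2 := Ideal.card_inertia_eq_ramificationIdxIn (G := F.fixingSubgroup) v P
    have hJ3 : Nat.card (F.fixingSubgroup.subgroupOf (P.inertia Gal(L/K))) =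
        v.ramificationIdxIn (𝓞 L) := by
      rw [← hJ2]
      exact Nat.card_congr ⟨fun g => ⟨⟨g.1.1, g.2⟩, g.1.2⟩, fun g => ⟨⟨g.1.1, g.2⟩, g.1.2⟩,
        fun _ => rfl, fun _ => rfl⟩
    have hJ4 := Subgroup.card_mul_index (F.fixingSubgroup.subgroupOf (P.inertia Gal(L/K)))
    rw [hJ3, hJ1, ← hev, mul_comm] at hJ4
    have he0 : 0 < v.ramificationIdxIn (𝓞 L) := by
      rw [← hJ2]
      exact Nat.card_pos
    have hJ5 := Nat.eq_of_mul_eq_mul_right he0 hJ4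
    have hrel : F.fixingSubgroup.relIndex (F.fixingSubgroup ⊔ P.inertia Gal(L/K)) =
        𝔭.ramificationIdxIn (𝓞 F) := by
      rw [Subgroup.relIndex_sup_left, ← hJ5]
      rfl
    have hidx := Subgroup.relIndex_mul_index
      (H := F.fixingSubgroup) (K := F.fixingSubgroup ⊔ P.inertia Gal(L/K)) le_sup_left
    have he1 : 0 < 𝔭.ramificationIdxIn (𝓞 F) := by
      refine Nat.pos_of_ne_zero (fun h0 => ?_)
      rw [h0, zero_mul] at hev
      rw [← hev] at hJ1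
      exact Nat.card_pos.ne' hJ1
    rw [hrel, ← IntermediateField.finrank_eq_fixingSubgroup_index, ← IsGalois.card_aut_eq_finrank,
      ← hg1] at hidx
    have : 𝔭.ramificationIdxIn (𝓞 F) * (F.fixingSubgroup ⊔ P.inertia Gal(L/K)).index =
        𝔭.ramificationIdxIn (𝓞 F) *
          ((𝔭.primesOver (𝓞 F)).ncard * 𝔭.inertiaDegIn (𝓞 F)) := by
      rw [hidx]; ring
    exact Nat.eq_of_mul_eq_mul_left he1 this

/-- Let `L/K` be abelian, `𝔭` a prime of `K`. There are a prime `P` of `L` above `𝔭`, a Frobenius element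
`φ` and the inertia group `J` such that for every intermediate field `F`: the number `g` of primes of
`F` above `𝔭` and their residue degree `f` satisfy: `f` is the order of `φ` in `G / (H J)`,
`H = Gal(L/F)`, and `g f = [G : H J]`. (See CM/D3 for the case of unramified primes over `ℚ`; Mathlib:
`Ideal.inertia`, `Ideal.card_stabilizer_eq`, `Ideal.ncard_primesOver_mul_ramificationIdxIn_mul_inertiaDegIn`,
`Ideal.inertiaDegIn_mul_inertiaDegIn`, `exists_primesOver..Frobenius`.) -/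
theorem hilbert_abelian (K L : Type) [Field K] [NumberField K] [Field L] [NumberField L]
    [Algebra K L] [IsGalois K L] (hab : ∀ σ τ : Gal(L/K), σ * τ = τ * σ)
    (𝔭 : HeightOneSpectrum (𝓞 K)) :
    ∃ (P : HeightOneSpectrum (𝓞 L)) (φ : Gal(L/K)) (J : Subgroup Gal(L/K)),
      P.asIdeal.LiesOver 𝔭.asIdeal ∧
      (∀ x : 𝓞 L, φ • x - x ^ Nat.card (𝓞 K ⧸ 𝔭.asIdeal) ∈ P.asIdeal) ∧
      (∀ σ ∈ J, ∀ x : 𝓞 L, σ • x - x ∈ P.asIdeal) ∧
      Nat.card J = P.asIdeal.ramificationIdx (𝓞 K) ∧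
      ∀ F : IntermediateField K L, ∃ f g : ℕ, 0 < f ∧
        {v : HeightOneSpectrum (𝓞 F) | v.asIdeal.LiesOver 𝔭.asIdeal}.Finite ∧
        {v : HeightOneSpectrum (𝓞 F) | v.asIdeal.LiesOver 𝔭.asIdeal}.ncard = g ∧
        (∀ v : HeightOneSpectrum (𝓞 F), v.asIdeal.LiesOver 𝔭.asIdeal →
          Nat.card (𝓞 F ⧸ v.asIdeal) = Nat.card (𝓞 K ⧸ 𝔭.asIdeal) ^ f) ∧
        (∀ k : ℕ, φ ^ k ∈ F.fixingSubgroup ⊔ J ↔ f ∣ k) ∧
        (F.fixingSubgroup ⊔ J).index = g * f := by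
  have hpmax : 𝔭.asIdeal.IsMaximal := 𝔭.isMaximal
  obtain ⟨⟨P, hP1, hP2⟩⟩ := 𝔭.asIdeal.nonempty_primesOver (S := 𝓞 L)
  have hPmax : P.IsMaximal := Ideal.IsMaximal.of_liesOver_isMaximal P 𝔭.asIdeal
  have hP0 : P ≠ ⊥ := Ideal.ne_bot_of_liesOver_of_ne_bot 𝔭.ne_bot P
  have : Finite (𝓞 K ⧸ 𝔭.asIdeal) := Ring.HasFiniteQuotients.finiteQuotient 𝔭.ne_bot
  have : Finite (𝓞 L ⧸ P) := Ring.HasFiniteQuotients.finiteQuotient hP0
  obtain ⟨φ, hφ⟩ := IsArithFrobAt.exists_of_isInvariant (𝓞 K) Gal(L/K) P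
  have hφ' : ∀ x : 𝓞 L, φ • x - x ^ Nat.card (𝓞 K ⧸ 𝔭.asIdeal) ∈ P := by
    intro x
    have h1 := hφ x
    rw [← Ideal.over_def P 𝔭.asIdeal] at h1
    exact h1
  refine ⟨⟨P, hP1, hP0⟩, φ, P.inertia Gal(L/K), hP2, hφ', fun σ hσ x => hσ x, ?_, ?_⟩
  · have hJ1 := Ideal.card_inertia_eq_ramificationIdxIn (G := Gal(L/K)) 𝔭.asIdeal P
    rw [hJ1]
    exact Ideal.ramificationIdxIn_eq_ramificationIdx 𝔭.asIdeal P Gal(L/K)
  · intro F
    obtain ⟨h1, h2, h3, h4⟩ := h1_main K L hab 𝔭.asIdeal 𝔭.ne_bot P φ hφ' F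
    have hbij : Set.BijOn HeightOneSpectrum.asIdeal
        {v : HeightOneSpectrum (𝓞 F) | v.asIdeal.LiesOver 𝔭.asIdeal}
        (𝔭.asIdeal.primesOver (𝓞 F)) := by
      refine ⟨fun v hv => ⟨v.isPrime, hv⟩, fun _ _ _ _ h => HeightOneSpectrum.ext h, ?_⟩
      intro Q hQ
      have hQ0 : Q ≠ ⊥ := Ideal.ne_bot_of_mem_primesOver 𝔭.ne_bot hQ
      exact ⟨⟨Q, hQ.1, hQ0⟩, hQ.2, rfl⟩
    refine ⟨𝔭.asIdeal.inertiaDegIn (𝓞 F), (𝔭.asIdeal.primesOver (𝓞 F)).ncard, h1, ?_, ?_, ?_, h3,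
      h4⟩
    · exact hbij.finite_iff_finite.2 (IsDedekindDomain.primesOver_finite _ _)
    · rw [hbij.ncard_eq]
    · intro v hv
      exact h2 _ ⟨v.isPrime, hv⟩

end CF
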