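import Pool.Agent.MP_9ab903_nt.CF.Defs

set_option autoImplicit false

open NumberField IsDedekindDomain
open CM27 CMT
open scoped ComplexConjugate Classical

namespace CF

/-! ## [CF-H2] extension of automorphisms and valuations to `ℂ` (file H2.lean) -/

/-- An automorphism of a number field `L ⊂ ℂ` extends to `ℂ` (transcendence basis of `ℂ / ℚ̄`; compare
AN/A8 `exists_aut`). -/
theorem extend_aut (L : IntermediateField ℚ ℂ) [NumberField L] (hw : w ∈ L) (τ : L ≃+* L)
    (hτ : τ ⟨w, hw⟩ = ⟨w, hw⟩) : ∃ σ : AutK, ∀ x : L, (σ : ℂ ≃+* ℂ) x = τ x := by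
  obtain ⟨ι, v, hv⟩ := exists_isTranscendenceBasis' L (A := ℂ)
  let _ := IsAlgClosed.isAlgClosure_of_transcendence_basis v hv
  let e : Algebra.adjoin L (Set.range v) ≃+* Algebra.adjoin L (Set.range v) :=
    (hv.1.aevalEquiv.symm.toRingEquiv.trans (MvPolynomial.mapEquiv ι τ)).trans
      hv.1.aevalEquiv.toRingEquiv
  have key : ∀ x : L, (IsAlgClosure.equivOfEquiv ℂ ℂ e) (x : ℂ) = τ x := by
    intro a
    have h2 : e (algebraMap L (Algebra.adjoin L (Set.range v)) a) =
        algebraMap L (Algebra.adjoin L (Set.range v)) (τ a) := by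
      have h3 : hv.1.aevalEquiv.symm (algebraMap L (Algebra.adjoin L (Set.range v)) a) =
          MvPolynomial.C a := by
        rw [AlgEquiv.commutes]
        rfl
      have h4 : hv.1.aevalEquiv (MvPolynomial.C (τ a)) =
          algebraMap L (Algebra.adjoin L (Set.range v)) (τ a) := by
        have := hv.1.aevalEquiv.commutes (τ a)
        exact this
      change hv.1.aevalEquiv (MvPolynomial.map (τ : L →+* L)
        (hv.1.aevalEquiv.symm (algebraMap L (Algebra.adjoin L (Set.range v)) a))) = _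
      rw [h3, MvPolynomial.map_C, ← h4]
      rfl
    have h1 : (a : ℂ) = algebraMap (Algebra.adjoin L (Set.range v)) ℂ
        (algebraMap L (Algebra.adjoin L (Set.range v)) a) := rfl
    rw [h1, IsAlgClosure.equivOfEquiv_algebraMap, h2]
    rfl
  refine ⟨⟨IsAlgClosure.equivOfEquiv ℂ ℂ e, ?_⟩, key⟩
  change (IsAlgClosure.equivOfEquiv ℂ ℂ e) w = w
  have h := key ⟨w, hw⟩
  rw [hτ] at h
  exact h

/-- A place of a number field `L ⊂ ℂ` extends to a valuation ring of `ℂ`. -/
theorem extend_val (L : IntermediateField ℚ ℂ) [NumberField L] (v : HeightOneSpectrum (𝓞 L)) :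
    ∃ A : ValuationSubring ℂ, ∀ x : L,
      (A.valuation (x : ℂ) ≤ 1 ↔ v.valuation L x ≤ 1) ∧
      (A.valuation (x : ℂ) < 1 ↔ v.valuation L x < 1) := by
  let R : ValuationSubring L := (v.valuation L).valuationSubring
  let f : R →+* ℂ := (algebraMap L ℂ).comp R.subtype
  obtain ⟨A, h, hloc⟩ := IsLocalRing.exists_factor_valuationRing f
  have hle : ∀ x : L, v.valuation L x ≤ 1 → A.valuation (x : ℂ) ≤ 1 := by
    intro x hx
    exact (A.valuation_le_one_iff _).2 (h ⟨x, hx⟩)
  have hlt : ∀ x : L, v.valuation L x < 1 → A.valuation (x : ℂ) < 1 := by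
    intro x hx
    have hxR : x ∈ R := hx.le
    rw [← A.valuation_lt_one_iff ⟨(x : ℂ), h ⟨x, hxR⟩⟩]
    rw [IsLocalRing.mem_maximalIdeal, mem_nonunits_iff]
    intro hu
    have hu' : IsUnit (⟨x, hxR⟩ : R) := hloc.map_nonunit _ hu
    have h1 := (R.valuation_eq_one_iff ⟨x, hxR⟩).1 hu'
    have h2 : R.valuation x < 1 := (Valuation.isEquiv_valuation_valuationSubring (v.valuation L)).lt_one_iff_lt_one.1 hx
    exact h2.ne h1
  refine ⟨A, fun x => ?_⟩
  constructor
  · refine ⟨fun hA => ?_, hle x⟩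
    by_contra hc
    push Not at hc
    have hx0 : x ≠ 0 := by
      rintro rfl
      rw [map_zero] at hc
      exact absurd hc (by simp)
    have h1 : v.valuation L x⁻¹ < 1 := by
      rw [map_inv₀]
      exact inv_lt_one_of_one_lt₀ hc
    have h2 := hlt _ h1
    have h3 : ((x⁻¹ : L) : ℂ) = (x : ℂ)⁻¹ := by simp
    rw [h3, map_inv₀] at h2
    have h4 : A.valuation (x : ℂ) ≠ 0 := by
      rw [Valuation.ne_zero_iff]
      exact_mod_cast hx0
    have h5 := (inv_lt_one₀ (zero_lt_iff.2 h4)).1 h2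
    exact absurd hA (not_le.2 h5)
  · refine ⟨fun hA => ?_, hlt x⟩
    by_contra hc
    push Not at hc
    have hx0 : x ≠ 0 := by
      rintro rfl
      rw [map_zero] at hc
      exact absurd hc (by simp)
    have h1 : v.valuation L x⁻¹ ≤ 1 := by
      rw [map_inv₀]
      exact inv_le_one_of_one_le₀ hc
    have h2 := hle _ h1
    have h3 : ((x⁻¹ : L) : ℂ) = (x : ℂ)⁻¹ := by simp
    rw [h3, map_inv₀] at h2
    have h4 : A.valuation (x : ℂ) ≠ 0 := by
      rw [Valuation.ne_zero_iff]
      exact_mod_cast hx0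
    have h5 := (inv_le_one₀ (zero_lt_iff.2 h4)).1 h2
    exact absurd hA (not_lt.2 h5)

end CF
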