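import Pool.Agent.MP_9ab903_nt.CF.Defs
import Pool.Agent.MP_9ab903_nt.CF.H1
import Pool.Agent.MP_9ab903_nt.CF.H2
import Pool.Agent.MP_dfae13_nt.T.TA1
import Pool.Agent.MP_dfae13_nt.T.TA2

set_option autoImplicit false

open NumberField IsDedekindDomain
open CM27 CMT
open scoped ComplexConjugate Classical

set_option linter.unusedSectionVars false

namespace CF

/-! ### the field `ℚ(ω)` -/

/-- the field `ℚ(ω)` -/
noncomputable def h3_K0 : IntermediateField ℚ ℂ := IntermediateField.adjoin ℚ {w}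

theorem h3_w_mem : w ∈ h3_K0 := IntermediateField.subset_adjoin ℚ _ rfl

theorem h3_w_eq : w ^ 2 + w + 1 = 0 := by
  have := w_sq
  linear_combination this

theorem h3_w_int : IsIntegral ℚ w := by
  refine ⟨Polynomial.X ^ 2 + Polynomial.X + 1, by monicity!, ?_⟩
  simpa using h3_w_eq

instance h3_numberField : NumberField h3_K0 where
  to_charZero := inferInstance
  to_finiteDimensional := IntermediateField.adjoin.finiteDimensional h3_w_int

noncomputable def h3_om : h3_K0 := ⟨w, h3_w_mem⟩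

theorem h3_om_eq : h3_om ^ 2 + h3_om + 1 = 0 := Subtype.ext h3_w_eq

instance h3_cyclo : IsCyclotomicExtension {3} ℚ h3_K0 := by
  have hprim : IsPrimitiveRoot w 3 := ta1_primitive w h3_w_eq
  change IsCyclotomicExtension {3} ℚ (IntermediateField.adjoin ℚ {w}).toSubalgebra
  rw [IntermediateField.adjoin_simple_toSubalgebra_of_isAlgebraic h3_w_int.isAlgebraic]
  exact hprim.adjoin_isCyclotomicExtension ℚ

theorem h3_finrank : Module.finrank ℚ h3_K0 = 2 := by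
  have h1 := IsCyclotomicExtension.finrank (n := 3) (K := ℚ) h3_K0
    (Polynomial.cyclotomic.irreducible_rat (by norm_num))
  rw [h1]
  decide

theorem h3_le {F : IntermediateField ℚ ℂ} (hw : w ∈ F) : h3_K0 ≤ F := by
  rw [h3_K0, IntermediateField.adjoin_le_iff]
  rintro x rfl
  exact hw

theorem h3_fix (σ : AutK) (x : ℂ) (hx : x ∈ h3_K0) : (σ : ℂ ≃+* ℂ) x = x := by
  induction hx using IntermediateField.adjoin_induction with
  | mem x hx =>
    rw [Set.mem_singleton_iff] at hx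
    rw [hx]
    exact σ.2
  | algebraMap x => exact map_ratCast _ x
  | add x y _ _ hx hy => rw [map_add, hx, hy]
  | inv x _ hx => rw [map_inv₀, hx]
  | mul x y _ _ hx hy => rw [map_mul, hx, hy]

/-! ### extension of automorphisms -/

theorem h3_ext (F : Type) [Field F] [Algebra F ℂ]
    (τ : algebraicClosure F ℂ ≃ₐ[F] algebraicClosure F ℂ) :
    ∃ σ : ℂ ≃+* ℂ, ∀ a : algebraicClosure F ℂ, σ (a : ℂ) = τ a := by
  classical
  let A := algebraicClosure F ℂ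
  obtain ⟨ι, v, hv⟩ := exists_isTranscendenceBasis' A (A := ℂ)
  let _ := IsAlgClosed.isAlgClosure_of_transcendence_basis v hv
  let e : Algebra.adjoin A (Set.range v) ≃+* Algebra.adjoin A (Set.range v) :=
    (hv.1.aevalEquiv.symm.toRingEquiv.trans (MvPolynomial.mapEquiv ι τ.toRingEquiv)).trans
      hv.1.aevalEquiv.toRingEquiv
  refine ⟨IsAlgClosure.equivOfEquiv ℂ ℂ e, fun a => ?_⟩
  have h1 : (a : ℂ) = algebraMap (Algebra.adjoin A (Set.range v)) ℂ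
      (algebraMap A (Algebra.adjoin A (Set.range v)) a) := rfl
  have h2 : e (algebraMap A (Algebra.adjoin A (Set.range v)) a) =
      algebraMap A (Algebra.adjoin A (Set.range v)) (τ a) := by
    have h3 : hv.1.aevalEquiv.symm (algebraMap A (Algebra.adjoin A (Set.range v)) a) =
        MvPolynomial.C a := by
      rw [AlgEquiv.commutes]
      rfl
    have h4 : hv.1.aevalEquiv (MvPolynomial.C (τ a)) =
        algebraMap A (Algebra.adjoin A (Set.range v)) (τ a) := by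
      have := hv.1.aevalEquiv.commutes (τ a)
      exact this
    change hv.1.aevalEquiv (MvPolynomial.map (τ.toRingEquiv : A →+* A)
      (hv.1.aevalEquiv.symm (algebraMap A (Algebra.adjoin A (Set.range v)) a))) = _
    rw [h3, MvPolynomial.map_C, ← h4]
    congr 2
  rw [h1, IsAlgClosure.equivOfEquiv_algebraMap, h2]
  rfl

theorem h3_root (F : Type) [Field F] [Algebra F ℂ] (z z' : ℂ) (hz : IsAlgebraic F z)
    (h : Polynomial.aeval z' (minpoly F z) = 0) :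
    ∃ σ : ℂ ≃+* ℂ, (∀ x : F, σ (algebraMap F ℂ x) = algebraMap F ℂ x) ∧ σ z = z' := by
  have hzi : IsIntegral F z := hz.isIntegral
  have hz' : IsAlgebraic F z' := ⟨minpoly F z, minpoly.ne_zero hzi, h⟩
  let A := algebraicClosure F ℂ
  let a : A := ⟨z, mem_algebraicClosure_iff.2 hz⟩
  let a' : A := ⟨z', mem_algebraicClosure_iff.2 hz'⟩
  have hac : IsAlgClosure F A := algebraicClosure.isAlgClosure F ℂ
  have : Normal F A := IsAlgClosure.normal F A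
  have hmin : minpoly F a = minpoly F z := by
    have := minpoly.algebraMap_eq (A := F) (B := A) (B' := ℂ)
      (algebraMap A ℂ).injective a
    exact this.symm
  have ha' : Polynomial.aeval a' (minpoly F a) = 0 := by
    rw [hmin]
    apply (algebraMap A ℂ).injective
    rw [← Polynomial.aeval_algebraMap_apply, map_zero]
    exact h
  obtain ⟨τ, hτ⟩ := minpoly.exists_algEquiv_of_root' (K := F) (L := A) (x := a') (y := a)
    (Algebra.IsAlgebraic.isAlgebraic a) ha'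
  obtain ⟨σ, hσ⟩ := h3_ext F τ
  refine ⟨σ, fun x => ?_, ?_⟩
  · have h1 := hσ (algebraMap F A x)
    rw [AlgEquiv.commutes] at h1
    exact h1
  · have h1 := hσ a
    rw [hτ] at h1
    exact h1

/-- every embedding over `ℚ(ω)` extends to an automorphism of `ℂ` -/
theorem h3_hom (F : IntermediateField ℚ ℂ) [NumberField F] [Algebra h3_K0 F]
    (hc : ∀ x : h3_K0, ((algebraMap h3_K0 F x : F) : ℂ) = x) (τ : F →+* ℂ)
    (hτ : ∀ x : h3_K0, τ (algebraMap h3_K0 F x) = x) :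
    ∃ σ : AutK, ∀ x : F, (σ : ℂ ≃+* ℂ) x = τ x := by
  have : IsScalarTower h3_K0 F ℂ := IsScalarTower.of_algebraMap_eq fun x => (hc x).symm
  have : FiniteDimensional h3_K0 F := Module.Finite.of_restrictScalars_finite ℚ h3_K0 F
  let τ' : F →ₐ[h3_K0] ℂ := { τ with commutes' := hτ }
  obtain ⟨α, hα⟩ := Field.exists_primitive_element h3_K0 F
  have hαalg : IsAlgebraic h3_K0 (α : ℂ) :=
    (Algebra.IsAlgebraic.isAlgebraic (R := h3_K0) α).algebraMap
  have hmin : minpoly h3_K0 (α : ℂ) = minpoly h3_K0 α :=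
    minpoly.algebraMap_eq (A := h3_K0) (B := F) (B' := ℂ) (algebraMap F ℂ).injective α
  obtain ⟨σ, hσ1, hσ2⟩ := h3_root h3_K0 (α : ℂ) (τ α) hαalg (by
    rw [hmin]
    have h1 : Polynomial.aeval (τ' α) (minpoly h3_K0 α) = τ' (Polynomial.aeval α (minpoly h3_K0 α)) :=
      Polynomial.aeval_algHom_apply τ' α _
    rw [minpoly.aeval, map_zero] at h1
    exact h1)
  refine ⟨⟨σ, hσ1 h3_om⟩, fun x => ?_⟩
  have hx : x ∈ IntermediateField.adjoin h3_K0 {α} := by rw [hα]; exact IntermediateField.mem_top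
  change σ (x : ℂ) = τ x
  induction hx using IntermediateField.adjoin_induction with
  | mem x hx =>
    rw [Set.mem_singleton_iff] at hx
    rw [hx]
    exact hσ2
  | algebraMap x =>
    rw [hτ, hc]
    exact hσ1 x
  | add x y _ _ hx hy => rw [map_add, ← hx, ← hy, ← map_add]; rfl
  | inv x _ hx => rw [map_inv₀, ← hx, ← map_inv₀]; rfl
  | mul x y _ _ hx hy => rw [map_mul, ← hx, ← hy, ← map_mul]; rfl


/-! ### the restriction to `L` -/

/-- the restriction of automorphisms of `ℂ` to the stable field `L` -/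
noncomputable def h3_res (L : IntermediateField ℚ ℂ) [Algebra h3_K0 L]
    (hc : ∀ x : h3_K0, ((algebraMap h3_K0 L x : L) : ℂ) = x)
    (hstab : ∀ σ : AutK, ∀ x ∈ L, (σ : ℂ ≃+* ℂ) x ∈ L) : AutK →* Gal(L/h3_K0) where
  toFun σ :=
    { toFun := fun x => ⟨(σ : ℂ ≃+* ℂ) x, hstab σ x x.2⟩
      invFun := fun x => ⟨((σ⁻¹ : AutK) : ℂ ≃+* ℂ) x, hstab σ⁻¹ x x.2⟩
      left_inv := fun x => Subtype.ext ((σ : ℂ ≃+* ℂ).symm_apply_apply x)
      right_inv := fun x => Subtype.ext ((σ : ℂ ≃+* ℂ).apply_symm_apply x)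
      map_mul' := fun x y => Subtype.ext (map_mul (σ : ℂ ≃+* ℂ) (x : ℂ) (y : ℂ))
      map_add' := fun x y => Subtype.ext (map_add (σ : ℂ ≃+* ℂ) (x : ℂ) (y : ℂ))
      commutes' := fun x => Subtype.ext (by
        change (σ : ℂ ≃+* ℂ) ((algebraMap h3_K0 L x : L) : ℂ) = ((algebraMap h3_K0 L x : L) : ℂ)
        rw [hc]
        exact h3_fix σ _ x.2) }
  map_one' := rfl
  map_mul' := fun _ _ => rfl

section

variable (L : IntermediateField ℚ ℂ) [NumberField L] [Algebra h3_K0 L]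
    (hc : ∀ x : h3_K0, ((algebraMap h3_K0 L x : L) : ℂ) = x)
    (hstab : ∀ σ : AutK, ∀ x ∈ L, (σ : ℂ ≃+* ℂ) x ∈ L)

theorem h3_res_coe (σ : AutK) (x : L) : ((h3_res L hc hstab σ x : L) : ℂ) = (σ : ℂ ≃+* ℂ) x := rfl

theorem h3_res_surj : Function.Surjective (h3_res L hc hstab) := by
  intro τ
  obtain ⟨σ, hσ⟩ := h3_hom L hc ((algebraMap L ℂ).comp (τ : L →+* L)) (fun x => by
    change ((τ (algebraMap h3_K0 L x) : L) : ℂ) = x
    rw [τ.commutes, hc])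
  refine ⟨σ, AlgEquiv.ext fun x => Subtype.ext ?_⟩
  rw [h3_res_coe, hσ]
  rfl

theorem h3_res_ker : (h3_res L hc hstab).ker = fixer L := by
  ext σ
  rw [MonoidHom.mem_ker]
  constructor
  · intro h x hx
    have h1 := congrArg (fun f : Gal(L/h3_K0) => ((f ⟨x, hx⟩ : L) : ℂ)) h
    exact h1
  · intro h
    exact AlgEquiv.ext fun x => Subtype.ext (h x x.2)

include hc hstab in
theorem h3_galois : IsGalois h3_K0 L := by
  have : IsScalarTower h3_K0 L ℂ := IsScalarTower.of_algebraMap_eq fun x => (hc x).symm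
  have : FiniteDimensional h3_K0 L := Module.Finite.of_restrictScalars_finite ℚ h3_K0 L
  apply IsGalois.of_card_aut_eq_finrank
  rw [← AlgHom.card h3_K0 L ℂ, ← Nat.card_eq_fintype_card]
  refine Nat.card_congr (Equiv.ofBijective
    (fun τ : Gal(L/h3_K0) => (IsScalarTower.toAlgHom h3_K0 L ℂ).comp (τ : L →ₐ[h3_K0] L)) ⟨?_, ?_⟩)
  · intro τ τ' h
    refine AlgEquiv.ext fun x => Subtype.ext ?_
    exact congrArg (fun f : L →ₐ[h3_K0] ℂ => f x) h
  · intro f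
    obtain ⟨σ, hσ⟩ := h3_hom L hc (f : L →+* ℂ) (fun x => f.commutes x)
    refine ⟨h3_res L hc hstab σ, AlgHom.ext fun x => ?_⟩
    exact hσ x

include hc in
/-- the abelian extension `L / ℚ(ω)` -/
theorem h3_comm (hab : ∀ σ τ : AutK, ∀ x ∈ L,
      (σ : ℂ ≃+* ℂ) ((τ : ℂ ≃+* ℂ) x) = (τ : ℂ ≃+* ℂ) ((σ : ℂ ≃+* ℂ) x))
    (hstab : ∀ σ : AutK, ∀ x ∈ L, (σ : ℂ ≃+* ℂ) x ∈ L) (σ τ : Gal(L/h3_K0)) : σ * τ = τ * σ := by
  obtain ⟨σ, rfl⟩ := h3_res_surj L hc hstab σ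
  obtain ⟨τ, rfl⟩ := h3_res_surj L hc hstab τ
  exact AlgEquiv.ext fun x => Subtype.ext (hab σ τ x x.2)

end

/-- congruences modulo `P` on `P`-integral elements -/
theorem h3_val {L : Type} [Field L] [NumberField L] (P : HeightOneSpectrum (𝓞 L)) (x : L)
    (hx : P.valuation L x ≤ 1) (f : L →+* L) (f' : 𝓞 L →+* 𝓞 L)
    (hf : ∀ y : 𝓞 L, algebraMap (𝓞 L) L (f' y) = f (algebraMap (𝓞 L) L y)) (q : ℕ) (h : ∀ y : 𝓞 L, f' y - y ^ q ∈ P.asIdeal) :
    P.valuation L (f x - x ^ q) < 1 := by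
  obtain ⟨n, d, hnd⟩ := P.exists_primeCompl_mul_eq_of_integer x hx
  have hd : (d : 𝓞 L) ∉ P.asIdeal := d.2
  have hfd : f' (d : 𝓞 L) ∉ P.asIdeal := by
    intro h1
    have h2 := P.asIdeal.sub_mem h1 (h d)
    rw [sub_sub_cancel] at h2
    exact hd (P.isPrime.mem_of_pow_mem _ h2)
  -- multiply with `f' d * d ^ q`
  have key : (f x - x ^ q) * algebraMap (𝓞 L) L (f' d * (d : 𝓞 L) ^ q) =
      algebraMap (𝓞 L) L ((f' n - n ^ q) * (d : 𝓞 L) ^ q - n ^ q * (f' d - (d : 𝓞 L) ^ q)) := by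
    simp only [map_mul, map_sub, map_pow, hf, ← hnd]
    ring
  have hmem : (f' n - n ^ q) * (d : 𝓞 L) ^ q - n ^ q * (f' d - (d : 𝓞 L) ^ q) ∈ P.asIdeal :=
    P.asIdeal.sub_mem (P.asIdeal.mul_mem_right _ (h n)) (P.asIdeal.mul_mem_left _ (h d))
  have h3 : P.valuation L (algebraMap (𝓞 L) L (f' d * (d : 𝓞 L) ^ q)) = 1 := by
    have : (f' d * (d : 𝓞 L) ^ q) ∉ P.asIdeal := by
      intro h4
      rcases P.isPrime.mem_or_mem h4 with h5 | h5
      · exact hfd h5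
      · exact hd (P.isPrime.mem_of_pow_mem _ h5)
    exact (HeightOneSpectrum.valuation_eq_one_iff_notMem (K := L) P).2 this
  have h4 := (P.valuation_lt_one_iff_mem (K := L) _).2 hmem
  have h5 := congrArg (P.valuation L) key
  rw [map_mul, h3, mul_one] at h5
  rw [h5]
  exact h4


/-! ### the intermediate field `F` -/

/-- the field `F ≤ L` as an intermediate field of `L / ℚ(ω)` -/
noncomputable def h3_sub (L : IntermediateField ℚ ℂ) [Algebra h3_K0 L]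
    (hc : ∀ x : h3_K0, ((algebraMap h3_K0 L x : L) : ℂ) = x) (F : IntermediateField ℚ ℂ)
    (hw : w ∈ F) : IntermediateField h3_K0 L where
  carrier := {x : L | (x : ℂ) ∈ F}
  mul_mem' := fun {a b} ha hb => F.mul_mem ha hb
  add_mem' := fun {a b} ha hb => F.add_mem ha hb
  algebraMap_mem' := fun x => by
    change ((algebraMap h3_K0 L x : L) : ℂ) ∈ F
    rw [hc]
    exact h3_le hw x.2
  inv_mem' := fun a ha => by
    change ((a⁻¹ : L) : ℂ) ∈ F
    exact F.inv_mem ha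

theorem h3_mem_sub (L : IntermediateField ℚ ℂ) [Algebra h3_K0 L]
    (hc : ∀ x : h3_K0, ((algebraMap h3_K0 L x : L) : ℂ) = x) (F : IntermediateField ℚ ℂ)
    (hw : w ∈ F) (x : L) : x ∈ h3_sub L hc F hw ↔ (x : ℂ) ∈ F := Iff.rfl

/-- the isomorphism of `F` with `h3_sub` -/
noncomputable def h3_iso (L : IntermediateField ℚ ℂ) [Algebra h3_K0 L]
    (hc : ∀ x : h3_K0, ((algebraMap h3_K0 L x : L) : ℂ) = x) (F : IntermediateField ℚ ℂ)
    (hw : w ∈ F) (hFL : F ≤ L) : F ≃+* h3_sub L hc F hw where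
  toFun x := ⟨⟨x, hFL x.2⟩, x.2⟩
  invFun x := ⟨((x : L) : ℂ), x.2⟩
  left_inv _ := rfl
  right_inv _ := rfl
  map_mul' _ _ := rfl
  map_add' _ _ := rfl

theorem h3_iso_coe (L : IntermediateField ℚ ℂ) [Algebra h3_K0 L]
    (hc : ∀ x : h3_K0, ((algebraMap h3_K0 L x : L) : ℂ) = x) (F : IntermediateField ℚ ℂ)
    (hw : w ∈ F) (hFL : F ≤ L) (x : F) :
    (((h3_iso L hc F hw hFL x : h3_sub L hc F hw) : L) : ℂ) = x := rfl

theorem h3_iso_symm_coe (L : IntermediateField ℚ ℂ) [Algebra h3_K0 L]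
    (hc : ∀ x : h3_K0, ((algebraMap h3_K0 L x : L) : ℂ) = x) (F : IntermediateField ℚ ℂ)
    (hw : w ∈ F) (hFL : F ≤ L) (x : h3_sub L hc F hw) :
    (((h3_iso L hc F hw hFL).symm x : F) : ℂ) = ((x : L) : ℂ) := rfl

theorem h3_emb (φ0 : Eis ≃+* 𝓞 h3_K0)
    (hφ0 : ∀ a, ((φ0 a : 𝓞 h3_K0) : h3_K0) = toK h3_om h3_om_eq a) (a : Eis) :
    (((φ0 a : 𝓞 h3_K0) : h3_K0) : ℂ) = emb a := by
  rw [hφ0, ta1_toK_apply, emb_apply]
  rfl

/-- the places of `F` above `b` correspond to the places of `h3_sub` above `𝔭 = (b)` -/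
theorem h3_above (L : IntermediateField ℚ ℂ) [NumberField L] [Algebra h3_K0 L]
    (hc : ∀ x : h3_K0, ((algebraMap h3_K0 L x : L) : ℂ) = x) (F : IntermediateField ℚ ℂ)
    [NumberField F] (hw : w ∈ F) (hFL : F ≤ L) (φ0 : Eis ≃+* 𝓞 h3_K0)
    (hφ0 : ∀ a, ((φ0 a : 𝓞 h3_K0) : h3_K0) = toK h3_om h3_om_eq a) (b : Eis)
    (𝔭 : HeightOneSpectrum (𝓞 h3_K0)) (h𝔭 : 𝔭.asIdeal = Ideal.span {φ0 b})
    (v : HeightOneSpectrum (𝓞 F)) :
    v ∈ above F b ↔ ((HeightOneSpectrum.equivOfRingEquiv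
      (RingOfIntegers.mapRingEquiv (h3_iso L hc F hw hFL))) v).asIdeal.LiesOver 𝔭.asIdeal := by
  have hkey : ∀ y : 𝓞 (h3_sub L hc F hw), y ∈ ((HeightOneSpectrum.equivOfRingEquiv
      (RingOfIntegers.mapRingEquiv (h3_iso L hc F hw hFL))) v).asIdeal ↔
      (RingOfIntegers.mapRingEquiv (h3_iso L hc F hw hFL)).symm y ∈ v.asIdeal := fun y => Iff.rfl
  have hb : (((((algebraMap (𝓞 h3_K0) (𝓞 (h3_sub L hc F hw)) (φ0 b) :
      𝓞 (h3_sub L hc F hw)) : h3_sub L hc F hw) : L)) : ℂ) = emb b := by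
    rw [← h3_emb φ0 hφ0, ← hc]
    rfl
  constructor
  · rintro ⟨x, hx, hxb⟩
    constructor
    have h1 : φ0 b ∈ (((HeightOneSpectrum.equivOfRingEquiv
      (RingOfIntegers.mapRingEquiv (h3_iso L hc F hw hFL))) v).asIdeal).under (𝓞 h3_K0) := by
      rw [Ideal.under_def, Ideal.mem_comap, hkey]
      have h2 : (RingOfIntegers.mapRingEquiv (h3_iso L hc F hw hFL)).symm
          (algebraMap (𝓞 h3_K0) (𝓞 (h3_sub L hc F hw)) (φ0 b)) = x := by
        apply RingOfIntegers.ext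
        apply Subtype.ext
        rw [hxb]
        exact hb
      rw [h2]
      exact hx
    refine 𝔭.isMaximal.eq_of_le ?_ ?_
    · have h3 : ((((HeightOneSpectrum.equivOfRingEquiv
        (RingOfIntegers.mapRingEquiv (h3_iso L hc F hw hFL))) v).asIdeal).under
          (𝓞 h3_K0)).IsPrime := inferInstance
      exact h3.ne_top
    · rw [h𝔭, Ideal.span_singleton_le_iff_mem]
      exact h1
  · intro h
    have h1 : φ0 b ∈ 𝔭.asIdeal := by
      rw [h𝔭]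
      exact Ideal.mem_span_singleton_self _
    rw [h.over, Ideal.under_def, Ideal.mem_comap, hkey] at h1
    exact ⟨_, h1, hb⟩

theorem h3_card (L : IntermediateField ℚ ℂ) [NumberField L] [Algebra h3_K0 L]
    (hc : ∀ x : h3_K0, ((algebraMap h3_K0 L x : L) : ℂ) = x) (F : IntermediateField ℚ ℂ)
    [NumberField F] (hw : w ∈ F) (hFL : F ≤ L) (v : HeightOneSpectrum (𝓞 F)) :
    Nat.card (𝓞 F ⧸ v.asIdeal) = Nat.card (𝓞 (h3_sub L hc F hw) ⧸ ((HeightOneSpectrum.equivOfRingEquiv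
      (RingOfIntegers.mapRingEquiv (h3_iso L hc F hw hFL))) v).asIdeal) := by
  refine Nat.card_congr (Ideal.quotientEquiv _ _
    (RingOfIntegers.mapRingEquiv (h3_iso L hc F hw hFL)) ?_).toEquiv
  exact (Ideal.map_comap_of_equiv _).symm

theorem h3_comap_fixing (L : IntermediateField ℚ ℂ) [NumberField L] [Algebra h3_K0 L]
    (hc : ∀ x : h3_K0, ((algebraMap h3_K0 L x : L) : ℂ) = x)
    (hstab : ∀ σ : AutK, ∀ x ∈ L, (σ : ℂ ≃+* ℂ) x ∈ L) (F : IntermediateField ℚ ℂ)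
    (hw : w ∈ F) (hFL : F ≤ L) :
    (h3_sub L hc F hw).fixingSubgroup.comap (h3_res L hc hstab) = fixer F := by
  ext σ
  rw [Subgroup.mem_comap, IntermediateField.mem_fixingSubgroup_iff]
  constructor
  · intro h x hx
    exact congrArg Subtype.val (h ⟨x, hFL hx⟩ hx)
  · intro h x hx
    exact Subtype.ext (h x hx)


/-- valuations of elements with `z ^ k = b` up to units -/
theorem h3_dvd (L : IntermediateField ℚ ℂ) [NumberField L] [Algebra h3_K0 L]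
    (𝔭 : HeightOneSpectrum (𝓞 h3_K0)) (P : HeightOneSpectrum (𝓞 L))
    (hP : P.asIdeal.LiesOver 𝔭.asIdeal) (β : 𝓞 h3_K0) (hβ : β ≠ 0)
    (h𝔭 : 𝔭.asIdeal = Ideal.span {β}) (z : L) (k : ℕ)
    (hzk : P.valuation L (z ^ k / algebraMap h3_K0 L (β : h3_K0)) = 1) :
    k ∣ P.asIdeal.ramificationIdx (𝓞 h3_K0) := by
  have hval := HeightOneSpectrum.valuation_liesOver L 𝔭 P (β : h3_K0)
  have he : 𝔭.asIdeal.ramificationIdx' P.asIdeal = P.asIdeal.ramificationIdx (𝓞 h3_K0) :=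
    Ideal.ramificationIdx'_eq_ramificationIdx _ _ 𝔭.ne_bot
  have hv1 : 𝔭.valuation h3_K0 (β : h3_K0) = WithZero.exp (-1 : ℤ) := by
    have h1 : 𝔭.valuation h3_K0 (β : h3_K0) = 𝔭.intValuation β :=
      𝔭.valuation_of_algebraMap β
    rw [h1]
    exact 𝔭.intValuation_singleton hβ h𝔭
  rw [hv1, he, ← WithZero.exp_nsmul] at hval
  have hb0 : P.valuation L (algebraMap h3_K0 L (β : h3_K0)) ≠ 0 := by
    rw [← hval]
    exact WithZero.exp_ne_zero
  rw [map_div₀, map_pow, div_eq_one_iff_eq hb0, ← hval] at hzk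
  rcases eq_or_ne k 0 with rfl | hk
  · rw [pow_zero, ← WithZero.exp_zero, WithZero.exp_inj] at hzk
    simp only [nsmul_eq_mul] at hzk
    have : (P.asIdeal.ramificationIdx (𝓞 h3_K0) : ℤ) = 0 := by linarith
    rw [Nat.cast_eq_zero.1 this]
  have hz0 : P.valuation L z ≠ 0 := by
    intro h0
    rw [h0, zero_pow hk] at hzk
    exact WithZero.exp_ne_zero hzk.symm
  obtain ⟨n, hn⟩ : ∃ n : ℤ, P.valuation L z = WithZero.exp n :=
    ⟨_, (WithZero.exp_log hz0).symm⟩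
  rw [hn, ← WithZero.exp_nsmul, WithZero.exp_inj] at hzk
  have h6 : (k : ℤ) ∣ ((P.asIdeal.ramificationIdx (𝓞 h3_K0) : ℕ) : ℤ) := by
    refine ⟨-n, ?_⟩
    simp only [nsmul_eq_mul] at hzk
    linarith
  exact_mod_cast h6


theorem h3_frob (L : IntermediateField ℚ ℂ) [NumberField L] [Algebra h3_K0 L]
    (hc : ∀ x : h3_K0, ((algebraMap h3_K0 L x : L) : ℂ) = x)
    (hstab : ∀ σ : AutK, ∀ x ∈ L, (σ : ℂ ≃+* ℂ) x ∈ L)
    (P : HeightOneSpectrum (𝓞 L)) (A : ValuationSubring ℂ)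
    (hA : ∀ x : L, (A.valuation (x : ℂ) ≤ 1 ↔ P.valuation L x ≤ 1) ∧
      (A.valuation (x : ℂ) < 1 ↔ P.valuation L x < 1)) (σ : AutK) (q : ℕ)
    (h : ∀ y : 𝓞 L, (h3_res L hc hstab σ) • y - y ^ q ∈ P.asIdeal) (x : ℂ) (hx : x ∈ L)
    (hxA : A.valuation x ≤ 1) : A.valuation ((σ : ℂ ≃+* ℂ) x - x ^ q) < 1 := by
  have h1 := h3_val P ⟨x, hx⟩ ((hA ⟨x, hx⟩).1.1 hxA) ((h3_res L hc hstab σ : Gal(L/h3_K0)) : L →+* L)
    (MulSemiringAction.toRingHom Gal(L/h3_K0) (𝓞 L) (h3_res L hc hstab σ)) (fun y => rfl) q h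
  exact (hA _).2.2 h1

theorem h3_quot (L : IntermediateField ℚ ℂ) [NumberField L] [Algebra h3_K0 L]
    (hc : ∀ x : h3_K0, ((algebraMap h3_K0 L x : L) : ℂ) = x)
    (P : HeightOneSpectrum (𝓞 L)) (A : ValuationSubring ℂ)
    (hA : ∀ x : L, (A.valuation (x : ℂ) ≤ 1 ↔ P.valuation L x ≤ 1) ∧
      (A.valuation (x : ℂ) < 1 ↔ P.valuation L x < 1)) (β : h3_K0) (hβ : β ≠ 0) (z : ℂ) (hz : z ∈ L)
    (k : ℕ) (hzk : A.valuation z ^ k = A.valuation (β : ℂ)) :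
    P.valuation L ((⟨z, hz⟩ : L) ^ k / algebraMap h3_K0 L β) = 1 := by
  have h1 : A.valuation (z ^ k / (β : ℂ)) = 1 := by
    rw [map_div₀, map_pow, hzk]
    refine div_self ?_
    rw [Ne, map_eq_zero]
    intro h0
    exact hβ (Subtype.ext h0)
  have h2 := hA ((⟨z, hz⟩ : L) ^ k / algebraMap h3_K0 L β)
  have h3 : (((⟨z, hz⟩ : L) ^ k / algebraMap h3_K0 L β : L) : ℂ) = z ^ k / (β : ℂ) := by
    rw [← hc]
    rfl
  rw [h3, h1] at h2
  have h4 := h2.1.1 le_rfl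
  have h5 := mt h2.2.2 (lt_irrefl _)
  exact le_antisymm h4 (not_lt.1 h5)

theorem h3_fpart (L : IntermediateField ℚ ℂ) [NumberField L] [Algebra h3_K0 L]
    (hc : ∀ x : h3_K0, ((algebraMap h3_K0 L x : L) : ℂ) = x)
    (hstab : ∀ σ : AutK, ∀ x ∈ L, (σ : ℂ ≃+* ℂ) x ∈ L) (φ0 : Eis ≃+* 𝓞 h3_K0)
    (hφ0 : ∀ a, ((φ0 a : 𝓞 h3_K0) : h3_K0) = toK h3_om h3_om_eq a) (b : Eis)
    (𝔭 : HeightOneSpectrum (𝓞 h3_K0)) (h𝔭 : 𝔭.asIdeal = Ideal.span {φ0 b})
    (hq : Nat.card (𝓞 h3_K0 ⧸ 𝔭.asIdeal) = b.norm.natAbs) (φ : AutK)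
    (J' : Subgroup Gal(L/h3_K0))
    (hF : ∀ F : IntermediateField h3_K0 L, ∃ f g : ℕ, 0 < f ∧
        {v : HeightOneSpectrum (𝓞 F) | v.asIdeal.LiesOver 𝔭.asIdeal}.Finite ∧
        {v : HeightOneSpectrum (𝓞 F) | v.asIdeal.LiesOver 𝔭.asIdeal}.ncard = g ∧
        (∀ v : HeightOneSpectrum (𝓞 F), v.asIdeal.LiesOver 𝔭.asIdeal →
          Nat.card (𝓞 F ⧸ v.asIdeal) = Nat.card (𝓞 h3_K0 ⧸ 𝔭.asIdeal) ^ f) ∧
        (∀ k : ℕ, (h3_res L hc hstab φ) ^ k ∈ F.fixingSubgroup ⊔ J' ↔ f ∣ k) ∧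
        (F.fixingSubgroup ⊔ J').index = g * f)
    (F : IntermediateField ℚ ℂ) [NumberField F] (hwF : w ∈ F) (hFL : F ≤ L) :
    ∃ f g : ℕ, 0 < f ∧
        (above F b).Finite ∧ (above F b).ncard = g ∧
        (∀ v ∈ above F b, Nat.card (𝓞 F ⧸ v.asIdeal) = b.norm.natAbs ^ f) ∧
        (∀ k : ℕ, φ ^ k ∈ fixer F ⊔ J'.comap (h3_res L hc hstab) ↔ f ∣ k) ∧
        (fixer F ⊔ J'.comap (h3_res L hc hstab)).index = g * f := by
  have hsurj := h3_res_surj L hc hstab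
  obtain ⟨f, g, hf, hfin, hg, hcardF, hk, hindex⟩ := hF (h3_sub L hc F hwF)
  let e := HeightOneSpectrum.equivOfRingEquiv
    (RingOfIntegers.mapRingEquiv (h3_iso L hc F hwF hFL))
  have hset : above F b = e ⁻¹' {v | v.asIdeal.LiesOver 𝔭.asIdeal} := by
    ext v
    exact h3_above L hc F hwF hFL φ0 hφ0 b 𝔭 h𝔭 v
  refine ⟨f, g, hf, ?_, ?_, ?_, ?_, ?_⟩
  · rw [hset]
    exact hfin.preimage e.injective.injOn
  · rw [hset, ← hg]
    exact Set.ncard_preimage_of_injective_subset_range e.injective (by simp)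
  · intro v hv
    rw [h3_card L hc F hwF hFL v, ← hq]
    exact hcardF _ ((h3_above L hc F hwF hFL φ0 hφ0 b 𝔭 h𝔭 v).1 hv)
  · intro k
    rw [← h3_comap_fixing L hc hstab F hwF hFL, Subgroup.comap_sup_eq _ _ _ hsurj,
      Subgroup.mem_comap, map_pow]
    exact hk k
  · rw [← h3_comap_fixing L hc hstab F hwF hFL, Subgroup.comap_sup_eq _ _ _ hsurj,
      Subgroup.index_comap_of_surjective _ hsurj]
    exact hindex

theorem h3_lt (L : IntermediateField ℚ ℂ) [NumberField L] [Algebra h3_K0 L]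
    (𝔭 : HeightOneSpectrum (𝓞 h3_K0)) (P : HeightOneSpectrum (𝓞 L))
    (hP : P.asIdeal.LiesOver 𝔭.asIdeal) (β : 𝓞 h3_K0) (hβ : β ∈ 𝔭.asIdeal) :
    P.valuation L (algebraMap h3_K0 L (β : h3_K0)) < 1 := by
  have h1 : algebraMap (𝓞 h3_K0) (𝓞 L) β ∈ P.asIdeal := by
    rw [hP.over, Ideal.under_def, Ideal.mem_comap] at hβ
    exact hβ
  have h2 := (P.valuation_lt_one_iff_mem (K := L) _).2 h1
  have h3 : algebraMap (𝓞 L) L (algebraMap (𝓞 h3_K0) (𝓞 L) β) = algebraMap h3_K0 L (β : h3_K0) :=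
    rfl
  rw [← h3]
  exact h2

theorem h3_main (L : IntermediateField ℚ ℂ) [NumberField L] [Algebra h3_K0 L]
    (hc : ∀ x : h3_K0, ((algebraMap h3_K0 L x : L) : ℂ) = x)
    (hstab : ∀ σ : AutK, ∀ x ∈ L, (σ : ℂ ≃+* ℂ) x ∈ L)
    (hab : ∀ σ τ : AutK, ∀ x ∈ L,
      (σ : ℂ ≃+* ℂ) ((τ : ℂ ≃+* ℂ) x) = (τ : ℂ ≃+* ℂ) ((σ : ℂ ≃+* ℂ) x))
    (b : Eis) (hb : Prime b) :
    ∃ (A : ValuationSubring ℂ) (φ : AutK) (J : Subgroup AutK), A.valuation (emb b) < 1 ∧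
      (∀ x ∈ L, A.valuation x ≤ 1 →
        A.valuation ((φ : ℂ ≃+* ℂ) x - x ^ b.norm.natAbs) < 1) ∧
      (∀ σ ∈ J, ∀ x ∈ L, A.valuation x ≤ 1 → A.valuation ((σ : ℂ ≃+* ℂ) x - x) < 1) ∧
      fixer L ≤ J ∧
      (∀ (z : ℂ) (k : ℕ), z ∈ L → A.valuation z ^ k = A.valuation (emb b) →
        k ∣ (fixer L).relIndex J) ∧
      ∀ (F : IntermediateField ℚ ℂ) [NumberField F], w ∈ F → F ≤ L → ∃ f g : ℕ, 0 < f ∧
        (above F b).Finite ∧ (above F b).ncard = g ∧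
        (∀ v ∈ above F b, Nat.card (𝓞 F ⧸ v.asIdeal) = b.norm.natAbs ^ f) ∧
        (∀ k : ℕ, φ ^ k ∈ fixer F ⊔ J ↔ f ∣ k) ∧ (fixer F ⊔ J).index = g * f := by
  have hgal : IsGalois h3_K0 L := h3_galois L hc hstab
  have hcomm := h3_comm L hc hab hstab
  have hsurj := h3_res_surj L hc hstab
  have hker := h3_res_ker L hc hstab
  obtain ⟨φ0, hφ0⟩ := CMT.exists_equiv h3_K0 h3_om h3_om_eq
  obtain ⟨𝔭, h𝔭, hcard⟩ := CMT.exists_place h3_K0 φ0 b hb
  have hq : Nat.card (𝓞 h3_K0 ⧸ 𝔭.asIdeal) = b.norm.natAbs := by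
    rw [← hcard, Int.natAbs_natCast]
  obtain ⟨P, φ', J', hP, hφ', hJ', hJcard, hF⟩ := hilbert_abelian h3_K0 L hcomm 𝔭
  obtain ⟨A, hA⟩ := extend_val L P
  obtain ⟨φ, rfl⟩ := hsurj φ'
  have hbL : (((φ0 b : 𝓞 h3_K0) : h3_K0) : ℂ) = emb b := h3_emb φ0 hφ0 b
  have hφb : φ0 b ∈ 𝔭.asIdeal := by
    rw [h𝔭]
    exact Ideal.mem_span_singleton_self _
  have hφb0 : φ0 b ≠ 0 := fun h0 => hb.ne_zero ((map_eq_zero_iff φ0 φ0.injective).1 h0)
  have hbval : P.valuation L (algebraMap h3_K0 L ((φ0 b : 𝓞 h3_K0) : h3_K0)) < 1 :=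
    h3_lt L 𝔭 P hP _ hφb
  refine ⟨A, φ, J'.comap (h3_res L hc hstab), ?_, ?_, ?_, ?_, ?_, ?_⟩
  · rw [← hbL, ← hc]
    exact (hA _).2.2 hbval
  · intro x hx hxA
    refine h3_frob L hc hstab P A hA φ _ (fun y => ?_) x hx hxA
    rw [← hq]
    exact hφ' y
  · intro σ hσ x hx hxA
    have h1 := h3_frob L hc hstab P A hA σ 1 (fun y => ?_) x hx hxA
    · rwa [pow_one] at h1
    · rw [pow_one]
      exact hJ' _ hσ y
  · rw [← hker]
    exact Subgroup.ker_le_comap _ _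
  · intro z k hz hzk
    rw [← hker, Subgroup.relIndex_ker, Subgroup.map_comap_eq_self_of_surjective hsurj, hJcard]
    refine h3_dvd L 𝔭 P hP (φ0 b) hφb0 h𝔭 ⟨z, hz⟩ k ?_
    refine h3_quot L hc P A hA _ ?_ z hz k ?_
    · intro h0
      exact hφb0 (RingOfIntegers.ext h0)
    · rw [hbL]
      exact hzk
  · intro F _ hwF hFL
    exact h3_fpart L hc hstab φ0 hφ0 b 𝔭 h𝔭 hq φ J' hF F hwF hFL

/-- `H1` for `L ⊂ ℂ`, abelian over `K = ℚ(ω)`, in terms of automorphisms of `ℂ` and of a valuation ring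
`A` of `ℂ`. (Take `K = IntermediateField.adjoin ℚ {w}` or `CyclotomicField 3 ℚ`, `𝔭 = (b)`; the group
`AutK / fixer L` is `Gal(L/K)`.) The statement on `k`: if `z ∈ L` has valuation `|z|^k = |b|` then `k`
divides the ramification index. -/
theorem hilbert_C (L : IntermediateField ℚ ℂ) [NumberField L] (hw : w ∈ L)
    (hstab : ∀ σ : AutK, ∀ x ∈ L, (σ : ℂ ≃+* ℂ) x ∈ L)
    (hab : ∀ σ τ : AutK, ∀ x ∈ L,
      (σ : ℂ ≃+* ℂ) ((τ : ℂ ≃+* ℂ) x) = (τ : ℂ ≃+* ℂ) ((σ : ℂ ≃+* ℂ) x))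
    (b : Eis) (hb : Prime b) :
    ∃ (A : ValuationSubring ℂ) (φ : AutK) (J : Subgroup AutK), A.valuation (emb b) < 1 ∧
      (∀ x ∈ L, A.valuation x ≤ 1 →
        A.valuation ((φ : ℂ ≃+* ℂ) x - x ^ b.norm.natAbs) < 1) ∧
      (∀ σ ∈ J, ∀ x ∈ L, A.valuation x ≤ 1 → A.valuation ((σ : ℂ ≃+* ℂ) x - x) < 1) ∧
      fixer L ≤ J ∧
      (∀ (z : ℂ) (k : ℕ), z ∈ L → A.valuation z ^ k = A.valuation (emb b) →
        k ∣ (fixer L).relIndex J) ∧
      ∀ (F : IntermediateField ℚ ℂ) [NumberField F], w ∈ F → F ≤ L → ∃ f g : ℕ, 0 < f ∧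
        (above F b).Finite ∧ (above F b).ncard = g ∧
        (∀ v ∈ above F b, Nat.card (𝓞 F ⧸ v.asIdeal) = b.norm.natAbs ^ f) ∧
        (∀ k : ℕ, φ ^ k ∈ fixer F ⊔ J ↔ f ∣ k) ∧ (fixer F ⊔ J).index = g * f := by
  let _ : Algebra h3_K0 L := (IntermediateField.inclusion (h3_le hw)).toRingHom.toAlgebra
  exact h3_main L (fun x => rfl) hstab hab b hb

/-- the index of `fixer F` in `AutK` is the degree of `F` over `ℚ(ω)` -/
theorem index_fixer (F : IntermediateField ℚ ℂ) [NumberField F] (hw : w ∈ F) :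
    2 * (fixer F).index = Module.finrank ℚ F := by
  let _ : Algebra h3_K0 F := (IntermediateField.inclusion (h3_le hw)).toRingHom.toAlgebra
  have hc : ∀ x : h3_K0, ((algebraMap h3_K0 F x : F) : ℂ) = x := fun x => rfl
  have : IsScalarTower h3_K0 F ℂ := IsScalarTower.of_algebraMap_eq fun x => (hc x).symm
  have : FiniteDimensional h3_K0 F := Module.Finite.of_restrictScalars_finite ℚ h3_K0 F
  rw [← Module.finrank_mul_finrank ℚ h3_K0 F, h3_finrank]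
  congr 1
  have h1 : (fixer F) = MulAction.stabilizer AutK (fun x : F => (x : ℂ)) := by
    ext σ
    rw [MulAction.mem_stabilizer_iff]
    constructor
    · intro h
      funext x
      exact h x x.2
    · intro h x hx
      exact congrFun h ⟨x, hx⟩
  rw [h1, MulAction.index_stabilizer, ← AlgHom.card h3_K0 F ℂ, ← Nat.card_eq_fintype_card,
    ← Nat.card_coe_set_eq]
  symm
  refine Nat.card_congr (Equiv.ofBijective
    (fun f : F →ₐ[h3_K0] ℂ => (⟨⇑f, ?_⟩ :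
      (MulAction.orbit AutK (fun x : F => (x : ℂ)) : Set (F → ℂ)))) ⟨?_, ?_⟩)
  · obtain ⟨σ, hσ⟩ := h3_hom F hc (f : F →+* ℂ) (fun x => f.commutes x)
    exact ⟨σ, funext hσ⟩
  · intro f g hfg
    have h2 := congrArg Subtype.val hfg
    exact DFunLike.coe_injective h2
  · rintro ⟨f, σ, hσ⟩
    refine ⟨{ toRingHom := ((σ : ℂ ≃+* ℂ) : ℂ →+* ℂ).comp (algebraMap F ℂ), commutes' := ?_ }, ?_⟩
    · intro x
      exact h3_fix σ _ x.2
    · apply Subtype.ext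
      exact hσ
end CF
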