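import Pool.Agent.MP_9ab903_nt.CF.Defs
import Pool.Agent.MP_9ab903_nt.CF.P3
import Pool.Agent.MP_ae0bd0_nt.CM.I3
import Pool.Agent.MP_ae0bd0_nt.CM.A3

set_option autoImplicit false

open NumberField IsDedekindDomain
open CM27 CMT
open scoped ComplexConjugate Classical

namespace CF

/-! ## [CF-P5] the valuation of the points of order `b` (file P5.lean; uses R3, R4, P1, P3) -/

theorem p5_card (b : Eis) (p : ℕ) (hp : p.Prime) (hn : b.norm = p) :
    Nat.card (Eis ⧸ Ideal.span {b}) = p := by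
  have h : Function.Bijective (fun n : Fin p => Ideal.Quotient.mk (Ideal.span {b}) ((n : ℕ) : Eis)) := by
    constructor
    · intro n n' h
      have h' : Ideal.Quotient.mk (Ideal.span {b}) ((n : ℕ) : Eis) =
        Ideal.Quotient.mk (Ideal.span {b}) ((n' : ℕ) : Eis) := h
      rw [Ideal.Quotient.mk_eq_mk_iff_sub_mem, Ideal.mem_span_singleton] at h'
      have h1 : b ∣ ((((n : ℕ) : ℤ) - ((n' : ℕ) : ℤ) : ℤ) : Eis) := by
        push_cast
        exact h'
      have h2 := I3.dvd_of_dvd b p hp hn _ h1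
      have h3 : ((n : ℕ) : ℤ) - ((n' : ℕ) : ℤ) = 0 := by
        apply Int.eq_zero_of_abs_lt_dvd h2
        have e1 := n.2
        have e2 := n'.2
        rw [abs_lt]
        constructor <;> omega
      apply Fin.ext
      omega
    · intro y
      obtain ⟨x, rfl⟩ := Ideal.Quotient.mk_surjective y
      obtain ⟨t, ht, hd⟩ := I3.exists_rep b p hp hn x
      refine ⟨⟨t, Finset.mem_range.1 ht⟩, ?_⟩
      change Ideal.Quotient.mk (Ideal.span {b}) ((t : ℕ) : Eis) = Ideal.Quotient.mk _ x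
      rw [eq_comm, Ideal.Quotient.mk_eq_mk_iff_sub_mem, Ideal.mem_span_singleton]
      exact hd
  have := Nat.card_congr (Equiv.ofBijective _ h)
  rw [← this, Nat.card_fin]

/-- adding a point of the kernel of reduction does not change the absolute value of a unit `x` -/
theorem p5_unit (A : ValuationSubring ℂ) (h3 : A.valuation 3 = 1) (z u : ℂ)
    (hz : z ∉ Set.range emb) (hv : A.valuation (xw z) = 1) (hu : red A (pt u) = 0) :
    A.valuation (xw (z + u)) = 1 := by
  obtain ⟨n, e⟩ := pt_of_not_mem z hz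
  have h1 : red A (pt (z + u)) = red A (pt z) := by
    rw [pt_add, red_add A h3, hu, add_zero]
  obtain ⟨hx', hy', n', e'⟩ := red_some A h3 _ _ n hv.le
  rw [e, e'] at h1
  have hzu : z + u ∉ Set.range emb := by
    intro hm
    rw [(pt_eq_zero_iff _).2 hm, red_zero A] at h1
    exact WeierstrassCurve.Affine.Point.some_ne_zero _ h1.symm
  obtain ⟨m, e2⟩ := pt_of_not_mem (z + u) hzu
  rw [e2] at h1
  by_cases hb : 1 < A.valuation (xw (z + u))
  · rw [red_some_big A _ _ m hb] at h1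
    exact absurd h1.symm (WeierstrassCurve.Affine.Point.some_ne_zero _)
  · obtain ⟨hx2, hy2, m', e2'⟩ := red_some A h3 _ _ m (not_lt.1 hb)
    rw [e2', WeierstrassCurve.Affine.Point.some.injEq] at h1
    have hu1 : IsUnit (⟨xw z, hx'⟩ : A) := (A.valuation_eq_one_iff ⟨xw z, hx'⟩).2 hv
    have hr1 : IsLocalRing.residue A ⟨xw z, hx'⟩ ≠ 0 :=
      (IsLocalRing.residue_ne_zero_iff_isUnit _).2 hu1
    have hr2 : IsLocalRing.residue A ⟨xw (z + u), hx2⟩ ≠ 0 := by
      rw [h1.1]
      exact hr1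
    have hu2 := (IsLocalRing.residue_ne_zero_iff_isUnit _).1 hr2
    exact (A.valuation_eq_one_iff ⟨xw (z + u), hx2⟩).1 hu2

/-- the constant of `prod_x` is a unit -/
theorem p5_C (A : ValuationSubring ℂ) (b : Eis) (hb : Primary b) (hbp : Prime b)
    (hA : A.valuation (emb b) < 1) :
    A.valuation (emb b ^ 2 *
      ∏ᶠ δ : {δ : Eis ⧸ Ideal.span {b} // δ ≠ 0}, xw (emb δ.1.out / emb b)) = 1 := by
  have h3 := val_three A b hb hA
  have hb0 : b ≠ 0 := hbp.ne_zero
  have := I3.quot_finite b hb0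
  have : Fintype (Eis ⧸ Ideal.span {b}) := Fintype.ofFinite _
  obtain ⟨c, hc⟩ := hb
  have e : emb b * (1 / 3) = 1 / 3 + emb c := by
    have h : b = 1 + 3 * c := by rw [← hc]; ring
    rw [h, map_add, map_one, map_mul, map_ofNat]
    ring
  have hx : A.valuation (xw (1 / 3)) = 1 := by
    have h : A.valuation (xw (1 / 3)) ^ 3 = 1 := by
      rw [← map_pow, third.1, Valuation.map_neg, map_one]
    exact (pow_eq_one_iff.1 h).resolve_right (by norm_num)
  have h1 := prod_x b ⟨c, hc⟩ (1 / 3) (by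
    rw [e, a4_mem_add]
    exact a6_third_not_mem)
  have h2 := congrArg A.valuation h1
  rw [map_mul A.valuation _ (xw _), e, xw_add, hx, mul_one] at h2
  rw [← h2, finprod_eq_prod_of_fintype, map_prod]
  apply Finset.prod_eq_one
  intro δ _
  exact p5_unit A h3 _ _ a6_third_not_mem hx (red_b A b ⟨c, hc⟩ hbp hA _)

theorem p5_not_mem (b δ : Eis) (hb0 : b ≠ 0) (hδ : ¬ b ∣ δ) : emb δ / emb b ∉ Set.range emb := by
  rintro ⟨a, ha⟩
  have hbe : emb b ≠ 0 := by
    intro h
    exact hb0 (emb_injective (by rw [h, map_zero]))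
  apply hδ
  refine ⟨a, emb_injective ?_⟩
  rw [map_mul, ha]
  field_simp

theorem p5_le (A : ValuationSubring ℂ) (b : Eis) (hb : Primary b) (hbp : Prime b)
    (hA : A.valuation (emb b) < 1) (δ δ' : Eis) (hδ : ¬ b ∣ δ) :
    A.valuation (zz (pt (emb δ' / emb b))) ≤ A.valuation (zz (pt (emb δ / emb b))) := by
  have := eis_isDomain
  have := eis_pid
  have h3 := val_three A b hb hA
  have hb0 : b ≠ 0 := hbp.ne_zero
  have hbe : emb b ≠ 0 := by
    intro h
    exact hb0 (emb_injective (by rw [h, map_zero]))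
  have hco : IsCoprime b δ := (hbp.irreducible.coprime_iff_not_dvd).2 hδ
  obtain ⟨s, r, hsr⟩ := hco
  have e : emb δ' / emb b = emb (δ' * r) * (emb δ / emb b) + emb (δ' * s) := by
    have h : δ' = δ' * r * δ + δ' * s * b := by linear_combination -δ' * hsr
    have h' := congrArg emb h
    rw [map_add, map_mul _ (δ' * r), map_mul _ (δ' * s)] at h'
    rw [h']
    field_simp
  have hz0 : pt (emb δ / emb b) ≠ 0 := fun h =>
    p5_not_mem b δ hb0 hδ ((pt_eq_zero_iff _).1 h)
  have h1 := zz_emb_mul A h3 (emb δ / emb b) (red_b A b hb hbp hA δ) hz0 (δ' * r)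
  rw [e, a4_pt_add_emb]
  have e2 : zz (pt (emb (δ' * r) * (emb δ / emb b))) =
      (zz (pt (emb (δ' * r) * (emb δ / emb b))) - emb (δ' * r) * zz (pt (emb δ / emb b))) +
        emb (δ' * r) * zz (pt (emb δ / emb b)) := by ring
  rw [e2]
  refine (Valuation.map_add _ _ _).trans (max_le h1.le ?_)
  rw [map_mul]
  exact mul_le_of_le_one_left' (r4_val_emb A _)

/-- Sketch: as in P4, `C = b² ∏_{δ ≠ 0} x(δ/b)` is a unit. All points `pt (δ/b)`, `δ ∉ (b)`, have
`|zz|` equal (`(ℤ[ω]/b)` is `{0, …, p-1}`, and `zz (n P) ≡ n zz P`), and `|x| = |zz|^(-2)`. -/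
theorem val_b (A : ValuationSubring ℂ) (b : Eis) (hb : Primary b) (p : ℕ) (hp : p.Prime)
    (hn : b.norm = p) (hA : A.valuation (emb b) < 1) (δ : Eis) (hδ : ¬ b ∣ δ) :
    A.valuation (zz (pt (emb δ / emb b))) ^ (p - 1) = A.valuation (emb b) := by
  have h3 := val_three A b hb hA
  have hbp : Prime b := a3_prime_of_norm p hp b hn
  have hb0 : b ≠ 0 := hbp.ne_zero
  have := I3.quot_finite b hb0
  have : Fintype (Eis ⧸ Ideal.span {b}) := Fintype.ofFinite _
  set V := A.valuation (zz (pt (emb δ / emb b))) with hV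
  have hC := p5_C A b hb hbp hA
  rw [finprod_eq_prod_of_fintype, map_mul, map_pow, map_prod] at hC
  have hx : ∀ δ' : {δ : Eis ⧸ Ideal.span {b} // δ ≠ 0},
      V ^ 2 * A.valuation (xw (emb δ'.1.out / emb b)) = 1 := by
    rintro ⟨δ', hδ'⟩
    have hd : ¬ b ∣ δ'.out := by
      intro h
      apply hδ'
      rw [← Ideal.Quotient.mk_out δ', Ideal.Quotient.eq_zero_iff_mem, Ideal.mem_span_singleton]
      exact h
    have hVe : V = A.valuation (zz (pt (emb δ'.out / emb b))) :=
      le_antisymm (p5_le A b hb hbp hA _ _ hd) (p5_le A b hb hbp hA _ _ hδ)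
    obtain ⟨n, e⟩ := pt_of_not_mem (emb δ'.out / emb b) (p5_not_mem b _ hb0 hd)
    have hr := red_b A b hb hbp hA δ'.out
    rw [e] at hr
    have h4 := (zz_val A _ _ n (r4_big A h3 _ _ n hr)).2
    rw [hVe, e]
    exact h4
  have hprod : ∏ δ' : {δ : Eis ⧸ Ideal.span {b} // δ ≠ 0},
      V ^ 2 * A.valuation (xw (emb δ'.1.out / emb b)) = 1 :=
    Finset.prod_eq_one (fun δ' _ => hx δ')
  have hcard : Fintype.card {δ : Eis ⧸ Ideal.span {b} // δ ≠ 0} = p - 1 := by
    have h1 : Fintype.card (Eis ⧸ Ideal.span {b}) = p := by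
      rw [← Nat.card_eq_fintype_card, p5_card b p hp hn]
    rw [Fintype.card_subtype_compl (fun δ : Eis ⧸ Ideal.span {b} => δ = 0), h1,
      Fintype.card_subtype_eq]
  rw [Finset.prod_mul_distrib, Finset.prod_const, Finset.card_univ, hcard] at hprod
  have hne : ∏ δ' : {δ : Eis ⧸ Ideal.span {b} // δ ≠ 0},
      A.valuation (xw (emb δ'.1.out / emb b)) ≠ 0 := by
    intro h0
    rw [h0, mul_zero] at hprod
    exact zero_ne_one hprod
  have h5 : (V ^ 2) ^ (p - 1) = A.valuation (emb b) ^ 2 :=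
    mul_right_cancel₀ hne (hprod.trans hC.symm)
  rw [← pow_mul, mul_comm 2, pow_mul] at h5
  exact (pow_left_inj₀ zero_le zero_le (by norm_num)).1 h5

end CF
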