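import Pool.Agent.MP_9ab903_nt.CF.Defs
import Pool.Agent.MP_9ab903_nt.CF.G2
import Pool.Agent.MP_9ab903_nt.CF.G3
import Pool.Agent.MP_9ab903_nt.CF.P5
import Pool.Agent.MP_9ab903_nt.CF.H3

set_option autoImplicit false

open NumberField IsDedekindDomain
open CM27 CMT
open scoped ComplexConjugate Classical

namespace CF

/-! ## [CF-G4] decomposition of the primes in `LS S`, in terms of `AS S` (file G4.lean; uses G1-G3, P5,
H3) -/

/-- the elements of `AS S` which are trivial outside of `b` -/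
def Ib (S : Finset Eis) (b : Eis) : Subgroup (AS S) where
  carrier := {a | ∀ b' : {x // x ∈ S}, (b' : Eis) ≠ b → a b' = 1}
  one_mem' := fun _ _ => rfl
  mul_mem' := by
    intro x y hx hy b' hb'
    rw [Pi.mul_apply, hx b' hb', hy b' hb', mul_one]
  inv_mem' := by
    intro x hx b' hb'
    rw [Pi.inv_apply, hx b' hb', inv_one]

theorem g4_mem_Ib {S : Finset Eis} {b : Eis} {a : AS S} :
    a ∈ Ib S b ↔ ∀ b' : {x // x ∈ S}, (b' : Eis) ≠ b → a b' = 1 := Iff.rfl

theorem g4_int (A : ValuationSubring ℂ) (a : Eis) : A.valuation (emb a) ≤ 1 := by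
  rw [ValuationSubring.valuation_le_one_iff]
  have hw : w ∈ A := by
    rcases A.mem_or_inv_mem w with h | h
    · exact h
    · have hw0 : w ≠ 0 := by
        intro h0
        have h1 := w_sq
        rw [h0] at h1
        norm_num at h1
      have h2 : w = -1 - w⁻¹ := by
        field_simp
        linear_combination w_sq
      rw [h2]
      exact sub_mem (neg_mem (one_mem A)) h
  rw [emb_apply]
  exact A.add_mem _ _ (intCast_mem A _) (A.mul_mem _ _ (intCast_mem A _) hw)

theorem g4_mul_lt (A : ValuationSubring ℂ) {x y : ℂ} (hx : A.valuation x < 1)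
    (hy : A.valuation y ≤ 1) : A.valuation (x * y) < 1 := by
  rw [map_mul]
  calc A.valuation x * A.valuation y ≤ A.valuation x * 1 := mul_le_mul' le_rfl hy
    _ = A.valuation x := mul_one _
    _ < 1 := hx

theorem g4_three (A : ValuationSubring ℂ) (b : Eis) (hb : Primary b)
    (hA : A.valuation (emb b) < 1) : A.valuation 3 = 1 := by
  have h1 := a3_primary_norm hb
  refine le_antisymm ?_ (not_lt.1 fun h3 => ?_)
  · have h := g4_int A 3
    rwa [map_ofNat] at h
  · obtain ⟨k, hk⟩ : ∃ k : ℤ, b.norm = 3 * k + 1 := ⟨b.norm / 3, by omega⟩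
    have e : emb b * emb (star b) + 3 * emb (-(k : Eis)) = 1 := by
      rw [← map_mul, a3_mul_star, hk, map_neg, map_intCast, map_intCast]
      push_cast
      ring
    have h5 : A.valuation (emb b * emb (star b) + 3 * emb (-(k : Eis))) < 1 :=
      Valuation.map_add_lt _ (g4_mul_lt A hA (g4_int A _)) (g4_mul_lt A h3 (g4_int A _))
    rw [e, map_one] at h5
    exact lt_irrefl _ h5

theorem g4_unit (A : ValuationSubring ℂ) (b g : Eis) (hA : A.valuation (emb b) < 1)
    (hc : IsCoprime b g) : A.valuation (emb g) = 1 := by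
  refine le_antisymm (g4_int A g) (not_lt.1 fun h3 => ?_)
  obtain ⟨x, y, hxy⟩ := hc
  have e : emb b * emb x + emb g * emb y = 1 := by
    rw [← map_mul, ← map_mul, ← map_add, mul_comm b, mul_comm g, hxy, map_one]
  have h5 : A.valuation (emb b * emb x + emb g * emb y) < 1 :=
    Valuation.map_add_lt _ (g4_mul_lt A hA (g4_int A _)) (g4_mul_lt A h3 (g4_int A _))
  rw [e, map_one] at h5
  exact lt_irrefl _ h5

theorem g4_coprime (b b' : Eis) (hb : Primary b) (hbp : Prime b) (hb' : Primary b')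
    (hbp' : Prime b') (hne : b' ≠ b) : IsCoprime b b' := by
  have := eis_isDomain
  have := eis_pid
  rw [hbp.irreducible.coprime_iff_not_dvd]
  intro h
  obtain ⟨c, hc⟩ := h
  have hu : IsUnit c := (hbp'.irreducible.isUnit_or_isUnit hc).resolve_left hbp.not_isUnit
  have h1 : c = 1 := primary_unique b c hb hu (by rw [mul_comm, ← hc]; exact hb')
  rw [h1, mul_one] at hc
  exact hne hc

theorem g4_dvd (g : Eis) (hg : g ≠ 0) (a c : Eis) (h : pt (emb a / emb g) = pt (emb c / emb g)) :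
    g ∣ a - c := by
  have hg0 : emb g ≠ 0 := fun h0 => hg (emb_injective (by rw [h0, map_zero]))
  rw [pt_eq_iff] at h
  obtain ⟨d, hd⟩ := h
  refine ⟨d, emb_injective ?_⟩
  rw [map_sub, map_mul, hd]
  field_simp

theorem g4_yy_mem (L : IntermediateField ℚ ℂ) (z : ℂ) (h : yw z ∈ L) : yy z ∈ L := by
  unfold yy
  exact L.div_mem (L.sub_mem h L.one_mem) (ofNat_mem L 2)

theorem g4_coords (S : Finset Eis) (b : Eis) (hb : b ∈ S) (δ : Eis) (hδ : ¬ b ∣ δ) :
    xw (emb δ / emb b) ∈ LS S ∧ yw (emb δ / emb b) ∈ LS S := by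
  constructor
  · exact IntermediateField.subset_adjoin _ _ (Or.inr ⟨b, hb, δ, hδ, Or.inl rfl⟩)
  · exact IntermediateField.subset_adjoin _ _ (Or.inr ⟨b, hb, δ, hδ, Or.inr rfl⟩)

/-- the value of `th` from the action on points -/
theorem g4_th (S : Finset Eis) (hS : ∀ b ∈ S, GoodEis b) (σ : AutK) (b : {x // x ∈ S}) (u : Eis)
    (h : ptMap ((σ : ℂ ≃+* ℂ) : ℂ →+* ℂ) (pt (emb 1 / emb (b : Eis))) =
      pt (emb (1 * u) / emb (b : Eis))) :
    (th S σ b : Eis ⧸ Ideal.span {(b : Eis)}) = Ideal.Quotient.mk _ u := by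
  obtain ⟨v, hv⟩ := Ideal.Quotient.mk_surjective (th S σ b : Eis ⧸ Ideal.span {(b : Eis)})
  have h1 := th_spec S hS σ b v hv.symm 1
  rw [h] at h1
  have h2 := g4_dvd b (hS b b.2).prime.ne_zero _ _ h1
  rw [one_mul, one_mul] at h2
  rw [← hv, eq_comm, Ideal.Quotient.eq, Ideal.mem_span_singleton]
  exact h2

theorem g4_finite (S : Finset Eis) (hS : ∀ b ∈ S, GoodEis b) (b : {x // x ∈ S}) :
    Finite (Eis ⧸ Ideal.span {(b : Eis)}) :=
  I3.quot_finite _ (hS b b.2).prime.ne_zero

theorem g4_AS_finite (S : Finset Eis) (hS : ∀ b ∈ S, GoodEis b) : Finite (AS S) := by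
  have := g4_finite S hS
  infer_instance

/-- the number of units modulo `b` -/
theorem g4_card (b : Eis) (p : ℕ) (hp : p.Prime) (hn : b.norm = p) :
    Nat.card (Eis ⧸ Ideal.span {b})ˣ ≤ p - 1 := by
  have hpr := a3_prime_of_norm p hp b hn
  have hfin : Finite (Eis ⧸ Ideal.span {b}) := I3.quot_finite b hpr.ne_zero
  have hbp : b ∣ ((p : ℤ) : Eis) := ⟨star b, by rw [a3_mul_star, hn]⟩
  have hnt : Nontrivial (Eis ⧸ Ideal.span {b}) := by
    rw [Ideal.Quotient.nontrivial_iff]
    intro h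
    exact hpr.not_isUnit (Ideal.span_singleton_eq_top.1 h)
  -- every class contains an integer
  have hint : ∀ a : Eis, ∃ m : ℤ, b ∣ a - (m : Eis) := by
    intro a
    -- `b.im` is invertible modulo `p`
    have hnm : b.re ^ 2 - b.re * b.im + b.im ^ 2 = p := by rw [← norm_eq, hn]
    have hcop : IsCoprime b.im (p : ℤ) := by
      rw [isCoprime_comm, (Nat.prime_iff_prime_int.1 hp).irreducible.coprime_iff_not_dvd]
      intro h
      have h2 : (p : ℤ) ∣ b.re ^ 2 := by
        have e : b.re ^ 2 = p + b.im * (b.re - b.im) := by linear_combination hnm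
        rw [e]
        exact dvd_add dvd_rfl (h.mul_right _)
      have h3 := (Nat.prime_iff_prime_int.1 hp).dvd_of_dvd_pow h2
      obtain ⟨x, hx⟩ := h
      obtain ⟨y, hy⟩ := h3
      rw [hx, hy] at hnm
      have h4 : (p : ℤ) * (p * (y ^ 2 - y * x + x ^ 2)) = p * 1 := by linear_combination hnm
      have hp0 : (p : ℤ) ≠ 0 := by exact_mod_cast hp.ne_zero
      have h5 := mul_left_cancel₀ hp0 h4
      have h6 := Int.isUnit_iff.1 (IsUnit.of_mul_eq_one _ h5)
      have := hp.two_le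
      omega
    obtain ⟨s, t, hst⟩ := hcop
    -- `s b = s b.re + (1 - t p) ω`
    have hw1 : ∃ k : ℤ, b ∣ (⟨0, 1⟩ : Eis) - (k : Eis) := by
      refine ⟨-(s * b.re), ?_⟩
      have e : (⟨0, 1⟩ : Eis) - ((-(s * b.re) : ℤ) : Eis) =
          b * (s : Eis) + ((p : ℤ) : Eis) * (⟨0, t⟩ : Eis) := by
        ext
        · simp
          ring
        · simp
          linear_combination -hst
      rw [e]
      exact dvd_add (dvd_mul_right _ _) (hbp.mul_right _)
    obtain ⟨k, hk⟩ := hw1
    refine ⟨a.re + a.im * k, ?_⟩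
    have e : a - ((a.re + a.im * k : ℤ) : Eis) = (a.im : Eis) * ((⟨0, 1⟩ : Eis) - (k : Eis)) := by
      ext
      · simp
      · simp
    rw [e]
    exact hk.mul_left _
  have hle : Nat.card (Eis ⧸ Ideal.span {b}) ≤ p := by
    have hsurj : Function.Surjective
        (fun i : Fin p => Ideal.Quotient.mk (Ideal.span {b}) (((i : ℕ) : ℤ) : Eis)) := by
      intro q
      obtain ⟨a, rfl⟩ := Ideal.Quotient.mk_surjective q
      obtain ⟨m, hm⟩ := hint a
      have hp0 : (0 : ℤ) < p := by exact_mod_cast hp.pos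
      refine ⟨⟨(m % p).toNat, ?_⟩, ?_⟩
      · have h1 := Int.emod_lt_of_pos m hp0
        have h2 := Int.emod_nonneg m hp0.ne'
        omega
      · have h2 := Int.emod_nonneg m hp0.ne'
        simp only [Int.toNat_of_nonneg h2]
        rw [eq_comm, Ideal.Quotient.eq, Ideal.mem_span_singleton]
        have e : a - ((m % p : ℤ) : Eis) = (a - (m : Eis)) + ((p : ℤ) : Eis) * ((m / p : ℤ) : Eis) := by
          have h3 := Int.emod_add_mul_ediv m p
          have h4 : ((m : ℤ) : Eis) = ((m % p : ℤ) : Eis) + ((p : ℤ) : Eis) * ((m / p : ℤ) : Eis) := by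
            rw [← Int.cast_mul, ← Int.cast_add, h3]
          rw [h4]
          ring
        rw [e]
        exact dvd_add hm (hbp.mul_right _)
    have h := Nat.card_le_card_of_surjective _ hsurj
    rwa [Nat.card_fin] at h
  have hlt : Nat.card (Eis ⧸ Ideal.span {b})ˣ < Nat.card (Eis ⧸ Ideal.span {b}) := by
    have := Fintype.ofFinite (Eis ⧸ Ideal.span {b})
    rw [Nat.card_eq_fintype_card, Nat.card_eq_fintype_card]
    exact card_units_lt _
  omega

theorem g4_Ib_card (S : Finset Eis) (hS : ∀ b ∈ S, GoodEis b) (b : Eis) (hb : b ∈ S) (p : ℕ)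
    (hp : p.Prime) (hn : b.norm = p) : Nat.card (Ib S b) ≤ p - 1 := by
  have hfin := g4_finite S hS ⟨b, hb⟩
  refine le_trans ?_ (g4_card b p hp hn)
  have hinj : Function.Injective
      (fun a : Ib S b => ((a : AS S) ⟨b, hb⟩ : (Eis ⧸ Ideal.span {b})ˣ)) := by
    intro a a' h
    apply Subtype.ext
    funext b'
    by_cases hb' : (b' : Eis) = b
    · have : b' = ⟨b, hb⟩ := Subtype.ext hb'
      subst this
      exact h
    · rw [a.2 b' hb', a'.2 b' hb']
  have : Finite (Eis ⧸ Ideal.span {b})ˣ := by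
    have : Finite (Eis ⧸ Ideal.span {b}) := hfin
    infer_instance
  exact Nat.card_le_card_of_injective _ hinj

theorem g4_ker (S : Finset Eis) (hS : ∀ b ∈ S, GoodEis b) : (th S).ker = fixer (LS S) := by
  ext σ
  rw [MonoidHom.mem_ker]
  exact th_eq_one_iff S hS σ

theorem g4_relIndex (S : Finset Eis) (hS : ∀ b ∈ S, GoodEis b) (J : Subgroup AutK) :
    (fixer (LS S)).relIndex J = Nat.card (J.map (th S)) := by
  have h1 : ((th S).comp J.subtype).ker = (fixer (LS S)).subgroupOf J := by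
    rw [← g4_ker S hS]
    rfl
  have h2 : ((th S).comp J.subtype).range = J.map (th S) := by
    rw [MonoidHom.range_comp, Subgroup.range_subtype]
  rw [Subgroup.relIndex, ← h1, Subgroup.index_ker, h2]

theorem g4_zz_mem (L : IntermediateField ℚ ℂ) (z : ℂ) (hx : xw z ∈ L) (hy : yw z ∈ L) :
    zz (pt z) ∈ L := by
  unfold pt
  split_ifs with h
  · exact L.div_mem hx (g4_yy_mem L z hy)
  · exact L.zero_mem

/-- the main step -/
theorem g4_main (S : Finset Eis) (hS : ∀ b ∈ S, GoodEis b) (b : Eis) (hb : Primary b)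
    (hbp : Prime b) : ∃ (φ : AutK) (J : Subgroup AutK),
      (∀ b' : {x // x ∈ S}, (b' : Eis) ≠ b →
        (th S φ b' : Eis ⧸ Ideal.span {(b' : Eis)}) = Ideal.Quotient.mk _ b) ∧
      J.map (th S) = Ib S b ∧ fixer (LS S) ≤ J ∧
      ∀ (F : IntermediateField ℚ ℂ) [NumberField F], w ∈ F → F ≤ LS S → ∃ f g : ℕ, 0 < f ∧
        (above F b).Finite ∧ (above F b).ncard = g ∧
        (∀ v ∈ above F b, Nat.card (𝓞 F ⧸ v.asIdeal) = b.norm.natAbs ^ f) ∧
        (∀ k : ℕ, φ ^ k ∈ fixer F ⊔ J ↔ f ∣ k) ∧ (fixer F ⊔ J).index = g * f := by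
  have hfd := LS_finite S hS
  have hnf : NumberField (LS S) := ⟨⟩
  obtain ⟨A, φ, J, hA, hφ, hJ, hfix, hram, hF⟩ :=
    hilbert_C (LS S) (w_mem_LS S) (fun σ x hx => LS_stable S hS σ x hx)
      (fun σ τ x hx => LS_comm S hS σ τ x hx) b hbp
  have h3 := g4_three A b hb hA
  have hun : ∀ b' : {x // x ∈ S}, (b' : Eis) ≠ b → A.valuation (emb (b' : Eis)) = 1 :=
    fun b' hb' => g4_unit A b b' hA
      (g4_coprime b b' hb hbp (hS b' b'.2).1 (hS b' b'.2).prime hb')
  refine ⟨φ, J, ?_, ?_, hfix, hF⟩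
  · intro b' hb'
    apply g4_th S hS
    have hu := hun b' hb'
    refine gal_frob A b hb hbp hA b' hu (φ : ℂ ≃+* ℂ) φ.2 ?_ 1
    intro δ hδ
    obtain ⟨hx, hy⟩ := g4_coords S b' b'.2 δ hδ
    obtain ⟨v1, v2, -⟩ := val_tors A h3 b' hu δ hδ
    exact ⟨hφ _ hx v1, hφ _ (g4_yy_mem _ _ hy) v2⟩
  · have hle : J.map (th S) ≤ Ib S b := by
      rintro _ ⟨σ, hσ, rfl⟩ b' hb'
      have hu := hun b' hb'
      apply Units.ext
      rw [Units.val_one, ← map_one (Ideal.Quotient.mk (Ideal.span {(b' : Eis)}))]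
      apply g4_th S hS
      rw [mul_one]
      refine gal_inert A h3 b' hu (σ : ℂ ≃+* ℂ) σ.2 ?_ 1
      intro δ hδ
      obtain ⟨hx, hy⟩ := g4_coords S b' b'.2 δ hδ
      obtain ⟨v1, v2, -⟩ := val_tors A h3 b' hu δ hδ
      exact ⟨hJ σ hσ _ hx v1, hJ σ hσ _ (g4_yy_mem _ _ hy) v2⟩
    by_cases hbS : b ∈ S
    · obtain ⟨-, p, hp, hn⟩ := hS b hbS
      have hnd : ¬ b ∣ 1 := fun h => hbp.not_isUnit (isUnit_of_dvd_one h)
      obtain ⟨hx, hy⟩ := g4_coords S b hbS 1 hnd
      have h1 := hram _ (p - 1) (g4_zz_mem _ _ hx hy) (val_b A b hb p hp.1 hn hA 1 hnd)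
      rw [g4_relIndex S hS] at h1
      have hfin := g4_AS_finite S hS
      have hpos : 0 < Nat.card (J.map (th S)) := Nat.card_pos
      have h2 := Nat.le_of_dvd hpos h1
      have h4 := g4_Ib_card S hS b hbS p hp.1 hn
      apply Subgroup.eq_of_le_of_card_ge hle
      omega
    · refine le_antisymm hle ?_
      intro a ha
      have : a = 1 := by
        funext b'
        exact ha b' fun h => hbS (h ▸ b'.2)
      rw [this]
      exact Subgroup.one_mem _

theorem g4_surj (S : Finset Eis) (hS : ∀ b ∈ S, GoodEis b) :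
    Function.Surjective (th S) := by
  have key : ∀ b : {x // x ∈ S}, ∀ a : AS S, (∀ b', b' ≠ b → a b' = 1) → a ∈ (th S).range := by
    intro b a ha
    obtain ⟨φ, J, -, hJ, -⟩ := g4_main S hS b (hS b b.2).1 (hS b b.2).prime
    have h1 : a ∈ Ib S (b : Eis) := by
      intro b' hb'
      exact ha b' (fun h => hb' (by rw [h]))
    rw [← hJ] at h1
    obtain ⟨σ, -, hσ⟩ := h1
    exact ⟨σ, hσ⟩
  intro a
  have h2 : ∀ T : Finset {x // x ∈ S},
      (fun b => if b ∈ T then a b else 1 : AS S) ∈ (th S).range := by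
    intro T
    induction T using Finset.induction_on with
    | empty =>
      have e : (fun b => if b ∈ (∅ : Finset {x // x ∈ S}) then a b else 1 : AS S) = 1 := by
        funext b
        simp
      rw [e]
      exact Subgroup.one_mem _
    | insert b T hb ih =>
      have e : (fun b' => if b' ∈ insert b T then a b' else 1 : AS S) =
          (fun b' => if b' = b then a b' else 1 : AS S) *
            (fun b' => if b' ∈ T then a b' else 1 : AS S) := by
        funext b'
        rw [Pi.mul_apply]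
        by_cases h : b' = b
        · subst h
          simp [hb]
        · simp [h]
      rw [e]
      refine Subgroup.mul_mem _ (key b _ fun b' hb' => ?_) ih
      simp [hb']
  have h3 := h2 Finset.univ
  have e : (fun b => if b ∈ (Finset.univ : Finset {x // x ∈ S}) then a b else 1 : AS S) = a := by
    funext b
    simp
  rw [e] at h3
  exact h3

/-- Sketch: `hilbert_C` for `L = LS S`. For `b' ∈ S`, `b' ≠ b`, `|b'| = 1` (coprime primes), so by
`gal_frob`, `gal_inert` (`g = b'`): `th φ` is `b` at `b'` and `th σ` is `1` at `b'` for `σ ∈ J`. If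
`b ∈ S` then `zz (pt (1/b)) ∈ LS S` has `|zz|^(p-1) = |b|` (`val_b`), so `p - 1` divides
`[J : fixer (LS S)] = #(th J)`, and `th J ≤ Ib S b` which has `p - 1` elements. Hence `th J = Ib S b`
for all `b ∈ S`, and `th` is surjective. The statements on `F` are transported by `th`
(`fixer (LS S) = ker th ≤ fixer F`). -/
theorem decomp (S : Finset Eis) (hS : ∀ b ∈ S, GoodEis b) (b : Eis) (hb : Primary b)
    (hbp : Prime b) : ∃ φ : AS S,
      (∀ b' : {x // x ∈ S}, (b' : Eis) ≠ b →
        (φ b' : Eis ⧸ Ideal.span {(b' : Eis)}) = Ideal.Quotient.mk _ b) ∧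
      ∀ (F : IntermediateField ℚ ℂ) [NumberField F], w ∈ F → F ≤ LS S → ∃ f g : ℕ, 0 < f ∧
        (above F b).Finite ∧ (above F b).ncard = g ∧
        (∀ v ∈ above F b, Nat.card (𝓞 F ⧸ v.asIdeal) = b.norm.natAbs ^ f) ∧
        (∀ k : ℕ, φ ^ k ∈ (fixer F).map (th S) ⊔ Ib S b ↔ f ∣ k) ∧
        ((fixer F).map (th S) ⊔ Ib S b).index = g * f := by
  obtain ⟨φ, J, h1, hJ, hfix, hF⟩ := g4_main S hS b hb hbp
  refine ⟨th S φ, h1, fun F _ hw hFL => ?_⟩
  obtain ⟨f, g, hf, h2, h3, h4, h5, h6⟩ := hF F hw hFL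
  have hker : (th S).ker ≤ fixer F ⊔ J := by
    rw [g4_ker S hS]
    exact hfix.trans le_sup_right
  refine ⟨f, g, hf, h2, h3, h4, ?_, ?_⟩
  · intro k
    rw [← hJ, ← Subgroup.map_sup, ← h5 k, ← map_pow, ← Subgroup.mem_comap,
      Subgroup.comap_map_eq_self hker]
  · rw [← hJ, ← Subgroup.map_sup, Subgroup.index_map_eq _ (g4_surj S hS) hker, h6]

theorem th_surjective (S : Finset Eis) (hS : ∀ b ∈ S, GoodEis b) :
    Function.Surjective (th S) := g4_surj S hS

end CF
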