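import Mathlib

/-!
# The field of the coordinates of the `m`-torsion points of `y² + y = x³`
-/

set_option autoImplicit false

namespace CF

open Classical in
/-- The subfield of `ℂ` generated by the cube roots of unity and the coordinates of the points
`P ∈ W(ℂ)` with `m P = 0`. -/
noncomputable def torsionField (W : WeierstrassCurve ℂ) (m : ℕ) : IntermediateField ℚ ℂ :=
  IntermediateField.adjoin ℚ {c | c ^ 2 + c + 1 = 0 ∨
    ∃ (x y : ℂ) (h : W.toAffine.Nonsingular x y),
      m • (WeierstrassCurve.Affine.Point.some x y h : W.toAffine.Point) = 0 ∧ (c = x ∨ c = y)}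

end CF
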