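import Pool.Agent.MP_9ab903_nt.CF.T1
import Pool.Agent.MP_9ab903_nt.CF.G4
import Pool.Agent.MP_ae0bd0_nt.CM.B7

set_option autoImplicit false

open NumberField IsDedekindDomain
open CM27 CMT
open scoped ComplexConjugate Classical

namespace CF

/-! ## [CF-X1] there are many fields `F`, not normal over `ℚ` (file X1.lean; uses G1, G3, G4, H3, T1) -/

/-- finite Galois theory inside a field `L` on which a group acts -/
theorem x1_galois {K Ω G : Type*} [Field K] [Field Ω] [Algebra K Ω] [Group G]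
    (L : IntermediateField K Ω) [FiniteDimensional K L] (ρ : G →* (L ≃ₐ[K] L)) (H : Subgroup G)
    (hker : ρ.ker ≤ H) :
    ∃ F : IntermediateField K Ω, F ≤ L ∧
      (∀ (x : Ω) (hx : x ∈ L), (∀ σ ∈ H, ρ σ ⟨x, hx⟩ = ⟨x, hx⟩) → x ∈ F) ∧
      (∀ (x : Ω) (hx : x ∈ L), x ∈ F → ∀ σ ∈ H, ρ σ ⟨x, hx⟩ = ⟨x, hx⟩) ∧
      (∀ σ : G, (∀ (x : Ω) (hx : x ∈ L), x ∈ F → ρ σ ⟨x, hx⟩ = ⟨x, hx⟩) → σ ∈ H) := by
  have hmap : ∀ x : Ω, x ∈ (IntermediateField.fixedField (H.map ρ)).map L.val ↔
      ∃ y ∈ IntermediateField.fixedField (H.map ρ), L.val y = x := by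
    intro x
    rfl
  refine ⟨(IntermediateField.fixedField (H.map ρ)).map L.val, ?_, ?_, ?_, ?_⟩
  · intro x hx
    obtain ⟨y, _, rfl⟩ := (hmap x).1 hx
    exact y.2
  · intro x hx h
    refine (hmap x).2 ⟨⟨x, hx⟩, ?_, rfl⟩
    rw [IntermediateField.mem_fixedField_iff]
    rintro _ ⟨σ, hσ, rfl⟩
    exact h σ hσ
  · intro x hx h σ hσ
    obtain ⟨y, hy, rfl⟩ := (hmap x).1 h
    exact (IntermediateField.mem_fixedField_iff _ _).1 hy (ρ σ) ⟨σ, hσ, rfl⟩
  · intro σ h
    have h1 : ρ σ ∈ (IntermediateField.fixedField (H.map ρ)).fixingSubgroup := by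
      rw [IntermediateField.mem_fixingSubgroup_iff]
      intro x hx
      exact h x x.2 ((hmap x).2 ⟨x, hx, rfl⟩)
    rw [IntermediateField.fixingSubgroup_fixedField] at h1
    obtain ⟨τ, hτ, hτσ⟩ := h1
    have h2 : τ⁻¹ * σ ∈ ρ.ker := by
      rw [MonoidHom.mem_ker, map_mul, map_inv, hτσ, inv_mul_cancel]
    have h5 : σ = τ * (τ⁻¹ * σ) := by group
    rw [h5]
    exact H.mul_mem hτ (hker h2)

/-- restriction of automorphisms -/
theorem x1_res {K Ω G : Type*} [Field K] [Field Ω] [Algebra K Ω] [Group G]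
    (L : IntermediateField K Ω) (f : G →* (Ω ≃+* Ω)) (hf : ∀ σ, ∀ x ∈ L, f σ x ∈ L)
    (hK : ∀ σ (r : K), f σ (algebraMap K Ω r) = algebraMap K Ω r) :
    ∃ ρ : G →* (L ≃ₐ[K] L), ∀ σ (x : L), ((ρ σ x : L) : Ω) = f σ x := by
  have hinv : ∀ σ (x : Ω), f σ⁻¹ (f σ x) = x := by
    intro σ x
    rw [← RingAut.mul_apply, ← map_mul, inv_mul_cancel, map_one, RingAut.one_apply]
  have hinv' : ∀ σ (x : Ω), f σ (f σ⁻¹ x) = x := by
    intro σ x
    rw [← RingAut.mul_apply, ← map_mul, mul_inv_cancel, map_one, RingAut.one_apply]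
  refine ⟨{
    toFun := fun σ =>
      { toFun := fun x => ⟨f σ x, hf σ x x.2⟩
        invFun := fun x => ⟨f σ⁻¹ x, hf σ⁻¹ x x.2⟩
        left_inv := fun x => Subtype.ext (hinv σ x)
        right_inv := fun x => Subtype.ext (hinv' σ x)
        map_mul' := fun x y => Subtype.ext (map_mul (f σ) (x : Ω) (y : Ω))
        map_add' := fun x y => Subtype.ext (map_add (f σ) (x : Ω) (y : Ω))
        commutes' := fun r => Subtype.ext (hK σ r) }
    map_one' := ?_
    map_mul' := ?_ }, ?_⟩
  · apply AlgEquiv.ext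
    intro x
    apply Subtype.ext
    change f 1 (x : Ω) = x
    rw [map_one, RingAut.one_apply]
  · intro σ τ
    apply AlgEquiv.ext
    intro x
    apply Subtype.ext
    change f (σ * τ) (x : Ω) = f σ (f τ x)
    rw [map_mul, RingAut.mul_apply]
  · intro σ x
    rfl

theorem x1_finite {F L : IntermediateField ℚ ℂ} (h : F ≤ L) [FiniteDimensional ℚ L] :
    FiniteDimensional ℚ F :=
  Module.Finite.of_injective (IntermediateField.inclusion h).toLinearMap
    (IntermediateField.inclusion_injective h)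

/-- Galois correspondence inside `LS S`: a subgroup of `AutK` which contains `fixer (LS S)` is the
fixer of a field `F`, `ω ∈ F ≤ LS S` (take `F = {x ∈ LS S | σ x = x for all σ ∈ H}`; finite Galois
theory of `LS S / ℚ(ω)`, `LS_stable`, `extend_aut`); with `index_fixer`: `2 [AutK : H] = [F : ℚ]`. -/
theorem exists_F (S : Finset Eis) (hS : ∀ b ∈ S, GoodEis b) (H : Subgroup AutK)
    (hH : fixer (LS S) ≤ H) : ∃ F : IntermediateField ℚ ℂ, w ∈ F ∧ F ≤ LS S ∧ fixer F = H ∧
      Module.finrank ℚ F = 2 * H.index := by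
  have hfd : FiniteDimensional ℚ (LS S) := LS_finite S hS
  obtain ⟨ρ, hρ⟩ := x1_res (LS S) AutK.subtype (fun σ x hx => LS_stable S hS σ x hx)
    (fun σ r => by
      rw [eq_ratCast]
      exact map_ratCast _ r)
  have hker : ρ.ker ≤ H := by
    intro σ hσ
    apply hH
    intro x hx
    rw [MonoidHom.mem_ker] at hσ
    have h1 := hρ σ ⟨x, hx⟩
    rw [hσ] at h1
    exact h1.symm
  obtain ⟨F, hle, h1, h2, h3⟩ := x1_galois (LS S) ρ H hker
  have hw : w ∈ F := by
    apply h1 w (w_mem_LS S)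
    intro σ _
    apply Subtype.ext
    rw [hρ]
    exact σ.2
  have hfix : fixer F = H := by
    apply le_antisymm
    · intro σ hσ
      apply h3
      intro x hx hxF
      apply Subtype.ext
      rw [hρ]
      exact hσ x hxF
    · intro σ hσ x hx
      have h4 := congrArg Subtype.val (h2 x (hle hx) hx σ hσ)
      rw [hρ] at h4
      exact h4
  have hfF : FiniteDimensional ℚ F := x1_finite hle
  have : NumberField F := ⟨⟩
  refine ⟨F, hw, hle, hfix, ?_⟩
  rw [← index_fixer F hw, hfix]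

/-! ### quadratic characters -/

theorem x1_field_char (F : Type) [Field F] [Finite F] (h2 : ringChar F ≠ 2) :
    ∃ χ : Fˣ →* ℤˣ, Function.Surjective χ := by
  have : Fintype F := Fintype.ofFinite F
  obtain ⟨a, ha⟩ := quadraticChar_exists_neg_one' h2
  refine ⟨(quadraticChar F).toUnitHom, fun u => ?_⟩
  rcases Int.units_eq_one_or u with rfl | rfl
  · exact ⟨1, map_one _⟩
  · refine ⟨a, Units.ext ?_⟩
    rw [MulChar.coe_toUnitHom]
    exact ha

theorem x1_char (b : Eis) (hb : GoodEis b) :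
    ∃ χ : (Eis ⧸ Ideal.span {b})ˣ →* ℤˣ, Function.Surjective χ := by
  obtain ⟨p, hp, hodd, hn, hpr⟩ := g3_good hb
  have hdom := eis_isDomain
  have hpid := eis_pid
  have hmax : (Ideal.span {b}).IsMaximal :=
    PrincipalIdealRing.isMaximal_of_irreducible hpr.irreducible
  have hfin : Finite (Eis ⧸ Ideal.span {b}) := I3.quot_finite b hpr.ne_zero
  let _ : Field (Eis ⧸ Ideal.span {b}) := Ideal.Quotient.field _
  have h2 : ringChar (Eis ⧸ Ideal.span {b}) ≠ 2 := by
    intro h
    have h3 : ((2 : ℕ) : Eis ⧸ Ideal.span {b}) = 0 := by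
      rw [ringChar.spec, h]
    have h4 : ((2 : ℕ) : Eis) ∈ Ideal.span {b} := by
      rw [← Ideal.Quotient.eq_zero_iff_mem]
      exact_mod_cast h3
    rw [Ideal.mem_span_singleton] at h4
    have h5 := a2_norm_dvd h4
    rw [hn, QuadraticAlgebra.norm_natCast] at h5
    have h6 : p ∣ 2 ^ 2 := by exact_mod_cast h5
    have h7 := (Nat.prime_dvd_prime_iff_eq hp Nat.prime_two).1 (hp.dvd_of_dvd_pow h6)
    rw [h7] at hodd
    exact absurd hodd (by decide)
  exact x1_field_char _ h2

/-- the quadratic character modulo `b` -/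
noncomputable def x1_chi (b : Eis) : (Eis ⧸ Ideal.span {b})ˣ →* ℤˣ :=
  if h : ∃ χ : (Eis ⧸ Ideal.span {b})ˣ →* ℤˣ, Function.Surjective χ then h.choose else 1

theorem x1_chi_surj (b : Eis) (hb : GoodEis b) : Function.Surjective (x1_chi b) := by
  have h := x1_char b hb
  rw [x1_chi, dif_pos h]
  exact h.choose_spec

/-- all the quadratic characters -/
noncomputable def x1_phi (S : Finset Eis) : AutK →* ({x // x ∈ S} → ℤˣ) where
  toFun σ b := x1_chi b (th S σ b)
  map_one' := by
    funext b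
    simp
  map_mul' σ τ := by
    funext b
    simp

/-- the subgroup `H` -/
noncomputable def x1_H (S : Finset Eis) : Subgroup AutK := (x1_phi S).ker

theorem x1_fixer_le (S : Finset Eis) (hS : ∀ b ∈ S, GoodEis b) : fixer (LS S) ≤ x1_H S := by
  intro σ hσ
  rw [x1_H, MonoidHom.mem_ker]
  have h := (th_eq_one_iff S hS σ).2 hσ
  funext b
  change x1_chi b (th S σ b) = 1
  rw [h, Pi.one_apply, map_one]

theorem x1_phi_surj (S : Finset Eis) (hS : ∀ b ∈ S, GoodEis b) :
    Function.Surjective (x1_phi S) := by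
  intro u
  have h : ∀ b : {x // x ∈ S}, ∃ a : (Eis ⧸ Ideal.span {(b : Eis)})ˣ, x1_chi b a = u b :=
    fun b => x1_chi_surj b (hS b b.2) (u b)
  choose a ha using h
  obtain ⟨σ, hσ⟩ := th_surjective S hS a
  refine ⟨σ, ?_⟩
  funext b
  change x1_chi b (th S σ b) = u b
  rw [hσ, ha]

theorem x1_index (S : Finset Eis) (hS : ∀ b ∈ S, GoodEis b) : (x1_H S).index = 2 ^ S.card := by
  rw [x1_H, Subgroup.index_ker, MonoidHom.range_eq_top.2 (x1_phi_surj S hS), Subgroup.card_top,
    Nat.card_eq_fintype_card, Fintype.card_fun, Fintype.card_coe]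
  rfl

/-- the value of `th` does not depend on `S` -/
theorem x1_compat (S T : Finset Eis) (hS : ∀ b ∈ S, GoodEis b) (hT : ∀ b ∈ T, GoodEis b)
    (σ : AutK) (b : Eis) (h : b ∈ S) (h' : b ∈ T) : th S σ ⟨b, h⟩ = th T σ ⟨b, h'⟩ := by
  apply Units.ext
  obtain ⟨u, hu⟩ := Ideal.Quotient.mk_surjective
    (th T σ ⟨b, h'⟩ : Eis ⧸ Ideal.span {b})
  have h1 := th_spec T hT σ ⟨b, h'⟩ u hu.symm 1
  have h2 := g4_th S hS σ ⟨b, h⟩ u h1
  rw [← hu]
  exact h2

/-- the separation lemma -/
theorem x1_sep (S T : Finset Eis) (hS : ∀ b ∈ S, GoodEis b) (hT : ∀ b ∈ T, GoodEis b)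
    (b : Eis) (hb : b ∈ S) (hbT : b ∉ T) (F : IntermediateField ℚ ℂ) (hF : F ≤ LS T)
    (hfix : fixer F = x1_H S) : False := by
  have hU : ∀ b ∈ S ∪ T, GoodEis b := by
    intro c hc
    rcases Finset.mem_union.1 hc with h | h
    · exact hS c h
    · exact hT c h
  have hbU : b ∈ S ∪ T := Finset.mem_union_left _ hb
  obtain ⟨v, hv⟩ := x1_chi_surj b (hS b hb) (-1)
  obtain ⟨σ, hσ⟩ := th_surjective (S ∪ T) hU (Pi.mulSingle ⟨b, hbU⟩ v)
  have h1 : th T σ = 1 := by
    funext c
    have hc : (c : Eis) ∈ S ∪ T := Finset.mem_union_right _ c.2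
    have h2 := x1_compat T (S ∪ T) hT hU σ c c.2 hc
    have h3 : th (S ∪ T) σ ⟨c, hc⟩ = 1 := by
      rw [hσ]
      apply Pi.mulSingle_eq_of_ne
      intro h
      apply hbT
      have : (c : Eis) = b := congrArg Subtype.val h
      rw [← this]
      exact c.2
    rw [h3] at h2
    exact h2
  have h2 : σ ∈ fixer F := by
    have h3 := (th_eq_one_iff T hT σ).1 h1
    intro x hx
    exact h3 x (hF hx)
  rw [hfix, x1_H, MonoidHom.mem_ker] at h2
  have h3 : x1_chi b (th S σ ⟨b, hb⟩) = 1 := congrFun h2 ⟨b, hb⟩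
  rw [x1_compat S (S ∪ T) hS hU σ b hb hbU, hσ, Pi.mulSingle_eq_same, hv] at h3
  exact absurd h3 (by decide)

/-! ### complex conjugation -/

theorem x1_conj_quot (δ b : Eis) : conj (emb δ / emb b) = emb (star δ) / emb (star b) := by
  rw [map_div₀, CM27.emb_star, CM27.emb_star]

theorem x1_conj_LS (S : Finset Eis) (x : ℂ) (hx : x ∈ LS S) :
    conj x ∈ LS (S.image star) := by
  apply g3_ind S (fun x => conj x ∈ LS (S.image star)) _ _ _ _ _ _ x hx
  · have h : conj w = -1 - w := by
      apply Complex.ext <;> simp [w]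
      norm_num
    rw [h]
    exact sub_mem (neg_mem (one_mem _)) (w_mem_LS _)
  · intro b hb δ hδ
    have hb' : star b ∈ S.image star := Finset.mem_image_of_mem _ hb
    have hδ' : ¬ star b ∣ star δ := by
      rintro ⟨c, hc⟩
      apply hδ
      refine ⟨star c, ?_⟩
      rw [← star_star δ, hc, star_mul, star_star, mul_comm]
    constructor
    · rw [← xw_conj, x1_conj_quot]
      exact g3_x_mem _ hb' hδ'
    · have h1 := yw_conj (emb δ / emb b)
      have h2 : conj (yw (emb δ / emb b)) = - yw (conj (emb δ / emb b)) := by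
        rw [h1, neg_neg]
      rw [h2, x1_conj_quot]
      exact neg_mem (g3_y_mem _ hb' hδ')
  · intro q
    have : conj (algebraMap ℚ ℂ q) = algebraMap ℚ ℂ q := by
      rw [eq_ratCast, map_ratCast]
    rw [this]
    exact (LS (S.image star)).algebraMap_mem q
  · intro x y hx hy
    rw [map_add]
    exact add_mem hx hy
  · intro x hx
    rw [map_inv₀]
    exact inv_mem hx
  · intro x y hx hy
    rw [map_mul]
    exact mul_mem hx hy

/-- complex conjugation over `ℚ` -/
noncomputable def x1_conj : ℂ →ₐ[ℚ] ℂ where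
  toRingHom := starRingEnd ℂ
  commutes' := by
    intro q
    change conj (algebraMap ℚ ℂ q) = _
    rw [eq_ratCast, map_ratCast]

theorem x1_range {F : IntermediateField ℚ ℂ} (hN : Normal ℚ F) (σ : ℂ →ₐ[ℚ] ℂ) :
    ∀ x ∈ F, σ x ∈ F := by
  have hN' : @Normal ℚ F _ _ F.algebra' := by
    convert hN
    exact Subsingleton.elim _ _
  intro x hx
  have h1 : (σ.comp F.val).fieldRange = F := @AlgHom.fieldRange_of_normal ℚ ℂ _ _ _ F hN' _
  rw [← h1]
  exact ⟨⟨x, hx⟩, rfl⟩

theorem x1_not_normal (S : Finset Eis) (hS : ∀ b ∈ S, GoodEis b) (b : Eis) (hb : b ∈ S)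
    (hbs : b ∉ S.image star) (F : IntermediateField ℚ ℂ) (hF : F ≤ LS S)
    (hfix : fixer F = x1_H S) : ¬ Normal ℚ F := by
  intro hN
  have hT : ∀ c ∈ S.image star, GoodEis c := by
    intro c hc
    obtain ⟨d, hd, rfl⟩ := Finset.mem_image.1 hc
    obtain ⟨h1, p, hp, hn⟩ := hS d hd
    exact ⟨h1.star, p, hp, by rw [QuadraticAlgebra.norm_star, hn]⟩
  apply x1_sep S (S.image star) hS hT b hb hbs F _ hfix
  intro x hx
  have h2 : conj x ∈ F := x1_range hN x1_conj x hx
  have h3 := x1_conj_LS S (conj x) (hF h2)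
  rwa [Complex.conj_conj] at h3

/-! ### torsion fields -/

theorem x1_le_torsion (S : Finset Eis) (hS : ∀ b ∈ S, GoodEis b) (m : ℕ)
    (hm : ∀ b ∈ S, b.norm ∣ (m : ℤ)) : LS S ≤ torsionField (E ℂ) m := by
  unfold LS
  rw [IntermediateField.adjoin_le_iff]
  rintro c (hc | ⟨b, hb, δ, hδ, hc⟩)
  · rw [Set.mem_singleton_iff] at hc
    apply IntermediateField.subset_adjoin
    left
    rw [hc]
    linear_combination w_sq
  · have hnm := g3_not_mem (hS b hb) hδ
    obtain ⟨h, hpt⟩ := pt_of_not_mem _ hnm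
    obtain ⟨p, hp, hodd, hn, hpr⟩ := g3_good (hS b hb)
    have hk : m • (WeierstrassCurve.Affine.Point.some _ _ h : (E ℂ).toAffine.Point) = 0 := by
      rw [← hpt]
      have h1 := a7_pt_zsmul m (emb δ / emb b)
      rw [natCast_zsmul] at h1
      rw [← h1, pt_eq_zero_iff]
      have h2 := hm b hb
      rw [hn] at h2
      obtain ⟨k, hk⟩ := h2
      obtain ⟨a, ha⟩ := g3_mul_mem (hS b hb) hn δ
      refine ⟨(k : Eis) * a, ?_⟩
      rw [map_mul, ha, map_intCast, hk]
      push_cast
      ring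
    have hx : xw (emb δ / emb b) ∈ torsionField (E ℂ) m :=
      IntermediateField.subset_adjoin _ _ (Or.inr ⟨_, _, h, hk, Or.inl rfl⟩)
    have hy : (yw (emb δ / emb b) - 1) / 2 ∈ torsionField (E ℂ) m :=
      IntermediateField.subset_adjoin _ _ (Or.inr ⟨_, _, h, hk, Or.inr rfl⟩)
    rcases hc with rfl | rfl
    · exact hx
    · have h2 : yw (emb δ / emb b) = 2 * ((yw (emb δ / emb b) - 1) / 2) + 1 := by ring
      rw [h2]
      exact add_mem (mul_mem (ofNat_mem _ 2) hy) (one_mem _)

/-- Sketch. `CM27.infinite_good` (infinitely many good primes `p`); for each a primary `b` of norm `p`.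
Take `n` of them, `S = {b_1, …, b_n}` and `H = {σ | th S σ is a square at all b ∈ S}`; `th_surjective`
and `(ℤ[ω]/b)ˣ` cyclic of even order `p - 1` give the index `2 ^ n`. Let `F` be the field of
`exists_F`; `F ≤ LS S ≤ torsionField m`, `m = ∏ p_i` (the points of order `b_i` are points of order
`m`). Not normal: otherwise `F` is stable under complex conjugation, which maps `LS S` to
`LS (star S)` (`xw_conj`, `yw_conj`); by `th_surjective` for `S ∪ star S` (disjoint: `b ≠ star b`) there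
is `σ ∈ AutK` with `th σ` trivial at `star S` and a nonsquare at `b_1`: `σ` fixes `LS (star S)`, which
contains `F`, but `σ ∉ H`. Infinitely many: for disjoint sets `S`, `S'` the fields `F`, `F'` are
different by the same argument. -/
theorem infinite_fields (n : ℕ) (hn : 0 < n) :
    {F : IntermediateField ℚ ℂ | w ∈ F ∧ Module.finrank ℚ F = 2 ^ (n + 1) ∧ ¬ Normal ℚ F ∧
      ∃ m : ℕ, GoodLevel m ∧ F ≤ torsionField (E ℂ) m}.Infinite := by
  -- good primes and primary elements
  let P := infinite_good.natEmbedding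
  have hP : ∀ i, GoodPrime (P i : ℕ) := fun i => (P i).2
  have hPinj : ∀ i j, ((P i : ℕ) = P j) → i = j := fun i j h => P.injective (Subtype.ext h)
  have hg : ∀ i, ∃ a : Eis, Primary a ∧ a.norm = (P i : ℕ) := fun i =>
    exists_primary_prime _ (hP i).1 (hP i).2.1
  choose g hg1 hg2 using hg
  have hgood : ∀ i, GoodEis (g i) := fun i => ⟨hg1 i, P i, hP i, hg2 i⟩
  have hnorm : ∀ i j, (g i).norm = (g j).norm → i = j := by
    intro i j h
    rw [hg2, hg2] at h
    exact hPinj i j (by exact_mod_cast h)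
  have hginj : Function.Injective g := fun i j h => hnorm i j (by rw [h])
  set S : ℕ → Finset Eis := fun k => (Finset.range n).image (fun i => g (k + i)) with hSdef
  have hmem : ∀ k b, b ∈ S k ↔ ∃ i < n, g (k + i) = b := by
    intro k b
    simp [hSdef]
  have hS : ∀ k, ∀ b ∈ S k, GoodEis b := by
    intro k b hb
    obtain ⟨i, _, rfl⟩ := (hmem k b).1 hb
    exact hgood _
  have hcard : ∀ k, (S k).card = n := by
    intro k
    rw [hSdef]
    simp only
    rw [Finset.card_image_of_injective, Finset.card_range]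
    intro i j h
    have := hginj h
    omega
  have hF := fun k => exists_F (S k) (hS k) (x1_H (S k)) (x1_fixer_le (S k) (hS k))
  choose F hwF hFle hFfix hFrank using hF
  have hk : ∀ k, g k ∈ S k := fun k => (hmem k _).2 ⟨0, hn, by rw [add_zero]⟩
  apply Set.infinite_of_injective_forall_mem (f := F)
  · -- injectivity
    have key : ∀ k l, k < l → F k ≠ F l := by
      intro k l hkl h
      apply x1_sep (S k) (S l) (hS k) (hS l) (g k) (hk k) _ (F k) _ (hFfix k)
      · intro h1
        obtain ⟨i, _, hi⟩ := (hmem l _).1 h1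
        have := hginj hi
        omega
      · rw [h]
        exact hFle l
    intro k l h
    rcases lt_trichotomy k l with h1 | h1 | h1
    · exact (key k l h1 h).elim
    · exact h1
    · exact (key l k h1 h.symm).elim
  · intro k
    refine ⟨hwF k, ?_, ?_, ?_⟩
    · rw [hFrank, x1_index _ (hS k), hcard, pow_succ, mul_comm]
    · apply x1_not_normal (S k) (hS k) (g k) (hk k) _ (F k) (hFle k) (hFfix k)
      intro h
      obtain ⟨c, hc, hcs⟩ := Finset.mem_image.1 h
      obtain ⟨i, _, rfl⟩ := (hmem k c).1 hc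
      have h1 : k + i = k := hnorm _ _ (by rw [← hcs, QuadraticAlgebra.norm_star])
      rw [h1] at hcs
      exact not_dvd_star _ (hP k).1 (hP k).2.1 (g k) (hg2 k) (by rw [hcs])
    · refine ⟨∏ i ∈ Finset.range n, (P (k + i) : ℕ), ⟨?_, ?_⟩, ?_⟩
      · apply Finset.squarefree_prod_of_pairwise_isCoprime
        · intro i _ j _ hij
          rw [Function.onFun, ← Nat.coprime_iff_isRelPrime,
            Nat.coprime_primes (hP _).1 (hP _).1]
          intro h
          have := hPinj _ _ h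
          omega
        · intro i _
          exact (hP _).1.squarefree
      · intro q hq hd
        rw [Prime.dvd_finsetProd_iff hq.prime] at hd
        obtain ⟨i, _, hi⟩ := hd
        rw [(Nat.prime_dvd_prime_iff_eq hq (hP _).1).1 hi]
        exact hP _
      · refine (hFle k).trans (x1_le_torsion (S k) (hS k) _ ?_)
        intro b hb
        obtain ⟨i, hi, rfl⟩ := (hmem k b).1 hb
        rw [hg2]
        exact_mod_cast Finset.dvd_prod_of_mem (fun i => (P (k + i) : ℕ)) (Finset.mem_range.2 hi)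

end CF
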